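import Pool.Agent.Lib.MP_5c1789_lcR.Base

/-!
# JOB BA: sets with at most `ℵ₁` elements

All short: cardinal arithmetic in `Cardinal.{1}` with `ℵ₁ = aleph 1` (`aleph0_le_aleph`,
`Cardinal.mk_union_le`, `Cardinal.mk_image_le`, `Cardinal.mk_biUnion_le` or
`Cardinal.mk_iUnion_le`, `Cardinal.mul_eq_self`, `Cardinal.mk_prod`, `Cardinal.mk_setProd`).
`enum`: `#S ≤ ℵ₁ = #(Iio w1)` (`Cardinal.mk_Iio_ordinal : #(Iio o) = lift.{1} o.card`,
`w1 = (aleph 1).ord`, `Cardinal.card_ord`, `Cardinal.lift_aleph`), so there is an injection of `S`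
into `Iio w1`; invert it and use a fixed element of `S` outside the range.
`sm_range`: the set is the image of `Iio w1`.
-/

open Set Cardinal

namespace Pool.Agent.Lib.MP_5c1789_lcR

variable {α β : Type 1} {S S' : Set α}

private theorem ba_aleph : aleph0 ≤ aleph 1 := aleph0_le_aleph 1

theorem sm_countable (h : S.Countable) : Sm S := h.le_aleph0.trans ba_aleph

theorem sm_empty : Sm (∅ : Set α) := sm_countable countable_empty

theorem sm_singleton (a : α) : Sm ({a} : Set α) := sm_countable (countable_singleton a)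

theorem Sm.union (h : Sm S) (h' : Sm S') : Sm (S ∪ S') :=
  (mk_union_le S S').trans ((add_le_add h h').trans (add_eq_self ba_aleph).le)

theorem Sm.image (h : Sm S) (f : α → β) : Sm (f '' S) := mk_image_le.trans h

theorem sm_of_injOn {T : Set β} (f : α → β) (hf : MapsTo f S T) (hi : InjOn f S) (hT : Sm T) :
    Sm S := by
  have h1 : #S = #(f '' S) := (mk_image_eq_of_injOn f S hi).symm
  unfold Sm
  rw [h1]
  exact hT.mono hf.image_subset

theorem Sm.biUnion (h : Sm S) {f : α → Set β} (hf : ∀ a ∈ S, Sm (f a)) :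
    Sm (⋃ a ∈ S, f a) := by
  unfold Sm
  refine (mk_biUnion_le f S).trans ?_
  have h1 : ⨆ x : S, #(f x.1) ≤ aleph 1 := ciSup_le' fun x => hf x.1 x.2
  exact (mul_le_mul' h h1).trans (mul_eq_self ba_aleph).le

/-- sets of pairs -/
theorem Sm.prod {T : Set β} (h : Sm S) (h' : Sm T) : Sm (S ×ˢ T) := by
  unfold Sm
  rw [mk_setProd]
  exact (mul_le_mul' h h').trans (mul_eq_self ba_aleph).le

private theorem ba_Iio : #(Iio w1) = aleph 1 := by
  rw [mk_Iio_ordinal]
  unfold w1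
  rw [card_ord, lift_aleph]
  simp

/-- enumeration in order type at most `ω₁` -/
theorem Sm.enum (h : Sm S) (hne : S.Nonempty) :
    ∃ e : Ordinal.{0} → α, (∀ i < w1, e i ∈ S) ∧ ∀ a ∈ S, ∃ i < w1, e i = a := by
  classical
  obtain ⟨a₀, ha₀⟩ := hne
  have h1 : #S ≤ #(Iio w1) := by
    rw [ba_Iio]
    exact h
  obtain ⟨g⟩ := h1
  refine ⟨fun i => if hi : ∃ a : S, (g a).1 = i then hi.choose.1 else a₀, fun i _ => ?_,
    fun a ha => ⟨(g ⟨a, ha⟩).1, (g ⟨a, ha⟩).2, ?_⟩⟩
  · by_cases hi : ∃ a : S, (g a).1 = i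
    · simp only [dif_pos hi]
      exact hi.choose.2
    · simp only [dif_neg hi]
      exact ha₀
  · have hi : ∃ a' : S, (g a').1 = (g ⟨a, ha⟩).1 := ⟨⟨a, ha⟩, rfl⟩
    simp only [dif_pos hi]
    have h2 : hi.choose = ⟨a, ha⟩ := g.injective (Subtype.ext hi.choose_spec)
    rw [h2]

theorem sm_range (e : Ordinal.{0} → α) : Sm {a | ∃ i < w1, e i = a} := by
  have h1 : {a | ∃ i < w1, e i = a} = e '' Iio w1 := rfl
  rw [h1]
  exact Sm.image (S := Iio w1) ba_Iio.le e

end Pool.Agent.Lib.MP_5c1789_lcR
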