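import Pool.Agent.Lib.MP_5c1789_lcR.BA

/-!
# JOB BB: ordinals below `ω₂`
-/

open Set Cardinal

namespace Pool.Agent.Lib.MP_5c1789_lcR

private theorem bb_iff {x : Ordinal.{0}} : x < kp ↔ Sm (Iio x) := by
  unfold kp Sm
  rw [Cardinal.lt_ord, Cardinal.mk_Iio_ordinal]
  have h2 : (aleph 2 : Cardinal.{0}) = Order.succ (aleph 1) := by
    rw [Cardinal.succ_aleph, one_add_one_eq_two]
  have h1 : (aleph 1 : Cardinal.{1}) = Cardinal.lift.{1, 0} (aleph 1) := by
    rw [Cardinal.lift_aleph, Ordinal.lift_one]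
  rw [h2, Order.lt_succ_iff, h1, Cardinal.lift_le]

theorem sm_Iio {x : Ordinal.{0}} (h : x < kp) : Sm (Iio x) := bb_iff.1 h

theorem lt_kp_of_sm {x : Ordinal.{0}} (h : Sm (Iio x)) : x < kp := bb_iff.2 h

theorem w1_lt_kp : w1 < kp :=
  Cardinal.ord_lt_ord.2 (Cardinal.aleph_lt_aleph.2 one_lt_two)

theorem w1_li : Li w1 := by
  have h : Order.IsSuccLimit w1 := Cardinal.isSuccLimit_ord (Cardinal.aleph0_le_aleph 1)
  exact ⟨h.bot_lt.ne', fun x hx => h.succ_lt hx⟩

theorem kp_li : Li kp := by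
  have h : Order.IsSuccLimit kp := Cardinal.isSuccLimit_ord (Cardinal.aleph0_le_aleph 2)
  exact ⟨h.bot_lt.ne', fun x hx => h.succ_lt hx⟩

theorem w1_countable {x : Ordinal.{0}} (hx : x < w1) : (Iio x).Countable := by
  unfold w1 at hx
  rw [Cardinal.lt_ord, ← Cardinal.succ_aleph0, Order.lt_succ_iff] at hx
  rw [← Cardinal.le_aleph0_iff_set_countable, Cardinal.mk_Iio_ordinal, ← Cardinal.lift_aleph0.{1, 0},
    Cardinal.lift_le]
  exact hx

theorem w1_uncountable : ¬ (Iio w1).Countable := by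
  intro h
  rw [← Cardinal.le_aleph0_iff_set_countable, Cardinal.mk_Iio_ordinal, ← Cardinal.lift_aleph0.{1, 0},
    Cardinal.lift_le] at h
  unfold w1 at h
  rw [Cardinal.card_ord] at h
  exact absurd h (not_le.2 Cardinal.aleph0_lt_aleph_one)

theorem not_cw_w1 : ¬ Cw w1 := by
  rintro ⟨e, he, hcov⟩
  apply w1_uncountable
  refine (Set.countable_iUnion fun n => w1_countable (he n)).mono ?_
  intro x hx
  obtain ⟨n, hn⟩ := hcov x hx
  exact mem_iUnion.2 ⟨n, hn⟩

theorem kp_add {x : Ordinal.{0}} (h : x < kp) : x + Ordinal.omega0 + 1 < kp := by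
  have hp := Ordinal.isPrincipal_add_ord (Cardinal.aleph0_le_aleph.{0} 2)
  have hw : Ordinal.omega0 < kp := by
    unfold kp
    rw [Cardinal.lt_ord, Ordinal.card_omega0]
    exact Cardinal.aleph0_lt_aleph_one.trans (Cardinal.aleph_lt_aleph.2 one_lt_two)
  have h1 : x + Ordinal.omega0 < kp := hp h hw
  have := kp_li.2 _ h1
  rwa [← Order.succ_eq_add_one]

/-- sets with at most `ℵ₁` elements are bounded in `ω₂` -/
theorem Sm.bdd {S : Set Ordinal.{0}} (h : Sm S) (h' : S ⊆ Iio kp) :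
    ∃ b < kp, ∀ x ∈ S, x < b := by
  set B : Set Ordinal.{0} := {b | ∀ x ∈ S, x < b} with hB
  have hne : B.Nonempty := ⟨kp, fun x hx => h' hx⟩
  refine ⟨sInf B, ?_, csInf_mem hne⟩
  apply lt_kp_of_sm
  have hs : Sm (⋃ x ∈ S, Iio (Order.succ x)) :=
    Sm.biUnion h fun x hx => sm_Iio (kp_li.2 x (h' hx))
  refine hs.mono ?_
  intro y hy
  have hy' : y ∉ B := notMem_of_lt_csInf' hy
  simp only [hB, mem_ofPred_eq, not_forall, not_lt] at hy'
  obtain ⟨x, hx, hxy⟩ := hy'
  exact mem_biUnion hx (Order.lt_succ_of_le hxy)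

theorem Cw.li {β : Ordinal.{0}} (h : Cw β) : Li β := by
  obtain ⟨e, he, hcov⟩ := h
  refine ⟨(zero_le.trans_lt (he 0)).ne', fun x hx => ?_⟩
  obtain ⟨n, hn⟩ := hcov x hx
  exact (Order.succ_le_of_lt hn).trans_lt (he n)

theorem cw_lt_w1 {δ : Ordinal.{0}} (h : Li δ) (h' : δ < w1) : Cw δ := by
  have hne : (Iio δ).Nonempty := ⟨0, pos_iff_ne_zero.2 h.1⟩
  obtain ⟨e, he⟩ := (w1_countable h').exists_eq_range hne
  refine ⟨e, fun n => ?_, fun x hx => ?_⟩
  · have : e n ∈ Iio δ := he ▸ mem_range_self n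
    exact this
  · have : Order.succ x ∈ Iio δ := h.2 x hx
    rw [he] at this
    obtain ⟨n, hn⟩ := this
    exact ⟨n, hn ▸ Order.lt_succ x⟩

theorem not_li_succ (x : Ordinal.{0}) : ¬ Li (x + 1) := by
  intro h
  have := h.2 x (by rw [← Order.succ_eq_add_one]; exact Order.lt_succ x)
  rw [Order.succ_eq_add_one] at this
  exact lt_irrefl _ this

theorem not_cw_succ (x : Ordinal.{0}) : ¬ Cw (x + 1) := fun h => not_li_succ x h.li

theorem LP.li {E : Set Ordinal.{0}} {γ : Ordinal.{0}} (h : LP E γ) : Li γ := by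
  refine ⟨h.1, fun x hx => ?_⟩
  obtain ⟨y, _, h1, h2⟩ := h.2 x hx
  exact (Order.succ_le_of_lt h1).trans_lt h2

/-- limit ordinals between `α` and `α + ω + 1` -/
theorem cw_between {α β : Ordinal.{0}} (h1 : α < β) (h2 : β ≤ α + Ordinal.omega0 + 1) (h : Li β) :
    Cw β := by
  have hlt : β < α + Ordinal.omega0 + 1 := by
    refine lt_of_le_of_ne h2 ?_
    rintro rfl
    exact not_li_succ _ h
  rw [← Order.succ_eq_add_one, Order.lt_succ_iff] at hlt
  rcases hlt.lt_or_eq with hlt | rfl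
  · exfalso
    have e := Ordinal.add_sub_cancel_of_le h1.le
    have hsub : β - α < Ordinal.omega0 := by
      rw [← e] at hlt
      exact lt_of_add_lt_add_left hlt
    obtain ⟨n, hn⟩ := Ordinal.lt_omega0.1 hsub
    rw [hn] at e
    cases n with
    | zero =>
      rw [Nat.cast_zero, add_zero] at e
      exact h1.ne e
    | succ m =>
      rw [Nat.cast_succ, ← add_assoc] at e
      rw [← e] at h
      exact not_li_succ _ h
  · refine ⟨fun n => α + n, fun n => ?_, fun x hx => ?_⟩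
    · exact add_lt_add_right (Ordinal.natCast_lt_omega0 n) α
    · rcases lt_or_ge x α with hxa | hxa
      · exact ⟨0, by simpa using hxa⟩
      · have e := Ordinal.add_sub_cancel_of_le hxa
        have hsub : x - α < Ordinal.omega0 := by
          rw [← e] at hx
          exact lt_of_add_lt_add_left hx
        obtain ⟨n, hn⟩ := Ordinal.lt_omega0.1 hsub
        refine ⟨n + 1, ?_⟩
        rw [← e, hn]
        exact add_lt_add_right (by exact_mod_cast Nat.lt_succ_self n) α

end Pool.Agent.Lib.MP_5c1789_lcR
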