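import Pool.Agent.Lib.MP_5c1789_lcR.BB

/-!
# JOB BC: suprema of increasing sequences

* `Sup.li`: `δ ≠ 0` (from `hδ`), so `f 0 < β`; if `x < β` then `x < f i < β`, so `succ x ≤ f i`.
* `exists_sup`: `S = f '' Iio δ` is `Sm` (`Iio δ ⊆ Iio w1`, `sm_Iio w1_lt_kp`), so it is bounded
  below `kp`
  (`Sm.bdd`); `β` = the least upper bound `sInf {b | ∀ i < δ, f i < b}`.  If `x < β` then `x` is not
  such a bound: `f i ≥ x` for some `i < δ`, then `x ≤ f i < f (i + 1)`, `i + 1 < δ`.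
* `Sup.cw`: if `e : ℕ → δ` is cofinal, then `f ∘ e` is cofinal in `β`: for `x < β` choose `i < δ` with
  `x < f i`, `n` with `i < e n`, then `x < f i < f (e n)`.
* `Sup.not_cw`: if `e : ℕ → β` is cofinal, choose `d n < δ` with `e n < f (d n)`.  Then `d` is
  cofinal in
  `δ`: for `i < δ` we have `f i < β`, so `f i < e n < f (d n)` for some `n`; if `d n ≤ i` then
  `f (d n) ≤ f i` by monotonicity, contradiction; so `i < d n`.
-/

open Set Cardinal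

namespace Pool.Agent.Lib.MP_5c1789_lcR

theorem Sup.li {δ β : Ordinal.{0}} {f : Ordinal.{0} → Ordinal.{0}} (hδ : Li δ) (h : Sup δ f β) :
    Li β := by
  obtain ⟨h1, h2⟩ := h
  refine ⟨fun h0 => ?_, fun x hx => ?_⟩
  · have h3 := h1 0 (pos_iff_ne_zero.2 hδ.1)
    rw [h0] at h3
    exact absurd h3 (not_lt.2 bot_le)
  · obtain ⟨i, hi, hxi⟩ := h2 x hx
    exact (Order.succ_le_of_lt hxi).trans_lt (h1 i hi)

theorem exists_sup {δ : Ordinal.{0}} {f : Ordinal.{0} → Ordinal.{0}}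
    (hf : ∀ i j, i < j → j < δ → f i < f j) (hδ : Li δ) (hδ' : δ ≤ w1) (hk : ∀ i < δ, f i < kp) :
    ∃ β < kp, Sup δ f β := by
  have hS : Sm (f '' Iio δ) :=
    mk_image_le.trans ((sm_Iio w1_lt_kp).mono (Iio_subset_Iio hδ'))
  obtain ⟨b, hb, hbb⟩ := hS.bdd (by
    rintro _ ⟨i, hi, rfl⟩
    exact hk i hi)
  have hmem : b ∈ {c : Ordinal.{0} | ∀ i < δ, f i < c} := fun i hi => hbb _ ⟨i, hi, rfl⟩
  have hne : {c : Ordinal.{0} | ∀ i < δ, f i < c}.Nonempty := ⟨b, hmem⟩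
  refine ⟨sInf {c : Ordinal.{0} | ∀ i < δ, f i < c}, ?_, csInf_mem hne, fun x hx => ?_⟩
  · exact (csInf_le' hmem).trans_lt hb
  · have h3 : x ∉ {c : Ordinal.{0} | ∀ i < δ, f i < c} := notMem_of_lt_csInf' hx
    simp only [mem_ofPred_eq, not_forall, not_lt] at h3
    obtain ⟨i, hi, hxi⟩ := h3
    exact ⟨Order.succ i, hδ.2 i hi, hxi.trans_lt (hf _ _ (Order.lt_succ i) (hδ.2 i hi))⟩

theorem Sup.cw {δ β : Ordinal.{0}} {f : Ordinal.{0} → Ordinal.{0}}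
    (hf : ∀ i j, i < j → j < δ → f i < f j) (h : Sup δ f β) (hδ : Cw δ) : Cw β := by
  obtain ⟨e, he, he'⟩ := hδ
  refine ⟨fun n => f (e n), fun n => h.1 _ (he n), fun x hx => ?_⟩
  obtain ⟨i, hi, hxi⟩ := h.2 x hx
  obtain ⟨n, hn⟩ := he' i hi
  exact ⟨n, hxi.trans (hf _ _ hn (he n))⟩

theorem Sup.not_cw {δ β : Ordinal.{0}} {f : Ordinal.{0} → Ordinal.{0}}
    (hf : ∀ i j, i < j → j < δ → f i < f j) (h : Sup δ f β) (hδ : ¬ Cw δ) : ¬ Cw β := by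
  rintro ⟨e, he, he'⟩
  apply hδ
  choose d hd hd' using fun n => h.2 (e n) (he n)
  refine ⟨d, hd, fun i hi => ?_⟩
  obtain ⟨n, hn⟩ := he' (f i) (h.1 i hi)
  refine ⟨n, lt_of_not_ge fun hle => ?_⟩
  rcases hle.lt_or_eq with h3 | h3
  · exact absurd (hn.trans ((hd' n).trans (hf _ _ h3 hi))) (lt_irrefl _)
  · have := hn.trans (hd' n)
    rw [h3] at this
    exact absurd this (lt_irrefl _)

end Pool.Agent.Lib.MP_5c1789_lcR
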