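import Pool.Agent.Lib.MP_5c1789_lcR.BB

/-!
# JOB BD: consequences of CH, and the continuum

`hCH : 2 ^ ℵ₀ = ℵ₁` in `Cardinal.{1}`.

* `sm_branches`: `e : ℕ → β` cofinal (from `hβ`).  `X ↦ (n ↦ X ∩ Iio (e n))` is injective on the set
  (`X = ⋃ n, X ∩ Iio (e n)` because `X ⊆ Iio β`), with values in `{f | ∀ n, f n ∈ T (e n)}`, whose
  cardinal is at most `ℵ₁ ^ ℵ₀ = (2 ^ ℵ₀) ^ ℵ₀ = 2 ^ ℵ₀ = ℵ₁` (for instance choose injections
  of `T (e n)` into the type `Iio w1`, of cardinal `ℵ₁`: functions `ℕ → Iio w1`, `Cardinal.power_def`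
  with `ULift ℕ`, or `Cardinal.mk_pi`, `Cardinal.prod_le_prod`, `Cardinal.prod_const`).
* `sm_ext`: `X ↦ (X ∩ Iio α, X ∩ Ico α β)` is injective; the second component is a subset of the
  countable set `Ico α β` (at most `2 ^ ℵ₀ = ℵ₁` of them: `Cardinal.mk_powerset`), the first is in `S`.
* `sm_nodes`: the union over `l < w1` of `{l} × 𝒫 (Iio l)`; `Iio l` is countable (`w1_countable`), so
  its powerset has at most `2 ^ ℵ₀ = ℵ₁` elements; `Sm.biUnion` with `sm_Iio w1_lt_kp`.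
* `exists_reals` (no CH): `#D ≤ ℵ₁ ≤ 2 ^ ℵ₀ = lift #(Set ℕ)` (`Cardinal.aleph_one_le_continuum`,
  `Cardinal.lift_mk_le'`).
* `cantor_w1` (no CH): otherwise `e` gives an injection of `𝒫 (Iio w1)` into `Iio w1`
  (`Cardinal.cantor`, `Function.cantor_injective`).
-/

open Set Cardinal

namespace Pool.Agent.Lib.MP_5c1789_lcR

private theorem bd_iio : #(Iio w1) = aleph.{1} 1 := by
  rw [Cardinal.mk_Iio_ordinal, w1, Cardinal.card_ord, Cardinal.lift_aleph, Ordinal.lift_one]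

private theorem bd_seq (hCH : CHy) : #(ℕ → Iio w1) = aleph.{1} 1 := by
  have h1 : #(ℕ → Iio w1) = aleph.{1} 1 ^ aleph0.{1} := by
    rw [Cardinal.mk_arrow, Cardinal.lift_uzero, bd_iio, Cardinal.mk_nat, Cardinal.lift_aleph0]
  have h2 : (2 : Cardinal.{1}) ^ aleph0.{1} = aleph 1 := hCH
  rw [h1, ← h2, ← Cardinal.power_mul, Cardinal.aleph0_mul_aleph0]

private theorem bd_pow (hCH : CHy) {C : Set Ordinal.{0}} (hC : C.Countable) : Sm (𝒫 C) := by
  have h2 : (2 : Cardinal.{1}) ^ aleph0.{1} = aleph 1 := hCH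
  unfold Sm
  rw [Cardinal.mk_powerset, ← h2]
  exact Cardinal.power_le_power_left two_ne_zero (Set.Countable.le_aleph0 hC)

/-- the branches of countable cofinality -/
theorem sm_branches (hCH : CHy) {T : Ordinal.{0} → Set (Set Ordinal.{0})} {β : Ordinal.{0}}
    (hT : ∀ γ < β, Sm (T γ)) (hβ : Cw β) :
    Sm {X : Set Ordinal.{0} | X ⊆ Iio β ∧ ∀ γ < β, X ∩ Iio γ ∈ T γ} := by
  obtain ⟨e, he, hc⟩ := hβ
  have hemb : ∀ n, Nonempty ((T (e n)) ↪ (Iio w1)) := by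
    intro n
    have h1 : #(T (e n)) ≤ #(Iio w1) := by
      rw [bd_iio]
      exact hT _ (he n)
    exact h1
  let g : {X : Set Ordinal.{0} | X ⊆ Iio β ∧ ∀ γ < β, X ∩ Iio γ ∈ T γ} → (ℕ → Iio w1) :=
    fun X n => (hemb n).some ⟨X.1 ∩ Iio (e n), X.2.2 _ (he n)⟩
  have hg : Function.Injective g := by
    intro X Y hXY
    have h1 : ∀ n, X.1 ∩ Iio (e n) = Y.1 ∩ Iio (e n) := by
      intro n
      have h2 : g X n = g Y n := congrFun hXY n
      have h3 := (hemb n).some.injective h2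
      exact congrArg Subtype.val h3
    refine Subtype.ext ?_
    ext x
    constructor
    · intro hx
      obtain ⟨n, hn⟩ := hc x (X.2.1 hx)
      have h2 : x ∈ X.1 ∩ Iio (e n) := ⟨hx, hn⟩
      rw [h1 n] at h2
      exact h2.1
    · intro hx
      obtain ⟨n, hn⟩ := hc x (Y.2.1 hx)
      have h2 : x ∈ Y.1 ∩ Iio (e n) := ⟨hx, hn⟩
      rw [← h1 n] at h2
      exact h2.1
  have h4 := Cardinal.mk_le_of_injective hg
  rw [bd_seq hCH] at h4
  exact h4

/-- the extensions to a countable part -/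
theorem sm_ext (hCH : CHy) {S : Set (Set Ordinal.{0})} (hS : Sm S) {α β : Ordinal.{0}}
    (h : (Ico α β).Countable) :
    Sm {X : Set Ordinal.{0} | X ⊆ Iio β ∧ X ∩ Iio α ∈ S} := by
  refine sm_of_injOn (T := S ×ˢ (𝒫 (Ico α β))) (fun X => (X ∩ Iio α, X ∩ Ico α β)) ?_ ?_
    (hS.prod (bd_pow hCH h))
  · rintro X ⟨-, hX⟩
    exact ⟨hX, fun x hx => hx.2⟩
  · rintro X ⟨hX, -⟩ Y ⟨hY, -⟩ hXY
    obtain ⟨h1, h2⟩ := Prod.mk.inj hXY
    ext x
    constructor
    · intro hx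
      rcases lt_or_ge x α with h3 | h3
      · have h4 : x ∈ X ∩ Iio α := ⟨hx, h3⟩
        rw [h1] at h4
        exact h4.1
      · have h4 : x ∈ X ∩ Ico α β := ⟨hx, h3, hX hx⟩
        rw [h2] at h4
        exact h4.1
    · intro hx
      rcases lt_or_ge x α with h3 | h3
      · have h4 : x ∈ Y ∩ Iio α := ⟨hx, h3⟩
        rw [← h1] at h4
        exact h4.1
      · have h4 : x ∈ Y ∩ Ico α β := ⟨hx, h3, hY hx⟩
        rw [← h2] at h4
        exact h4.1

/-- the nodes of the full binary tree of height `ω₁` -/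
theorem sm_nodes (hCH : CHy) :
    Sm {u : Ordinal.{0} × Set Ordinal.{0} | u.1 < w1 ∧ u.2 ⊆ Iio u.1} := by
  have h1 : Sm (⋃ l ∈ Iio w1, (Prod.mk l) '' (𝒫 (Iio l))) :=
    (sm_Iio w1_lt_kp).biUnion fun l hl => (bd_pow hCH (w1_countable hl)).image _
  refine h1.mono ?_
  rintro ⟨l, X⟩ ⟨hl, hX⟩
  exact Set.mem_biUnion (show l ∈ Iio w1 from hl) ⟨X, hX, rfl⟩

/-- there are at least `ℵ₁` sets of natural numbers -/
theorem exists_reals {D : Set Ordinal.{0}} (hD : Sm D) :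
    ∃ r : Ordinal.{0} → Set ℕ, InjOn r D := by
  classical
  have h1 : #D ≤ Cardinal.lift.{1, 0} #(Set ℕ) := by
    rw [Cardinal.mk_set_nat, Cardinal.lift_continuum]
    exact le_trans hD Cardinal.aleph_one_le_continuum
  have h2 : Cardinal.lift.{0, 1} #D ≤ Cardinal.lift.{1, 0} #(Set ℕ) := by
    rw [Cardinal.lift_uzero]
    exact h1
  obtain ⟨f⟩ := Cardinal.lift_mk_le'.1 h2
  refine ⟨fun x => if h : x ∈ D then f ⟨x, h⟩ else ∅, ?_⟩
  intro x hx y hy hxy
  simp only [dif_pos hx, dif_pos hy] at hxy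
  exact congrArg Subtype.val (f.injective hxy)

/-- the power set of `ω₁` does not inject into `ω₁` -/
theorem cantor_w1 (e : Set Ordinal.{0} → Ordinal.{0}) (he : ∀ f, f ⊆ Iio w1 → e f < w1) :
    ∃ f f', f ⊆ Iio w1 ∧ f' ⊆ Iio w1 ∧ f ≠ f' ∧ e f = e f' := by
  by_contra hcon
  push Not at hcon
  let g : (𝒫 (Iio w1) : Set (Set Ordinal.{0})) → Iio w1 := fun f => ⟨e f.1, he f.1 f.2⟩
  have hg : Function.Injective g := by
    intro f f' hff
    by_contra hne
    exact hcon f.1 f'.1 f.2 f'.2 (fun h => hne (Subtype.ext h)) (congrArg Subtype.val hff)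
  have h1 := Cardinal.mk_le_of_injective hg
  rw [Cardinal.mk_powerset] at h1
  exact absurd (Cardinal.cantor #(Iio w1)) (not_lt.2 h1)

end Pool.Agent.Lib.MP_5c1789_lcR
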