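import Pool.Agent.Lib.MP_5c1789_lcR.Tree

/-!
# JOB TD: the trees form a small type

A tree is determined by `α`, `T`, `A` (proof irrelevance), where `T β = ∅`, `A β = ∅` for
`β > α`, in particular for `β ≥ kp`, and `T β` consists of subsets of `Iio β ⊆ Iio kp` for `β ≤ α < kp`.
So the map from `Tr` to `Iio kp × (Iio kp → Set (Set (Iio kp))) × (Iio kp → Set (Set (Iio kp)))`,
`t ↦ (t.α, β ↦ {Y | Subtype.val '' Y ∈ t.T β}, the same for A)` is injective, and the target is small
(`Iio kp` is small: `small_Iio`; `small_Pi`, small `Set` of a small type).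
-/

open Set Cardinal

namespace Pool.Agent.Lib.MP_5c1789_lcR

private theorem td_ext {t t' : Tr} (h1 : t.α = t'.α) (h2 : t.T = t'.T) (h3 : t.A = t'.A) : t = t' := by
  cases t
  cases t'
  simp only at h1 h2 h3
  subst h1
  subst h2
  subst h3
  rfl

private theorem td_eq {S S' : Ordinal.{0} → Set (Set Ordinal.{0})}
    (h : ∀ β, ∀ X ∈ S β, β < kp ∧ X ⊆ Iio kp) (h' : ∀ β, ∀ X ∈ S' β, β < kp ∧ X ⊆ Iio kp)
    (e : {p : Iio kp × Set (Iio kp) | Subtype.val '' p.2 ∈ S p.1.1} =
      {p : Iio kp × Set (Iio kp) | Subtype.val '' p.2 ∈ S' p.1.1}) : S = S' := by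
  have key : ∀ β : Ordinal.{0}, ∀ X : Set Ordinal.{0}, β < kp → X ⊆ Iio kp →
      (X ∈ S β ↔ X ∈ S' β) := by
    intro β X hβ hX
    have e1 : Subtype.val '' (Subtype.val ⁻¹' X : Set (Iio kp)) = X := by
      rw [Subtype.image_preimage_coe]
      exact inter_eq_right.2 hX
    have e2 := Set.ext_iff.1 e (⟨β, hβ⟩, (Subtype.val ⁻¹' X : Set (Iio kp)))
    simp only [mem_ofPred_eq] at e2
    rw [e1] at e2
    exact e2
  funext β
  ext X
  constructor
  · intro hX
    exact (key β X (h β X hX).1 (h β X hX).2).1 hX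
  · intro hX
    exact (key β X (h' β X hX).1 (h' β X hX).2).2 hX

/-- there is a small set of trees -/
theorem small_tr : Small.{0} Tr := by
  have hs : Small.{0} (Iio kp) := Ordinal.small_Iio kp
  have hs1 : Small.{0} (Iio kp × Set (Iio kp)) := inferInstance
  have hs2 : Small.{0} (Iio kp × (Set (Iio kp × Set (Iio kp)) × Set (Iio kp × Set (Iio kp)))) :=
    inferInstance
  have hT : ∀ (t : Tr) (β : Ordinal.{0}) (X : Set Ordinal.{0}), X ∈ t.T β → β < kp ∧ X ⊆ Iio kp := by
    intro t β X hX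
    have h1 : β < kp := (t.le β X hX).trans_lt t.lt
    exact ⟨h1, (t.sub β X hX).trans (Iio_subset_Iio h1.le)⟩
  refine small_of_injective (f := fun t : Tr => ((⟨t.α, t.lt⟩ : Iio kp),
    ({p : Iio kp × Set (Iio kp) | Subtype.val '' p.2 ∈ t.T p.1.1},
      {p : Iio kp × Set (Iio kp) | Subtype.val '' p.2 ∈ t.A p.1.1}))) ?_
  intro t t' h
  simp only [Prod.mk.injEq] at h
  obtain ⟨h1, h2, h3⟩ := h
  refine td_ext (congrArg Subtype.val h1) ?_ ?_
  · exact td_eq (hT t) (hT t') h2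
  · exact td_eq (fun β X hX => hT t β X (t.alive β hX)) (fun β X hX => hT t' β X (t'.alive β hX)) h3

end Pool.Agent.Lib.MP_5c1789_lcR
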