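import Pool.Agent.Lib.MP_5c1789_lcR.CA
import Pool.Agent.Lib.MP_5c1789_lcR.TD

/-!
# JOB CE: the conditions with labels in a small set form a small set

Let `B' = B ∪ Iio kp`-like small sets.  A condition `q` with `q.D ⊆ B` is determined (`Cd.ext'`) by
the tree (`small_tr`), by `q.D` (a subset of the small set `B`), and by the families `ζ ↦ q.b ζ`,
`q.C ζ`, `q.c ζ` for `ζ ∈ B`, where `q.b ζ ⊆ Iio kp`, `q.C ζ ⊆ Iio kp` (`q.t.lt`, `q.Cle`, `q.junk`) and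
`q.c ζ ⊆ {x | x.1 ∈ Iio kp ∧ x.2 ∈ Iio ζ}` (`q.cmem`), all subsets of small sets (`small_Iio`,
`small_powerset`, `small_prod'` of `BE.lean`).  So there is an injection into
`Tr × Set B × ((ζ : B) → {X // X ⊆ Iio kp}) × ((ζ : B) → {X // X ⊆ Iio kp}) ×`
`((ζ : B) → {X // X ⊆ {x | x.1 ∈ Iio kp ∧ x.2 ∈ Iio ζ.1}})`, which is small
(`small_Pi`, products).  See `small_sub` in `Pool/Agent/Lib/MP_5c1789_lc/Cond.lean` for the pattern.
-/

open Set Cardinal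

namespace Pool.Agent.Lib.MP_5c1789_lcR

namespace Cd

private theorem ce_b (q : Cd) (ζ : Ordinal.{0}) : q.b ζ ⊆ Iio kp := by
  by_cases h : ζ ∈ q.D
  · exact (q.t.sub _ _ (q.node ζ h)).trans (Iio_subset_Iio q.t.lt.le)
  · rw [(q.junk ζ h).1]
    exact empty_subset _

private theorem ce_C (q : Cd) (ζ : Ordinal.{0}) : q.C ζ ⊆ Iio kp := by
  by_cases h : ζ ∈ q.D
  · exact (q.Cle ζ h).trans fun x hx => lt_of_le_of_lt hx q.t.lt
  · rw [(q.junk ζ h).2.1]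
    exact empty_subset _

private theorem ce_c (q : Cd) (ζ : Ordinal.{0}) :
    q.c ζ ⊆ {x : Ordinal.{0} × Ordinal.{0} | x.1 ∈ Iio kp ∧ x.2 ∈ Iio ζ} := by
  by_cases h : ζ ∈ q.D
  · exact q.cmem ζ h
  · rw [(q.junk ζ h).2.2]
    exact empty_subset _

/-- the conditions with labels in a small set form a small set -/
theorem small_sub (B : Set Ordinal.{0}) (hB : Small.{0} B) : Small.{0} {q : Cd | q.D ⊆ B} := by
  have h1 : Small.{0} Tr := small_tr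
  have h2 : Small.{0} {X : Set Ordinal.{0} | X ⊆ B} := small_powerset B hB
  have h3 : Small.{0} {X : Set Ordinal.{0} | X ⊆ Iio kp} :=
    small_powerset (Iio kp) (Ordinal.small_Iio kp)
  have h4 : ∀ ζ : Ordinal.{0}, Small.{0} {X : Set (Ordinal.{0} × Ordinal.{0}) |
      X ⊆ {x : Ordinal.{0} × Ordinal.{0} | x.1 ∈ Iio kp ∧ x.2 ∈ Iio ζ}} := fun ζ =>
    small_powerset _ (small_prod' (Iio kp) (Iio ζ) (Ordinal.small_Iio kp) (Ordinal.small_Iio ζ))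
  have h5 : Small.{0} (B → {X : Set Ordinal.{0} | X ⊆ Iio kp}) := inferInstance
  have h6 : Small.{0} ((ζ : B) → {X : Set (Ordinal.{0} × Ordinal.{0}) |
      X ⊆ {x : Ordinal.{0} × Ordinal.{0} | x.1 ∈ Iio kp ∧ x.2 ∈ Iio ζ.1}}) := by
    have h7 := fun ζ : B => h4 ζ.1
    infer_instance
  have h8 : Small.{0} (Tr × {X : Set Ordinal.{0} | X ⊆ B} ×
      (B → {X : Set Ordinal.{0} | X ⊆ Iio kp}) × (B → {X : Set Ordinal.{0} | X ⊆ Iio kp}) ×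
      ((ζ : B) → {X : Set (Ordinal.{0} × Ordinal.{0}) |
        X ⊆ {x : Ordinal.{0} × Ordinal.{0} | x.1 ∈ Iio kp ∧ x.2 ∈ Iio ζ.1}})) := inferInstance
  refine small_of_injective (β := Tr × {X : Set Ordinal.{0} | X ⊆ B} ×
      (B → {X : Set Ordinal.{0} | X ⊆ Iio kp}) × (B → {X : Set Ordinal.{0} | X ⊆ Iio kp}) ×
      ((ζ : B) → {X : Set (Ordinal.{0} × Ordinal.{0}) |
        X ⊆ {x : Ordinal.{0} × Ordinal.{0} | x.1 ∈ Iio kp ∧ x.2 ∈ Iio ζ.1}}))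
    (f := fun q : {q : Cd | q.D ⊆ B} => (q.1.t, ⟨q.1.D, q.2⟩, fun ζ => ⟨q.1.b ζ.1, ce_b _ _⟩,
      fun ζ => ⟨q.1.C ζ.1, ce_C _ _⟩, fun ζ => ⟨q.1.c ζ.1, ce_c _ _⟩)) ?_
  rintro ⟨p, hp⟩ ⟨q, hq⟩ h
  obtain ⟨e1, e⟩ := Prod.mk.inj h
  obtain ⟨e2, e⟩ := Prod.mk.inj e
  obtain ⟨e3, e⟩ := Prod.mk.inj e
  obtain ⟨e4, e5⟩ := Prod.mk.inj e
  refine Subtype.ext (ext' e1 (congrArg Subtype.val e2) (fun ζ hζ => ?_) (fun ζ hζ => ?_)
    (fun ζ hζ => ?_))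
  · exact congrArg Subtype.val (congrFun e3 ⟨ζ, hp hζ⟩)
  · exact congrArg Subtype.val (congrFun e4 ⟨ζ, hp hζ⟩)
  · exact congrArg Subtype.val (congrFun e5 ⟨ζ, hp hζ⟩)


end Cd

end Pool.Agent.Lib.MP_5c1789_lcR
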