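import Pool.Agent.Lib.MP_5c1789_lcR.CB
import Pool.Agent.Lib.MP_5c1789_lcR.CE

/-!
# JOB BDet: a small set of labels which determines a small set of statements

* `exists_closed`: as `Cnd.stage`, `Cnd.exists_closed` in `Pool/Agent/Lib/MP_5c1789_lc/Cond.lean`, but with
  `ω₂` steps: `stage i = B0 ∪ ⋃ j < i, ⋃ {q | q.D ⊆ stage j}, ⋃ k : ι, (w q k).D` (small by induction:
  `Cd.small_sub` in `CE.lean`, `ι` small, and `(w q k).D` has at most `ℵ₁` elements, so it is small), increasing in `i`,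
  `B = stage kp`.  If `q.D ⊆ stage kp` and `q.D` is `Sm`, then `q.D ⊆ stage s` for some `s < kp`: every
  `ζ ∈ q.D` is in `B0`, or in `stage (j + 1)` for some `j < kp`; the set of these `j` (choose one for each
  `ζ`) is `Sm`, hence
  bounded below `kp` (`Sm.bdd`; `kp_li`).  Then `(w q k).D ⊆ stage (s + 1) ⊆ stage kp`.
* `exists_det`: `w a k = r` for a chosen `r ≤ a` with `∀ q ≤ r, ¬ φ k q`, if such an `r` exists, and `w a k = a`
  otherwise.  `B` from `exists_closed`.  Let `φ k q`, and suppose `¬ φ k (q.res B)`.  By `dense` (contraposition)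
  there is `r ≤ q.res B` with `∀ r' ≤ r, ¬ φ k r'`.  So `a = w (q.res B) k` satisfies `a ≤ q.res B`,
  `∀ r' ≤ a, ¬ φ k r'` and `a.D ⊆ B` (`(q.res B).D = q.D ∩ B ⊆ B`).  By `Cd.exists_values` and
  `Cd.exists_am` (in `CB.lean`) there is `r'` with
  `r' ≤ q` and `r' ≤ a`; `φ k r'` by `mono`, contradiction.
-/

open Set Cardinal

namespace Pool.Agent.Lib.MP_5c1789_lcR

/-- the stages of the closing off -/
private def bdetStage {ι : Type 1} (w : Cd → ι → Cd) (B0 : Set Ordinal.{0}) (i : Ordinal.{0}) :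
    Set Ordinal.{0} :=
  B0 ∪ ⋃ j : Iio i, {ζ | ∃ (q : Cd) (k : ι), q.D ⊆ bdetStage w B0 j.1 ∧ ζ ∈ (w q k).D}
termination_by i
decreasing_by exact j.2

private theorem bdet_mem {ι : Type 1} {w : Cd → ι → Cd} {B0 : Set Ordinal.{0}} {i ζ : Ordinal.{0}} :
    ζ ∈ bdetStage w B0 i ↔ ζ ∈ B0 ∨ ∃ j < i, ∃ (q : Cd) (k : ι), q.D ⊆ bdetStage w B0 j ∧
      ζ ∈ (w q k).D := by
  rw [bdetStage, mem_union, mem_iUnion]
  constructor
  · rintro (h | ⟨j, h⟩)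
    · exact Or.inl h
    · exact Or.inr ⟨j.1, j.2, h⟩
  · rintro (h | ⟨j, hj, h⟩)
    · exact Or.inl h
    · exact Or.inr ⟨⟨j, hj⟩, h⟩

private theorem bdet_mono {ι : Type 1} {w : Cd → ι → Cd} {B0 : Set Ordinal.{0}} {i i' : Ordinal.{0}}
    (h : i ≤ i') : bdetStage w B0 i ⊆ bdetStage w B0 i' := by
  intro ζ hζ
  rw [bdet_mem] at hζ ⊢
  rcases hζ with h1 | ⟨j, hj, h2⟩
  · exact Or.inl h1
  · exact Or.inr ⟨j, hj.trans_le h, h2⟩

private theorem bdet_sm {α : Type 1} {S : Set α} (h : Sm S) : Small.{0} S := by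
  rcases S.eq_empty_or_nonempty with h0 | h0
  · subst h0
    infer_instance
  · obtain ⟨e, he, hs⟩ := h.enum h0
    haveI : Small.{0} (Iio w1) := Ordinal.small_Iio w1
    refine small_of_surjective (f := fun i : Iio w1 => (⟨e i.1, he i.1 i.2⟩ : S)) ?_
    rintro ⟨a, ha⟩
    obtain ⟨i, hi, rfl⟩ := hs a ha
    exact ⟨⟨i, hi⟩, rfl⟩

private theorem bdet_small {ι : Type 1} (hι : Small.{0} ι) (w : Cd → ι → Cd)
    (B0 : Set Ordinal.{0}) (h0 : Small.{0} B0) (i : Ordinal.{0}) :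
    Small.{0} (bdetStage w B0 i) := by
  induction i using WellFoundedLT.induction with
  | ind i ih =>
    rw [bdetStage]
    haveI := h0
    haveI := hι
    haveI : Small.{0} (Iio i) := Ordinal.small_Iio i
    haveI : ∀ j : Iio i, Small.{0}
        {ζ | ∃ (q : Cd) (k : ι), q.D ⊆ bdetStage w B0 j.1 ∧ ζ ∈ (w q k).D} := by
      intro j
      haveI h1 : Small.{0} {q : Cd | q.D ⊆ bdetStage w B0 j.1} := Cd.small_sub _ (ih j.1 j.2)
      haveI : ∀ (q : {q : Cd | q.D ⊆ bdetStage w B0 j.1}) (k : ι), Small.{0} (w q.1 k).D :=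
        fun q k => bdet_sm (w q.1 k).sm
      have h2 : {ζ | ∃ (q : Cd) (k : ι), q.D ⊆ bdetStage w B0 j.1 ∧ ζ ∈ (w q k).D} =
          ⋃ q : {q : Cd | q.D ⊆ bdetStage w B0 j.1}, ⋃ k : ι, (w q.1 k).D := by
        ext ζ
        simp only [mem_iUnion]
        constructor
        · rintro ⟨q, k, hq, hζ⟩
          exact ⟨⟨q, hq⟩, k, hζ⟩
        · rintro ⟨q, k, hζ⟩
          exact ⟨q.1, k, q.2, hζ⟩
      rw [h2]
      infer_instance
    infer_instance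

/-- closing off -/
theorem exists_closed {ι : Type 1} (hι : Small.{0} ι) (w : Cd → ι → Cd) (B0 : Set Ordinal.{0})
    (h0 : Small.{0} B0) : ∃ B : Set Ordinal.{0}, Small.{0} B ∧ B0 ⊆ B ∧
      ∀ q : Cd, q.D ⊆ B → ∀ i, (w q i).D ⊆ B := by
  refine ⟨bdetStage w B0 kp, bdet_small hι w B0 h0 kp, fun ζ hζ => bdet_mem.2 (Or.inl hζ), ?_⟩
  intro q hq k
  have hch : ∀ ζ, ∃ j, ζ ∈ q.D → j < kp ∧ ζ ∈ bdetStage w B0 j := by
    intro ζ
    by_cases h : ζ ∈ q.D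
    · have h1 := bdet_mem.1 (hq h)
      rcases h1 with h1 | ⟨j, hj, q', k', h2, h3⟩
      · have h4 : (0 : Ordinal.{0}) < kp := pos_iff_ne_zero.2 kp_li.1
        exact ⟨0, fun _ => ⟨h4, bdet_mem.2 (Or.inl h1)⟩⟩
      · exact ⟨Order.succ j, fun _ => ⟨kp_li.2 j hj,
          bdet_mem.2 (Or.inr ⟨j, Order.lt_succ j, q', k', h2, h3⟩)⟩⟩
    · exact ⟨0, fun h' => absurd h' h⟩
  choose g hg using hch
  obtain ⟨b, hb, hgb⟩ := (q.sm.image g).bdd (by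
    rintro _ ⟨ζ, hζ, rfl⟩
    exact (hg ζ hζ).1)
  have hqb : q.D ⊆ bdetStage w B0 b := by
    intro ζ hζ
    exact bdet_mono (hgb (g ζ) ⟨ζ, hζ, rfl⟩).le (hg ζ hζ).2
  intro ζ hζ
  exact bdet_mem.2 (Or.inr ⟨b, hb, q, k, hqb, hζ⟩)

theorem exists_det {ι : Type 1} (hι : Small.{0} ι) (φ : ι → Cd → Prop)
    (mono : ∀ i p q, φ i p → q ≤ p → φ i q)
    (dense : ∀ i p, (∀ q, q ≤ p → ∃ r, r ≤ q ∧ φ i r) → φ i p) (B0 : Set Ordinal.{0})
    (h0 : Small.{0} B0) : ∃ B : Set Ordinal.{0}, Small.{0} B ∧ B0 ⊆ B ∧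
      ∀ i q, φ i q → φ i (q.res B) := by
  have hch : ∀ (a : Cd) (k : ι), ∃ r : Cd, (∃ r, r ≤ a ∧ ∀ q, q ≤ r → ¬ φ k q) →
      r ≤ a ∧ ∀ q, q ≤ r → ¬ φ k q := by
    intro a k
    by_cases h : ∃ r, r ≤ a ∧ ∀ q, q ≤ r → ¬ φ k q
    · obtain ⟨r, hr⟩ := h
      exact ⟨r, fun _ => hr⟩
    · exact ⟨a, fun h' => absurd h' h⟩
  choose w hw using hch
  obtain ⟨B, hB, hB0, hcl⟩ := exists_closed hι w B0 h0
  refine ⟨B, hB, hB0, ?_⟩
  intro k q hφ
  by_contra hcon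
  have h1 : ∃ r, r ≤ q.res B ∧ ∀ q', q' ≤ r → ¬ φ k q' := by
    by_contra h2
    apply hcon
    apply dense k (q.res B)
    intro q' hq'
    by_contra h3
    apply h2
    refine ⟨q', hq', ?_⟩
    intro r hr hφr
    exact h3 ⟨r, hr, hφr⟩
  obtain ⟨h2, h3⟩ := hw (q.res B) k h1
  have h4 : (w (q.res B) k).D ⊆ B := hcl (q.res B) (by rw [Cd.res_D]; exact inter_subset_right) k
  obtain ⟨v, hv⟩ := Cd.exists_values q (w (q.res B) k) B h2
  obtain ⟨r, hr1, hr2, -⟩ := Cd.exists_am q (w (q.res B) k) B v h2 h4 (fun ζ hζ _ => hv ζ hζ)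
  exact h3 r hr2 (mono k q r hφ hr1)

end Pool.Agent.Lib.MP_5c1789_lcR
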