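import Pool.Agent.Lib.MP_5c1789_lcR.Base

/-!
# JOB BE: small types

* `exists_number`: `S` is small, so there is an equivalence of `S` with a type in `Type 0`
  (`equivShrink`), which can be well ordered (or injected into the ordinals `Iio c.ord`,
  `c = #(Shrink S)`, as in `mk_smallSets` of `Pool/Agent/Lib/MP_5c1789_lc/Card.lean`); invert the
  injection `i : S → Ordinal`, with `l` an upper bound of its values
  (`Ordinal.bddAbove_of_small`, or `l = ⨆ (i x + 1)`), default a fixed element of `S` (for `i < l` not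
  in the range).
* `small_powerset`: `X ↦ {x : S | x.1 ∈ X} : Set S` is injective on the subsets of `S`; `Set S` is
  small (see `small_sub` in `Pool/Agent/Lib/MP_5c1789_lc/Cond.lean` for the pattern
  `small_of_injective`, `small_Pi`, `Small (Set s)`).
* `small_prod'`: injection into `S × T`.
* `small_fun`: injection into `S → T`.
-/

open Set Cardinal

namespace Pool.Agent.Lib.MP_5c1789_lcR

/-- an enumeration of a small nonempty type by the ordinals below some ordinal -/
theorem exists_number {α : Type 1} (S : Set α) (hS : Small.{0} S) (hne : S.Nonempty) :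
    ∃ (l : Ordinal.{0}) (e : Ordinal.{0} → α), (∀ i < l, e i ∈ S) ∧ ∀ a ∈ S, ∃ i < l, e i = a := by
  classical
  have hS' : Small.{0} S := hS
  obtain ⟨a₀, ha₀⟩ := hne
  let r : Shrink.{0} S → Shrink.{0} S → Prop := WellOrderingRel
  let num : S → Ordinal.{0} := fun a => Ordinal.typein r (equivShrink S a)
  have hnum : Function.Injective num := fun a b hab =>
    (equivShrink S).injective (Ordinal.typein_injective r hab)
  refine ⟨Ordinal.type r, fun o => if h : ∃ a : S, num a = o then (h.choose : α) else a₀, ?_, ?_⟩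
  · intro i _
    dsimp only
    split_ifs with h
    · exact h.choose.2
    · exact ha₀
  · intro a ha
    refine ⟨num ⟨a, ha⟩, Ordinal.typein_lt_type r _, ?_⟩
    have h : ∃ b : S, num b = num ⟨a, ha⟩ := ⟨⟨a, ha⟩, rfl⟩
    dsimp only
    rw [dif_pos h]
    exact congrArg Subtype.val (hnum h.choose_spec)

/-- subsets of a small set -/
theorem small_powerset {α : Type 1} (S : Set α) (hS : Small.{0} S) :
    Small.{0} {X : Set α | X ⊆ S} := by
  have hS' : Small.{0} S := hS
  have h1 : Small.{0} (Set S) := inferInstance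
  refine small_of_injective (f := fun X : {X : Set α | X ⊆ S} => {x : S | (x : α) ∈ X.1}) ?_
  intro X Y h
  refine Subtype.ext (Set.ext fun x => ⟨fun hx => ?_, fun hx => ?_⟩)
  · have h2 : (⟨x, X.2 hx⟩ : S) ∈ {x : S | (x : α) ∈ X.1} := hx
    dsimp only at h
    rw [h] at h2
    exact h2
  · have h2 : (⟨x, Y.2 hx⟩ : S) ∈ {x : S | (x : α) ∈ Y.1} := hx
    dsimp only at h
    rw [← h] at h2
    exact h2

theorem small_prod' {α β : Type 1} (S : Set α) (T : Set β) (hS : Small.{0} S) (hT : Small.{0} T) :
    Small.{0} {x : α × β | x.1 ∈ S ∧ x.2 ∈ T} := by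
  have hS' : Small.{0} S := hS
  have hT' : Small.{0} T := hT
  have h1 : Small.{0} (S × T) := inferInstance
  refine small_of_injective (f := fun x : {x : α × β | x.1 ∈ S ∧ x.2 ∈ T} =>
    ((⟨x.1.1, x.2.1⟩, ⟨x.1.2, x.2.2⟩) : S × T)) ?_
  intro x y h
  have h2 : x.1.1 = y.1.1 := congrArg (fun z : S × T => (z.1 : α)) h
  have h3 : x.1.2 = y.1.2 := congrArg (fun z : S × T => (z.2 : β)) h
  exact Subtype.ext (Prod.ext h2 h3)

/-- functions with values in a small set, equal to a fixed value outside a small set -/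
theorem small_fun {α β : Type 1} (S : Set α) (T : Set β) (b : β) (hS : Small.{0} S)
    (hT : Small.{0} T) :
    Small.{0} {f : α → β | (∀ x ∈ S, f x ∈ T) ∧ ∀ x ∉ S, f x = b} := by
  have hS' : Small.{0} S := hS
  have hT' : Small.{0} T := hT
  have h1 : Small.{0} (S → T) := inferInstance
  refine small_of_injective (f := fun f : {f : α → β | (∀ x ∈ S, f x ∈ T) ∧ ∀ x ∉ S, f x = b} =>
    fun x : S => (⟨f.1 x, f.2.1 x x.2⟩ : T)) ?_
  intro f g h
  refine Subtype.ext (funext fun x => ?_)
  by_cases hx : x ∈ S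
  · exact congrArg Subtype.val (congrFun h ⟨x, hx⟩)
  · rw [f.2.2 x hx, g.2.2 x hx]

end Pool.Agent.Lib.MP_5c1789_lcR
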