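import Mathlib

/-!
# Definitions: `ω₁`, `ω₂`, sets with at most `ℵ₁` elements, cofinality `ω`, limit points
-/

open Set Cardinal

namespace Pool.Agent.Lib.MP_5c1789_lcR

/-- `ω₁` -/
noncomputable def w1 : Ordinal.{0} := (aleph 1).ord

/-- `κ = ω₂` -/
noncomputable def kp : Ordinal.{0} := (aleph 2).ord

/-- `S` has at most `ℵ₁` elements -/
def Sm {α : Type 1} (S : Set α) : Prop := #S ≤ aleph 1

/-- `β` is a limit ordinal of cofinality `ω` -/
def Cw (β : Ordinal.{0}) : Prop :=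
  ∃ e : ℕ → Ordinal.{0}, (∀ n, e n < β) ∧ ∀ x < β, ∃ n, x < e n

/-- `β` is a nonzero limit ordinal -/
def Li (β : Ordinal.{0}) : Prop := β ≠ 0 ∧ ∀ x < β, Order.succ x < β

/-- `γ` is a limit point of `E` -/
def LP (E : Set Ordinal.{0}) (γ : Ordinal.{0}) : Prop := γ ≠ 0 ∧ ∀ x < γ, ∃ y ∈ E, x < y ∧ y < γ

/-- the continuum hypothesis -/
def CHy : Prop := (2 : Cardinal.{1}) ^ aleph0.{1} = aleph 1

/-- `β` is the strict supremum of the values of `f` below `δ` -/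
def Sup (δ : Ordinal.{0}) (f : Ordinal.{0} → Ordinal.{0}) (β : Ordinal.{0}) : Prop :=
  (∀ i < δ, f i < β) ∧ ∀ x < β, ∃ i < δ, x < f i

theorem Sm.mono {α : Type 1} {S S' : Set α} (h : Sm S) (h' : S' ⊆ S) : Sm S' :=
  (mk_le_mk_of_subset h').trans h

end Pool.Agent.Lib.MP_5c1789_lcR
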