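import Pool.Agent.Lib.MP_5c1789_lcR.Tree

/-!
# JOB TB: the trivial tree, the extension by `ω + 1` levels

`triv`: only the level `0`.  `up`: `β ≤ γ ≤ 0`, so `γ = β = 0`.  `full`: `Cw β` with `β ≤ 0` is
impossible (`Cw.li`); `lim`: `Li 0` is false.  `down`: `γ ≤ 0`.

`ext`: write `α = t.α`, `top = α + ω + 1`.  For `β ≤ α` the level is `t.T β` (the second alternative
needs `α < β`); for `α < β ≤ top` it is the set of all `X ⊆ Iio β` with `X ∩ Iio α ∈ t.T α` (the first
alternative is impossible by `t.le`); above `top` it is empty.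
* `lt`: `kp_add`.  `alive`: `t.A β ⊆ t.T β`.  `down`: for `γ ≤ β`, cases `β ≤ α` (`t.down`); `α < β`
  and `γ ≤ α`: `X ∩ Iio γ = (X ∩ Iio α) ∩ Iio γ` and `t.down`; `α < γ`: second alternative.
* `up`: if `γ ≤ α`: `t.up`.  If `β ≤ α < γ`: first extend `X` to `Y ∈ t.T α` by `t.up`; the same set `Y`
  is in the level `γ`.  If `α < β`: `X` itself is in the level `γ`.
* `small`: `t.small` and `sm_ext` (`Ico α β` is countable for `β ≤ top`: `Ico α (α + ω + 1)` is
  covered by `α + n` and `α + ω`).  The level is contained in the union of `t.T β` and, if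
  `β ≤ top`, `{X | X ⊆ Iio β ∧ X ∩ Iio α ∈ t.T α}` (and in `t.T β` if `top < β`).
* `full`: for `β ≤ α` the levels `γ < β` are the old ones, `t.full`.  For `α < β`: the restriction
  `X ∩ Iio α` is in the level `α`, which is `t.T α`.
* `lim`: `β` limit, not `Cw`, `β ≤ top`: then `β ≤ α` by `cw_between`; use `t.lim` and `Wit.congr`.
-/

open Set Cardinal

namespace Pool.Agent.Lib.MP_5c1789_lcR

/-- the levels of the old tree -/
private theorem tb_le {t : Tr} {β : Ordinal.{0}} (h : β ≤ t.α) {X : Set Ordinal.{0}} :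
    (X ∈ t.T β ∨ (t.α < β ∧ β ≤ t.α + Ordinal.omega0 + 1 ∧ X ⊆ Iio β ∧
      X ∩ Iio t.α ∈ t.T t.α)) ↔ X ∈ t.T β :=
  ⟨fun h1 => h1.elim id fun h2 => absurd h2.1 (not_lt.2 h), Or.inl⟩

/-- the new levels -/
private theorem tb_gt {t : Tr} {β : Ordinal.{0}} (h : t.α < β) {X : Set Ordinal.{0}} :
    (X ∈ t.T β ∨ (t.α < β ∧ β ≤ t.α + Ordinal.omega0 + 1 ∧ X ⊆ Iio β ∧
      X ∩ Iio t.α ∈ t.T t.α)) ↔
      β ≤ t.α + Ordinal.omega0 + 1 ∧ X ⊆ Iio β ∧ X ∩ Iio t.α ∈ t.T t.α :=
  ⟨fun h1 => h1.elim (fun h2 => absurd (t.le β X h2) (not_le.2 h)) fun h2 => h2.2,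
    fun h1 => Or.inr ⟨h, h1⟩⟩

private theorem tb_inter {X : Set Ordinal.{0}} {β γ : Ordinal.{0}} (h : β ≤ γ) :
    X ∩ Iio γ ∩ Iio β = X ∩ Iio β := by
  rw [inter_assoc, Iio_inter_Iio, inf_eq_right.2 h]

private theorem tb_countable {α β : Ordinal.{0}} (h : β ≤ α + Ordinal.omega0 + 1) :
    (Ico α β).Countable := by
  have h1 : Ico α β ⊆ (Set.range fun n : ℕ => α + (n : Ordinal.{0})) ∪ {α + Ordinal.omega0} := by
    rintro x ⟨hx1, hx2⟩
    have hx3 : x < α + Ordinal.omega0 + 1 := hx2.trans_le h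
    have hx4 : x ≤ α + Ordinal.omega0 := by
      rw [← Order.succ_eq_add_one, Order.lt_succ_iff] at hx3
      exact hx3
    rcases hx4.lt_or_eq with h5 | h5
    · left
      have h6 : x - α < Ordinal.omega0 := by
        rw [Ordinal.sub_lt_of_le hx1]
        exact h5
      obtain ⟨n, hn⟩ := Ordinal.lt_omega0.1 h6
      refine ⟨n, ?_⟩
      show α + (n : Ordinal.{0}) = x
      rw [← hn, Ordinal.add_sub_cancel_of_le hx1]
    · right
      exact h5
  exact ((countable_range _).union (countable_singleton _)).mono h1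

namespace Tr

/-- the tree of height `0` -/
noncomputable def triv : Tr where
  α := 0
  T β := {X | β = 0 ∧ X = ∅}
  A _ := ∅
  lt := pos_iff_ne_zero.2 kp_li.1
  le := by
    rintro β X ⟨rfl, -⟩
    exact le_rfl
  sub := by
    rintro β X ⟨-, rfl⟩
    exact empty_subset _
  alive := fun β => empty_subset _
  root := ⟨rfl, rfl⟩
  down := by
    rintro β γ X ⟨rfl, rfl⟩ h
    exact ⟨nonpos_iff_eq_zero.1 h, empty_inter _⟩
  up := by
    rintro β γ X ⟨rfl, rfl⟩ - h
    exact ⟨∅, ⟨nonpos_iff_eq_zero.1 h, rfl⟩, empty_inter _⟩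
  small := fun β => (sm_singleton (∅ : Set Ordinal.{0})).mono fun X hX => hX.2
  full := fun β hβ hc => absurd (nonpos_iff_eq_zero.1 hβ) hc.li.1
  lim := fun β hβ hl => absurd (nonpos_iff_eq_zero.1 hβ) hl.1

/-- `ω + 1` new levels, with all the possible new nodes and no new alive nodes -/
noncomputable def ext (hCH : CHy) (t : Tr) : Tr where
  α := t.α + Ordinal.omega0 + 1
  T β := {X | X ∈ t.T β ∨ (t.α < β ∧ β ≤ t.α + Ordinal.omega0 + 1 ∧ X ⊆ Iio β ∧
    X ∩ Iio t.α ∈ t.T t.α)}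
  A := t.A
  lt := kp_add t.lt
  le := by
    rintro β X (h | h)
    · exact (t.le β X h).trans ((le_self_add).trans le_self_add)
    · exact h.2.1
  sub := by
    rintro β X (h | h)
    · exact t.sub β X h
    · exact h.2.2.1
  alive := fun β X hX => Or.inl (t.alive β hX)
  root := Or.inl t.root
  down := by
    rintro β γ X (h | ⟨h1, h2, h3, h4⟩) hγ
    · exact Or.inl (t.down β γ X h hγ)
    · rcases le_or_gt γ t.α with h5 | h5
      · refine Or.inl ?_
        have h6 := t.down t.α γ _ h4 h5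
        rw [tb_inter h5] at h6
        exact h6
      · refine Or.inr ⟨h5, hγ.trans h2, inter_subset_right, ?_⟩
        rw [tb_inter h5.le]
        exact h4
  up := by
    rintro β γ X hX hβγ hγ
    rcases le_or_gt γ t.α with h5 | h5
    · have h6 : X ∈ t.T β := (tb_le (hβγ.trans h5)).1 hX
      obtain ⟨Y, hY, hY'⟩ := t.up β γ X h6 hβγ h5
      exact ⟨Y, Or.inl hY, hY'⟩
    · rcases le_or_gt β t.α with h7 | h7
      · have h6 : X ∈ t.T β := (tb_le h7).1 hX
        obtain ⟨Y, hY, hY'⟩ := t.up β t.α X h6 h7 le_rfl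
        have h8 : Y ⊆ Iio t.α := t.sub _ _ hY
        refine ⟨Y, Or.inr ⟨h5, hγ, h8.trans (Iio_subset_Iio h5.le), ?_⟩, hY'⟩
        rw [inter_eq_left.2 h8]
        exact hY
      · obtain ⟨h1, h2, h3⟩ := (tb_gt h7).1 hX
        exact ⟨X, Or.inr ⟨h5, hγ, h2.trans (Iio_subset_Iio hβγ), h3⟩, inter_eq_left.2 h2⟩
  small := by
    intro β
    by_cases hβ : β ≤ t.α + Ordinal.omega0 + 1
    · refine ((t.small β).union (sm_ext hCH (t.small t.α) (tb_countable hβ))).mono ?_
      rintro X (h | h)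
      · exact Or.inl h
      · exact Or.inr ⟨h.2.2.1, h.2.2.2⟩
    · refine (t.small β).mono ?_
      rintro X (h | h)
      · exact h
      · exact absurd h.2.1 hβ
  full := by
    intro β hβ hc X hX hall
    rcases le_or_gt β t.α with h5 | h5
    · exact Or.inl (t.full β h5 hc X hX fun γ hγ => (tb_le (hγ.le.trans h5)).1 (hall γ hγ))
    · exact Or.inr ⟨h5, hβ, hX, (tb_le le_rfl).1 (hall t.α h5)⟩
  lim := by
    intro β hβ hl hc
    rcases le_or_gt β t.α with h5 | h5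
    · obtain ⟨s, E, h⟩ := t.lim β h5 hl hc
      refine ⟨s, E, h.congr ?_ fun γ _ => rfl⟩
      ext X
      exact tb_le h5
    · exact absurd (cw_between h5 hβ hl) hc

theorem lt_ext (hCH : CHy) (t : Tr) : t.α < (t.ext hCH).α := by
  show t.α < t.α + Ordinal.omega0 + 1
  exact lt_of_le_of_lt le_self_add (Order.lt_succ (t.α + Ordinal.omega0))

theorem add_nat_lt_ext (hCH : CHy) (t : Tr) (n : ℕ) : t.α + n < (t.ext hCH).α := by
  show t.α + n < t.α + Ordinal.omega0 + 1
  refine lt_of_lt_of_le ?_ (le_self_add : t.α + Ordinal.omega0 ≤ t.α + Ordinal.omega0 + 1)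
  exact (add_lt_add_iff_left t.α).2 (Ordinal.natCast_lt_omega0 n)

theorem ext_le (hCH : CHy) (t : Tr) : (t.ext hCH).Le t := by
  refine ⟨(t.lt_ext hCH).le, fun β hβ => ⟨?_, rfl⟩⟩
  ext X
  exact tb_le hβ

theorem mem_ext_top (hCH : CHy) (t : Tr) {X : Set Ordinal.{0}} :
    X ∈ (t.ext hCH).T (t.ext hCH).α ↔ X ⊆ Iio (t.ext hCH).α ∧ X ∩ Iio t.α ∈ t.T t.α := by
  have h := tb_gt (X := X) (t.lt_ext hCH)
  refine h.trans ⟨fun h1 => h1.2, fun h1 => ⟨le_rfl, h1⟩⟩

theorem not_cw_ext (hCH : CHy) (t : Tr) : ¬ Cw (t.ext hCH).α := not_cw_succ _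

theorem not_li_ext (hCH : CHy) (t : Tr) : ¬ Li (t.ext hCH).α := not_li_succ _

end Tr

end Pool.Agent.Lib.MP_5c1789_lcR
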