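import Pool.Agent.Lib.MP_5c1789_lcR.Cond
import Pool.Agent.Lib.MP_5c1789_lcR.TB

/-!
# JOB CA: the trivial condition, restriction to a set of labels
-/

open Set Cardinal

namespace Pool.Agent.Lib.MP_5c1789_lcR

namespace Cd

/-- the condition without labels over the tree of height `0` -/
noncomputable def triv : Cd where
  t := Tr.triv
  D := ∅
  b _ := ∅
  C _ := ∅
  c _ := ∅
  sm := by
    show #(∅ : Set Ordinal.{0}) ≤ aleph 1
    rw [Cardinal.mk_eq_zero]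
    exact zero_le
  node := fun ζ h => absurd h (notMem_empty ζ)
  Cle := fun ζ h => absurd h (notMem_empty ζ)
  clo := fun ζ h => absurd h (notMem_empty ζ)
  al := fun ζ h => absurd h (notMem_empty ζ)
  smc := fun ζ h => absurd h (notMem_empty ζ)
  cmem := fun ζ h => absurd h (notMem_empty ζ)
  cfun := fun ζ h => absurd h (notMem_empty ζ)
  junk := fun ζ h => ⟨rfl, rfl, rfl⟩

instance : Nonempty Cd := ⟨triv⟩

private theorem ca_in {α : Type 1} {S : Set α} {P : Prop} (h : P) : {x | x ∈ S ∧ P} = S := by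
  ext x
  exact ⟨fun hx => hx.1, fun hx => ⟨hx, h⟩⟩

private theorem ca_out {α : Type 1} {S : Set α} {P : Prop} (h : ¬ P) : {x | x ∈ S ∧ P} = ∅ := by
  ext x
  exact ⟨fun hx => absurd hx.2 h, fun hx => absurd hx (notMem_empty x)⟩

/-- the restriction to the labels in `B` -/
def res (q : Cd) (B : Set Ordinal.{0}) : Cd where
  t := q.t
  D := q.D ∩ B
  b ζ := {x | x ∈ q.b ζ ∧ ζ ∈ B}
  C ζ := {x | x ∈ q.C ζ ∧ ζ ∈ B}
  c ζ := {x | x ∈ q.c ζ ∧ ζ ∈ B}
  sm := q.sm.mono inter_subset_left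
  node := fun ζ h => by
    rw [ca_in h.2]
    exact q.node ζ h.1
  Cle := fun ζ h => by
    rw [ca_in h.2]
    exact q.Cle ζ h.1
  clo := fun ζ h => by
    rw [ca_in h.2]
    exact q.clo ζ h.1
  al := fun ζ h => by
    rw [ca_in h.2, ca_in h.2]
    exact q.al ζ h.1
  smc := fun ζ h => by
    rw [ca_in h.2]
    exact q.smc ζ h.1
  cmem := fun ζ h x hx => q.cmem ζ h.1 x hx.1
  cfun := fun ζ h i v v' hv hv' => q.cfun ζ h.1 i v v' hv.1 hv'.1
  junk := fun ζ h => by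
    by_cases hB : ζ ∈ B
    · have h1 : ζ ∉ q.D := fun h2 => h ⟨h2, hB⟩
      obtain ⟨h3, h4, h5⟩ := q.junk ζ h1
      rw [ca_in hB, ca_in hB, ca_in hB]
      exact ⟨h3, h4, h5⟩
    · exact ⟨ca_out hB, ca_out hB, ca_out hB⟩

theorem res_t (q : Cd) (B : Set Ordinal.{0}) : (q.res B).t = q.t := rfl

theorem res_D (q : Cd) (B : Set Ordinal.{0}) : (q.res B).D = q.D ∩ B := rfl

theorem res_b {q : Cd} {B : Set Ordinal.{0}} {ζ : Ordinal.{0}} (h : ζ ∈ B) :
    (q.res B).b ζ = q.b ζ := ca_in h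

theorem res_C {q : Cd} {B : Set Ordinal.{0}} {ζ : Ordinal.{0}} (h : ζ ∈ B) :
    (q.res B).C ζ = q.C ζ := ca_in h

theorem res_c {q : Cd} {B : Set Ordinal.{0}} {ζ : Ordinal.{0}} (h : ζ ∈ B) :
    (q.res B).c ζ = q.c ζ := ca_in h

theorem le_res (q : Cd) (B : Set Ordinal.{0}) : q ≤ q.res B := by
  refine le_def.2 ⟨Tr.Le.refl _, inter_subset_left, fun ζ hζ => ?_⟩
  rw [res_b hζ.2, res_C hζ.2, res_c hζ.2, res_t]
  exact ⟨inter_eq_left.2 (q.t.sub _ _ (q.node ζ hζ.1)), inter_eq_left.2 (q.Cle ζ hζ.1), Subset.rfl⟩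

theorem res_eq_iff {q : Cd} {B : Set Ordinal.{0}} : q.res B = q ↔ q.D ⊆ B := by
  constructor
  · intro h
    have h1 : q.D ∩ B = q.D := congrArg Cd.D h
    exact inter_eq_left.1 h1
  · intro h
    exact ext' rfl (inter_eq_left.2 h) (fun ζ hζ => res_b hζ.2) (fun ζ hζ => res_C hζ.2)
      fun ζ hζ => res_c hζ.2

theorem res_res (q : Cd) (B : Set Ordinal.{0}) : (q.res B).res B = q.res B :=
  res_eq_iff.2 inter_subset_right

theorem res_mono {p q : Cd} (h : q ≤ p) (B : Set Ordinal.{0}) : q.res B ≤ p.res B := by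
  refine le_def.2 ⟨h.1, inter_subset_inter_left B h.2.1, fun ζ hζ => ?_⟩
  rw [res_b hζ.2, res_C hζ.2, res_c hζ.2, res_b hζ.2, res_C hζ.2, res_c hζ.2]
  exact h.2.2 ζ hζ.1

theorem res_le {p q : Cd} {B : Set Ordinal.{0}} (h : q ≤ p) (hp : p.D ⊆ B) : q.res B ≤ p := by
  have h1 := res_mono h B
  rw [res_eq_iff.2 hp] at h1
  exact h1

/-- equality of restrictions -/
theorem res_eq_res {p q : Cd} {B : Set Ordinal.{0}} : p.res B = q.res B ↔
    p.t = q.t ∧ p.D ∩ B = q.D ∩ B ∧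
      ∀ ζ ∈ p.D ∩ B, p.b ζ = q.b ζ ∧ p.C ζ = q.C ζ ∧ p.c ζ = q.c ζ := by
  constructor
  · intro h
    have e1 : (p.res B).t = (q.res B).t := congrArg Cd.t h
    have e2 : (p.res B).D = (q.res B).D := congrArg Cd.D h
    refine ⟨e1, e2, fun ζ hζ => ?_⟩
    have h1 := congrFun (congrArg Cd.b h) ζ
    have h2 := congrFun (congrArg Cd.C h) ζ
    have h3 := congrFun (congrArg Cd.c h) ζ
    rw [res_b hζ.2, res_b hζ.2] at h1
    rw [res_C hζ.2, res_C hζ.2] at h2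
    rw [res_c hζ.2, res_c hζ.2] at h3
    exact ⟨h1, h2, h3⟩
  · rintro ⟨h1, h2, h3⟩
    refine ext' h1 h2 (fun ζ hζ => ?_) (fun ζ hζ => ?_) (fun ζ hζ => ?_)
    · rw [res_b hζ.2, res_b hζ.2]
      exact (h3 ζ hζ).1
    · rw [res_C hζ.2, res_C hζ.2]
      exact (h3 ζ hζ).2.1
    · rw [res_c hζ.2, res_c hζ.2]
      exact (h3 ζ hζ).2.2

end Cd

end Pool.Agent.Lib.MP_5c1789_lcR
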