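import Pool.Agent.Lib.MP_5c1789_lcR.CA

/-!
# JOB CB: amalgamation

`exists_values`: `a.t` is an end extension of `q.t` (`h.1`, the tree of `q.res B` is `q.t`); for
`ζ ∈ q.D` the node `q.b ζ ∈ q.t.T q.t.α = a.t.T q.t.α` extends to the level `a.t.α` by `a.t.up`.

`exists_am`: the condition `r` has the tree `a.t`, the labels `a.D ∪ q.D`, and
`r.b ζ = a.b ζ` for `ζ ∈ B`, `r.b ζ = v ζ` for `ζ ∉ B`, `ζ ∈ q.D`, `∅` otherwise;
`r.C ζ = a.C ζ` for `ζ ∈ B`, `= q.C ζ` for `ζ ∉ B`; the same for `c` (define them as sets, e.g.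
`{x | (ζ ∈ B ∧ x ∈ a.C ζ) ∨ (ζ ∉ B ∧ x ∈ q.C ζ)}`, or with `open Classical` and `if`).
Note: for `ζ ∈ B`: `ζ ∈ r.D ↔ ζ ∈ a.D`, because `q.D ∩ B ⊆ a.D` (`h.2.1`); for `ζ ∉ B`:
`ζ ∈ r.D ↔ ζ ∈ q.D`, because `a.D ⊆ B`.
Fields for `ζ ∉ B`, `ζ ∈ q.D`: `Cle`: `q.C ζ ⊆ Iic q.t.α ⊆ Iic a.t.α`.  `clo`: let `γ ≤ a.t.α` be a
limit point of `q.C ζ`; if `γ ≤ q.t.α` use `q.clo`; if `q.t.α < γ` there would be `y ∈ q.C ζ` with
`q.t.α < y`, contradiction.  `al`: `γ ∈ q.C ζ`, `γ ≤ q.t.α`: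
`v ζ ∩ Iio γ = (v ζ ∩ Iio q.t.α) ∩ Iio γ = q.b ζ ∩ Iio γ ∈ q.t.A γ = a.t.A γ`.
`r ≤ q`: for `ζ ∈ q.D ∩ B` use `a ≤ q.res B` (with `res_b`, `res_C`, `res_c`), for `ζ ∉ B` use `hv`;
`q.C ζ ∩ Iic q.t.α = q.C ζ`.  `r ≤ a`: `ζ ∈ a.D ⊆ B`.  `r.res B = a`: `Cd.ext'`.
-/

open Set Cardinal

namespace Pool.Agent.Lib.MP_5c1789_lcR

namespace Cd

/-- extensions of the nodes exist -/
theorem exists_values (q a : Cd) (B : Set Ordinal.{0}) (h : a ≤ q.res B) :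
    ∃ v : Ordinal.{0} → Set Ordinal.{0}, ∀ ζ ∈ q.D, v ζ ∈ a.t.T a.t.α ∧
      v ζ ∩ Iio q.t.α = q.b ζ := by
  have hL : a.t.Le q.t := h.1
  have key : ∀ ζ ∈ q.D, ∃ Y ∈ a.t.T a.t.α, Y ∩ Iio q.t.α = q.b ζ := by
    intro ζ hζ
    apply a.t.up q.t.α a.t.α (q.b ζ) _ hL.1 le_rfl
    rw [(hL.2 q.t.α le_rfl).1]
    exact q.node ζ hζ
  classical
  refine ⟨fun ζ => if hζ : ζ ∈ q.D then (key ζ hζ).choose else ∅, fun ζ hζ => ?_⟩
  simp only [hζ, dif_pos]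
  exact (key ζ hζ).choose_spec

/-- amalgamation of `q` with an extension `a` of its restriction to `B`; the labels `ζ ∉ B` go to
the nodes `v ζ` -/
theorem exists_am (q a : Cd) (B : Set Ordinal.{0}) (v : Ordinal.{0} → Set Ordinal.{0})
    (h : a ≤ q.res B) (ha : a.D ⊆ B)
    (hv : ∀ ζ ∈ q.D, ζ ∉ B → v ζ ∈ a.t.T a.t.α ∧ v ζ ∩ Iio q.t.α = q.b ζ) :
    ∃ r : Cd, r ≤ q ∧ r ≤ a ∧ r.res B = a ∧ r.t = a.t ∧ r.D = a.D ∪ q.D ∧
      (∀ ζ ∈ B, r.b ζ = a.b ζ ∧ r.C ζ = a.C ζ ∧ r.c ζ = a.c ζ) ∧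
      ∀ ζ ∈ q.D, ζ ∉ B → r.b ζ = v ζ ∧ r.C ζ = q.C ζ ∧ r.c ζ = q.c ζ := by
  classical
  have hL : a.t.Le q.t := h.1
  have hD : q.D ∩ B ⊆ a.D := h.2.1
  have h3 : ∀ ζ ∈ q.D ∩ B, a.b ζ ∩ Iio q.t.α = q.b ζ ∧ a.C ζ ∩ Iic q.t.α = q.C ζ ∧
      q.c ζ ⊆ a.c ζ := by
    intro ζ hζ
    have h4 := h.2.2 ζ hζ
    rw [res_b hζ.2, res_C hζ.2, res_c hζ.2] at h4
    exact h4
  have hDm : ∀ ζ, ζ ∈ B → ζ ∈ a.D ∪ q.D → ζ ∈ a.D := by
    intro ζ hB hζ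
    rcases hζ with h5 | h5
    · exact h5
    · exact hD ⟨h5, hB⟩
  have hDn : ∀ ζ, ζ ∉ B → ζ ∈ a.D ∪ q.D → ζ ∈ q.D := by
    intro ζ hB hζ
    rcases hζ with h5 | h5
    · exact absurd (ha h5) hB
    · exact h5
  refine ⟨{ t := a.t
            D := a.D ∪ q.D
            b := fun ζ => if ζ ∈ B then a.b ζ else if ζ ∈ q.D then v ζ else ∅
            C := fun ζ => if ζ ∈ B then a.C ζ else q.C ζ
            c := fun ζ => if ζ ∈ B then a.c ζ else q.c ζ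
            sm := ?_
            node := ?_
            Cle := ?_
            clo := ?_
            al := ?_
            smc := ?_
            cmem := ?_
            cfun := ?_
            junk := ?_ }, ?_, ?_, ?_, rfl, rfl, ?_, ?_⟩
  · exact (mk_union_le _ _).trans (Cardinal.add_le_of_le (aleph0_le_aleph 1) a.sm q.sm)
  · intro ζ hζ
    by_cases hB : ζ ∈ B
    · simp only [hB, if_true]
      exact a.node ζ (hDm ζ hB hζ)
    · have h6 := hDn ζ hB hζ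
      simp only [hB, if_false, h6, if_true]
      exact (hv ζ h6 hB).1
  · intro ζ hζ
    by_cases hB : ζ ∈ B
    · simp only [hB, if_true]
      exact a.Cle ζ (hDm ζ hB hζ)
    · simp only [hB, if_false]
      exact (q.Cle ζ (hDn ζ hB hζ)).trans (Iic_subset_Iic.2 hL.1)
  · intro ζ hζ
    by_cases hB : ζ ∈ B
    · simp only [hB, if_true]
      exact a.clo ζ (hDm ζ hB hζ)
    · simp only [hB, if_false]
      intro γ hγ hlp
      rcases le_or_gt γ q.t.α with h7 | h7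
      · exact q.clo ζ (hDn ζ hB hζ) γ h7 hlp
      · obtain ⟨y, hy, hy1, _⟩ := hlp.2 q.t.α h7
        exact absurd (q.Cle ζ (hDn ζ hB hζ) hy) (not_le.2 hy1)
  · intro ζ hζ
    by_cases hB : ζ ∈ B
    · simp only [hB, if_true]
      exact a.al ζ (hDm ζ hB hζ)
    · have h6 := hDn ζ hB hζ
      simp only [hB, if_false, h6, if_true]
      intro γ hγ hcw
      have h7 : γ ≤ q.t.α := q.Cle ζ h6 hγ
      have h8 : v ζ ∩ Iio γ = q.b ζ ∩ Iio γ := by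
        rw [← (hv ζ h6 hB).2, inter_assoc, Iio_inter_Iio, inf_eq_right.2 h7]
      rw [h8, (hL.2 γ h7).2]
      exact q.al ζ h6 γ hγ hcw
  · intro ζ hζ
    by_cases hB : ζ ∈ B
    · simp only [hB, if_true]
      exact a.smc ζ (hDm ζ hB hζ)
    · simp only [hB, if_false]
      exact q.smc ζ (hDn ζ hB hζ)
  · intro ζ hζ
    by_cases hB : ζ ∈ B
    · simp only [hB, if_true]
      exact a.cmem ζ (hDm ζ hB hζ)
    · simp only [hB, if_false]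
      exact q.cmem ζ (hDn ζ hB hζ)
  · intro ζ hζ
    by_cases hB : ζ ∈ B
    · simp only [hB, if_true]
      exact a.cfun ζ (hDm ζ hB hζ)
    · simp only [hB, if_false]
      exact q.cfun ζ (hDn ζ hB hζ)
  · intro ζ hζ
    have h8 : ζ ∉ a.D := fun h9 => hζ (Or.inl h9)
    have h9 : ζ ∉ q.D := fun h9 => hζ (Or.inr h9)
    by_cases hB : ζ ∈ B
    · simp only [hB, if_true]
      exact a.junk ζ h8
    · simp only [hB, if_false, h9]
      exact ⟨trivial, (q.junk ζ h9).2⟩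
  · refine le_def.2 ⟨hL, subset_union_right, fun ζ hζ => ?_⟩
    by_cases hB : ζ ∈ B
    · simp only [hB, if_true]
      exact h3 ζ ⟨hζ, hB⟩
    · simp only [hB, if_false, hζ, if_true]
      exact ⟨(hv ζ hζ hB).2, inter_eq_left.2 (q.Cle ζ hζ), Subset.rfl⟩
  · refine le_def.2 ⟨Tr.Le.refl _, subset_union_left, fun ζ hζ => ?_⟩
    have hB : ζ ∈ B := ha hζ
    simp only [hB, if_true]
    exact ⟨inter_eq_left.2 (a.t.sub _ _ (a.node ζ hζ)), inter_eq_left.2 (a.Cle ζ hζ), Subset.rfl⟩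
  · apply ext'
    · rfl
    · rw [res_D]
      apply Subset.antisymm
      · rintro ζ ⟨h1, h2⟩
        exact hDm ζ h2 h1
      · intro ζ h1
        exact ⟨Or.inl h1, ha h1⟩
    · intro ζ hζ
      have hB : ζ ∈ B := hζ.2
      rw [res_b hB]
      simp only [hB, if_true]
    · intro ζ hζ
      have hB : ζ ∈ B := hζ.2
      rw [res_C hB]
      simp only [hB, if_true]
    · intro ζ hζ
      have hB : ζ ∈ B := hζ.2
      rw [res_c hB]
      simp only [hB, if_true]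
  · intro ζ hB
    simp only [hB, if_true]
    exact ⟨trivial, trivial, trivial⟩
  · intro ζ hζ hB
    simp only [hB, if_false, hζ, if_true]
    exact ⟨trivial, trivial, trivial⟩

end Cd

end Pool.Agent.Lib.MP_5c1789_lcR
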