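import Pool.Agent.Lib.MP_5c1789_lcR.CA

/-!
# JOB CC: the extension of a condition by `ω + 1` levels
-/

open Set Cardinal

namespace Pool.Agent.Lib.MP_5c1789_lcR

namespace Cd

private theorem cc_b {D : Set Ordinal.{0}} {b : Set Ordinal.{0}} {R : Set ℕ} {α ζ : Ordinal.{0}}
    (hb : b ⊆ Iio α) (hζ : ζ ∈ D) :
    {x | ζ ∈ D ∧ (x ∈ b ∨ ∃ n ∈ R, x = α + (n : Ordinal.{0}))} ∩ Iio α = b := by
  ext x
  constructor
  · rintro ⟨⟨-, hx | ⟨n, -, rfl⟩⟩, hx'⟩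
    · exact hx
    · exact absurd (mem_Iio.1 hx') (not_lt.2 le_self_add)
  · exact fun hx => ⟨⟨hζ, Or.inl hx⟩, hb hx⟩

/-- the extension by `ω + 1` levels -/
noncomputable def ext (hCH : CHy) (q : Cd) (R : Ordinal.{0} → Set ℕ) : Cd where
  t := q.t.ext hCH
  D := q.D
  b ζ := {x | ζ ∈ q.D ∧ (x ∈ q.b ζ ∨ ∃ n ∈ R ζ, x = q.t.α + (n : Ordinal.{0}))}
  C ζ := {x | ζ ∈ q.D ∧ (x ∈ q.C ζ ∨ x = (q.t.ext hCH).α)}
  c := q.c
  sm := q.sm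
  node := fun ζ h => by
    have hb : q.b ζ ⊆ Iio q.t.α := q.t.sub _ _ (q.node ζ h)
    refine (q.t.mem_ext_top hCH).2 ⟨?_, ?_⟩
    · rintro x ⟨-, hx | ⟨n, -, rfl⟩⟩
      · exact (hb hx : x < q.t.α).trans (q.t.lt_ext hCH)
      · exact q.t.add_nat_lt_ext hCH n
    · rw [cc_b hb h]
      exact q.node ζ h
  Cle := fun ζ h => by
    rintro x ⟨-, hx | rfl⟩
    · exact (q.Cle ζ h hx : x ≤ q.t.α).trans (q.t.lt_ext hCH).le
    · exact le_refl (q.t.ext hCH).α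
  clo := fun ζ h γ hγ hL => by
    have hγ' : γ < (q.t.ext hCH).α := lt_of_le_of_ne hγ fun h1 =>
      q.t.not_li_ext hCH (h1 ▸ hL.li)
    have hL' : LP (q.C ζ) γ := by
      refine ⟨hL.1, fun x hx => ?_⟩
      obtain ⟨y, ⟨-, hy | rfl⟩, hy'⟩ := hL.2 x hx
      · exact ⟨y, hy, hy'⟩
      · exact absurd (hy'.2.trans hγ') (lt_irrefl _)
    have hγ2 : γ ≤ q.t.α := by
      by_contra h1
      obtain ⟨y, hy, hy'⟩ := hL'.2 q.t.α (not_le.1 h1)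
      exact absurd (q.Cle ζ h hy) (not_le.2 hy'.1)
    exact ⟨h, Or.inl (q.clo ζ h γ hγ2 hL')⟩
  al := fun ζ h γ hγ hc => by
    obtain ⟨-, hγ | rfl⟩ := hγ
    · have h1 : γ ≤ q.t.α := q.Cle ζ h hγ
      have h2 := q.al ζ h γ hγ hc
      have h3 : {x | ζ ∈ q.D ∧ (x ∈ q.b ζ ∨ ∃ n ∈ R ζ, x = q.t.α + (n : Ordinal.{0}))} ∩ Iio γ =
          q.b ζ ∩ Iio γ := by
        ext x
        constructor
        · rintro ⟨⟨-, hx | ⟨n, -, rfl⟩⟩, hx'⟩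
          · exact ⟨hx, hx'⟩
          · exact absurd ((hx' : _ < γ).trans_le h1) (not_lt.2 le_self_add)
        · exact fun hx => ⟨⟨h, Or.inl hx.1⟩, hx.2⟩
      rw [h3]
      exact h2
    · exact absurd hc (q.t.not_cw_ext hCH)
  smc := q.smc
  cmem := q.cmem
  cfun := q.cfun
  junk := fun ζ h => ⟨by
      ext x
      exact ⟨fun hx => absurd hx.1 h, fun hx => absurd hx (notMem_empty x)⟩, by
      ext x
      exact ⟨fun hx => absurd hx.1 h, fun hx => absurd hx (notMem_empty x)⟩, (q.junk ζ h).2.2⟩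

theorem ext_t (hCH : CHy) (q : Cd) (R : Ordinal.{0} → Set ℕ) : (q.ext hCH R).t = q.t.ext hCH :=
  rfl

theorem ext_D (hCH : CHy) (q : Cd) (R : Ordinal.{0} → Set ℕ) : (q.ext hCH R).D = q.D := rfl

theorem top_mem_ext (hCH : CHy) (q : Cd) (R : Ordinal.{0} → Set ℕ) {ζ : Ordinal.{0}}
    (hζ : ζ ∈ q.D) : (q.ext hCH R).t.α ∈ (q.ext hCH R).C ζ := ⟨hζ, Or.inr rfl⟩

/-- the zero extension does not change the node -/
theorem ext_b_zero (hCH : CHy) (q : Cd) {R : Ordinal.{0} → Set ℕ} {ζ : Ordinal.{0}}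
    (hζ : ζ ∈ q.D) (hR : R ζ = ∅) : (q.ext hCH R).b ζ = q.b ζ := by
  ext x
  constructor
  · rintro ⟨-, hx | ⟨n, hn, -⟩⟩
    · exact hx
    · rw [hR] at hn
      exact absurd hn (notMem_empty n)
  · exact fun hx => ⟨hζ, Or.inl hx⟩

theorem ext_le (hCH : CHy) (q : Cd) (R : Ordinal.{0} → Set ℕ) : q.ext hCH R ≤ q := by
  refine le_def.2 ⟨q.t.ext_le hCH, Subset.rfl, fun ζ h => ⟨?_, ?_, Subset.rfl⟩⟩
  · exact cc_b (q.t.sub _ _ (q.node ζ h)) h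
  · ext x
    constructor
    · rintro ⟨⟨-, hx | rfl⟩, hx'⟩
      · exact hx
      · exact absurd (q.t.lt_ext hCH) (not_lt.2 hx')
    · exact fun hx => ⟨⟨h, Or.inl hx⟩, q.Cle ζ h hx⟩

private theorem cc_nat {q : Cd} {hCH : CHy} {R : Ordinal.{0} → Set ℕ} {ζ : Ordinal.{0}}
    (h : ζ ∈ q.D) (n : ℕ) : q.t.α + (n : Ordinal.{0}) ∈ (q.ext hCH R).b ζ ↔ n ∈ R ζ := by
  constructor
  · rintro ⟨-, hx | ⟨m, hm, hm'⟩⟩
    · exact absurd (mem_Iio.1 (q.t.sub _ _ (q.node ζ h) hx)) (not_lt.2 le_self_add)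
    · have h1 : (n : Ordinal.{0}) = m := add_left_cancel hm'
      rw [Nat.cast_inj.1 h1]
      exact hm
  · exact fun hn => ⟨h, Or.inr ⟨n, hn, rfl⟩⟩

/-- the part of the new node above `α` -/
theorem ext_b_eq (hCH : CHy) {q q' : Cd} {R R' : Ordinal.{0} → Set ℕ} (ht : q.t = q'.t)
    {ζ ζ' : Ordinal.{0}} (hζ : ζ ∈ q.D) (hζ' : ζ' ∈ q'.D) :
    (q.ext hCH R).b ζ = (q'.ext hCH R').b ζ' ↔ q.b ζ = q'.b ζ' ∧ R ζ = R' ζ' := by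
  constructor
  · intro h
    constructor
    · have h1 := (le_def.1 (q.ext_le hCH R)).2.2 ζ hζ
      have h2 := (le_def.1 (q'.ext_le hCH R')).2.2 ζ' hζ'
      rw [← h1.1, ← h2.1, h, ht]
    · ext n
      rw [← cc_nat (hCH := hCH) hζ, ← cc_nat (hCH := hCH) hζ', h, ht]
  · rintro ⟨h1, h2⟩
    ext x
    constructor
    · rintro ⟨-, hx⟩
      refine ⟨hζ', ?_⟩
      rw [← h1, ← h2, ← ht]
      exact hx
    · rintro ⟨-, hx⟩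
      refine ⟨hζ, ?_⟩
      rw [h1, h2, ht]
      exact hx

theorem ext_res_eq (hCH : CHy) {q q' : Cd} {R R' : Ordinal.{0} → Set ℕ} {B : Set Ordinal.{0}}
    (h : q.res B = q'.res B) (hR : ∀ ζ ∈ q.D ∩ B, R ζ = R' ζ) :
    (q.ext hCH R).res B = (q'.ext hCH R').res B := by
  obtain ⟨h1, h2, h3⟩ := res_eq_res.1 h
  refine res_eq_res.2 ⟨?_, h2, fun ζ hζ => ?_⟩
  · show q.t.ext hCH = q'.t.ext hCH
    rw [h1]
  · obtain ⟨h4, h5, h6⟩ := h3 ζ hζ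
    have hζ' : ζ ∈ q'.D ∩ B := h2 ▸ hζ
    refine ⟨(ext_b_eq hCH h1 hζ.1 hζ'.1).2 ⟨h4, hR ζ hζ⟩, ?_, h6⟩
    ext x
    show (ζ ∈ q.D ∧ (x ∈ q.C ζ ∨ x = (q.t.ext hCH).α)) ↔
      (ζ ∈ q'.D ∧ (x ∈ q'.C ζ ∨ x = (q'.t.ext hCH).α))
    rw [h5, h1]
    exact ⟨fun hx => ⟨hζ'.1, hx.2⟩, fun hx => ⟨hζ.1, hx.2⟩⟩

theorem ext_congr (hCH : CHy) (q : Cd) {R R' : Ordinal.{0} → Set ℕ}
    (hR : ∀ ζ ∈ q.D, R ζ = R' ζ) : q.ext hCH R = q.ext hCH R' :=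
  ext' rfl rfl (fun ζ hζ => (ext_b_eq (q := q) (q' := q) hCH rfl hζ hζ).2 ⟨rfl, hR ζ hζ⟩)
    (fun _ _ => rfl)
    fun _ _ => rfl

end Cd

end Pool.Agent.Lib.MP_5c1789_lcR
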