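import Pool.Agent.Lib.MP_5c1789_lcR.CA

/-!
# JOB CD: new labels, new values
-/

open Set Cardinal

namespace Pool.Agent.Lib.MP_5c1789_lcR

namespace Cd

/-- new labels -/
theorem exists_add (q : Cd) (J : Set Ordinal.{0}) (hJ : Sm J) (hd : ∀ ζ ∈ J, ζ ∉ q.D)
    (Y : Ordinal.{0} → Set Ordinal.{0}) (hY : ∀ ζ ∈ J, Y ζ ∈ q.t.T q.t.α) :
    ∃ r : Cd, r ≤ q ∧ r.t = q.t ∧ r.D = q.D ∪ J ∧ (∀ ζ ∈ J, r.b ζ = Y ζ) ∧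
      ∀ ζ ∈ q.D, r.b ζ = q.b ζ ∧ r.C ζ = q.C ζ ∧ r.c ζ = q.c ζ := by
  have hd' : ∀ ζ ∈ q.D, ζ ∉ J := fun ζ h h' => hd ζ h' h
  have e1 : ∀ ζ ∈ q.D, {x | x ∈ q.b ζ ∨ (ζ ∈ J ∧ x ∈ Y ζ)} = q.b ζ := by
    intro ζ h
    ext x
    exact ⟨fun hx => hx.elim id fun h1 => absurd h1.1 (hd' ζ h), Or.inl⟩
  have e2 : ∀ ζ ∈ J, {x | x ∈ q.b ζ ∨ (ζ ∈ J ∧ x ∈ Y ζ)} = Y ζ := by
    intro ζ h
    ext x
    constructor
    · rintro (hx | hx)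
      · rw [(q.junk ζ (hd ζ h)).1] at hx
        exact absurd hx (notMem_empty x)
      · exact hx.2
    · exact fun hx => Or.inr ⟨h, hx⟩
  refine ⟨⟨q.t, q.D ∪ J, fun ζ => {x | x ∈ q.b ζ ∨ (ζ ∈ J ∧ x ∈ Y ζ)}, q.C, q.c, q.sm.union hJ,
    ?_, ?_, ?_, ?_, ?_, ?_, ?_, ?_⟩, ?_, rfl, rfl, e2, fun ζ h => ⟨e1 ζ h, rfl, rfl⟩⟩
  · rintro ζ (h | h)
    · show {x | x ∈ q.b ζ ∨ (ζ ∈ J ∧ x ∈ Y ζ)} ∈ _
      rw [e1 ζ h]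
      exact q.node ζ h
    · show {x | x ∈ q.b ζ ∨ (ζ ∈ J ∧ x ∈ Y ζ)} ∈ _
      rw [e2 ζ h]
      exact hY ζ h
  · rintro ζ (h | h)
    · exact q.Cle ζ h
    · rw [(q.junk ζ (hd ζ h)).2.1]
      exact empty_subset _
  · rintro ζ (h | h)
    · exact q.clo ζ h
    · rw [(q.junk ζ (hd ζ h)).2.1]
      rintro γ - ⟨h1, h2⟩
      obtain ⟨y, hy, -⟩ := h2 0 (pos_iff_ne_zero.2 h1)
      exact absurd hy (notMem_empty y)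
  · rintro ζ (h | h)
    · show ∀ γ ∈ q.C ζ, Cw γ → {x | x ∈ q.b ζ ∨ (ζ ∈ J ∧ x ∈ Y ζ)} ∩ Iio γ ∈ q.t.A γ
      rw [e1 ζ h]
      exact q.al ζ h
    · intro γ hγ
      have hγ' : γ ∈ q.C ζ := hγ
      rw [(q.junk ζ (hd ζ h)).2.1] at hγ'
      exact absurd hγ' (notMem_empty γ)
  · rintro ζ (h | h)
    · exact q.smc ζ h
    · rw [(q.junk ζ (hd ζ h)).2.2]
      exact sm_empty
  · rintro ζ (h | h)
    · exact q.cmem ζ h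
    · rw [(q.junk ζ (hd ζ h)).2.2]
      exact fun x hx => absurd hx (notMem_empty x)
  · rintro ζ (h | h)
    · exact q.cfun ζ h
    · rw [(q.junk ζ (hd ζ h)).2.2]
      exact fun i v v' hx => absurd hx (notMem_empty _)
  · intro ζ h
    have h1 : ζ ∉ q.D := fun h2 => h (Or.inl h2)
    have h2 : ζ ∉ J := fun h2 => h (Or.inr h2)
    refine ⟨?_, (q.junk ζ h1).2⟩
    ext x
    constructor
    · rintro (hx | hx)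
      · rw [(q.junk ζ h1).1] at hx
        exact hx
      · exact absurd hx.1 h2
    · exact fun hx => absurd hx (notMem_empty x)
  · refine le_def.2 ⟨Tr.Le.refl _, subset_union_left, fun ζ h => ?_⟩
    have h2 := (le_def.1 (le_rfl' q)).2.2 ζ h
    show {x | x ∈ q.b ζ ∨ (ζ ∈ J ∧ x ∈ Y ζ)} ∩ Iio q.t.α = q.b ζ ∧ _
    rw [e1 ζ h]
    exact h2

theorem exists_label (q : Cd) (ζ : Ordinal.{0}) : ∃ r : Cd, r ≤ q ∧ ζ ∈ r.D := by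
  by_cases h : ζ ∈ q.D
  · exact ⟨q, le_rfl' q, h⟩
  · obtain ⟨Y, hY, -⟩ := q.t.up 0 q.t.α ∅ q.t.root zero_le le_rfl
    obtain ⟨r, h1, -, h2, -⟩ := q.exists_add {ζ} (sm_singleton ζ)
      (fun ζ' hζ' => by rw [mem_singleton_iff.1 hζ']; exact h) (fun _ => Y) (fun _ _ => hY)
    exact ⟨r, h1, by rw [h2]; exact Or.inr (mem_singleton ζ)⟩

/-- a new value of `c ζ` -/
theorem exists_val (q : Cd) {ζ : Ordinal.{0}} (hζ : ζ ∈ q.D) {v : Ordinal.{0}} (hv : v < ζ)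
    {i : Ordinal.{0}} (hi : i < kp) (hi' : ∀ u, (i, u) ∉ q.c ζ) :
    ∃ r : Cd, r ≤ q ∧ r.t = q.t ∧ r.D = q.D ∧ (i, v) ∈ r.c ζ ∧
      (∀ η, r.b η = q.b η ∧ r.C η = q.C η) ∧ ∀ η, η ≠ ζ → r.c η = q.c η := by
  have e1 : ∀ η, η ≠ ζ → {x | x ∈ q.c η ∨ (η = ζ ∧ x = (i, v))} = q.c η := by
    intro η h
    ext x
    exact ⟨fun hx => hx.elim id fun h1 => absurd h1.1 h, Or.inl⟩
  refine ⟨⟨q.t, q.D, q.b, q.C, fun η => {x | x ∈ q.c η ∨ (η = ζ ∧ x = (i, v))}, q.sm, q.node,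
    q.Cle, q.clo, q.al, ?_, ?_, ?_, ?_⟩, ?_, rfl, rfl, Or.inr ⟨rfl, rfl⟩, fun η => ⟨rfl, rfl⟩, e1⟩
  · intro η h
    refine ((q.smc η h).union (sm_singleton (i, v))).mono ?_
    rintro x (hx | hx)
    · exact Or.inl hx
    · exact Or.inr hx.2
  · rintro η h x (hx | ⟨rfl, rfl⟩)
    · exact q.cmem η h x hx
    · exact ⟨hi, hv⟩
  · rintro η h j w w' (h1 | ⟨rfl, h1⟩) (h2 | ⟨h3, h2⟩)
    · exact q.cfun η h j w w' h1 h2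
    · obtain ⟨rfl, rfl⟩ := Prod.mk.inj h2
      subst h3
      exact absurd h1 (hi' w)
    · obtain ⟨rfl, rfl⟩ := Prod.mk.inj h1
      exact absurd h2 (hi' w')
    · rw [(Prod.mk.inj h1).2, (Prod.mk.inj h2).2]
  · intro η h
    obtain ⟨h1, h2, h3⟩ := q.junk η h
    refine ⟨h1, h2, ?_⟩
    show {x | x ∈ q.c η ∨ (η = ζ ∧ x = (i, v))} = ∅
    rw [e1 η (fun h4 => h (h4 ▸ hζ))]
    exact h3
  · refine le_def.2 ⟨Tr.Le.refl _, Subset.rfl, fun η h => ?_⟩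
    obtain ⟨h1, h2, -⟩ := (le_def.1 (le_rfl' q)).2.2 η h
    exact ⟨h1, h2, fun x hx => Or.inl hx⟩

theorem exists_free (q : Cd) {ζ : Ordinal.{0}} (hζ : ζ ∈ q.D) :
    ∃ i < kp, ∀ u, (i, u) ∉ q.c ζ := by
  have h1 : Sm (Prod.fst '' q.c ζ) := (q.smc ζ hζ).image Prod.fst
  have h2 : Prod.fst '' q.c ζ ⊆ Iio kp := by
    rintro x ⟨y, hy, rfl⟩
    exact (q.cmem ζ hζ y hy).1
  obtain ⟨i, hi, hi'⟩ := h1.bdd h2
  exact ⟨i, hi, fun u hu => absurd (hi' i ⟨(i, u), hu, rfl⟩) (lt_irrefl i)⟩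

end Cd

end Pool.Agent.Lib.MP_5c1789_lcR
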