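import Pool.Agent.Lib.MP_5c1789_lcR.YA

/-!
# Capturing a branch (definitions)
-/

set_option linter.unusedSimpArgs false

open Set Cardinal

namespace Pool.Agent.Lib.MP_5c1789_lcR

open Pool.Agent.Lib.Forcing Pool.Agent.Lib.MP_40b13d_lc Pool.Agent.Lib.MP_5c1789_lc

/-- an indexing of the labels of `r` outside `B` -/
structure Idx (B : Set Ordinal.{0}) (r : Cd) (I : Set Ordinal.{0})
    (jn : Ordinal.{0} → Ordinal.{0}) : Prop where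
  sub : I ⊆ Iio Pool.Agent.Lib.MP_5c1789_lcR.w1
  mem : ∀ η ∈ I, jn η ∈ r.D
  new : ∀ η ∈ I, jn η ∉ B
  inj : InjOn jn I
  sur : ∀ ζ ∈ r.D, ζ ∉ B → ∃ η ∈ I, jn η = ζ

open Classical in
/-- the tuple of the nodes of `q` with the labels `jn η`, cut at the level `δ` -/
noncomputable def tup (I : Set Ordinal.{0}) (jn : Ordinal.{0} → Ordinal.{0}) (q : Cd)
    (δ : Ordinal.{0}) : Tup := fun η => if η ∈ I then q.b (jn η) ∩ Iio δ else ∅

/-- the system of `y` and `r` -/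
noncomputable def codeOf (B : Set Ordinal.{0}) (y : Name Cd) (r : Cd) (I : Set Ordinal.{0})
    (jn : Ordinal.{0} → Ordinal.{0}) : Code where
  a0 := r.res B
  I := I
  s := tup I jn r r.t.α
  Θ := {x | x.1.D ⊆ B ∧ x.1 ≤ r.res B ∧ IsTup I x.2.1 x.1 ∧
    TExt I r.t.α x.2.1 (tup I jn r r.t.α) ∧
    ∀ q, q ≤ r → q ≤ x.1 → (∀ η ∈ I, q.b (jn η) ∩ Iio x.1.t.α = x.2.1 η) →
      ∀ i < x.2.2.1.1, MemF (opN (chk i) (chk (x.2.2.1.2 i))) y q}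

/-- the state given by the condition `q` and the level `δ` -/
noncomputable def cst (σ : Code) (jn : Ordinal.{0} → Ordinal.{0}) (q : Cd) (δ : Ordinal.{0}) :
    Stt := ⟨σ, δ, tup σ.I jn q δ, {γ | γ ≤ δ ∧ ∀ η ∈ σ.I, γ ∈ q.C (jn η)}⟩

/-- `ξ` is the code of a state given by `q` -/
def Cr (l : Ordinal.{0}) (st : Ordinal.{0} → Stt) (σ : Code) (jn : Ordinal.{0} → Ordinal.{0})
    (r : Cd) (ξ : Ordinal.{0}) (q : Cd) : Prop :=
  q ≤ r ∧ ∃ x, (ξ, x) ∈ q.c l ∧ ∃ δ ≤ q.t.α, (∀ η ∈ σ.I, δ ∈ q.C (jn η)) ∧ st x = cst σ jn q δ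

end Pool.Agent.Lib.MP_5c1789_lcR
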