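import Pool.Agent.Lib.MP_5c1789_lcR.Tree

/-!
# Conditions (definitions)

A condition consists of a tree `t` of height `α`, a set `D` of labels and for every label `ζ ∈ D` a
node `b ζ` of the top level, a closed set `C ζ ⊆ α + 1` of levels at which this node is alive and
a partial function `c ζ` from `ω₂` to `ζ`.
-/

open Set Cardinal

namespace Pool.Agent.Lib.MP_5c1789_lcR

structure Cd where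
  t : Tr
  D : Set Ordinal.{0}
  b : Ordinal.{0} → Set Ordinal.{0}
  C : Ordinal.{0} → Set Ordinal.{0}
  c : Ordinal.{0} → Set (Ordinal.{0} × Ordinal.{0})
  sm : Sm D
  node : ∀ ζ ∈ D, b ζ ∈ t.T t.α
  Cle : ∀ ζ ∈ D, C ζ ⊆ Iic t.α
  clo : ∀ ζ ∈ D, ∀ γ ≤ t.α, LP (C ζ) γ → γ ∈ C ζ
  al : ∀ ζ ∈ D, ∀ γ ∈ C ζ, Cw γ → b ζ ∩ Iio γ ∈ t.A γ
  smc : ∀ ζ ∈ D, Sm (c ζ)
  cmem : ∀ ζ ∈ D, ∀ x ∈ c ζ, x.1 < kp ∧ x.2 < ζ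
  cfun : ∀ ζ ∈ D, ∀ i v v', (i, v) ∈ c ζ → (i, v') ∈ c ζ → v = v'
  junk : ∀ ζ, ζ ∉ D → b ζ = ∅ ∧ C ζ = ∅ ∧ c ζ = ∅

namespace Cd

instance : LE Cd := ⟨fun q p => q.t.Le p.t ∧ p.D ⊆ q.D ∧ ∀ ζ ∈ p.D,
  q.b ζ ∩ Iio p.t.α = p.b ζ ∧ q.C ζ ∩ Iic p.t.α = p.C ζ ∧ p.c ζ ⊆ q.c ζ⟩

theorem le_def {p q : Cd} : q ≤ p ↔ q.t.Le p.t ∧ p.D ⊆ q.D ∧ ∀ ζ ∈ p.D,
    q.b ζ ∩ Iio p.t.α = p.b ζ ∧ q.C ζ ∩ Iic p.t.α = p.C ζ ∧ p.c ζ ⊆ q.c ζ := Iff.rfl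

theorem le_rfl' (p : Cd) : p ≤ p :=
  ⟨Tr.Le.refl _, Subset.rfl, fun ζ hζ =>
    ⟨inter_eq_left.2 (p.t.sub _ _ (p.node ζ hζ)), inter_eq_left.2 (p.Cle ζ hζ), Subset.rfl⟩⟩

theorem le_trans' {r q p : Cd} (h : r ≤ q) (h' : q ≤ p) : r ≤ p := by
  refine ⟨h.1.trans h'.1, h'.2.1.trans h.2.1, fun ζ hζ => ?_⟩
  obtain ⟨h1, h2, h3⟩ := h.2.2 ζ (h'.2.1 hζ)
  obtain ⟨h4, h5, h6⟩ := h'.2.2 ζ hζ
  refine ⟨?_, ?_, h6.trans h3⟩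
  · rw [← h4, ← h1, inter_assoc, Iio_inter_Iio, inf_eq_right.2 h'.1.1]
  · rw [← h5, ← h2, inter_assoc, Iic_inter_Iic, inf_eq_right.2 h'.1.1]

instance : Preorder Cd where
  le_refl p := le_rfl' p
  le_trans _ _ _ h h' := le_trans' h h'

/-- conditions with the same data are equal -/
theorem ext' {p q : Cd} (h1 : p.t = q.t) (h2 : p.D = q.D) (h3 : ∀ ζ ∈ p.D, p.b ζ = q.b ζ)
    (h4 : ∀ ζ ∈ p.D, p.C ζ = q.C ζ) (h5 : ∀ ζ ∈ p.D, p.c ζ = q.c ζ) : p = q := by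
  have e3 : p.b = q.b := by
    funext ζ
    by_cases h : ζ ∈ p.D
    · exact h3 ζ h
    · rw [(p.junk ζ h).1, (q.junk ζ (h2 ▸ h)).1]
  have e4 : p.C = q.C := by
    funext ζ
    by_cases h : ζ ∈ p.D
    · exact h4 ζ h
    · rw [(p.junk ζ h).2.1, (q.junk ζ (h2 ▸ h)).2.1]
  have e5 : p.c = q.c := by
    funext ζ
    by_cases h : ζ ∈ p.D
    · exact h5 ζ h
    · rw [(p.junk ζ h).2.2, (q.junk ζ (h2 ▸ h)).2.2]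
  cases p
  cases q
  simp only [Cd.mk.injEq]
  exact ⟨h1, h2, e3, e4, e5⟩

end Cd

end Pool.Agent.Lib.MP_5c1789_lcR
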