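import Pool.Agent.Lib.MP_5c1789_lcR.Fam

/-!
# JOB FC: the extension of a family along a section

Let `α = x.g.t.α`, `f0 : ι` arbitrary, `t1 = (Q1 f0).t` (all `(Q1 f).t` are equal: `hB` and
`Cd.res_eq_res`), `α1 = t1.α`; `t1.Le x.g.t` (from `h1`, `x.tree`).
Section: for `X ∈ x.g.t.T α` let `e X = (Q1 f).b ζ` if `X = (x.Q f).b ζ` for some `f` and `ζ ∈ (x.Q f).D`
(choose; it does not
depend on the choice by `hs`), and otherwise some extension of `X` in the level `α1` (`t1.up`).  In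
both cases
`e X ∈ t1.T α1` and `e X ∩ Iio α = X`.  So `e ((x.Q f).b ζ) = (Q1 f).b ζ` for all `f`, `ζ ∈ (x.Q f).D`.
`g'` from `Gd.exists_step`, with `g'.t = t1.ext hCH`.
Reals: for a set `D` with `Sm D` let `ρ D : Ordinal → Set ℕ` be injective on `D` (`exists_reals`; choose a
function of
the set `D`, e.g. `ρ D = if h : Sm D then choose else fun _ => ∅`).  Let
`R f ζ = ∅` if `ζ ∈ (x.Q f).D`; otherwise `R f ζ = {n | n = 0 ∨ ∃ m ∈ ρ ((Q1 f).D) ζ, n = m + 2}` if `ζ ∈ B`... more precisely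
use `ρ ((Q1 f).D ∩ B)` for `ζ ∈ B` (this set does not depend on `f`, `hB`), and for `ζ ∉ B`:
`R f ζ = {n | n = 1 ∨ ∃ m ∈ ρ ((Q1 f).D \\ B) ζ, n = m + 2}`.
So for `ζ, ζ' ∈ (Q1 f).D`, both new (not in `(x.Q f).D`): `R f ζ = R f ζ'` implies `ζ = ζ'` (look at
`0`: both in `B` or
both outside; then `ρ` is injective); and `R f ζ ≠ ∅` for new labels.
`y.g = g'`, `y.Q f = (Q1 f).ext hCH (R f)`.
* `tree`: `ext_t`.  `inj`: `ext_b_eq` with `q = q' = Q1 f`: `(Q1 f).b ζ = (Q1 f).b ζ'` and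
  `R f ζ = R f ζ'`.  If both are old:
  intersect with `Iio α` (`h1 f`): `(x.Q f).b ζ = (x.Q f).b ζ'`, `x.inj f`.  One old and one new:
  impossible.  Both new: above.
* `com`: `ext_res_eq` (`hB`), with `R f ζ = R f' ζ` for `ζ ∈ (Q1 f).D ∩ B`: `ζ ∈ (x.Q f).D ↔ ζ ∈ (x.Q f').D`
  for `ζ ∈ B` by
  `x.com` and `res_eq_res`, and `(Q1 f).D ∩ B = (Q1 f').D ∩ B`.
* `Fol`: `y.Q f ≤ Q1 f ≤ x.Q f` (`ext_le`, `h1`); for `ζ ∈ (x.Q f).D`: `(y.Q f).b ζ = (Q1 f).b ζ`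
  (`ext_b_zero`, the real is `∅`)
  `= e ((x.Q f).b ζ)`, and `g'.s (e X) ≤ α`.
* last claim: `R f` depends only on `x.Q f` and `Q1 f` (and `B`), so if `x.Q f = x.Q f'` and
  `Q1 f = Q1 f'` then
  `y.Q f = y.Q f'` (write `R` as a function of the two conditions).
-/

open Set Cardinal

namespace Pool.Agent.Lib.MP_5c1789_lcR

variable {ι : Type 1} {B : Set Ordinal.{0}}

/-- the real of the label `ζ` -/
private def fc_R (B : Set Ordinal.{0}) (ρ : Set Ordinal.{0} → Ordinal.{0} → Set ℕ) (q q1 : Cd)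
    (ζ : Ordinal.{0}) : Set ℕ :=
  {n | ζ ∉ q.D ∧ ((ζ ∈ B ∧ (n = 0 ∨ ∃ m ∈ ρ (q1.D ∩ B) ζ, n = m + 2)) ∨
    (ζ ∉ B ∧ (n = 1 ∨ ∃ m ∈ ρ (q1.D \ B) ζ, n = m + 2)))}

private theorem fc_R_old {ρ : Set Ordinal.{0} → Ordinal.{0} → Set ℕ} {q q1 : Cd}
    {ζ : Ordinal.{0}} (h : ζ ∈ q.D) : fc_R B ρ q q1 ζ = ∅ :=
  eq_empty_iff_forall_notMem.2 fun _ hn => hn.1 h

private theorem fc_R_zero {ρ : Set Ordinal.{0} → Ordinal.{0} → Set ℕ} {q q1 : Cd}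
    {ζ : Ordinal.{0}} : 0 ∈ fc_R B ρ q q1 ζ ↔ ζ ∉ q.D ∧ ζ ∈ B := by
  constructor
  · rintro ⟨h1, ⟨h2, _⟩ | ⟨_, h3 | ⟨m, _, h3⟩⟩⟩
    · exact ⟨h1, h2⟩
    · omega
    · omega
  · rintro ⟨h1, h2⟩
    exact ⟨h1, Or.inl ⟨h2, Or.inl rfl⟩⟩

private theorem fc_R_one {ρ : Set Ordinal.{0} → Ordinal.{0} → Set ℕ} {q q1 : Cd}
    {ζ : Ordinal.{0}} : 1 ∈ fc_R B ρ q q1 ζ ↔ ζ ∉ q.D ∧ ζ ∉ B := by
  constructor
  · rintro ⟨h1, ⟨_, h3 | ⟨m, _, h3⟩⟩ | ⟨h2, _⟩⟩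
    · omega
    · omega
    · exact ⟨h1, h2⟩
  · rintro ⟨h1, h2⟩
    exact ⟨h1, Or.inr ⟨h2, Or.inl rfl⟩⟩

private theorem fc_R_in {ρ : Set Ordinal.{0} → Ordinal.{0} → Set ℕ} {q q1 : Cd}
    {ζ : Ordinal.{0}} (h : ζ ∉ q.D) (hB : ζ ∈ B) (m : ℕ) :
    m + 2 ∈ fc_R B ρ q q1 ζ ↔ m ∈ ρ (q1.D ∩ B) ζ := by
  constructor
  · rintro ⟨_, ⟨_, h3 | ⟨m', h4, h3⟩⟩ | ⟨h2, _⟩⟩
    · omega
    · have h5 : m = m' := by omega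
      rw [h5]
      exact h4
    · exact absurd hB h2
  · intro h1
    exact ⟨h, Or.inl ⟨hB, Or.inr ⟨m, h1, rfl⟩⟩⟩

private theorem fc_R_out {ρ : Set Ordinal.{0} → Ordinal.{0} → Set ℕ} {q q1 : Cd}
    {ζ : Ordinal.{0}} (h : ζ ∉ q.D) (hB : ζ ∉ B) (m : ℕ) :
    m + 2 ∈ fc_R B ρ q q1 ζ ↔ m ∈ ρ (q1.D \ B) ζ := by
  constructor
  · rintro ⟨_, ⟨h2, _⟩ | ⟨_, h3 | ⟨m', h4, h3⟩⟩⟩
    · exact absurd h2 hB
    · omega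
    · have h5 : m = m' := by omega
      rw [h5]
      exact h4
  · intro h1
    exact ⟨h, Or.inr ⟨hB, Or.inr ⟨m, h1, rfl⟩⟩⟩

/-- the reals separate a new label from the other labels -/
private theorem fc_R_inj {ρ : Set Ordinal.{0} → Ordinal.{0} → Set ℕ}
    (hρ : ∀ D, Sm D → InjOn (ρ D) D) {q q1 : Cd} {ζ ζ' : Ordinal.{0}} (hζ : ζ ∈ q1.D)
    (hζ' : ζ' ∈ q1.D) (hn : ζ ∉ q.D) (h : fc_R B ρ q q1 ζ = fc_R B ρ q q1 ζ') : ζ = ζ' := by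
  by_cases hb : ζ ∈ B
  · have h1 : 0 ∈ fc_R B ρ q q1 ζ := fc_R_zero.2 ⟨hn, hb⟩
    rw [h] at h1
    obtain ⟨hn', hb'⟩ := fc_R_zero.1 h1
    refine hρ (q1.D ∩ B) (q1.sm.mono inter_subset_left) ⟨hζ, hb⟩ ⟨hζ', hb'⟩ ?_
    ext m
    rw [← fc_R_in hn hb m, ← fc_R_in hn' hb' m, h]
  · have h1 : 1 ∈ fc_R B ρ q q1 ζ := fc_R_one.2 ⟨hn, hb⟩
    rw [h] at h1
    obtain ⟨hn', hb'⟩ := fc_R_one.1 h1
    refine hρ (q1.D \ B) (q1.sm.mono sdiff_subset) ⟨hζ, hb⟩ ⟨hζ', hb'⟩ ?_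
    ext m
    rw [← fc_R_out hn hb m, ← fc_R_out hn' hb' m, h]

/-- the section -/
private theorem fc_section [Nonempty ι] (x : Fam ι B) (Q1 : ι → Cd)
    (h1 : ∀ f, Q1 f ≤ x.Q f) {t1 : Tr} (ht1 : ∀ f, (Q1 f).t = t1)
    (hs : ∀ f f' ζ ζ', ζ ∈ (x.Q f).D → ζ' ∈ (x.Q f').D → (x.Q f).b ζ = (x.Q f').b ζ' →
      (Q1 f).b ζ = (Q1 f').b ζ') :
    ∃ e : Set Ordinal.{0} → Set Ordinal.{0},
      (∀ X ∈ x.g.t.T x.g.t.α, e X ∈ t1.T t1.α ∧ e X ∩ Iio x.g.t.α = X) ∧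
      ∀ f ζ, ζ ∈ (x.Q f).D → e ((x.Q f).b ζ) = (Q1 f).b ζ := by
  obtain ⟨f0⟩ := (inferInstance : Nonempty ι)
  have hle : t1.Le x.g.t := by
    have h2 := (h1 f0).1
    rw [ht1, x.tree] at h2
    exact h2
  have key : ∀ X : Set Ordinal.{0}, ∃ Y : Set Ordinal.{0},
      (X ∈ x.g.t.T x.g.t.α → Y ∈ t1.T t1.α ∧ Y ∩ Iio x.g.t.α = X) ∧
      ∀ f ζ, ζ ∈ (x.Q f).D → (x.Q f).b ζ = X → Y = (Q1 f).b ζ := by
    intro X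
    by_cases hX : ∃ f ζ, ζ ∈ (x.Q f).D ∧ (x.Q f).b ζ = X
    · obtain ⟨f, ζ, hζ, hb⟩ := hX
      refine ⟨(Q1 f).b ζ, fun _ => ⟨?_, ?_⟩, fun f' ζ' hζ' hb' =>
        hs f f' ζ ζ' hζ hζ' (hb.trans hb'.symm)⟩
      · have h2 := (Q1 f).node ζ ((h1 f).2.1 hζ)
        rw [ht1] at h2
        exact h2
      · have h2 := ((h1 f).2.2 ζ hζ).1
        rw [x.tree, hb] at h2
        exact h2
    · by_cases hX' : X ∈ x.g.t.T x.g.t.α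
      · have h2 : X ∈ t1.T x.g.t.α := by
          rw [(hle.2 x.g.t.α le_rfl).1]
          exact hX'
        obtain ⟨Y, hY, hY'⟩ := t1.up x.g.t.α t1.α X h2 hle.1 le_rfl
        exact ⟨Y, fun _ => ⟨hY, hY'⟩, fun f ζ hζ hb => absurd ⟨f, ζ, hζ, hb⟩ hX⟩
      · exact ⟨∅, fun h => absurd h hX', fun f ζ hζ hb => absurd ⟨f, ζ, hζ, hb⟩ hX⟩
  choose e he using key
  exact ⟨e, fun X hX => (he X).1 hX, fun f ζ hζ => (he _).2 f ζ hζ rfl⟩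

/-- the extension of a family along a section -/
theorem Fam.exists_step (hCH : CHy) [Nonempty ι] (x : Fam ι B) (Q1 : ι → Cd)
    (h1 : ∀ f, Q1 f ≤ x.Q f)
    (hB : ∀ f f', (Q1 f).res B = (Q1 f').res B)
    (hs : ∀ f f' ζ ζ', ζ ∈ (x.Q f).D → ζ' ∈ (x.Q f').D → (x.Q f).b ζ = (x.Q f').b ζ' →
      (Q1 f).b ζ = (Q1 f').b ζ') :
    ∃ y : Fam ι B, y.Lt x ∧ (∀ f, y.Q f ≤ Q1 f) ∧
      ∀ f f', x.Q f = x.Q f' → Q1 f = Q1 f' → y.Q f = y.Q f' := by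
  obtain ⟨f0⟩ := (inferInstance : Nonempty ι)
  obtain ⟨t1, ht1⟩ : ∃ t1 : Tr, ∀ f, (Q1 f).t = t1 :=
    ⟨(Q1 f0).t, fun f => (Cd.res_eq_res.1 (hB f f0)).1⟩
  have hle : t1.Le x.g.t := by
    have h2 := (h1 f0).1
    rw [ht1, x.tree] at h2
    exact h2
  obtain ⟨e, he1, he2⟩ := fc_section x Q1 h1 ht1 hs
  obtain ⟨g', hg1, hg2, hg3⟩ := Gd.exists_step hCH x.g t1 hle e he1
  have hρ0 : ∀ D : Set Ordinal.{0}, ∃ r : Ordinal.{0} → Set ℕ, Sm D → InjOn r D := by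
    intro D
    by_cases hD : Sm D
    · obtain ⟨r, hr⟩ := exists_reals hD
      exact ⟨r, fun _ => hr⟩
    · exact ⟨fun _ => ∅, fun h => absurd h hD⟩
  choose ρ hρ using hρ0
  refine ⟨⟨g', fun f => (Q1 f).ext hCH (fc_R B ρ (x.Q f) (Q1 f)), ?_, ?_, ?_⟩, ⟨hg1, ?_⟩, ?_, ?_⟩
  · intro f
    rw [Cd.ext_t, ht1 f, hg2]
  · intro f ζ hζ ζ' hζ' hbb
    have hζ1 : ζ ∈ (Q1 f).D := hζ
    have hζ1' : ζ' ∈ (Q1 f).D := hζ'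
    obtain ⟨h2, h3⟩ := (Cd.ext_b_eq hCH rfl hζ1 hζ1').1 hbb
    by_cases hn : ζ ∈ (x.Q f).D
    · by_cases hn' : ζ' ∈ (x.Q f).D
      · apply x.inj f hn hn'
        rw [← ((h1 f).2.2 ζ hn).1, ← ((h1 f).2.2 ζ' hn').1, h2]
      · exact (fc_R_inj hρ hζ1' hζ1 hn' h3.symm).symm
    · exact fc_R_inj hρ hζ1 hζ1' hn h3
  · intro f f'
    refine Cd.ext_res_eq hCH (hB f f') fun ζ hζ => ?_
    have h2 : (Q1 f).D ∩ B = (Q1 f').D ∩ B := (Cd.res_eq_res.1 (hB f f')).2.1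
    have h3 : (x.Q f).D ∩ B = (x.Q f').D ∩ B := (Cd.res_eq_res.1 (x.com f f')).2.1
    have h4 : ζ ∈ (x.Q f).D ↔ ζ ∈ (x.Q f').D := by
      constructor
      · intro h
        have h5 : ζ ∈ (x.Q f').D ∩ B := h3 ▸ ⟨h, hζ.2⟩
        exact h5.1
      · intro h
        have h5 : ζ ∈ (x.Q f).D ∩ B := h3 ▸ ⟨h, hζ.2⟩
        exact h5.1
    have h5 : ζ ∉ B ↔ False := ⟨fun h => h hζ.2, False.elim⟩
    unfold fc_R
    rw [h2]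
    ext n
    simp only [mem_ofPred_eq, h4, h5, false_and, or_false]
  · intro f
    refine ⟨(Cd.ext_le hCH _ _).trans (h1 f), fun ζ hζ => ?_⟩
    have h2 : ((Q1 f).ext hCH (fc_R B ρ (x.Q f) (Q1 f))).b ζ = (Q1 f).b ζ :=
      Cd.ext_b_zero hCH _ ((h1 f).2.1 hζ) (fc_R_old hζ)
    have h3 : (x.Q f).b ζ ∈ x.g.t.T x.g.t.α := by
      have h4 := (x.Q f).node ζ hζ
      rw [x.tree] at h4
      exact h4
    have h5 := hg3 _ h3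
    rw [he2 f ζ hζ] at h5
    change g'.s (((Q1 f).ext hCH (fc_R B ρ (x.Q f) (Q1 f))).b ζ) ≤ x.g.t.α
    rw [h2]
    exact h5
  · intro f
    exact Cd.ext_le hCH _ _
  · intro f f' h2 h3
    change (Q1 f).ext hCH (fc_R B ρ (x.Q f) (Q1 f)) = (Q1 f').ext hCH (fc_R B ρ (x.Q f') (Q1 f'))
    rw [h2, h3]

end Pool.Agent.Lib.MP_5c1789_lcR
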