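import Pool.Agent.Lib.MP_5c1789_lcR.FB
import Pool.Agent.Lib.MP_5c1789_lcR.FC

/-!
# JOB FD: initial families, distributivity

* `Fam.exists_init`: `q' = q.ext hCH R` where `R` is injective on `q.D` (`exists_reals q.sm`); `g` from
  `Gd.exists_init hCH q.t`; `Q f = q'` for all `f`; `inj`: `ext_b_eq`.
* `dist`: if `S` is empty take `q = p`.  Otherwise enumerate `S` by `e` (`Sm.enum`).  Apply `tdc` with
  `X = Fam PUnit ∅`, `R = Fam.Lt`, `D i x := D (e i) (x.Q ⟨⟩)` for `i < w1` (for `i ≥ w1`: define it as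
  `i < w1 → ...`), `mono` by `Fam.Lt.le`, `lim` by
  `Fam.exists_lim`, `x0` from `Fam.exists_init` with `x0.Q _ = q' ≤ p`.
  `step`: for `x` choose `q1 ≤ x.Q ⟨⟩` with `D (e i) q1` (`dense`), then `Fam.exists_step` with
  `Q1 = fun _ => q1`; `hs`: if `(x.Q _).b ζ = (x.Q _).b ζ'` then `ζ = ζ'` by `x.inj`; the result satisfies
  `y.Q ⟨⟩ ≤ q1`, `mono`.
  The final `y` gives `q = y.Q ⟨⟩ ≤ q' ≤ p` with `D (e i) q` for all `i < w1`, and every `a ∈ S` is some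
  `e i`.
* `exists_height`: strong induction on `x < kp`: by `dist` with `S = Iio x` (`sm_Iio`) and
  `D i q := i < q.t.α` there is `q ≤ p` with `i < q.t.α` for all `i < x`; so `x ≤ q.t.α` (otherwise take
  `i = q.t.α`); then `q.ext hCH (fun _ => ∅) ≤ q` has a larger height (`Tr.lt_ext`).
-/

open Set Cardinal

namespace Pool.Agent.Lib.MP_5c1789_lcR

theorem Fam.exists_init (hCH : CHy) {ι : Type 1} {B : Set Ordinal.{0}} (q : Cd) :
    ∃ x : Fam ι B, ∃ q', q' ≤ q ∧ ∀ f, x.Q f = q' := by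
  obtain ⟨R, hR⟩ := exists_reals q.sm
  obtain ⟨g, hg⟩ := Gd.exists_init hCH q.t
  refine ⟨⟨g, fun _ => q.ext hCH R, fun _ => ?_, fun _ => ?_, fun _ _ => rfl⟩, q.ext hCH R,
    Cd.ext_le hCH q R, fun _ => rfl⟩
  · exact (Cd.ext_t hCH q R).trans hg.symm
  · intro ζ hζ ζ' hζ' hb
    have hζ1 : ζ ∈ q.D := by
      rw [← Cd.ext_D hCH q R]
      exact hζ
    have hζ2 : ζ' ∈ q.D := by
      rw [← Cd.ext_D hCH q R]
      exact hζ'
    exact hR hζ1 hζ2 ((Cd.ext_b_eq hCH rfl hζ1 hζ2).1 hb).2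

/-- distributivity -/
theorem dist (hCH : CHy) {α : Type 1} (S : Set α) (hS : Sm S) (D : α → Cd → Prop)
    (mono : ∀ a ∈ S, ∀ p q, D a p → q ≤ p → D a q)
    (dense : ∀ a ∈ S, ∀ p, ∃ q, q ≤ p ∧ D a q) (p : Cd) :
    ∃ q, q ≤ p ∧ ∀ a ∈ S, D a q := by
  rcases S.eq_empty_or_nonempty with rfl | hne
  · exact ⟨p, le_refl p, fun a ha => absurd ha (notMem_empty a)⟩
  obtain ⟨e, he, hsurj⟩ := hS.enum hne
  obtain ⟨x0, q', hq', hx0⟩ := Fam.exists_init (ι := PUnit.{2}) (B := ∅) hCH p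
  obtain ⟨y, hy1, hy2⟩ := tdc (X := Fam PUnit.{2} ∅) Fam.Lt
    (fun x y z hzy hyx => Fam.Lt.trans hzy hyx)
    (fun i x => i < w1 → D (e i) (x.Q PUnit.unit))
    (fun i x y h hyx hi => mono (e i) (he i hi) _ _ (h hi) (Fam.Lt.le hyx PUnit.unit))
    (fun i hi x => by
      obtain ⟨q1, hq1, hD⟩ := dense (e i) (he i hi) (x.Q PUnit.unit)
      obtain ⟨y, h1, h2, -⟩ := Fam.exists_step hCH x (fun _ => q1) (fun _ => hq1)
        (fun _ _ => rfl) (fun f f' ζ ζ' hζ hζ' hb => by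
          have h3 : ζ = ζ' := x.inj PUnit.unit hζ hζ' hb
          rw [h3])
      exact ⟨y, h1, fun _ => mono (e i) (he i hi) _ _ hD (h2 PUnit.unit)⟩)
    (fun δ hδ hδ' x hx => by
      obtain ⟨y, hy, -⟩ := Fam.exists_lim hCH hδ hδ' x hx
      exact ⟨y, hy⟩) x0
  refine ⟨y.Q PUnit.unit, ?_, fun a ha => ?_⟩
  · have h1 : y.Q PUnit.unit ≤ x0.Q PUnit.unit := Fam.Lt.le hy1 PUnit.unit
    rw [hx0] at h1
    exact le_trans h1 hq'
  · obtain ⟨i, hi, rfl⟩ := hsurj a ha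
    exact hy2 i hi hi

theorem exists_height (hCH : CHy) {x : Ordinal.{0}} (hx : x < kp) (p : Cd) :
    ∃ q, q ≤ p ∧ x < q.t.α := by
  induction x using WellFoundedLT.induction generalizing p with
  | ind x ih =>
    obtain ⟨q, hq, h1⟩ := dist hCH (Iio x) (sm_Iio hx) (fun i q => i < q.t.α)
      (fun a _ p q h hqp => lt_of_lt_of_le h hqp.1.1)
      (fun a ha p => ih a ha (lt_trans ha hx) p) p
    have h2 : x ≤ q.t.α := by
      by_contra hcon
      exact lt_irrefl _ (h1 q.t.α (not_le.1 hcon))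
    refine ⟨q.ext hCH (fun _ => ∅), le_trans (Cd.ext_le hCH q _) hq, ?_⟩
    rw [Cd.ext_t]
    exact lt_of_le_of_lt h2 (Tr.lt_ext hCH q.t)

end Pool.Agent.Lib.MP_5c1789_lcR
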