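import Pool.Agent.Lib.MP_5c1789_lcR.NA
import Pool.Agent.Lib.MP_5c1789_lcR.FD

/-!
# JOB DA: deciding functions

* `decide_seg`: as in `not_surj_omega` of `Pool/Agent/Lib/MP_5c1789_lc/Ords.lean` with `dist`
  (`S = Iio a`, `sm_Iio ha`) instead of `Cnd.distr`:
  `D x q := (∃ v < k, MemF (opN (chk x) (chk v)) τ q) ∨ ∀ r, r ≤ q → ¬ r ≤ p`.  Density by
  `decide_value` (in `Ords.lean`, with `s = Iio k`, `chk_chS`).  Then choose the values.
* `decide_fun`: a function has values at the `chk x`, `x < a` (`mod_chk_mem`, `IsFun`), `decide_seg`,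
  `eq_fN_of_values`.
* `decide_seq`: from `h`: `forces_iff`, `forces_ex`: there are `r ≤ p` and a name `ρ` with
  `Forces (.fand (.fmem 0 2) (dFun 1 0 2)) (cons ρ (cons τ fun _ => chk kp)) r`; `memF_chk`: `t ≤ r` and
  `a < kp` with
  `EqF ρ (chk a) t`; so below `t`, `τ` is a function from `chk a` to `chk kp` (`cl_congr`); `decide_fun`.
* `decide_below`: the function `τ` has values at `chk x`, `x < a < kp` (`mod_chk_mem`); `decide_seg`.
-/

set_option linter.unusedSimpArgs false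

open Set Cardinal

namespace Pool.Agent.Lib.MP_5c1789_lcR

open Pool.Agent.Lib.Forcing Pool.Agent.Lib.MP_40b13d_lc Pool.Agent.Lib.MP_5c1789_lc

/-- the values of a function on `a < ω₂` can be decided -/
theorem decide_seg (hCH : CHy) {a k : Ordinal.{0}} (ha : a < kp) {τ : Name Cd} {p : Cd}
    (h : ∀ x < a, ∀ V : GenUlt Cd, V.Has p →
      ∃ y, ModE V y (V.cl (chk k)) ∧ IsApp (ModE V) (V.cl τ) (V.cl (chk x)) y) :
    ∃ q, q ≤ p ∧ ∃ s : Ordinal.{0} → Ordinal.{0}, (∀ x < a, s x < k) ∧ (∀ x, a ≤ x → s x = 0) ∧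
      ∀ x < a, MemF (opN (chk x) (chk (s x))) τ q := by
  classical
  obtain ⟨q, hq, hD⟩ := dist hCH (α := Ordinal.{0}) (Iio a) (sm_Iio ha)
    (fun x p' => (∃ v < k, MemF (opN (chk x) (chk v)) τ p') ∨ ∀ r, r ≤ p' → ¬ r ≤ p)
    (by
      rintro x _ p' q (⟨i, hi, h1⟩ | h1) hq
      · exact Or.inl ⟨i, hi, h1.mono hq⟩
      · exact Or.inr fun r hr => h1 r (hr.trans hq))
    (by
      intro x hx p'
      by_cases h1 : ∃ r, r ≤ p' ∧ r ≤ p
      · obtain ⟨r, hr, hr0⟩ := h1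
        obtain ⟨t, ht, i, hi, h2⟩ := decide_value (γ := τ) (ν := chk x) (s := Iio k) (r := r)
          (fun V hV => by
            obtain ⟨y, hy, hy'⟩ := h x hx V (hV.mono hr0)
            rw [chk_chS] at hy
            exact ⟨y, hy, hy'⟩)
        exact ⟨t, ht.trans hr, Or.inl ⟨i, hi, h2⟩⟩
      · push Not at h1
        exact ⟨p', le_rfl, Or.inr h1⟩) p
  have hD' : ∀ x < a, ∃ v < k, MemF (opN (chk x) (chk v)) τ q := by
    intro x hx
    rcases hD x hx with h1 | h1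
    · exact h1
    · exact absurd hq (h1 q le_rfl)
  choose! s hs1 hs2 using hD'
  refine ⟨q, hq, fun x => if x < a then s x else 0, fun x hx => ?_, fun x hx => ?_, fun x hx => ?_⟩
  · simp only [if_pos hx]
    exact hs1 x hx
  · exact if_neg hx.not_gt
  · simp only [if_pos hx]
    exact hs2 x hx

theorem decide_fun (hCH : CHy) {a k : Ordinal.{0}} (ha : a < kp) {τ : Name Cd} {p : Cd}
    (h : ∀ V : GenUlt Cd, V.Has p → IsFun (ModE V) (V.cl τ) (V.cl (chk a)) (V.cl (chk k))) :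
    ∃ q, q ≤ p ∧ ∃ s : Ordinal.{0} → Ordinal.{0}, (∀ x < a, s x < k) ∧ (∀ x, a ≤ x → s x = 0) ∧
      EqF τ (fN a s) q := by
  obtain ⟨q, hq, s, h1, h2, h3⟩ := decide_seg hCH (k := k) ha (τ := τ) (p := p) (fun x hx V hV => by
    obtain ⟨y, ⟨hy, hy'⟩, _⟩ := (h V hV).2 (V.cl (chk x)) ((mod_chk_mem V).2 hx)
    exact ⟨y, hy, hy'⟩)
  exact ⟨q, hq, s, h1, h2, eq_fN_of_values (fun V hV => h V (hV.mono hq)) h3⟩

/-- functions from elements of `κ` to `κ` can be decided -/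
theorem decide_seq (hCH : CHy) {τ : Name Cd} {p : Cd}
    (h : ∀ V : GenUlt Cd, V.Has p → ∃ a, ModE V a (V.cl (chk kp)) ∧
      IsFun (ModE V) (V.cl τ) a (V.cl (chk kp))) :
    ∃ q, q ≤ p ∧ ∃ a < kp, ∃ s : Ordinal.{0} → Ordinal.{0}, (∀ x < a, s x < kp) ∧
      (∀ x, a ≤ x → s x = 0) ∧ EqF τ (fN a s) q := by
  have h1 : Forces (fex (.fand (.fmem 0 2) (dFun 1 0 2))) (cons τ fun _ => chk kp) p := by
    rw [forces_iff]
    intro V hV
    simp only [sat_ex, sat_and, sat_mem, sat_dFun, cons_zero, cons_one, cons_two]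
    exact h V hV
  rw [forces_ex] at h1
  obtain ⟨r1, hr1, ρ, h2⟩ := h1 p le_rfl
  rw [forces_and, forces_mem, forces_iff] at h2
  obtain ⟨t, ht, a, ha, h4⟩ := memF_chk.1 h2.1 r1 le_rfl
  obtain ⟨q, hq, s, h5, h6, h7⟩ := decide_fun hCH (k := kp) ha (τ := τ) (p := t) (fun V hV => by
    have h5 := h2.2 V (hV.mono ht)
    simp only [sat_dFun, cons_zero, cons_one, cons_two] at h5
    have h6 : V.cl ρ = V.cl (chk a) := cl_congr hV h4
    rwa [h6] at h5)
  exact ⟨q, (hq.trans ht).trans hr1, a, ha, s, h5, h6, h7⟩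

/-- functions from `κ` to `κ` below `a` -/
theorem decide_below (hCH : CHy) {a : Ordinal.{0}} (ha : a < kp) {τ : Name Cd} {p : Cd}
    (h : ∀ V : GenUlt Cd, V.Has p → IsFun (ModE V) (V.cl τ) (V.cl (chk kp)) (V.cl (chk kp))) :
    ∃ q, q ≤ p ∧ ∃ s : Ordinal.{0} → Ordinal.{0}, (∀ x < a, s x < kp) ∧ (∀ x, a ≤ x → s x = 0) ∧
      ∀ x < a, MemF (opN (chk x) (chk (s x))) τ q := by
  exact decide_seg hCH (k := kp) ha (τ := τ) (p := p) (fun x hx V hV => by
    obtain ⟨y, ⟨hy, hy'⟩, _⟩ := (h V hV).2 (V.cl (chk x)) ((mod_chk_mem V).2 (lt_trans hx ha))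
    exact ⟨y, hy, hy'⟩)

end Pool.Agent.Lib.MP_5c1789_lcR
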