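import Pool.Agent.Lib.MP_5c1789_lcR.DA

/-!
# JOB DB: the first two uncountable cardinals of the extension

Copy from `Pool/Agent/Lib/MP_5c1789_lc/Ords.lean` (`surj_omega`, `not_surj_omega`, `next_w1`): `Pm` is
replaced by `Cd`, `Cnd.distr` by `dist` with the index set `univ : Set (ULift.{1} ℕ)` (`sm_countable`), and
`w1_countable`, `w1_uncountable` are in `BB.lean` (careful with the namespace: the `w1` here is
`Pool.Agent.Lib.MP_5c1789_lcR.w1`; if the names are ambiguous write them in full).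
`next_kp`: ordinal: `mod_ordinal_chk`.  For `0 < i < kp`: `HasSurj (chk w1) (chk i)`: `Sm.enum` of
`Iio i` (`sm_Iio`) gives
`e` with `e x ∈ Iio i` for `x < w1`, onto; `hasSurj_relN` with `ι = Iio w1` as in `surj_omega`
(`memF_chk` instead of `memF_omegaN`, `chk_inj` instead of `natN_inj`); elements `x` of `chk kp` in
`Mod U` by
`mod_bounded_chS` as in `next_w1`.
No surjection from `chk w1` onto `chk kp`: as `not_surj_omega`: let `γ` be a name of one, forced by `p0`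
(`exists_forces`); `decide_fun` with `a = w1`, `k = kp` gives `q ≤ p0` and `s` with `EqF γ (fN w1 s) q`,
`s x < kp`.  The set `{s x | x < w1}` is bounded by some `b < kp` (`sm_range`, `Sm.bdd`).  In `V` with
`V.Has q` some `x` is mapped to `chk b`; `decide_arg` (with `s = Iio w1`) gives `t ≤ q`, `i < w1` with
`MemF (opN (chk i) (chk b)) γ t`; then `memF_fN` (`MemF.congr_right`): `b = s i < b`, contradiction.
-/

set_option linter.unusedSimpArgs false

open Set Cardinal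

namespace Pool.Agent.Lib.MP_5c1789_lcR

open Pool.Agent.Lib.Forcing Pool.Agent.Lib.MP_40b13d_lc Pool.Agent.Lib.MP_5c1789_lc

private theorem db_surj_omega {i : Ordinal.{0}} (hi : i < Pool.Agent.Lib.MP_5c1789_lcR.w1)
    (h0 : 0 < i) (V : GenUlt Cd) {q : Cd}
    (hV : V.Has q) : HasSurj (ModE V) (V.cl omegaN) (V.cl (chk i)) := by
  obtain ⟨e, he⟩ := (Pool.Agent.Lib.MP_5c1789_lcR.w1_countable hi).exists_eq_range ⟨0, h0⟩
  refine hasSurj_relN V (ι := ULift.{1} ℕ) (fun n => natN n.down) (fun n => chk (e n.down))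
    (A := fun _ _ => True) (fun _ _ _ h _ => h) omegaN (chk i) hV ?_ ?_ ?_ ?_
  · intro r _ n _
    refine ⟨natN_mem_omegaN _ _, chk_mem ?_ _⟩
    have : e n.down ∈ Iio i := by rw [he]; exact mem_range_self _
    exact this
  · intro ρ r _ h
    obtain ⟨s, hs, n, hn⟩ := memF_omegaN.1 h r le_rfl
    exact ⟨s, hs, ⟨n⟩, trivial, hn⟩
  · intro n n' r _ _ _ h
    have h1 : n.down = n'.down := natN_inj h
    show EqF (chk (e n.down)) (chk (e n'.down)) r
    rw [h1]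
    exact EqF.refl _ _
  · intro ρ r _ h
    obtain ⟨s, hs, x, hx, h1⟩ := memF_chk.1 h r le_rfl
    have h2 : x ∈ range e := by rw [← he]; exact hx
    obtain ⟨n, rfl⟩ := h2
    exact ⟨s, hs, ⟨n⟩, trivial, h1⟩

private theorem db_surj_w1 {i : Ordinal.{0}} (hi : i < kp) (h0 : 0 < i) (V : GenUlt Cd) {q : Cd}
    (hV : V.Has q) : HasSurj (ModE V) (V.cl (chk Pool.Agent.Lib.MP_5c1789_lcR.w1))
      (V.cl (chk i)) := by
  obtain ⟨e, he1, he2⟩ := (sm_Iio hi).enum ⟨0, h0⟩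
  refine hasSurj_relN V (ι := Iio Pool.Agent.Lib.MP_5c1789_lcR.w1) (fun x => chk x.1)
    (fun x => chk (e x.1))
    (A := fun _ _ => True) (fun _ _ _ h _ => h) (chk Pool.Agent.Lib.MP_5c1789_lcR.w1) (chk i) hV
    ?_ ?_ ?_ ?_
  · intro r _ x _
    exact ⟨chk_mem x.2 _, chk_mem (he1 x.1 x.2) _⟩
  · intro ρ r _ h
    obtain ⟨s, hs, x, hx, h1⟩ := memF_chk.1 h r le_rfl
    exact ⟨s, hs, ⟨x, hx⟩, trivial, h1⟩
  · intro x x' r _ _ _ h
    have h1 : x.1 = x'.1 := chk_inj h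
    show EqF (chk (e x.1)) (chk (e x'.1)) r
    rw [h1]
    exact EqF.refl _ _
  · intro ρ r _ h
    obtain ⟨s, hs, y, hy, h1⟩ := memF_chk.1 h r le_rfl
    obtain ⟨x, hx, rfl⟩ := he2 y hy
    exact ⟨s, hs, ⟨x, hx⟩, trivial, h1⟩

private theorem db_not_surj_omega (hCH : CHy) (U : GenUlt Cd) :
    ¬ HasSurj (ModE U) (U.cl omegaN) (U.cl (chk Pool.Agent.Lib.MP_5c1789_lcR.w1)) := by
  rintro ⟨g, hg1, hg2⟩
  obtain ⟨γ, rfl⟩ := exists_cl g
  obtain ⟨p0, hp0⟩ := exists_forces (U := U) (φ := .fand (dFun 0 1 2) (fball 2 (fex (dApp 2 0 1))))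
    (v := cons γ (cons omegaN fun _ => chk Pool.Agent.Lib.MP_5c1789_lcR.w1)) (by
      simp only [sat_and, sat_dFun, sat_ball, sat_ex, sat_dApp, cons_zero, cons_one, cons_two]
      exact ⟨hg1, hg2⟩)
  have hF : ∀ V : GenUlt Cd, V.Has p0 →
      IsFun (ModE V) (V.cl γ) (V.cl omegaN) (V.cl (chk Pool.Agent.Lib.MP_5c1789_lcR.w1)) ∧
      ∀ y, ModE V y (V.cl (chk Pool.Agent.Lib.MP_5c1789_lcR.w1)) →
        ∃ x, IsApp (ModE V) (V.cl γ) x y := by
    intro V hV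
    have := forces_iff.1 hp0 V hV
    simpa only [sat_and, sat_dFun, sat_ball, sat_ex, sat_dApp, cons_zero, cons_one, cons_two]
      using this
  -- decide all the values
  obtain ⟨q, hq, hD⟩ := dist hCH (univ : Set (ULift.{1} ℕ)) (sm_countable (to_countable _))
    (fun n p =>
      (∃ i < Pool.Agent.Lib.MP_5c1789_lcR.w1, MemF (opN (natN n.down) (chk i)) γ p) ∨
        ∀ r, r ≤ p → ¬ r ≤ p0)
    (by
      rintro n _ p q (⟨i, hi, h⟩ | h) hq
      · exact Or.inl ⟨i, hi, h.mono hq⟩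
      · exact Or.inr fun r hr => h r (hr.trans hq))
    (by
      intro n _ p
      by_cases h : ∃ r, r ≤ p ∧ r ≤ p0
      · obtain ⟨r, hr, hr0⟩ := h
        obtain ⟨t, ht, i, hi, h1⟩ := decide_value (γ := γ) (ν := natN n.down)
          (s := Iio Pool.Agent.Lib.MP_5c1789_lcR.w1) (r := r)
          (fun V hV => by
            obtain ⟨h2, _⟩ := hF V (hV.mono hr0)
            obtain ⟨y, ⟨hy, hy'⟩, _⟩ := h2.2 (V.cl (natN n.down))
              (mem_of hV (natN_mem_omegaN n.down r))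
            rw [chk_chS] at hy
            exact ⟨y, hy, hy'⟩)
        exact ⟨t, ht.trans hr, Or.inl ⟨i, hi, h1⟩⟩
      · push Not at h
        exact ⟨p, le_rfl, Or.inr h⟩) p0
  have hD' : ∀ n : ℕ, ∃ i < Pool.Agent.Lib.MP_5c1789_lcR.w1, MemF (opN (natN n) (chk i)) γ q := by
    intro n
    rcases hD ⟨n⟩ (mem_univ _) with h | h
    · exact h
    · exact absurd hq (h q le_rfl)
  choose i hi1 hi2 using hD'
  apply Pool.Agent.Lib.MP_5c1789_lcR.w1_uncountable
  refine (countable_range i).mono ?_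
  intro j hj
  obtain ⟨t, ht, n, h1⟩ := decide_nat (γ := γ) (ν := chk j) (r := q) (fun V hV => by
    obtain ⟨h2, h3⟩ := hF V (hV.mono hq)
    obtain ⟨x, hx⟩ := h3 _ ((mod_chk_mem V).2 hj)
    exact ⟨x, (isFun_mem (mod_isZFC V) h2 hx).1, hx⟩)
  refine ⟨n, ?_⟩
  obtain ⟨V, hV⟩ := exists_genUlt t
  exact (mod_chk_eq V).1 (isFun_unique (mod_isZFC V) (hF V ((hV.mono ht).mono hq)).1
    (app_of (hi2 n) (hV.mono ht)) (app_of h1 hV))

private theorem db_not_surj_w1 (hCH : CHy) (U : GenUlt Cd) :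
    ¬ HasSurj (ModE U) (U.cl (chk Pool.Agent.Lib.MP_5c1789_lcR.w1)) (U.cl (chk kp)) := by
  rintro ⟨g, hg1, hg2⟩
  obtain ⟨γ, rfl⟩ := exists_cl g
  obtain ⟨p0, hp0⟩ := exists_forces (U := U) (φ := .fand (dFun 0 1 2) (fball 2 (fex (dApp 2 0 1))))
    (v := cons γ (cons (chk Pool.Agent.Lib.MP_5c1789_lcR.w1) fun _ => chk kp)) (by
      simp only [sat_and, sat_dFun, sat_ball, sat_ex, sat_dApp, cons_zero, cons_one, cons_two]
      exact ⟨hg1, hg2⟩)
  have hF : ∀ V : GenUlt Cd, V.Has p0 →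
      IsFun (ModE V) (V.cl γ) (V.cl (chk Pool.Agent.Lib.MP_5c1789_lcR.w1)) (V.cl (chk kp)) ∧
      ∀ y, ModE V y (V.cl (chk kp)) → ∃ x, IsApp (ModE V) (V.cl γ) x y := by
    intro V hV
    have := forces_iff.1 hp0 V hV
    simpa only [sat_and, sat_dFun, sat_ball, sat_ex, sat_dApp, cons_zero, cons_one, cons_two]
      using this
  obtain ⟨q, hq, s, hs1, _, hs3⟩ := decide_fun hCH w1_lt_kp (fun V hV => (hF V hV).1)
  have hsm : Sm {a | ∃ i < Pool.Agent.Lib.MP_5c1789_lcR.w1, s i = a} := sm_range s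
  obtain ⟨b, hb, hb2⟩ := hsm.bdd (by
    rintro a ⟨i, hi, rfl⟩
    exact hs1 i hi)
  obtain ⟨t, ht, i, hi, h1⟩ := decide_arg (γ := γ) (ν := chk b)
    (s := Iio Pool.Agent.Lib.MP_5c1789_lcR.w1) (r := q) (fun V hV => by
      obtain ⟨h2, h3⟩ := hF V (hV.mono hq)
      obtain ⟨x, hx⟩ := h3 _ ((mod_chk_mem V).2 hb)
      refine ⟨x, ?_, hx⟩
      rw [← chk_chS]
      exact (isFun_mem (mod_isZFC V) h2 hx).1)
  have h2 : MemF (opN (chk i) (chk b)) (fN Pool.Agent.Lib.MP_5c1789_lcR.w1 s) t :=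
    MemF.congr_right (hs3.mono ht) h1
  obtain ⟨h3, h4⟩ := memF_fN.1 h2
  have h5 := hb2 (s i) ⟨i, hi, rfl⟩
  rw [← h4] at h5
  exact lt_irrefl _ h5

theorem next_w1 (hCH : CHy) (U : GenUlt Cd) {q : Cd} (hq : U.Has q) :
    IsNextCard (ModE U) (U.cl omegaN) (U.cl (chk Pool.Agent.Lib.MP_5c1789_lcR.w1)) := by
  refine ⟨mod_ordinal_chk U Pool.Agent.Lib.MP_5c1789_lcR.w1,
    ⟨_, (mod_chk_mem U).2 (pos_iff_ne_zero.2 w1_li.1)⟩, ?_, db_not_surj_omega hCH U⟩
  intro x hx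
  rw [chk_chS] at hx
  have h1 := mod_bounded_chS U (Iio Pool.Agent.Lib.MP_5c1789_lcR.w1)
    (fimp (fex (.fmem 0 1)) (fSurj 1 0)) (fun _ => omegaN) hq
    (fun i hi r _ V hV => by
      simp only [sat_imp, sat_ex, sat_mem, sat_fSurj, cons_zero, cons_one]
      rintro ⟨y, hy⟩
      obtain ⟨ζ, rfl⟩ := exists_cl y
      rw [modE_cl, ev_memF_chk] at hy
      obtain ⟨_, x, hx, _⟩ := hy.exists
      exact db_surj_omega hi (pos_iff_ne_zero.2 (by rintro rfl; exact absurd hx (by simp)))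
        V hV) x hx
  simpa only [sat_imp, sat_ex, sat_mem, sat_fSurj, cons_zero, cons_one] using h1

theorem next_kp (hCH : CHy) (U : GenUlt Cd) {q : Cd} (hq : U.Has q) :
    IsNextCard (ModE U) (U.cl (chk Pool.Agent.Lib.MP_5c1789_lcR.w1)) (U.cl (chk kp)) := by
  refine ⟨mod_ordinal_chk U kp, ⟨_, (mod_chk_mem U).2 (pos_iff_ne_zero.2 kp_li.1)⟩, ?_,
    db_not_surj_w1 hCH U⟩
  intro x hx
  rw [chk_chS (P := Cd) kp] at hx
  have h1 := mod_bounded_chS U (Iio kp)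
    (fimp (fex (.fmem 0 1)) (fSurj 1 0)) (fun _ => chk Pool.Agent.Lib.MP_5c1789_lcR.w1) hq
    (fun i hi r _ V hV => by
      simp only [sat_imp, sat_ex, sat_mem, sat_fSurj, cons_zero, cons_one]
      rintro ⟨y, hy⟩
      obtain ⟨ζ, rfl⟩ := exists_cl y
      rw [modE_cl, ev_memF_chk] at hy
      obtain ⟨_, x, hx, _⟩ := hy.exists
      exact db_surj_w1 hi (pos_iff_ne_zero.2 (by rintro rfl; exact absurd hx (by simp)))
        V hV) x hx
  simpa only [sat_imp, sat_ex, sat_mem, sat_fSurj, cons_zero, cons_one] using h1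

end Pool.Agent.Lib.MP_5c1789_lcR
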