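import Pool.Agent.Lib.MP_5c1789_lcR.DA

/-!
# JOB DC: the collapse, the set of the functions from elements of `κ` to `κ`

* `surj_small`: `exists_number` (`BE.lean`) for `univ : Set ι`: `l`, `e : Ordinal → ι` with every `i : ι`
  equal to `e x`
  for some `x < l`; `0 < l` since `ι` is nonempty.  `hasSurj_relN` (in `Core.lean`) with the index type
  `Ordinal × Ordinal`, `fun u => chk u.1`, `fun u => nm (e u.2)`, `A u p := u ∈ p.c l` (monotone: if `u ∈ p.c l`
  then `l ∈ p.D` by `junk`, so `p.c l ⊆ q.c l`).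
  (h1) `u.1 < kp` by `cmem`, `chk_mem`, and the hypothesis `h1`.
  (h2) `ρ ∈ chk kp`: locally `ρ = chk x`, `x < kp` (`memF_chk`); extend the condition to have `l` as a label
  (`exists_label`) and a value `(x, v)` in `c l` (if there is none, `exists_val` with `v = 0 < l`).
  (h3) `chk_inj` and `cfun`.
  (h4) from the hypothesis `h2`: locally `ρ = nm i`, `i = e v`, `v < l`; extend to have the label `l`
  (`exists_label`), then `exists_free`, `exists_val` give `x < kp` with `(x, v) ∈ c l`.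
* `isSeqSpace_seqN`: `→`: `mod_bounded` (in `Core.lean`) as in `tree_subtree` of
  `Pool/Agent/Lib/MP_5c1789_lc/Tree.lean`: the values `fN a s` are functions from `chk a` to `chk kp`
  (`fN_isFun`).  `←`: `los_imp`-type argument (`los_imp` is in that file too; or `los`, `GenUlt.Ev.imp`,
  `Forces.dense`): if `p` forces that `t` is a function from an element of `κ` to `κ` then by
  `decide_seq` (density, `Forces.dense` or `MemF.dense`) `p` forces `t ∈ seqN`.
* `surj_seqN`: `surj_small` with `nm z = fN z.1.1 z.1.2` (the index type is small: injection into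
  `Iio kp × (Iio kp → Iio kp)`; nonempty: `(0, fun _ => 0)`).
-/

set_option linter.unusedSimpArgs false

open Set Cardinal

namespace Pool.Agent.Lib.MP_5c1789_lcR

open Pool.Agent.Lib.Forcing Pool.Agent.Lib.MP_40b13d_lc Pool.Agent.Lib.MP_5c1789_lc

/-- the collapse: the value of a small set of names is the image of `κ` -/
theorem surj_small {ι : Type 1} (hι : Small.{0} ι) (hne : Nonempty ι) (nm : ι → Name Cd)
    (l : Name Cd) {q : Cd} {V : GenUlt Cd} (hV : V.Has q)
    (h1 : ∀ i r, r ≤ q → MemF (nm i) l r)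
    (h2 : ∀ ρ, ∀ r, r ≤ q → MemF ρ l r → ∃ s, s ≤ r ∧ ∃ i, EqF ρ (nm i) s) :
    HasSurj (ModE V) (V.cl (chk kp)) (V.cl l) := by
  have hkp : (0 : Ordinal.{0}) < kp := pos_iff_ne_zero.2 kp_li.1
  obtain ⟨l0, e, -, he⟩ := exists_number (Set.univ : Set ι) small_univ
    (@Set.univ_nonempty ι hne)
  have hl0 : 0 < l0 := by
    obtain ⟨i⟩ := hne
    obtain ⟨x, hx, _⟩ := he i (mem_univ _)
    exact lt_of_le_of_lt zero_le hx
  have hD : ∀ (p : Cd) (u : Ordinal.{0} × Ordinal.{0}), u ∈ p.c l0 → l0 ∈ p.D := by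
    intro p u hu
    by_contra h
    rw [(p.junk l0 h).2.2] at hu
    exact hu
  have hA : ∀ (u : Ordinal.{0} × Ordinal.{0}) (p q : Cd), u ∈ p.c l0 → q ≤ p → u ∈ q.c l0 :=
    fun u p q hu hq => (hq.2.2 l0 (hD p u hu)).2.2 hu
  refine hasSurj_relN V (fun u : Ordinal.{0} × Ordinal.{0} => chk u.1) (fun u => nm (e u.2))
    (A := fun u p => u ∈ p.c l0) hA (chk kp) l hV ?_ ?_ ?_ ?_
  · intro r hr u hu
    exact ⟨chk_mem (r.cmem l0 (hD r u hu) u hu).1 r, h1 (e u.2) r hr⟩
  · intro ρ r _ hρ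
    obtain ⟨s, hs, x, hx, hx'⟩ := memF_chk.1 hρ r le_rfl
    obtain ⟨t, ht, hlt⟩ := Cd.exists_label s l0
    by_cases hf : ∃ v, (x, v) ∈ t.c l0
    · obtain ⟨v, hv⟩ := hf
      exact ⟨t, ht.trans hs, (x, v), hv, hx'.mono ht⟩
    · obtain ⟨t', ht', _, _, hv, _⟩ := Cd.exists_val t hlt hl0 hx (fun u hu => hf ⟨u, hu⟩)
      exact ⟨t', ht'.trans (ht.trans hs), (x, 0), hv, hx'.mono (ht'.trans ht)⟩
  · intro u u' r _ hu hu' h
    have e1 : u.1 = u'.1 := chk_inj h
    have e2 : u.2 = u'.2 := by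
      refine r.cfun l0 (hD r u hu) u.1 u.2 u'.2 hu ?_
      rw [e1]
      exact hu'
    show EqF (nm (e u.2)) (nm (e u'.2)) r
    rw [e2]
    exact EqF.refl _ _
  · intro ρ r hr hρ
    obtain ⟨s, hs, i, hi⟩ := h2 ρ r hr hρ
    obtain ⟨v, hv, rfl⟩ := he i (mem_univ _)
    obtain ⟨t, ht, hlt⟩ := Cd.exists_label s l0
    obtain ⟨x, hx, hx'⟩ := Cd.exists_free t hlt
    obtain ⟨t', ht', _, _, hm, _⟩ := Cd.exists_val t hlt hv hx hx'
    exact ⟨t', ht'.trans (ht.trans hs), (x, v), hm, hi.mono (ht'.trans ht)⟩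

/-- the functions from ordinals below `ω₂` to `ω₂`, extended by `0` -/
abbrev Zt : Type 1 := {z : Ordinal.{0} × (Ordinal.{0} → Ordinal.{0}) //
  z.1 < kp ∧ (∀ x < z.1, z.2 x < kp) ∧ ∀ x, z.1 ≤ x → z.2 x = 0}

/-- the name of `z` -/
noncomputable def nz (z : Zt) : Name Cd := fN z.1.1 z.1.2

theorem small_Zt : Small.{0} Zt := by
  have hkp : (0 : Ordinal.{0}) < kp := pos_iff_ne_zero.2 kp_li.1
  have hI : Small.{0} (Iio kp) := inferInstance
  have hf := small_fun (Iio kp) (Iio kp) (0 : Ordinal.{0}) hI hI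
  have hp := small_prod' (Iio kp)
    {f : Ordinal.{0} → Ordinal.{0} | (∀ x ∈ Iio kp, f x ∈ Iio kp) ∧ ∀ x ∉ Iio kp, f x = 0} hI hf
  refine @small_of_injective Zt _ hp (fun z => ⟨(z.1.1, z.1.2), z.2.1, ?_, ?_⟩) ?_
  · intro x _
    rcases lt_or_ge x z.1.1 with h | h
    · exact z.2.2.1 x h
    · show z.1.2 x < kp
      rw [z.2.2.2 x h]
      exact hkp
  · intro x hx
    exact z.2.2.2 x (z.2.1.le.trans (not_lt.1 hx))
  · intro z z' h
    have h3 := congrArg Subtype.val h
    exact Subtype.ext h3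

theorem nz_inj {z z' : Zt} {p : Cd} (h : EqF (nz z) (nz z') p) : z = z' := by
  obtain ⟨h1, h2⟩ := fN_inj h
  refine Subtype.ext (Prod.ext h1 (funext fun x => ?_))
  rcases lt_or_ge x z.1.1 with hx | hx
  · exact h2 x hx
  · rw [z.2.2.2 x hx, z'.2.2.2 x (h1 ▸ hx)]

/-- the set of the functions from elements of `κ` to `κ` -/
noncomputable def seqN : Name Cd := cn (ι := Zt) nz (fun _ _ => True)

theorem isSeqSpace_seqN (hCH : CHy) (U : GenUlt Cd) {q : Cd} (hq : U.Has q) :
    IsSeqSpace (ModE U) (U.cl (chk kp)) (U.cl seqN) := by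
  intro t
  constructor
  · intro ht
    have h := mod_bounded U nz (A := fun _ _ => True) (fun _ _ _ h _ => h)
      (fex (.fand (.fmem 0 2) (dFun 1 0 2))) (fun _ => chk kp) hq
      (fun i r _ _ V hV => by
        simp only [sat_ex, sat_and, sat_mem, sat_dFun, cons_zero, cons_one, cons_two]
        exact ⟨V.cl (chk i.1.1), (mod_chk_mem V).2 i.2.1, fN_isFun V i.2.2.1⟩) t ht
    simpa only [sat_ex, sat_and, sat_mem, sat_dFun, cons_zero, cons_one, cons_two] using h
  · intro ht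
    obtain ⟨τ, rfl⟩ := exists_cl t
    have h := los_imp U (φ := fex (.fand (.fmem 0 2) (dFun 1 0 2))) (ψ := .fmem 0 2)
      (v := cons τ (cons (chk kp) fun _ => seqN)) hq
      (fun p _ hp V hV => by
        simp only [sat_mem, cons_zero, cons_one, cons_two]
        have hF : ∀ W : GenUlt Cd, W.Has p → ∃ a, ModE W a (W.cl (chk kp)) ∧
            IsFun (ModE W) (W.cl τ) a (W.cl (chk kp)) := by
          intro W hW
          have := forces_iff.1 hp W hW
          simpa only [sat_ex, sat_and, sat_mem, sat_dFun, cons_zero, cons_one, cons_two] using this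
        have hm : MemF τ seqN p := by
          rw [seqN, memF_cn (fun _ _ _ h _ => h)]
          intro r hr
          obtain ⟨s, hs, a, ha, f, hf1, hf2, hf3⟩ :=
            decide_seq hCH (τ := τ) (p := r) fun W hW => hF W (hW.mono hr)
          exact ⟨s, hs, ⟨(a, f), ha, hf1, hf2⟩, trivial, hf3⟩
        exact mem_of hV hm)
      (by simpa only [sat_ex, sat_and, sat_mem, sat_dFun, cons_zero, cons_one, cons_two] using ht)
    simpa only [sat_mem, cons_zero, cons_one, cons_two] using h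

theorem surj_seqN (U : GenUlt Cd) {q : Cd} (hq : U.Has q) :
    HasSurj (ModE U) (U.cl (chk kp)) (U.cl seqN) := by
  have hkp : (0 : Ordinal.{0}) < kp := pos_iff_ne_zero.2 kp_li.1
  refine surj_small small_Zt ⟨⟨(0, fun _ => 0), hkp, fun _ _ => hkp, fun _ _ => rfl⟩⟩ nz seqN hq
    ?_ ?_
  · intro i r _
    exact memF_cn_of i trivial
  · intro ρ r _ hρ
    rw [seqN, memF_cn (fun _ _ _ h _ => h)] at hρ
    obtain ⟨s, hs, i, _, hi⟩ := hρ r le_rfl
    exact ⟨s, hs, i, hi⟩

end Pool.Agent.Lib.MP_5c1789_lcR
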