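import Pool.Agent.Lib.MP_5c1789_lc.Fml

/-!
# The statement, with `κ^{<κ} = κ`
-/

namespace Pool.Agent.Lib.MP_5c1789_lcR

open Pool.Agent.Lib.Forcing Pool.Agent.Lib.MP_40b13d_lc Pool.Agent.Lib.MP_5c1789_lc

variable {M : Type*} (E : M → M → Prop)

/-- `Z` is the set `^{<k}k` of all functions from elements of `k` to `k`. -/
def IsSeqSpace (k Z : M) : Prop := ∀ t, E t Z ↔ ∃ a, E a k ∧ IsFun E t a k

/-- With `o = ω`, `w = ℵ₁`, `k = ℵ₂` in `(M, E)`: the set `^{<k}k` is the image of `k` (that is,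
`k^{<k} = k`), there are `ℵ₂`-Kurepa trees, and the branch set of every `ℵ₂`-Kurepa tree is a
continuous image of `^k k`. -/
def KurepaImagesReg : Prop :=
  ∃ o w k, IsOmega E o ∧ IsNextCard E o w ∧ IsNextCard E w k ∧
    (∃ Z, IsSeqSpace E k Z ∧ HasSurj E k Z) ∧ (∃ T, IsKurepa E w k T) ∧
    ∀ T, IsKurepa E w k T → ∀ F b, IsFunSpace E k F → IsBranchSet E k T b →
      ∃ f, IsContSurj E k F b f

variable {E}

def fSeqSpace (k Z : ℕ) : Fml :=
  .fall (fiff (.fmem 0 (Z + 1)) (fex (.fand (.fmem 0 (k + 2)) (dFun 1 0 (k + 2)))))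

@[simp] theorem sat_fSeqSpace {k Z : ℕ} {v : ℕ → M} :
    Sat E (fSeqSpace k Z) v ↔ IsSeqSpace E (v k) (v Z) := by
  simp only [fSeqSpace, IsSeqSpace, sat_all, sat_iff, sat_ex, sat_and, sat_mem, sat_dFun, cons_zero,
    cons_succ, cons_one]

def fKIR : Fml :=
  fex (fex (fex (.fand (fOmega 2) (.fand (fNextCard 2 1) (.fand (fNextCard 1 0)
    (.fand (fex (.fand (fSeqSpace 1 0) (fSurj 1 0)))
    (.fand (fex (fKurepa 2 1 0)) (.fall (fimp (fKurepa 2 1 0) (.fall (.fall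
      (fimp (fFunSpace 3 1) (fimp (fBranchSet 3 2 0) (fex (fContSurj 4 2 1 0)))))))))))))))

theorem sat_fKIR {v : ℕ → M} : Sat E fKIR v ↔ KurepaImagesReg E := by
  simp only [fKIR, KurepaImagesReg, sat_and, sat_ex, sat_all, sat_imp, sat_fOmega, sat_fNextCard,
    sat_fKurepa, sat_fFunSpace, sat_fBranchSet, sat_fContSurj, sat_fSeqSpace, sat_fSurj,
    cons_zero, cons_succ, cons_one, cons_two, cons_three, cons_four]

/-- Transfer to a countable elementary substructure. -/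
theorem exists_countable (k : M) (hZ : IsZFC M E) (hC : KurepaImagesReg E) :
    ∃ (N : Type) (F : N → N → Prop), Countable N ∧ IsZFC N F ∧ KurepaImagesReg F := by
  obtain ⟨N, F, k', j, hc, -, hj⟩ := exists_countable_elementary E k
  have hj' : Elem F E j := hj
  refine ⟨N, F, hc, hj'.isZFC k' hZ, ?_⟩
  rw [← sat_fKIR (v := fun _ => k'), hj', sat_fKIR]
  exact hC

end Pool.Agent.Lib.MP_5c1789_lcR
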