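import Pool.Agent.Lib.MP_5c1789_lcR.BB

/-!
# JOB FA: transfinite dependent choice of length `ω₁`
-/

open Set Cardinal

namespace Pool.Agent.Lib.MP_5c1789_lcR

universe u

/-- the requirement on the value at the stage `i` -/
private def fa_P {X : Type u} (R : X → X → Prop) (D : Ordinal.{0} → X → Prop) (x0 : X)
    (i : Ordinal.{0}) (x : ∀ j : Ordinal.{0}, j < i → X) (y : X) : Prop :=
  (∀ j (h : j < i), R y (x j h)) ∧ R y x0 ∧ ∀ j, i = Order.succ j → D j y

open Classical in
/-- the chosen value -/
private noncomputable def fa_next {X : Type u} (R : X → X → Prop) (D : Ordinal.{0} → X → Prop)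
    (x0 : X) (i : Ordinal.{0}) (x : ∀ j : Ordinal.{0}, j < i → X) : X :=
  if h : ∃ y, fa_P R D x0 i x y then h.choose else x0

/-- the sequence -/
private noncomputable def fa_seq {X : Type u} (R : X → X → Prop) (D : Ordinal.{0} → X → Prop)
    (x0 : X) (i : Ordinal.{0}) : X :=
  fa_next R D x0 i fun j _ => fa_seq R D x0 j
termination_by i

private theorem fa_spec {X : Type u} (R : X → X → Prop) (D : Ordinal.{0} → X → Prop)
    (x0 : X) (i : Ordinal.{0})
    (h : ∃ y, fa_P R D x0 i (fun j _ => fa_seq R D x0 j) y) :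
    fa_P R D x0 i (fun j _ => fa_seq R D x0 j) (fa_seq R D x0 i) := by
  have e : fa_seq R D x0 i = h.choose := by
    rw [fa_seq, fa_next, dif_pos h]
  rw [e]
  exact h.choose_spec

/-- transfinite dependent choice of length `ω₁` -/
theorem tdc {X : Type u} (R : X → X → Prop) (trans : ∀ x y z, R z y → R y x → R z x)
    (D : Ordinal.{0} → X → Prop) (mono : ∀ i x y, D i x → R y x → D i y)
    (step : ∀ i < w1, ∀ x, ∃ y, R y x ∧ D i y)
    (lim : ∀ δ, Li δ → δ ≤ w1 → ∀ x : Ordinal.{0} → X, (∀ i j, i < j → j < δ → R (x j) (x i)) →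
      ∃ y, ∀ i < δ, R y (x i)) (x0 : X) :
    ∃ y, R y x0 ∧ ∀ i < w1, D i y := by
  have key : ∀ i, i ≤ w1 → fa_P R D x0 i (fun j _ => fa_seq R D x0 j) (fa_seq R D x0 i) := by
    intro i
    induction i using WellFoundedLT.induction with
    | ind i IH =>
      intro hi
      apply fa_spec
      have hmono : ∀ j k, j < k → k < i → R (fa_seq R D x0 k) (fa_seq R D x0 j) :=
        fun j k hjk hki => (IH k hki (hki.le.trans hi)).1 j hjk
      by_cases h0 : i = 0
      · subst h0
        obtain ⟨y, hy, -⟩ := step 0 (pos_iff_ne_zero.2 w1_li.1) x0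
        refine ⟨y, fun j hj => absurd hj not_lt_zero, hy, fun j hj => ?_⟩
        exact absurd (hj ▸ Order.lt_succ j) not_lt_zero
      · by_cases hl : ∀ x < i, Order.succ x < i
        · obtain ⟨y, hy⟩ := lim i ⟨h0, hl⟩ hi (fa_seq R D x0) hmono
          have hpos : (0 : Ordinal.{0}) < i := pos_iff_ne_zero.2 h0
          refine ⟨y, hy, trans _ _ _ (hy 0 hpos) (IH 0 hpos (hpos.le.trans hi)).2.1, ?_⟩
          intro j hj
          have h1 : j < i := by rw [hj]; exact Order.lt_succ j
          exact absurd (hl j h1) (by rw [← hj]; exact lt_irrefl i)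
        · push Not at hl
          obtain ⟨j, hj, hj'⟩ := hl
          have hij : i = Order.succ j := le_antisymm hj' (Order.succ_le_of_lt hj)
          obtain ⟨y, hy, hD⟩ := step j (hj.trans_le hi) (fa_seq R D x0 j)
          refine ⟨y, ?_, trans _ _ _ hy (IH j hj (hj.le.trans hi)).2.1, ?_⟩
          · intro k hk
            have hk' : k ≤ j := Order.lt_succ_iff.1 (hij ▸ hk)
            rcases hk'.lt_or_eq with h1 | h1
            · exact trans _ _ _ hy (hmono k j h1 hj)
            · subst h1; exact hy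
          · intro k hk
            have : k = j := Order.succ_injective (hk.symm.trans hij)
            rw [this]; exact hD
  refine ⟨fa_seq R D x0 w1, (key w1 le_rfl).2.1, fun i hi => ?_⟩
  have h1 : Order.succ i < w1 := w1_li.2 i hi
  have h2 := (key (Order.succ i) h1.le).2.2 i rfl
  exact mono i _ _ h2 ((key w1 le_rfl).1 _ h1)

end Pool.Agent.Lib.MP_5c1789_lcR
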