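import Pool.Agent.Lib.MP_5c1789_lcR.Fam

/-!
# JOB FB: limits of families

`G` from `Gd.exists_lim` for `g i = (x i).g`; for every `f` the condition `Q f` from `exists_limC` for
`q i = (x i).Q f` (choose).  `tree`, `inj`: from `exists_limC`.  `com`: by `Cd.res_eq_res` (in
`CA.lean`): the trees are `G.t`;
`ζ ∈ (Q f).D ∩ B ↔ ∃ i < δ, ζ ∈ ((x i).Q f).D ∩ B`, and `((x i).Q f).D ∩ B = ((x i).Q f').D ∩ B` by
`(x i).com` and
`res_eq_res`; for `ζ ∈ B` and `i < δ`: `((x i).Q f).b ζ = ((x i).Q f').b ζ` (if `ζ ∈ ((x i).Q f).D` by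
`res_eq_res`, otherwise
both are empty by `junk`), the same for `C`, `c`; now use the formulas of `exists_limC`.
`y.Lt (x i)`: from `exists_limC`.  The last claim: `Cd.ext'` and the formulas.
-/

open Set Cardinal

namespace Pool.Agent.Lib.MP_5c1789_lcR

variable {ι : Type 1} {B : Set Ordinal.{0}}

theorem Fam.exists_lim (hCH : CHy) {δ : Ordinal.{0}} (hδ : Li δ) (hδ' : δ ≤ w1)
    (x : Ordinal.{0} → Fam ι B) (hx : ∀ i j, i < j → j < δ → (x j).Lt (x i)) :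
    ∃ y : Fam ι B, (∀ i < δ, y.Lt (x i)) ∧
      ∀ f f', (∀ i < δ, (x i).Q f = (x i).Q f') → y.Q f = y.Q f' := by
  obtain ⟨G, hG, hβ, hA⟩ := Gd.exists_lim (g := fun i => (x i).g) hCH hδ hδ'
    (fun i j hij hj => (hx i j hij hj).1)
  have hr := fun f => exists_limC (q := fun i => (x i).Q f) hδ hδ'
    (fun i j hij hj => (hx i j hij hj).1) hG hβ hA (fun i _ => (x i).tree f)
    (fun i j hij hj => (hx i j hij hj).2 f)
  choose Q h1 h2 h3 h4 h5 h6 h7 using hr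
  have hcom : ∀ f f' i, ∀ ζ ∈ B, (ζ ∈ ((x i).Q f).D ↔ ζ ∈ ((x i).Q f').D) ∧
      ((x i).Q f).b ζ = ((x i).Q f').b ζ ∧ ((x i).Q f).C ζ = ((x i).Q f').C ζ ∧
      ((x i).Q f).c ζ = ((x i).Q f').c ζ := by
    intro f f' i ζ hζ
    obtain ⟨-, e2, e3⟩ := Cd.res_eq_res.1 ((x i).com f f')
    by_cases h : ζ ∈ ((x i).Q f).D
    · have h' : ζ ∈ ((x i).Q f').D := by
        have h8 : ζ ∈ ((x i).Q f).D ∩ B := ⟨h, hζ⟩
        rw [e2] at h8
        exact h8.1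
      exact ⟨⟨fun _ => h', fun _ => h⟩, e3 ζ ⟨h, hζ⟩⟩
    · have h' : ζ ∉ ((x i).Q f').D := by
        intro h9
        have h8 : ζ ∈ ((x i).Q f').D ∩ B := ⟨h9, hζ⟩
        rw [← e2] at h8
        exact h h8.1
      obtain ⟨j1, j2, j3⟩ := ((x i).Q f).junk ζ h
      obtain ⟨k1, k2, k3⟩ := ((x i).Q f').junk ζ h'
      exact ⟨⟨fun a => absurd a h, fun a => absurd a h'⟩, j1.trans k1.symm, j2.trans k2.symm,
        j3.trans k3.symm⟩
  refine ⟨⟨G, Q, h1, fun f => h7 f (fun i _ => (x i).inj f), fun f f' => ?_⟩,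
    fun i hi => ⟨hG i hi, fun f => h6 f i hi⟩, fun f f' hff => ?_⟩
  · refine Cd.res_eq_res.2 ⟨(h1 f).trans (h1 f').symm, ?_, fun ζ hζ => ⟨?_, ?_, ?_⟩⟩
    · rw [h2 f, h2 f']
      ext ζ
      constructor
      · rintro ⟨⟨i, hi, hζ⟩, hB⟩
        exact ⟨⟨i, hi, (hcom f f' i ζ hB).1.1 hζ⟩, hB⟩
      · rintro ⟨⟨i, hi, hζ⟩, hB⟩
        exact ⟨⟨i, hi, (hcom f f' i ζ hB).1.2 hζ⟩, hB⟩
    · rw [h3 f, h3 f']
      ext z
      constructor
      · rintro ⟨i, hi, hz⟩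
        exact ⟨i, hi, by rw [← (hcom f f' i ζ hζ.2).2.1]; exact hz⟩
      · rintro ⟨i, hi, hz⟩
        exact ⟨i, hi, by rw [(hcom f f' i ζ hζ.2).2.1]; exact hz⟩
    · rw [h4 f, h4 f']
      ext z
      constructor
      · rintro (⟨i, hi, hz⟩ | ⟨⟨i, hi, hz⟩, hz2⟩)
        · exact Or.inl ⟨i, hi, by rw [← (hcom f f' i ζ hζ.2).2.2.1]; exact hz⟩
        · exact Or.inr ⟨⟨i, hi, (hcom f f' i ζ hζ.2).1.1 hz⟩, hz2⟩
      · rintro (⟨i, hi, hz⟩ | ⟨⟨i, hi, hz⟩, hz2⟩)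
        · exact Or.inl ⟨i, hi, by rw [(hcom f f' i ζ hζ.2).2.2.1]; exact hz⟩
        · exact Or.inr ⟨⟨i, hi, (hcom f f' i ζ hζ.2).1.2 hz⟩, hz2⟩
    · rw [h5 f, h5 f']
      ext z
      constructor
      · rintro ⟨i, hi, hz⟩
        exact ⟨i, hi, by rw [← (hcom f f' i ζ hζ.2).2.2.2]; exact hz⟩
      · rintro ⟨i, hi, hz⟩
        exact ⟨i, hi, by rw [(hcom f f' i ζ hζ.2).2.2.2]; exact hz⟩
  · refine Cd.ext' ((h1 f).trans (h1 f').symm) ?_ (fun ζ _ => ?_) (fun ζ _ => ?_) (fun ζ _ => ?_)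
    · rw [h2 f, h2 f']
      ext ζ
      constructor
      · rintro ⟨i, hi, hζ⟩
        exact ⟨i, hi, by rw [← hff i hi]; exact hζ⟩
      · rintro ⟨i, hi, hζ⟩
        exact ⟨i, hi, by rw [hff i hi]; exact hζ⟩
    · rw [h3 f, h3 f']
      ext z
      constructor
      · rintro ⟨i, hi, hz⟩
        exact ⟨i, hi, by rw [← hff i hi]; exact hz⟩
      · rintro ⟨i, hi, hz⟩
        exact ⟨i, hi, by rw [hff i hi]; exact hz⟩
    · rw [h4 f, h4 f']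
      ext z
      constructor
      · rintro (⟨i, hi, hz⟩ | ⟨⟨i, hi, hz⟩, hz2⟩)
        · exact Or.inl ⟨i, hi, by rw [← hff i hi]; exact hz⟩
        · exact Or.inr ⟨⟨i, hi, by rw [← hff i hi]; exact hz⟩, hz2⟩
      · rintro (⟨i, hi, hz⟩ | ⟨⟨i, hi, hz⟩, hz2⟩)
        · exact Or.inl ⟨i, hi, by rw [hff i hi]; exact hz⟩
        · exact Or.inr ⟨⟨i, hi, by rw [hff i hi]; exact hz⟩, hz2⟩
    · rw [h5 f, h5 f']
      ext z
      constructor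
      · rintro ⟨i, hi, hz⟩
        exact ⟨i, hi, by rw [← hff i hi]; exact hz⟩
      · rintro ⟨i, hi, hz⟩
        exact ⟨i, hi, by rw [hff i hi]; exact hz⟩

end Pool.Agent.Lib.MP_5c1789_lcR
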