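import Pool.Agent.Lib.MP_5c1789_lcR.GA

/-!
# JOB GE: following a guide, the limit condition

* `Fol.trans`: `q'' ≤ q`.  For `ζ ∈ q.D` (so `ζ ∈ q'.D`): `g''.s (q''.b ζ) ≤ g'.t.α`, so by `Lt.s_eq` (for
  `hg'`; `q''.b ζ` is in the top level of `g''.t = q''.t`),
  `g''.s (q''.b ζ) = g'.s (q''.b ζ ∩ Iio g'.t.α) = g'.s (q'.b ζ) ≤ g.t.α`.
* `exists_limC`: define `r` by the formulas (the tree is `G.t`, `r.D = {ζ | ∃ i < δ, ζ ∈ (q i).D}`).
  Notation `α i = (g i).t.α = (q i).t.α`, `β = G.t.α`.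
  Key fact: let `ζ ∈ (q i).D`, `i < δ`, `X = (q i).b ζ`.  By `hG i` there is `X'` in the top level of `G` with
  `X' ∩ Iio (α i) = X`, `G.s X' = (g i).s X ≤ α i`.  For `i ≤ j < δ`: `X' ∩ Iio (α j) = (q j).b ζ`: both
  are nodes of the
  level `α j`; by `Lt.s_eq` (`hG j`, `G.s X' ≤ α i ≤ α j`) the first has `(g j).s = G.s X' ≤ α i`, the
  second has `(g j).s ≤ α i`
  (`Fol`, trivial for `j = i`); both have the part `X` below `α i`; `(g j).inj` with `ξ = α i`.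
  Hence `r.b ζ = X'` (for `j < i` with `ζ ∈ (q j).D`: `(q j).b ζ = (q i).b ζ ∩ Iio (α j) ⊆ X'`;
  if `ζ ∉ (q j).D` it is empty by `junk`; `X' ⊆ Iio β = ⋃ Iio (α j)`).
  So: for `ζ ∈ (q i).D`: `r.b ζ` is in the top level of `G`, `r.b ζ ∩ Iio (α i) = (q i).b ζ`,
  `G.s (r.b ζ) ≤ α i`.
  `sm`: union of `≤ ℵ₁` sets `Sm` (`Iio δ ⊆ Iio w1`).  `Cle`: `α i < β`.  `smc`: union.
  `C` below `α i`: for `ζ ∈ (q i).D`: `r.C ζ ∩ Iic (α i) = (q i).C ζ` (comparability of the `(q j).C ζ`,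
  `junk`, and
  `β ∉ Iic (α i)`).  `clo`: a limit point `γ ≤ β` of `r.C ζ`: `γ = β` is in `r.C ζ`; `γ < β`: take `i` with
  `γ ≤ α i` and
  `ζ ∈ (q i).D` (the `D`'s increase), the elements of `r.C ζ` below `γ` are in `(q i).C ζ`, `(q i).clo`.
  `al`: `γ = β`: `hA` with `G.s (r.b ζ) ≤ α i < β`, `r.b ζ ∩ Iio β = r.b ζ`; `γ < β`: `γ ∈ (q i).C ζ`,
  `r.b ζ ∩ Iio γ = (q i).b ζ ∩ Iio γ ∈ (q i).t.A γ = G.t.A γ` (`γ ≤ α i`).
  `cmem`, `cfun`: inside one `(q i)` (increasing).  `junk`: clear.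
  `Fol G (g i) r (q i)`: the key fact.  `InjOn`: `ζ, ζ' ∈ (q i).D` for a common `i`; intersect with
  `Iio (α i)`.
-/

open Set Cardinal

namespace Pool.Agent.Lib.MP_5c1789_lcR

variable {δ : Ordinal.{0}} {g : Ordinal.{0} → Gd}

theorem Fol.trans {g g' g'' : Gd} {q q' q'' : Cd} (hg' : g''.Lt g')
    (ht' : q'.t = g'.t) (ht'' : q''.t = g''.t) (h : Fol g'' g' q'' q')
    (h' : Fol g' g q' q) : Fol g'' g q'' q := by
  refine ⟨le_trans h.1 h'.1, fun ζ hζ => ?_⟩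
  have hζ' := h'.1.2.1 hζ
  have h1 := q''.node ζ (h.1.2.1 hζ')
  rw [ht''] at h1
  have h2 := (h.1.2.2 ζ hζ').1
  rw [ht'] at h2
  rw [hg'.s_eq h1 (h.2 ζ hζ'), h2]
  exact h'.2 ζ hζ

private theorem ge_mono (hg : ∀ i j, i < j → j < δ → (g j).Lt (g i)) {i j : Ordinal.{0}}
    (hij : i ≤ j) (hj : j < δ) : (g i).t.α ≤ (g j).t.α := by
  rcases hij.eq_or_lt with rfl | h
  · exact le_rfl
  · exact (hg i j h hj).1.le

private theorem ge_inter {a b : Ordinal.{0}} (h : a ≤ b) (X : Set Ordinal.{0}) :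
    X ∩ Iio b ∩ Iio a = X ∩ Iio a := by
  rw [inter_assoc, Iio_inter_Iio, inf_eq_right.2 h]

private theorem ge_le {q : Ordinal.{0} → Cd}
    (hq : ∀ i j, i < j → j < δ → Fol (g j) (g i) (q j) (q i)) {i j : Ordinal.{0}}
    (hij : i ≤ j) (hj : j < δ) : q j ≤ q i := by
  rcases hij.eq_or_lt with rfl | h
  · exact le_refl _
  · exact (hq i j h hj).1

private theorem ge_node {q : Ordinal.{0} → Cd} (ht : ∀ i < δ, (q i).t = (g i).t)
    {i ζ : Ordinal.{0}} (hi : i < δ) (hζ : ζ ∈ (q i).D) :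
    (q i).b ζ ∈ (g i).t.T (g i).t.α := by
  have h := (q i).node ζ hζ
  rw [ht i hi] at h
  exact h

private theorem ge_b {q : Ordinal.{0} → Cd} (ht : ∀ i < δ, (q i).t = (g i).t)
    (hq : ∀ i j, i < j → j < δ → Fol (g j) (g i) (q j) (q i)) {i j ζ : Ordinal.{0}}
    (hij : i ≤ j) (hj : j < δ) (hζ : ζ ∈ (q i).D) :
    ζ ∈ (q j).D ∧ (q j).b ζ ∩ Iio (g i).t.α = (q i).b ζ ∧
      (q j).C ζ ∩ Iic (g i).t.α = (q i).C ζ ∧ (q i).c ζ ⊆ (q j).c ζ := by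
  have h := ge_le hq hij hj
  have h1 := h.2.2 ζ hζ
  rw [ht i (lt_of_le_of_lt hij hj)] at h1
  exact ⟨h.2.1 hζ, h1⟩

private theorem ge_s {q : Ordinal.{0} → Cd} (ht : ∀ i < δ, (q i).t = (g i).t)
    (hq : ∀ i j, i < j → j < δ → Fol (g j) (g i) (q j) (q i)) {i j ζ : Ordinal.{0}}
    (hij : i ≤ j) (hj : j < δ) (hζ : ζ ∈ (q i).D) : (g j).s ((q j).b ζ) ≤ (g i).t.α := by
  rcases hij.eq_or_lt with rfl | h
  · exact (g i).le _ (ge_node ht hj hζ)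
  · exact (hq i j h hj).2 ζ hζ

/-- the key fact -/
private theorem ge_key {G : Gd} {q : Ordinal.{0} → Cd}
    (hg : ∀ i j, i < j → j < δ → (g j).Lt (g i)) (hG : ∀ i < δ, G.Lt (g i))
    (hβ : Sup δ (fun i => (g i).t.α) G.t.α) (ht : ∀ i < δ, (q i).t = (g i).t)
    (hq : ∀ i j, i < j → j < δ → Fol (g j) (g i) (q j) (q i)) {i ζ : Ordinal.{0}}
    (hi : i < δ) (hζ : ζ ∈ (q i).D) :
    {x | ∃ i < δ, x ∈ (q i).b ζ} ∈ G.t.T G.t.α ∧
      {x | ∃ i < δ, x ∈ (q i).b ζ} ∩ Iio (g i).t.α = (q i).b ζ ∧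
      G.s {x | ∃ i < δ, x ∈ (q i).b ζ} ≤ (g i).t.α := by
  obtain ⟨X, hX, hXi, hXs⟩ := (hG i hi).2.2.2 _ (ge_node ht hi hζ)
  have hXs' : G.s X ≤ (g i).t.α := by
    rw [hXs]
    exact (g i).le _ (ge_node ht hi hζ)
  have hj : ∀ j, i ≤ j → j < δ → X ∩ Iio (g j).t.α = (q j).b ζ := by
    intro j hij hj
    have hm := ge_mono hg hij hj
    obtain ⟨hζj, hb, -, -⟩ := ge_b ht hq hij hj hζ
    have h1 := (hG j hj).s_eq hX (hXs'.trans hm)
    refine (g j).inj _ ?_ _ (ge_node ht hj hζj) (g i).t.α ?_ (ge_s ht hq hij hj hζ) ?_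
    · rw [← ((hG j hj).2.1.2 _ le_rfl).1]
      exact G.t.down _ _ X hX (hG j hj).1.le
    · rw [← h1]
      exact hXs'
    · rw [ge_inter hm, hXi, hb]
  have hXe : {x | ∃ i < δ, x ∈ (q i).b ζ} = X := by
    ext x
    constructor
    · rintro ⟨j, hjδ, hx⟩
      rcases le_total i j with h | h
      · rw [← hj j h hjδ] at hx
        exact hx.1
      · by_cases hζj : ζ ∈ (q j).D
        · have h2 := (ge_b ht hq h hi hζj).2.1
          rw [← h2] at hx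
          have h3 := hx.1
          rw [← hj i le_rfl hi] at h3
          exact h3.1
        · rw [((q j).junk ζ hζj).1] at hx
          exact hx.elim
    · intro hx
      obtain ⟨j, hjδ, hxj⟩ := hβ.2 x (G.t.sub _ _ hX hx)
      have hm : max i j < δ := max_lt hi hjδ
      refine ⟨max i j, hm, ?_⟩
      rw [← hj _ (le_max_left _ _) hm]
      exact ⟨hx, lt_of_lt_of_le hxj (ge_mono hg (le_max_right _ _) hm)⟩
  rw [hXe]
  exact ⟨hX, hXi, hXs'⟩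

private theorem ge_keyC {G : Gd} {q : Ordinal.{0} → Cd} (hG : ∀ i < δ, G.Lt (g i))
    (ht : ∀ i < δ, (q i).t = (g i).t)
    (hq : ∀ i j, i < j → j < δ → Fol (g j) (g i) (q j) (q i)) {i ζ : Ordinal.{0}}
    (hi : i < δ) (hζ : ζ ∈ (q i).D) :
    {x | (∃ i < δ, x ∈ (q i).C ζ) ∨ ((∃ i < δ, ζ ∈ (q i).D) ∧ x = G.t.α)} ∩ Iic (g i).t.α =
      (q i).C ζ := by
  ext x
  constructor
  · rintro ⟨⟨j, hjδ, hx⟩ | ⟨-, rfl⟩, hxi⟩
    · rcases le_total i j with h | h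
      · rw [← (ge_b ht hq h hjδ hζ).2.2.1]
        exact ⟨hx, hxi⟩
      · by_cases hζj : ζ ∈ (q j).D
        · rw [← (ge_b ht hq h hi hζj).2.2.1] at hx
          exact hx.1
        · rw [((q j).junk ζ hζj).2.1] at hx
          exact hx.elim
    · exact absurd hxi (not_le.2 (hG i hi).1)
  · intro hx
    refine ⟨Or.inl ⟨i, hi, hx⟩, ?_⟩
    have h := (q i).Cle ζ hζ hx
    rw [ht i hi] at h
    exact h

/-- the limit condition -/
theorem exists_limC {G : Gd} {q : Ordinal.{0} → Cd} (hδ : Li δ) (hδ' : δ ≤ w1)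
    (hg : ∀ i j, i < j → j < δ → (g j).Lt (g i)) (hG : ∀ i < δ, G.Lt (g i))
    (hβ : Sup δ (fun i => (g i).t.α) G.t.α)
    (hA : Cw G.t.α → ∀ X ∈ G.t.T G.t.α, G.s X < G.t.α → X ∈ G.t.A G.t.α)
    (ht : ∀ i < δ, (q i).t = (g i).t)
    (hq : ∀ i j, i < j → j < δ → Fol (g j) (g i) (q j) (q i)) :
    ∃ r : Cd, r.t = G.t ∧ r.D = {ζ | ∃ i < δ, ζ ∈ (q i).D} ∧
      (∀ ζ, r.b ζ = {x | ∃ i < δ, x ∈ (q i).b ζ}) ∧
      (∀ ζ, r.C ζ = {x | (∃ i < δ, x ∈ (q i).C ζ) ∨ ((∃ i < δ, ζ ∈ (q i).D) ∧ x = G.t.α)}) ∧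
      (∀ ζ, r.c ζ = {x | ∃ i < δ, x ∈ (q i).c ζ}) ∧
      (∀ i < δ, Fol G (g i) r (q i)) ∧
      ((∀ i < δ, InjOn (q i).b (q i).D) → InjOn r.b r.D) := by
  have hK := fun {i ζ : Ordinal.{0}} (hi : i < δ) (hζ : ζ ∈ (q i).D) =>
    ge_key hg hG hβ ht hq hi hζ
  have hKC := fun {i ζ : Ordinal.{0}} (hi : i < δ) (hζ : ζ ∈ (q i).D) =>
    ge_keyC hG ht hq hi hζ
  have hC : ∀ {i ζ x : Ordinal.{0}}, x ∈ (q i).C ζ → ζ ∈ (q i).D := by
    intro i ζ x hx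
    by_contra hζ
    rw [((q i).junk ζ hζ).2.1] at hx
    exact hx
  have hc : ∀ {i ζ : Ordinal.{0}} {x : Ordinal.{0} × Ordinal.{0}}, x ∈ (q i).c ζ →
      ζ ∈ (q i).D := by
    intro i ζ x hx
    by_contra hζ
    rw [((q i).junk ζ hζ).2.2] at hx
    exact hx
  have hSδ : Sm (Iio δ) := (sm_Iio w1_lt_kp).mono (Iio_subset_Iio hδ')
  have hsm : Sm {ζ | ∃ i < δ, ζ ∈ (q i).D} := by
    refine (hSδ.biUnion (f := fun i => (q i).D) fun i _ => (q i).sm).mono ?_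
    rintro ζ ⟨i, hi, hζ⟩
    rw [mem_iUnion₂]
    exact ⟨i, hi, hζ⟩
  obtain ⟨r, hr1, hr2, hr3, hr4, hr5⟩ : ∃ r : Cd, r.t = G.t ∧ r.D = {ζ | ∃ i < δ, ζ ∈ (q i).D} ∧
      (∀ ζ, r.b ζ = {x | ∃ i < δ, x ∈ (q i).b ζ}) ∧
      (∀ ζ, r.C ζ = {x | (∃ i < δ, x ∈ (q i).C ζ) ∨ ((∃ i < δ, ζ ∈ (q i).D) ∧ x = G.t.α)}) ∧
      (∀ ζ, r.c ζ = {x | ∃ i < δ, x ∈ (q i).c ζ}) := by
    refine ⟨{ t := G.t
              D := {ζ | ∃ i < δ, ζ ∈ (q i).D}
              b := fun ζ => {x | ∃ i < δ, x ∈ (q i).b ζ}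
              C := fun ζ => {x | (∃ i < δ, x ∈ (q i).C ζ) ∨
                ((∃ i < δ, ζ ∈ (q i).D) ∧ x = G.t.α)}
              c := fun ζ => {x | ∃ i < δ, x ∈ (q i).c ζ}
              sm := hsm
              node := ?_
              Cle := ?_
              clo := ?_
              al := ?_
              smc := ?_
              cmem := ?_
              cfun := ?_
              junk := ?_ }, rfl, rfl, fun _ => rfl, fun _ => rfl, fun _ => rfl⟩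
    · rintro ζ ⟨i, hi, hζ⟩
      exact (hK hi hζ).1
    · rintro ζ - x (⟨i, hi, hx⟩ | ⟨-, rfl⟩)
      · have h1 := (q i).Cle ζ (hC hx) hx
        rw [ht i hi] at h1
        exact le_trans h1 (hG i hi).1.le
      · exact le_refl G.t.α
    · rintro ζ ⟨i0, hi0, hζ0⟩ γ hγ hLP
      rcases (hγ : γ ≤ G.t.α).eq_or_lt with h | h
      · exact Or.inr ⟨⟨i0, hi0, hζ0⟩, h⟩
      · obtain ⟨j, hj, hγj⟩ := hβ.2 γ h
        have hm : max i0 j < δ := max_lt hi0 hj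
        have hζ : ζ ∈ (q (max i0 j)).D := (ge_b ht hq (le_max_left _ _) hm hζ0).1
        have hγm : γ < (g (max i0 j)).t.α :=
          lt_of_lt_of_le hγj (ge_mono hg (le_max_right _ _) hm)
        refine Or.inl ⟨max i0 j, hm, (q (max i0 j)).clo ζ hζ γ ?_ ⟨hLP.1, fun x hx => ?_⟩⟩
        · rw [ht _ hm]
          exact hγm.le
        · obtain ⟨y, hy, hxy, hyγ⟩ := hLP.2 x hx
          refine ⟨y, ?_, hxy, hyγ⟩
          rw [← hKC hm hζ]
          exact ⟨hy, (hyγ.trans hγm).le⟩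
    · rintro ζ - γ (⟨i, hi, hγ⟩ | ⟨⟨i, hi, hζ⟩, rfl⟩) hcw
      · have hζ := hC hγ
        have h1 := (q i).al ζ hζ γ hγ hcw
        have h2 := (q i).Cle ζ hζ hγ
        rw [ht i hi] at h1 h2
        have h2' : γ ≤ (g i).t.α := h2
        rw [← ((hG i hi).2.1.2 γ h2').2, ← (hK hi hζ).2.1, ge_inter h2'] at h1
        exact h1
      · have h1 := hK hi hζ
        have h2 := hA hcw _ h1.1 (lt_of_le_of_lt h1.2.2 (hG i hi).1)
        have h3 := inter_eq_left.2 (G.t.sub _ _ h1.1)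
        have h4 : {x | ∃ i < δ, x ∈ (q i).b ζ} ∩ Iio G.t.α ∈ G.t.A G.t.α := by
          rw [h3]
          exact h2
        exact h4
    · rintro ζ -
      refine (hSδ.biUnion (f := fun i => (q i).c ζ) fun i _ => ?_).mono ?_
      · by_cases hζ : ζ ∈ (q i).D
        · exact (q i).smc ζ hζ
        · rw [((q i).junk ζ hζ).2.2]
          exact sm_empty
      · rintro x ⟨i, hi, hx⟩
        rw [mem_iUnion₂]
        exact ⟨i, hi, hx⟩
    · rintro ζ - x ⟨i, hi, hx⟩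
      exact (q i).cmem ζ (hc hx) x hx
    · rintro ζ - a v v' ⟨i, hi, hx⟩ ⟨j, hj, hy⟩
      have hm : max i j < δ := max_lt hi hj
      have h1 := ge_b ht hq (le_max_left i j) hm (hc hx)
      have h2 := ge_b ht hq (le_max_right i j) hm (hc hy)
      exact (q (max i j)).cfun ζ h1.1 a v v' (h1.2.2.2 hx) (h2.2.2.2 hy)
    · intro ζ hζ
      have hζ' : ∀ i < δ, ζ ∉ (q i).D := fun i hi h => hζ ⟨i, hi, h⟩
      refine ⟨?_, ?_, ?_⟩
      · rw [eq_empty_iff_forall_notMem]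
        rintro x ⟨i, hi, hx⟩
        rw [((q i).junk ζ (hζ' i hi)).1] at hx
        exact hx
      · rw [eq_empty_iff_forall_notMem]
        rintro x (⟨i, hi, hx⟩ | ⟨⟨i, hi, h⟩, -⟩)
        · exact hζ' i hi (hC hx)
        · exact hζ' i hi h
      · rw [eq_empty_iff_forall_notMem]
        rintro x ⟨i, hi, hx⟩
        exact hζ' i hi (hc hx)
  refine ⟨r, hr1, hr2, hr3, hr4, hr5, ?_, ?_⟩
  · intro i hi
    refine ⟨⟨?_, ?_, ?_⟩, ?_⟩
    · rw [hr1, ht i hi]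
      exact (hG i hi).2.1
    · intro ζ hζ
      rw [hr2]
      exact ⟨i, hi, hζ⟩
    · intro ζ hζ
      refine ⟨?_, ?_, ?_⟩
      · rw [hr3, ht i hi]
        exact (hK hi hζ).2.1
      · rw [hr4, ht i hi]
        exact hKC hi hζ
      · rw [hr5]
        intro x hx
        exact ⟨i, hi, hx⟩
    · intro ζ hζ
      rw [hr3]
      exact (hK hi hζ).2.2
  · intro hinj ζ hζ ζ' hζ' he
    rw [hr2] at hζ hζ'
    rw [hr3, hr3] at he
    obtain ⟨i, hi, h1⟩ := hζ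
    obtain ⟨j, hj, h2⟩ := hζ'
    have hm : max i j < δ := max_lt hi hj
    have h3 := (ge_b ht hq (le_max_left i j) hm h1).1
    have h4 := (ge_b ht hq (le_max_right i j) hm h2).1
    refine hinj _ hm h3 h4 ?_
    rw [← (hK hm h3).2.1, ← (hK hm h4).2.1, he]

end Pool.Agent.Lib.MP_5c1789_lcR
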