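import Pool.Agent.Lib.MP_5c1789_lcR.GD
import Pool.Agent.Lib.MP_5c1789_lcR.GE
import Pool.Agent.Lib.MP_5c1789_lcR.CB
import Pool.Agent.Lib.MP_5c1789_lcR.CD
import Pool.Agent.Lib.MP_5c1789_lcR.FA

/-!
# Families of conditions (definitions)
-/

open Set Cardinal

namespace Pool.Agent.Lib.MP_5c1789_lcR

/-- a family of conditions over the same guide with the same restriction to `B` -/
structure Fam (ι : Type 1) (B : Set Ordinal.{0}) where
  g : Gd
  Q : ι → Cd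
  tree : ∀ f, (Q f).t = g.t
  inj : ∀ f, InjOn (Q f).b (Q f).D
  com : ∀ f f', (Q f).res B = (Q f').res B

namespace Fam

variable {ι : Type 1} {B : Set Ordinal.{0}}

def Lt (x' x : Fam ι B) : Prop := x'.g.Lt x.g ∧ ∀ f, Fol x'.g x.g (x'.Q f) (x.Q f)

theorem Lt.trans {x x' x'' : Fam ι B} (h : x''.Lt x') (h' : x'.Lt x) : x''.Lt x :=
  ⟨h.1.trans h'.1, fun f =>
    Fol.trans h.1 (x'.tree f) (x''.tree f) (h.2 f) (h'.2 f)⟩

theorem Lt.le {x x' : Fam ι B} (h : x'.Lt x) (f : ι) : x'.Q f ≤ x.Q f := (h.2 f).1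

end Fam

end Pool.Agent.Lib.MP_5c1789_lcR
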