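import Pool.Agent.Lib.MP_5c1789_lcR.Guide

/-!
# JOB GA: extensions of guides

* `Lt.s_eq`: let `X = X' ∩ Iio g.t.α ∈ g.t.T g.t.α` (`g'.t.down` and `h.2.1`).  By `h` there is `X''` in
  the top level of `g'` with `X'' ∩ Iio g.t.α = X`, `g'.s X'' = g.s X ≤ g.t.α`.  By `g'.inj` with
  `ξ = g.t.α`: `X'' = X'`.
* `Lt.trans`: compose; for `E`: `g''.E ∩ Iic g.α = (g''.E ∩ Iic g'.α) ∩ Iic g.α = g'.E ∩ Iic g.α = g.E`.
* `exists_init`: `s X = top`, `E = {top}` where `top = (t.ext hCH).α`.  `clo`: `{top}` has no limit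
  point `≤ top`.  `inj`: `ξ ≥ top`, and the nodes are subsets of `Iio top`.  `cov`: `top` is not `Cw`.
* `exists_step`: write `α = g.t.α`, `α1 = t1.α`, `top = (t1.ext hCH).α`.  The guide `g'` has the tree
  `t1.ext hCH`, `E' = g.E ∪ {top}` and
  `s' Y = g.s (Y ∩ Iio α)` if `Y ∩ Iio α ∈ g.t.T α` and `Y = e (Y ∩ Iio α)`, `s' Y = top` otherwise.
  For `X ∈ g.t.T α`: `e X ∈ t1.T α1` is in the top level (`Tr.mem_ext_top`; `e X ⊆ Iio α1 ⊆ Iio top`,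
  `e X ∩ Iio α1 = e X`), and `s' (e X) = g.s X`.
  `clo`: a limit point `γ ≤ top` of `E'` is `≠ top` (`Tr.not_li_ext`), the elements of `E'` below it
  are in `g.E ⊆ Iic α`, so `γ ≤ α` and `g.clo`.
  `inj`: if `top ≤ ξ` then `X = X ∩ Iio ξ` and we are done.  If `ξ < top` then `s' X, s' Y < top`, so
  `X = e X0`, `Y = e Y0` with `X0 = X ∩ Iio α`, `Y0 = Y ∩ Iio α`, `g.s X0, g.s Y0 ≤ ξ`.  If
  `α ≤ ξ`, intersect
  `X ∩ Iio ξ = Y ∩ Iio ξ` with `Iio α`: `X0 = Y0`.  If `ξ < α`: `X0 ∩ Iio ξ = X ∩ Iio ξ`, and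
  `g.inj` gives `X0 = Y0`.
  `cov`: `γ ∈ E'`, `Cw γ`, so `γ ≠ top` (`Tr.not_cw_ext`), `γ ∈ g.E`, `γ ≤ α`,
  `(t1.ext hCH).A γ = t1.A γ = g.t.A γ`; take `X` from `g.cov`, then `e X` works:
  `e X ∩ Iio γ = X ∩ Iio γ`.
  `Lt`: `α ≤ α1 < top`; `E' ∩ Iic α = g.E`; the trees: `Tr.ext_le`, `h1`, `Tr.Le.trans`.
-/

open Set Cardinal

namespace Pool.Agent.Lib.MP_5c1789_lcR

namespace Gd

/-- the value of `s` is determined by the restriction, for old nodes -/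
theorem Lt.s_eq {g g' : Gd} (h : g'.Lt g) {X' : Set Ordinal.{0}} (hX : X' ∈ g'.t.T g'.t.α)
    (hs : g'.s X' ≤ g.t.α) : g'.s X' = g.s (X' ∩ Iio g.t.α) := by
  obtain ⟨h1, h2, -, h4⟩ := h
  have hX0 : X' ∩ Iio g.t.α ∈ g.t.T g.t.α := by
    rw [← (h2.2 g.t.α le_rfl).1]
    exact g'.t.down _ _ X' hX h1.le
  obtain ⟨X'', hX'', e1, e2⟩ := h4 _ hX0
  have h5 : X'' = X' :=
    g'.inj X'' hX'' X' hX g.t.α (by rw [e2]; exact g.le _ hX0) hs e1
  rw [← e2, h5]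

theorem Lt.trans {g g' g'' : Gd} (h : g''.Lt g') (h' : g'.Lt g) : g''.Lt g := by
  refine ⟨h'.1.trans h.1, h.2.1.trans h'.2.1, ?_, fun X hX => ?_⟩
  · rw [← h'.2.2.1, ← h.2.2.1, inter_assoc, Iic_inter_Iic, inf_eq_right.2 h'.1.le]
  · obtain ⟨X', hX', e1, e2⟩ := h'.2.2.2 X hX
    obtain ⟨X'', hX'', e3, e4⟩ := h.2.2.2 X' hX'
    refine ⟨X'', hX'', ?_, e4.trans e2⟩
    rw [← e1, ← e3, inter_assoc, Iio_inter_Iio, inf_eq_right.2 h'.1.le]

/-- a guide over the extension by `ω + 1` levels -/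
theorem exists_init (hCH : CHy) (t : Tr) : ∃ g : Gd, g.t = t.ext hCH := by
  refine ⟨⟨t.ext hCH, fun _ => (t.ext hCH).α, {(t.ext hCH).α}, rfl, ?_, ?_, ?_, ?_, ?_⟩, rfl⟩
  · intro x hx
    exact le_of_eq hx
  · intro γ hγ hLP
    obtain ⟨y, hy, -, h2⟩ := hLP.2 0 (pos_iff_ne_zero.2 hLP.1)
    have h3 : y = (t.ext hCH).α := hy
    rw [h3] at h2
    exact absurd h2 (not_lt.2 hγ)
  · intro X _
    exact le_rfl
  · intro X hX Y hY ξ hξ _ h
    have h1 : X ∩ Iio ξ = X :=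
      inter_eq_left.2 (((t.ext hCH).sub _ X hX).trans (Iio_subset_Iio hξ))
    have h2 : Y ∩ Iio ξ = Y :=
      inter_eq_left.2 (((t.ext hCH).sub _ Y hY).trans (Iio_subset_Iio hξ))
    rw [h1, h2] at h
    exact h
  · intro γ hγ hc
    have h3 : γ = (t.ext hCH).α := hγ
    rw [h3] at hc
    exact absurd hc (Tr.not_cw_ext hCH t)

/-- the extension of a guide along a section -/
theorem exists_step (hCH : CHy) (g : Gd) (t1 : Tr) (h1 : t1.Le g.t)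
    (e : Set Ordinal.{0} → Set Ordinal.{0})
    (he : ∀ X ∈ g.t.T g.t.α, e X ∈ t1.T t1.α ∧ e X ∩ Iio g.t.α = X) :
    ∃ g' : Gd, g'.Lt g ∧ g'.t = t1.ext hCH ∧ ∀ X ∈ g.t.T g.t.α, g'.s (e X) ≤ g.t.α := by
  classical
  have hα1 : t1.α < (t1.ext hCH).α := t1.lt_ext hCH
  have hα : g.t.α < (t1.ext hCH).α := lt_of_le_of_lt h1.1 hα1
  obtain ⟨s', hs'⟩ : ∃ s' : Set Ordinal.{0} → Ordinal.{0}, s' = fun Y =>
      if Y ∩ Iio g.t.α ∈ g.t.T g.t.α ∧ Y = e (Y ∩ Iio g.t.α) then g.s (Y ∩ Iio g.t.α)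
      else (t1.ext hCH).α := ⟨_, rfl⟩
  have s_old : ∀ X ∈ g.t.T g.t.α, s' (e X) = g.s X := by
    intro X hX
    have e1 := (he X hX).2
    rw [hs']
    show (if e X ∩ Iio g.t.α ∈ g.t.T g.t.α ∧ e X = e (e X ∩ Iio g.t.α) then
      g.s (e X ∩ Iio g.t.α) else (t1.ext hCH).α) = g.s X
    rw [e1, if_pos ⟨hX, rfl⟩]
  have s_cases : ∀ Y, (∃ X ∈ g.t.T g.t.α, Y = e X) ∨ s' Y = (t1.ext hCH).α := by
    intro Y
    by_cases h : Y ∩ Iio g.t.α ∈ g.t.T g.t.α ∧ Y = e (Y ∩ Iio g.t.α)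
    · exact Or.inl ⟨_, h.1, h.2⟩
    · right
      rw [hs']
      exact if_neg h
  have e_top : ∀ X ∈ g.t.T g.t.α, e X ∈ (t1.ext hCH).T (t1.ext hCH).α := by
    intro X hX
    have h2 := t1.sub _ _ (he X hX).1
    rw [Tr.mem_ext_top]
    refine ⟨h2.trans (Iio_subset_Iio hα1.le), ?_⟩
    rw [inter_eq_left.2 h2]
    exact (he X hX).1
  have e_low : ∀ X ∈ g.t.T g.t.α, ∀ γ ≤ g.t.α, e X ∩ Iio γ = X ∩ Iio γ := by
    intro X hX γ hγ
    rw [← (he X hX).2, inter_assoc, (he X hX).2, Iio_inter_Iio, inf_eq_right.2 hγ]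
  refine ⟨⟨t1.ext hCH, s', g.E ∪ {(t1.ext hCH).α}, Or.inr rfl, ?_, ?_, ?_, ?_, ?_⟩,
    ⟨hα, (Tr.ext_le hCH t1).trans h1, ?_, ?_⟩, rfl, ?_⟩
  · rintro x (hx | hx)
    · exact (g.Ele hx).trans hα.le
    · exact le_of_eq hx
  · intro γ hγ hLP
    rcases hγ.eq_or_lt with h2 | h2
    · exact Or.inr h2
    · left
      have hE : ∀ x < γ, ∃ y ∈ g.E, x < y ∧ y < γ := by
        intro x hx
        obtain ⟨y, hy | hy, h3, h4⟩ := hLP.2 x hx
        · exact ⟨y, hy, h3, h4⟩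
        · have h5 : y = (t1.ext hCH).α := hy
          rw [h5] at h4
          exact absurd h4 (not_lt.2 h2.le)
      have hγα : γ ≤ g.t.α := by
        by_contra h3
        obtain ⟨y, hy, h4, -⟩ := hE _ (not_le.1 h3)
        exact absurd h4 (not_lt.2 (g.Ele hy))
      exact g.clo γ hγα ⟨hLP.1, hE⟩
  · intro X _
    rcases s_cases X with ⟨X0, hX0, rfl⟩ | h
    · rw [s_old X0 hX0]
      exact (g.le X0 hX0).trans hα.le
    · exact h.le
  · intro X hX Y hY ξ hX' hY' h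
    rcases le_or_gt (t1.ext hCH).α ξ with h2 | h2
    · have h3 : X ∩ Iio ξ = X :=
        inter_eq_left.2 (((t1.ext hCH).sub _ X hX).trans (Iio_subset_Iio h2))
      have h4 : Y ∩ Iio ξ = Y :=
        inter_eq_left.2 (((t1.ext hCH).sub _ Y hY).trans (Iio_subset_Iio h2))
      rw [h3, h4] at h
      exact h
    · rcases s_cases X with ⟨X0, hX0, rfl⟩ | h3
      · rcases s_cases Y with ⟨Y0, hY0, rfl⟩ | h3
        · rw [s_old X0 hX0] at hX'
          rw [s_old Y0 hY0] at hY'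
          have h5 : X0 = Y0 := by
            rcases le_or_gt g.t.α ξ with h4 | h4
            · have e2 : ∀ Z : Set Ordinal.{0},
                  Z ∩ Iio g.t.α = (Z ∩ Iio ξ) ∩ Iio g.t.α := fun Z => by
                rw [inter_assoc, Iio_inter_Iio, inf_eq_right.2 h4]
              calc X0 = e X0 ∩ Iio g.t.α := (he X0 hX0).2.symm
                _ = (e X0 ∩ Iio ξ) ∩ Iio g.t.α := e2 _
                _ = (e Y0 ∩ Iio ξ) ∩ Iio g.t.α := by rw [h]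
                _ = e Y0 ∩ Iio g.t.α := (e2 _).symm
                _ = Y0 := (he Y0 hY0).2
            · refine g.inj X0 hX0 Y0 hY0 ξ hX' hY' ?_
              rw [← e_low X0 hX0 ξ h4.le, ← e_low Y0 hY0 ξ h4.le, h]
          rw [h5]
        · exfalso
          rw [h3] at hY'
          exact absurd h2 (not_lt.2 hY')
      · exfalso
        rw [h3] at hX'
        exact absurd h2 (not_lt.2 hX')
  · intro γ hγ hc a ha
    rcases hγ with hγ | hγ
    · have h2 : γ ≤ g.t.α := g.Ele hγ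
      have h3 : a ∈ g.t.A γ := by
        rw [← (h1.2 γ h2).2]
        exact ha
      obtain ⟨X, hX, h4, h5⟩ := g.cov γ hγ hc a h3
      refine ⟨e X, e_top X hX, ?_, ?_⟩
      · rw [s_old X hX]
        exact h4
      · rw [e_low X hX γ h2]
        exact h5
    · have h3 : γ = (t1.ext hCH).α := hγ
      rw [h3] at hc
      exact absurd hc (Tr.not_cw_ext hCH t1)
  · ext y
    constructor
    · rintro ⟨hy | hy, h2⟩
      · exact hy
      · have h3 : y = (t1.ext hCH).α := hy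
        have h4 : y ≤ g.t.α := h2
        rw [h3] at h4
        exact absurd hα (not_lt.2 h4)
    · intro hy
      exact ⟨Or.inl hy, g.Ele hy⟩
  · intro X hX
    exact ⟨e X, e_top X hX, (he X hX).2, s_old X hX⟩
  · intro X hX
    show s' (e X) ≤ g.t.α
    rw [s_old X hX]
    exact g.le X hX

end Gd

end Pool.Agent.Lib.MP_5c1789_lcR
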