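import Pool.Agent.Lib.MP_5c1789_lcR.GA

/-!
# JOB GB: threads

Notation: `α j = (g j).t.α`, strictly increasing on `Iio δ` (`hg`), with the strict supremum `β`.

* `exists_thread`: for `j` with `i < j < δ` choose (from `hg i j`) `X j ∈ (g j).T (α j)` with
  `X j ∩ Iio (α i) = X`, `(g j).s (X j) = (g i).s X`; `X i = X`.  Coherence: for `i ≤ j < k < δ`,
  `X k ∩ Iio (α j) = X j`: both are in the level `α j` of `g j`;
  `(g k).s (X k) = (g i).s X ≤ α i ≤ α j`, so by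
  `Lt.s_eq`, `(g j).s (X k ∩ Iio (α j)) = (g k).s (X k) = (g i).s X ≤ α i`; also
  `(g j).s (X j) = (g i).s X ≤ α i`; both have the same intersection `X` with `Iio (α i)`; `(g j).inj`
  with `ξ = α i`.  Let `X' = ⋃ j ∈ [i, δ), X j`.  Then `X' ∩ Iio (α j) = X j` for `i ≤ j < δ` (for
  `k ≥ j` coherence,
  for `k < j`: `X k = X j ∩ Iio (α k) ⊆ X j`), and `X' ⊆ Iio β`.  `X' ∈ Thr δ g β` with the index `i`
  (`(g i).le`).
* `thread_const`: for a thread `X` with index `i`: for `i ≤ j ≤ k < δ`,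
  `(g k).s (X ∩ Iio (α k)) ≤ α i ≤ α j`, so `Lt.s_eq` gives
  `(g k).s (X ∩ Iio (α k)) = (g j).s (X ∩ Iio (α j))`
  (`(X ∩ Iio (α k)) ∩ Iio (α j) = X ∩ Iio (α j)`).  So `s X := (g i).s (X ∩ Iio (α i))` with the
  chosen index
  `i` (classical choice), and `s X = β` for the other sets.
* `sm_thr`: `X ↦ (i, X ∩ Iio (α i))` (`i` the chosen index) is injective: if `X, Y` have the same index
  `i` and the same part below `α i`, then for `j ≥ i` the nodes `X ∩ Iio (α j)`, `Y ∩ Iio (α j)` have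
  values of
  `s` at most `α i` and the same part below `α i`, so they are equal by `(g j).inj`; hence `X = Y`
  (subsets of `Iio β`, the `α j` are cofinal in `β`).  The target
  `⋃ i ∈ Iio δ, {i} ×ˢ (g i).T (α i)` is `Sm` (`Iio δ ⊆ Iio w1`, `sm_Iio w1_lt_kp`, `Sm.biUnion`,
  `Tr.small`, `Sm.prod`); `sm_of_injOn`.
-/

open Set Cardinal

namespace Pool.Agent.Lib.MP_5c1789_lcR

variable {δ : Ordinal.{0}} {g : Ordinal.{0} → Gd}

private theorem gb_mono (hg : ∀ i j, i < j → j < δ → (g j).Lt (g i)) {i j : Ordinal.{0}}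
    (hij : i ≤ j) (hj : j < δ) : (g i).t.α ≤ (g j).t.α := by
  rcases hij.eq_or_lt with rfl | h
  · exact le_rfl
  · exact (hg i j h hj).1.le

private theorem gb_inter {a b : Ordinal.{0}} (h : a ≤ b) (X : Set Ordinal.{0}) :
    X ∩ Iio b ∩ Iio a = X ∩ Iio a := by
  rw [inter_assoc, Iio_inter_Iio, inf_eq_right.2 h]

private theorem gb_node (hg : ∀ i j, i < j → j < δ → (g j).Lt (g i)) {j k : Ordinal.{0}}
    (hjk : j < k) (hk : k < δ) {X : Set Ordinal.{0}} (hX : X ∈ (g k).t.T (g k).t.α) :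
    X ∩ Iio (g j).t.α ∈ (g j).t.T (g j).t.α := by
  have h := hg j k hjk hk
  rw [← (h.2.1.2 _ le_rfl).1]
  exact (g k).t.down _ _ X hX h.1.le

private theorem gb_const (hg : ∀ i j, i < j → j < δ → (g j).Lt (g i)) {i : Ordinal.{0}}
    {X : Set Ordinal.{0}} (hX : ∀ j, i ≤ j → j < δ →
      X ∩ Iio (g j).t.α ∈ (g j).t.T (g j).t.α ∧ (g j).s (X ∩ Iio (g j).t.α) ≤ (g i).t.α)
    {j k : Ordinal.{0}} (hij : i ≤ j) (hjk : j ≤ k) (hk : k < δ) :
    (g k).s (X ∩ Iio (g k).t.α) = (g j).s (X ∩ Iio (g j).t.α) := by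
  rcases hjk.eq_or_lt with rfl | h
  · rfl
  · obtain ⟨h1, h2⟩ := hX k (hij.trans hjk) hk
    rw [(hg j k h hk).s_eq h1 (h2.trans (gb_mono hg hij (h.trans hk))),
      gb_inter (gb_mono hg hjk hk)]

private theorem gb_sub (hg : ∀ i j, i < j → j < δ → (g j).Lt (g i)) {β : Ordinal.{0}}
    (hβ : Sup δ (fun i => (g i).t.α) β) {i : Ordinal.{0}} (hi : i < δ) {X Y : Set Ordinal.{0}}
    (hX : X ⊆ Iio β) (h : ∀ j, i ≤ j → j < δ → X ∩ Iio (g j).t.α ⊆ Y) : X ⊆ Y := by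
  intro x hx
  obtain ⟨j, hj, hxj⟩ := hβ.2 x (hX hx)
  have hm : max i j < δ := max_lt hi hj
  exact h (max i j) (le_max_left _ _) hm
    ⟨hx, lt_of_lt_of_le hxj (gb_mono hg (le_max_right _ _) hm)⟩

/-- the threads extend the nodes -/
theorem exists_thread (hg : ∀ i j, i < j → j < δ → (g j).Lt (g i)) {β : Ordinal.{0}}
    (hβ : Sup δ (fun i => (g i).t.α) β) {i : Ordinal.{0}} (hi : i < δ) {X : Set Ordinal.{0}}
    (hX : X ∈ (g i).t.T (g i).t.α) : ∃ X' ∈ Thr δ g β, X' ∩ Iio (g i).t.α = X ∧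
      ∀ j, i ≤ j → j < δ → X' ∩ Iio (g j).t.α ∈ (g j).t.T (g j).t.α ∧
        (g j).s (X' ∩ Iio (g j).t.α) = (g i).s X := by
  have h1 : ∀ j, i ≤ j → j < δ → ∃ Y, Y ∈ (g j).t.T (g j).t.α ∧ Y ∩ Iio (g i).t.α = X ∧
      (g j).s Y = (g i).s X := by
    intro j hij hj
    rcases hij.eq_or_lt with rfl | h
    · exact ⟨X, hX, inter_eq_left.2 ((g i).t.sub _ _ hX), rfl⟩
    · obtain ⟨Y, hY, h2, h3⟩ := (hg i j h hj).2.2.2 X hX
      exact ⟨Y, hY, h2, h3⟩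
  choose! W hW using h1
  have hcoh : ∀ j k, i ≤ j → j ≤ k → k < δ → W k ∩ Iio (g j).t.α = W j := by
    intro j k hij hjk hk
    have hj : j < δ := lt_of_le_of_lt hjk hk
    obtain ⟨a1, a2, a3⟩ := hW j hij hj
    obtain ⟨b1, b2, b3⟩ := hW k (hij.trans hjk) hk
    rcases hjk.eq_or_lt with rfl | h
    · exact inter_eq_left.2 ((g j).t.sub _ _ a1)
    · have hs : (g k).s (W k) ≤ (g j).t.α := by
        rw [b3]
        exact ((g i).le X hX).trans (gb_mono hg hij hj)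
      refine (g j).inj _ (gb_node hg h hk b1) _ a1 (g i).t.α ?_ ?_ ?_
      · rw [← (hg j k h hk).s_eq b1 hs, b3]
        exact (g i).le X hX
      · rw [a3]
        exact (g i).le X hX
      · rw [gb_inter (gb_mono hg hij hj), b2, a2]
  obtain ⟨Z, hZ⟩ : ∃ Z : Set Ordinal.{0}, Z = {x | ∃ j, i ≤ j ∧ j < δ ∧ x ∈ W j} := ⟨_, rfl⟩
  have hZW : ∀ j, i ≤ j → j < δ → Z ∩ Iio (g j).t.α = W j := by
    intro j hij hj
    ext x
    constructor
    · rintro ⟨hx, hxj⟩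
      rw [hZ] at hx
      obtain ⟨k, hik, hk, hxk⟩ := hx
      rcases le_total j k with h | h
      · rw [← hcoh j k hij h hk]
        exact ⟨hxk, hxj⟩
      · rw [← hcoh k j hik h hj] at hxk
        exact hxk.1
    · intro hx
      refine ⟨?_, (g j).t.sub _ _ (hW j hij hj).1 hx⟩
      rw [hZ]
      exact ⟨j, hij, hj, hx⟩
  refine ⟨Z, ⟨?_, i, hi, ?_⟩, ?_, ?_⟩
  · intro x hx
    rw [hZ] at hx
    obtain ⟨j, hij, hj, hxj⟩ := hx
    exact lt_trans ((g j).t.sub _ _ (hW j hij hj).1 hxj) (hβ.1 j hj)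
  · intro j hij hj
    obtain ⟨a1, -, a3⟩ := hW j hij hj
    rw [hZW j hij hj, a3]
    exact ⟨a1, (g i).le X hX⟩
  · rw [hZW i le_rfl hi, ← (hW i le_rfl hi).2.1]
    exact (inter_eq_left.2 ((g i).t.sub _ _ (hW i le_rfl hi).1)).symm
  · intro j hij hj
    obtain ⟨a1, -, a3⟩ := hW j hij hj
    rw [hZW j hij hj, a3]
    exact ⟨a1, rfl⟩

/-- the value of `s` at a thread is eventually constant -/
theorem thread_const (hg : ∀ i j, i < j → j < δ → (g j).Lt (g i)) (β : Ordinal.{0}) :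
    ∃ s : Set Ordinal.{0} → Ordinal.{0}, (∀ X ∈ Thr δ g β, ∃ i < δ, s X ≤ (g i).t.α ∧
      ∀ j, i ≤ j → j < δ → X ∩ Iio (g j).t.α ∈ (g j).t.T (g j).t.α ∧
        (g j).s (X ∩ Iio (g j).t.α) = s X) ∧ ∀ X, X ∉ Thr δ g β → s X = β := by
  classical
  have key : ∀ X : Set Ordinal.{0}, ∃ v : Ordinal.{0}, (X ∈ Thr δ g β → ∃ i < δ, v ≤ (g i).t.α ∧
      ∀ j, i ≤ j → j < δ → X ∩ Iio (g j).t.α ∈ (g j).t.T (g j).t.α ∧
        (g j).s (X ∩ Iio (g j).t.α) = v) ∧ (X ∉ Thr δ g β → v = β) := by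
    intro X
    by_cases hX : X ∈ Thr δ g β
    · have hX' := hX
      obtain ⟨-, i, hi, h⟩ := hX'
      refine ⟨(g i).s (X ∩ Iio (g i).t.α), fun _ => ⟨i, hi, (h i le_rfl hi).2, fun j hij hj => ?_⟩,
        fun hn => absurd hX hn⟩
      exact ⟨(h j hij hj).1, gb_const hg h le_rfl hij hj⟩
    · exact ⟨β, fun h => absurd h hX, fun _ => rfl⟩
  choose s hs using key
  exact ⟨s, fun X hX => (hs X).1 hX, fun X hX => (hs X).2 hX⟩

/-- there are few threads -/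
theorem sm_thr (hδ' : δ ≤ w1) (hg : ∀ i j, i < j → j < δ → (g j).Lt (g i))
    {β : Ordinal.{0}} (hβ : Sup δ (fun i => (g i).t.α) β) : Sm (Thr δ g β) := by
  classical
  have key : ∀ X : Set Ordinal.{0}, ∃ i : Ordinal.{0}, X ∈ Thr δ g β → (i < δ ∧
      ∀ j, i ≤ j → j < δ → X ∩ Iio (g j).t.α ∈ (g j).t.T (g j).t.α ∧
        (g j).s (X ∩ Iio (g j).t.α) ≤ (g i).t.α) := by
    intro X
    by_cases hX : X ∈ Thr δ g β
    · obtain ⟨-, i, hi, h⟩ := hX
      exact ⟨i, fun _ => ⟨hi, h⟩⟩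
    · exact ⟨0, fun h => absurd h hX⟩
  choose I hI using key
  have hT : Sm (⋃ i ∈ Iio δ, ({i} : Set Ordinal.{0}) ×ˢ (g i).t.T (g i).t.α) :=
    ((sm_Iio w1_lt_kp).mono (Iio_subset_Iio hδ')).biUnion
      fun i _ => (sm_singleton i).prod ((g i).t.small _)
  refine sm_of_injOn (fun X : Set Ordinal.{0} => (I X, X ∩ Iio (g (I X)).t.α)) ?_ ?_ hT
  · intro X hX
    obtain ⟨h1, h2⟩ := hI X hX
    rw [mem_iUnion₂]
    exact ⟨I X, h1, rfl, (h2 _ le_rfl h1).1⟩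
  · intro X hX Y hY he
    have he1 : I X = I Y := congrArg Prod.fst he
    have he2 : X ∩ Iio (g (I X)).t.α = Y ∩ Iio (g (I Y)).t.α := congrArg Prod.snd he
    obtain ⟨h1, h2⟩ := hI X hX
    obtain ⟨h3, h4⟩ := hI Y hY
    rw [← he1] at he2 h3 h4
    have h5 : ∀ j, I X ≤ j → j < δ → X ∩ Iio (g j).t.α = Y ∩ Iio (g j).t.α := by
      intro j hij hj
      obtain ⟨a1, a2⟩ := h2 j hij hj
      obtain ⟨b1, b2⟩ := h4 j hij hj
      refine (g j).inj _ a1 _ b1 _ a2 b2 ?_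
      rw [gb_inter (gb_mono hg hij hj), gb_inter (gb_mono hg hij hj), he2]
    apply Subset.antisymm
    · exact gb_sub hg hβ h1 hX.1 fun j hij hj => by
        rw [h5 j hij hj]
        exact inter_subset_left
    · exact gb_sub hg hβ h1 hY.1 fun j hij hj => by
        rw [← h5 j hij hj]
        exact inter_subset_left

end Pool.Agent.Lib.MP_5c1789_lcR
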