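import Pool.Agent.Lib.MP_5c1789_lcR.GB

/-!
# JOB GC: the limit tree

Notation: `α i = (g i).t.α`.  For `γ < β` all the trees `(g i).t` with `γ ≤ α i`, `i < δ` have the same
level `γ` (they are comparable: `hg`, `Gd.Lt` contains `Tr.Le`), such `i` exist (`hβ`).  Define
`T γ = {X | ∃ i < δ, X ∈ (g i).t.T γ}` for `γ < β`, `T γ = ∅` for `γ > β`, and
`T β = {X | X ⊆ Iio β ∧ ∀ γ < β, ∃ i < δ, X ∩ Iio γ ∈ (g i).t.T γ}` if `Cw β`,
`T β = Thr δ g β` if not; `A γ = {X | ∃ i < δ, X ∈ (g i).t.A γ}` for `γ < β`, `A β = Thr δ g β`, `∅` above.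
(First prove: for `i < δ`, `γ ≤ α i`: `T γ = (g i).t.T γ`, `A γ = (g i).t.A γ`.)
* `Thr ⊆ T β` also when `Cw β`: if `X` is a thread with index `i` and `γ < β`, take `j ≥ i` with `γ ≤ α j`;
  `X ∩ Iio (α j)` is a node of `g j`; `down`.
* `lt`: `hk`.  `down`: for `X ∈ T β`, `γ < β`: clear for `Cw`, the previous remark for threads.
* `up`: from `γ1 < β` to `γ2 < β`: inside some `(g i).t`.  From `γ1 < β` to `β`: extend to the level
  `α i ≥ γ1`, then to a thread (`exists_thread`), which is in `T β`.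
* `small`: for `γ < β` `(g i).t.small`; `T β`: `sm_branches` if `Cw β` (the levels `γ < β` are `Sm`), else
  `sm_thr`.
* `full`: levels `γ < β` inside some `(g i).t`; `γ = β`, `Cw β`: by definition.
* `lim` for `γ < β`: `(g i).t.lim` with `Wit.congr` (for `i` with `γ ≤ α i`).  For `γ = β` (`¬ Cw β`): the
  function `s` of `thread_const`, and `E = {y | ∃ i < δ, y ∈ (g i).E}`:
  `lt`: `s X ≤ α i < β`.  `unb`: `x < β` gives `x < α i` and `α i ∈ (g i).E` (`top`).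
  `clo`: a limit point `γ < β` of `E`: take `i` with `γ ≤ α i`; the elements of `E` which are `≤ α i` are in
  `(g i).E` (if `y ∈ (g j).E`: `j ≤ i`: `(g j).E = (g i).E ∩ Iic (α j) ⊆ (g i).E`; `i < j`:
  `y ∈ (g j).E ∩ Iic (α i) = (g i).E`); `(g i).clo`.
  `inj`: `X, Y` threads, `s X, s Y ≤ ξ`, same part below `ξ`.  For all large `j < δ` (`j ≥` the indices of
  `X` and of `Y`): if `ξ ≤ α j` then the nodes `X ∩ Iio (α j)`, `Y ∩ Iio (α j)` of `g j` have the values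
  `s X`, `s Y` and the
  same part below `ξ`, so they are equal by `(g j).inj`; if `α j < ξ` they are equal because
  `X ∩ Iio ξ = Y ∩ Iio ξ`.
  Hence `X = Y`.
  `cov`: `γ ∈ (g i).E`, so `γ ≤ α i`; `a ∈ A γ = (g i).t.A γ`; `(g i).cov` gives `X` in the level `α i`
  with `(g i).s X < γ`,
  `X ∩ Iio γ = a`; the thread `X'` of `exists_thread` has `s X' = (g i).s X` (compare at a large `j`) and
  `X' ∩ Iio γ = X ∩ Iio γ`.
-/

open Set Cardinal

namespace Pool.Agent.Lib.MP_5c1789_lcR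

variable {δ : Ordinal.{0}} {g : Ordinal.{0} → Gd}

private theorem gc_le (hg : ∀ i j, i < j → j < δ → (g j).Lt (g i)) {i j : Ordinal.{0}}
    (hij : i ≤ j) (hj : j < δ) : (g j).t.Le (g i).t := by
  rcases hij.eq_or_lt with h | h
  · subst h
    exact Tr.Le.refl _
  · exact (hg i j h hj).2.1

private theorem gc_eq (hg : ∀ i j, i < j → j < δ → (g j).Lt (g i)) {i j γ : Ordinal.{0}}
    (hi : i < δ) (hj : j < δ) (h1 : γ ≤ (g i).t.α) (h2 : γ ≤ (g j).t.α) :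
    (g i).t.T γ = (g j).t.T γ ∧ (g i).t.A γ = (g j).t.A γ := by
  rcases le_total i j with h | h
  · have h3 := (gc_le hg h hj).2 γ h1
    exact ⟨h3.1.symm, h3.2.symm⟩
  · exact (gc_le hg h hi).2 γ h2

private theorem gc_cut (X : Set Ordinal.{0}) {γ α : Ordinal.{0}} (h : γ ≤ α) :
    (X ∩ Iio α) ∩ Iio γ = X ∩ Iio γ := by
  rw [inter_assoc, Iio_inter_Iio, inf_eq_right.2 h]

private theorem gc_alpha (hg : ∀ i j, i < j → j < δ → (g j).Lt (g i)) {i j : Ordinal.{0}}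
    (hij : i ≤ j) (hj : j < δ) : (g i).t.α ≤ (g j).t.α := (gc_le hg hij hj).1

/-- the levels of the limit tree -/
private def gcT (δ : Ordinal.{0}) (g : Ordinal.{0} → Gd) (β γ : Ordinal.{0}) :
    Set (Set Ordinal.{0}) :=
  {X | (γ < β ∧ ∃ i < δ, X ∈ (g i).t.T γ) ∨
    (γ = β ∧ Cw β ∧ X ⊆ Iio β ∧ ∀ γ' < β, ∃ i < δ, X ∩ Iio γ' ∈ (g i).t.T γ') ∨
    (γ = β ∧ ¬ Cw β ∧ X ∈ Thr δ g β)}

/-- the alive nodes of the limit tree -/
private def gcA (δ : Ordinal.{0}) (g : Ordinal.{0} → Gd) (β γ : Ordinal.{0}) :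
    Set (Set Ordinal.{0}) :=
  {X | (γ < β ∧ ∃ i < δ, X ∈ (g i).t.A γ) ∨ (γ = β ∧ X ∈ Thr δ g β)}

private theorem gcT_of_lt (hg : ∀ i j, i < j → j < δ → (g j).Lt (g i)) {β : Ordinal.{0}}
    (hβ : Sup δ (fun i => (g i).t.α) β) {i γ : Ordinal.{0}} (hi : i < δ)
    (h : γ ≤ (g i).t.α) : gcT δ g β γ = (g i).t.T γ := by
  have hlt : γ < β := h.trans_lt (hβ.1 i hi)
  ext X
  constructor
  · rintro (⟨-, j, hj, hX⟩ | ⟨h1, -⟩ | ⟨h1, -⟩)
    · rw [(gc_eq hg hi hj h ((g j).t.le γ X hX)).1]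
      exact hX
    · exact absurd h1 hlt.ne
    · exact absurd h1 hlt.ne
  · intro hX
    exact Or.inl ⟨hlt, i, hi, hX⟩

private theorem gcA_of_lt (hg : ∀ i j, i < j → j < δ → (g j).Lt (g i)) {β : Ordinal.{0}}
    (hβ : Sup δ (fun i => (g i).t.α) β) {i γ : Ordinal.{0}} (hi : i < δ)
    (h : γ ≤ (g i).t.α) : gcA δ g β γ = (g i).t.A γ := by
  have hlt : γ < β := h.trans_lt (hβ.1 i hi)
  ext X
  constructor
  · rintro (⟨-, j, hj, hX⟩ | ⟨h1, -⟩)
    · rw [(gc_eq hg hi hj h ((g j).t.le γ X ((g j).t.alive γ hX))).2]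
      exact hX
    · exact absurd h1 hlt.ne
  · intro hX
    exact Or.inl ⟨hlt, i, hi, hX⟩

private theorem gc_thr (hg : ∀ i j, i < j → j < δ → (g j).Lt (g i)) {β : Ordinal.{0}}
    (hβ : Sup δ (fun i => (g i).t.α) β) {X : Set Ordinal.{0}} (hX : X ∈ Thr δ g β)
    {γ : Ordinal.{0}} (hγ : γ < β) : ∃ i < δ, X ∩ Iio γ ∈ (g i).t.T γ := by
  obtain ⟨-, i, hi, h⟩ := hX
  obtain ⟨j, hj, hγj⟩ := hβ.2 γ hγ
  have hm : max i j < δ := max_lt hi hj
  have h1 : γ ≤ (g (max i j)).t.α := hγj.le.trans (gc_alpha hg (le_max_right i j) hm)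
  refine ⟨max i j, hm, ?_⟩
  have h2 := (g (max i j)).t.down _ γ _ (h (max i j) (le_max_left i j) hm).1 h1
  rwa [gc_cut X h1] at h2

private theorem gc_thr_mem (hg : ∀ i j, i < j → j < δ → (g j).Lt (g i)) {β : Ordinal.{0}}
    (hβ : Sup δ (fun i => (g i).t.α) β) {X : Set Ordinal.{0}} (hX : X ∈ Thr δ g β) :
    X ∈ gcT δ g β β := by
  by_cases hc : Cw β
  · exact Or.inr (Or.inl ⟨rfl, hc, hX.1, fun γ hγ => gc_thr hg hβ hX hγ⟩)
  · exact Or.inr (Or.inr ⟨rfl, hc, hX⟩)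

private theorem gc_top_sub {β : Ordinal.{0}} {X : Set Ordinal.{0}} (hX : X ∈ gcT δ g β β) :
    X ⊆ Iio β := by
  rcases hX with ⟨h, -⟩ | ⟨-, -, h, -⟩ | ⟨-, -, h⟩
  · exact absurd h (lt_irrefl β)
  · exact h
  · exact h.1

private theorem gc_top_cut (hg : ∀ i j, i < j → j < δ → (g j).Lt (g i)) {β : Ordinal.{0}}
    (hβ : Sup δ (fun i => (g i).t.α) β) {X : Set Ordinal.{0}} (hX : X ∈ gcT δ g β β)
    {γ : Ordinal.{0}} (hγ : γ < β) : ∃ i < δ, X ∩ Iio γ ∈ (g i).t.T γ := by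
  rcases hX with ⟨h, -⟩ | ⟨-, -, -, h⟩ | ⟨-, -, h⟩
  · exact absurd h (lt_irrefl β)
  · exact h γ hγ
  · exact gc_thr hg hβ h hγ

private theorem gc_ext (hg : ∀ i j, i < j → j < δ → (g j).Lt (g i)) {β : Ordinal.{0}}
    (hβ : Sup δ (fun i => (g i).t.α) β) {X Y : Set Ordinal.{0}} (hX : X ⊆ Iio β)
    {i : Ordinal.{0}} (hi : i < δ)
    (h : ∀ j, i ≤ j → j < δ → X ∩ Iio (g j).t.α = Y ∩ Iio (g j).t.α) : X ⊆ Y := by
  intro y hy
  obtain ⟨j, hj, hyj⟩ := hβ.2 y (hX hy)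
  have hm : max i j < δ := max_lt hi hj
  have h1 : y ∈ X ∩ Iio (g (max i j)).t.α :=
    ⟨hy, lt_of_lt_of_le hyj (gc_alpha hg (le_max_right i j) hm)⟩
  rw [h _ (le_max_left i j) hm] at h1
  exact h1.1

private theorem gc_E (hg : ∀ i j, i < j → j < δ → (g j).Lt (g i)) {i j y : Ordinal.{0}}
    (hi : i < δ) (hj : j < δ) (hy : y ∈ (g j).E) (h : y ≤ (g i).t.α) : y ∈ (g i).E := by
  rcases lt_trichotomy j i with hji | hji | hji
  · have h1 := (hg j i hji hi).2.2.1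
    rw [← h1] at hy
    exact hy.1
  · subst hji
    exact hy
  · have h1 := (hg i j hji hj).2.2.1
    rw [← h1]
    exact ⟨hy, h⟩

private theorem gc_wit
    (hg : ∀ i j, i < j → j < δ → (g j).Lt (g i)) {β : Ordinal.{0}}
    (hβ : Sup δ (fun i => (g i).t.α) β) (hc : ¬ Cw β) :
    ∃ s E, Wit (gcT δ g β) (gcA δ g β) β s E := by
  obtain ⟨s, hs, -⟩ := thread_const hg β
  have hT : ∀ X, X ∈ gcT δ g β β → X ∈ Thr δ g β := by
    rintro X (⟨h, -⟩ | ⟨-, h, -⟩ | ⟨-, -, h⟩)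
    · exact absurd h (lt_irrefl β)
    · exact absurd h hc
    · exact h
  refine ⟨s, {y | ∃ i < δ, y ∈ (g i).E}, ?_, ?_, ?_, ?_, ?_, ?_⟩
  · intro X hX
    obtain ⟨i, hi, h, -⟩ := hs X (hT X hX)
    exact h.trans_lt (hβ.1 i hi)
  · rintro y ⟨i, hi, hy⟩
    exact ((g i).Ele hy).trans_lt (hβ.1 i hi)
  · intro x hx
    obtain ⟨i, hi, h⟩ := hβ.2 x hx
    exact ⟨(g i).t.α, ⟨i, hi, (g i).top⟩, h⟩
  · rintro γ hγ ⟨h0, hlp⟩
    obtain ⟨i, hi, h⟩ := hβ.2 γ hγ
    refine ⟨i, hi, (g i).clo γ h.le ⟨h0, fun x hx => ?_⟩⟩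
    obtain ⟨y, ⟨j, hj, hy⟩, hxy, hyγ⟩ := hlp x hx
    exact ⟨y, gc_E hg hi hj hy (hyγ.le.trans h.le), hxy, hyγ⟩
  · intro X hX Y hY ξ hsX hsY hXY
    obtain ⟨iX, hiX, -, h1⟩ := hs X (hT X hX)
    obtain ⟨iY, hiY, -, h2⟩ := hs Y (hT Y hY)
    have key : ∀ j, max iX iY ≤ j → j < δ → X ∩ Iio (g j).t.α = Y ∩ Iio (g j).t.α := by
      intro j hj hjδ
      obtain ⟨hXj, hsXj⟩ := h1 j ((le_max_left _ _).trans hj) hjδ
      obtain ⟨hYj, hsYj⟩ := h2 j ((le_max_right _ _).trans hj) hjδ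
      rcases le_or_gt ξ (g j).t.α with h | h
      · refine (g j).inj _ hXj _ hYj ξ ?_ ?_ ?_
        · rw [hsXj]; exact hsX
        · rw [hsYj]; exact hsY
        · rw [gc_cut X h, gc_cut Y h]; exact hXY
      · rw [← gc_cut X h.le, ← gc_cut Y h.le, hXY]
    have hm : max iX iY < δ := max_lt hiX hiY
    exact Subset.antisymm (gc_ext hg hβ (gc_top_sub hX) hm key)
      (gc_ext hg hβ (gc_top_sub hY) hm fun j hj hjδ => (key j hj hjδ).symm)
  · rintro γ ⟨i, hi, hγ⟩ hcγ a ha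
    have hγi : γ ≤ (g i).t.α := (g i).Ele hγ
    rw [gcA_of_lt hg hβ hi hγi] at ha
    obtain ⟨X, hX, hsX, hXa⟩ := (g i).cov γ hγ hcγ a ha
    obtain ⟨X', hX', hcut, hval⟩ := exists_thread hg hβ hi hX
    refine ⟨X', gc_thr_mem hg hβ hX', ?_, ?_⟩
    · obtain ⟨i', hi', -, h1⟩ := hs X' hX'
      have hm : max i i' < δ := max_lt hi hi'
      rw [← (h1 (max i i') (le_max_right _ _) hm).2, (hval (max i i') (le_max_left _ _) hm).2]
      exact hsX
    · rw [← gc_cut X' hγi, hcut]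
      exact hXa

/-- the limit tree -/
theorem exists_limT (hCH : CHy) (hδ : Li δ) (hδ' : δ ≤ w1)
    (hg : ∀ i j, i < j → j < δ → (g j).Lt (g i)) {β : Ordinal.{0}} (hk : β < kp)
    (hβ : Sup δ (fun i => (g i).t.α) β) : ∃ t : Tr, t.α = β ∧ (∀ i < δ, t.Le (g i).t) ∧
      t.A β = Thr δ g β ∧ (¬ Cw β → t.T β = Thr δ g β) := by
  have hli : Li β := Sup.li hδ hβ
  have h0β : 0 < β := pos_iff_ne_zero.2 hli.1
  have hsubT : ∀ γ, ∀ X ∈ gcT δ g β γ, X ⊆ Iio γ := by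
    rintro γ X (⟨-, i, -, hX⟩ | ⟨rfl, -, h, -⟩ | ⟨rfl, -, h⟩)
    · exact (g i).t.sub γ X hX
    · exact h
    · exact h.1
  have hleT : ∀ γ, ∀ X ∈ gcT δ g β γ, γ ≤ β := by
    rintro γ X (⟨h, -⟩ | ⟨h, -⟩ | ⟨h, -⟩)
    · exact h.le
    · exact h.le
    · exact h.le
  have hsm : ∀ γ < β, Sm (gcT δ g β γ) := by
    intro γ hγ
    obtain ⟨i, hi, h⟩ := hβ.2 γ hγ
    rw [gcT_of_lt hg hβ hi h.le]
    exact (g i).t.small γ
  let t : Tr :=
    { α := β
      T := gcT δ g β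
      A := gcA δ g β
      lt := hk
      le := hleT
      sub := hsubT
      alive := by
        rintro γ X (⟨h, i, hi, hX⟩ | ⟨rfl, hX⟩)
        · exact Or.inl ⟨h, i, hi, (g i).t.alive γ hX⟩
        · exact gc_thr_mem hg hβ hX
      root := by
        obtain ⟨i, hi, -⟩ := hβ.2 0 h0β
        exact Or.inl ⟨h0β, i, hi, (g i).t.root⟩
      down := by
        intro γ γ' X hX hγ
        rcases (hleT γ X hX).lt_or_eq with h | h
        · obtain ⟨i, hi, hi'⟩ := hβ.2 γ h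
          rw [gcT_of_lt hg hβ hi hi'.le] at hX
          rw [gcT_of_lt hg hβ hi (hγ.trans hi'.le)]
          exact (g i).t.down γ γ' X hX hγ
        · subst h
          rcases hγ.lt_or_eq with h' | h'
          · exact Or.inl ⟨h', gc_top_cut hg hβ hX h'⟩
          · subst h'
            rw [inter_eq_left.2 (gc_top_sub hX)]
            exact hX
      up := by
        intro γ γ' X hX hγ hγ'
        rcases (hleT γ X hX).lt_or_eq with h | h
        · rcases hγ'.lt_or_eq with h' | h'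
          · obtain ⟨i, hi, hi'⟩ := hβ.2 γ' h'
            rw [gcT_of_lt hg hβ hi (hγ.trans hi'.le)] at hX
            rw [gcT_of_lt hg hβ hi hi'.le]
            exact (g i).t.up γ γ' X hX hγ hi'.le
          · subst h'
            obtain ⟨i, hi, hi'⟩ := hβ.2 γ h
            rw [gcT_of_lt hg hβ hi hi'.le] at hX
            obtain ⟨Y0, hY0, hcut0⟩ := (g i).t.up γ (g i).t.α X hX hi'.le le_rfl
            obtain ⟨X', hX', hcut, -⟩ := exists_thread hg hβ hi hY0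
            refine ⟨X', gc_thr_mem hg hβ hX', ?_⟩
            rw [← gc_cut X' hi'.le, hcut]
            exact hcut0
        · subst h
          have h' : γ' = γ := le_antisymm hγ' hγ
          subst h'
          exact ⟨X, hX, inter_eq_left.2 (gc_top_sub hX)⟩
      small := by
        intro γ
        rcases lt_trichotomy γ β with h | h | h
        · exact hsm γ h
        · subst h
          by_cases hc : Cw γ
          · refine (sm_branches hCH (T := gcT δ g γ) hsm hc).mono ?_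
            intro X hX
            exact ⟨gc_top_sub hX, fun γ' hγ' => Or.inl ⟨hγ', gc_top_cut hg hβ hX hγ'⟩⟩
          · refine (sm_thr hδ' hg hβ).mono ?_
            rintro X (⟨h, -⟩ | ⟨-, h, -⟩ | ⟨-, -, h⟩)
            · exact absurd h (lt_irrefl _)
            · exact absurd h hc
            · exact h
        · refine sm_empty.mono ?_
          intro X hX
          exact absurd (hleT γ X hX) (not_le.2 h)
      full := by
        intro γ hγ hc X hX h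
        rcases hγ.lt_or_eq with h' | h'
        · obtain ⟨i, hi, hi'⟩ := hβ.2 γ h'
          rw [gcT_of_lt hg hβ hi hi'.le]
          refine (g i).t.full γ hi'.le hc X hX fun γ' hγ' => ?_
          rw [← gcT_of_lt hg hβ hi (hγ'.le.trans hi'.le)]
          exact h γ' hγ'
        · subst h'
          refine Or.inr (Or.inl ⟨rfl, hc, hX, fun γ' hγ' => ?_⟩)
          obtain ⟨i, hi, hi'⟩ := hβ.2 γ' hγ'
          have h1 := h γ' hγ'
          rw [gcT_of_lt hg hβ hi hi'.le] at h1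
          exact ⟨i, hi, h1⟩
      lim := by
        intro γ hγ hl hc
        rcases hγ.lt_or_eq with h' | h'
        · obtain ⟨i, hi, hi'⟩ := hβ.2 γ h'
          obtain ⟨s, E, hw⟩ := (g i).t.lim γ hi'.le hl hc
          exact ⟨s, E, hw.congr (gcT_of_lt hg hβ hi hi'.le) fun γ' hγ' =>
            gcA_of_lt hg hβ hi (hγ'.le.trans hi'.le)⟩
        · subst h'
          exact gc_wit hg hβ hc }
  refine ⟨t, rfl, fun i hi => ⟨(hβ.1 i hi).le, fun γ hγ =>
    ⟨gcT_of_lt hg hβ hi hγ, gcA_of_lt hg hβ hi hγ⟩⟩, ?_, ?_⟩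
  · ext X
    constructor
    · rintro (⟨h, -⟩ | ⟨-, h⟩)
      · exact absurd h (lt_irrefl β)
      · exact h
    · intro h
      exact Or.inr ⟨rfl, h⟩
  · intro hc
    ext X
    constructor
    · rintro (⟨h, -⟩ | ⟨-, h, -⟩ | ⟨-, -, h⟩)
      · exact absurd h (lt_irrefl β)
      · exact absurd h hc
      · exact h
    · intro h
      exact Or.inr (Or.inr ⟨rfl, hc, h⟩)

end Pool.Agent.Lib.MP_5c1789_lcR
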