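import Pool.Agent.Lib.MP_5c1789_lcR.GC

/-!
# JOB GD: the limit guide

`β` from `exists_sup` (with `f i = (g i).t.α`, increasing by `hg`, `< kp` by `Tr.lt`), the tree `t` from
`exists_limT`, `s` from `thread_const`, `E = {y | (∃ i < δ, y ∈ (g i).E) ∨ y = β}`.  The proofs of `clo`,
`inj`, `cov` are almost the same as in the header of `GC.lean`:
* `Thr δ g β ⊆ t.T β` (`t.A β = Thr δ g β` and `t.alive`).
* `clo`: a limit point `γ ≤ β` of `E`: `γ = β` is in `E`; for `γ < β` the elements of `E` below `γ` are in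
  `(g i).E` for `i` with `γ ≤ (g i).t.α`, `(g i).clo`.
* `le`: `s X ≤ (g i).t.α < β` for threads, `s X = β` otherwise.
* `inj`: if `β ≤ ξ` then `X = X ∩ Iio ξ = Y ∩ Iio ξ = Y` (`t.sub`).  If `ξ < β` then `s X, s Y < β`, so both
  are threads; for all large `j` the nodes `X ∩ Iio (α j)`, `Y ∩ Iio (α j)` are equal by `(g j).inj`.
* `cov`: `γ = β`: `a ∈ t.A β` is a thread, take `X = a` (`s a ≤ (g i).t.α < β`, `a ∩ Iio β = a`).  `γ < β`: as in
  `GC.lean` (`exists_thread`).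
* `G.Lt (g i)`: `E ∩ Iic (α i) = (g i).E`, and the last part by `exists_thread` and `thread_const`.
* the last claim: `G.s X < β` implies that `X` is a thread, so `X ∈ t.A β`.
-/

open Set Cardinal

namespace Pool.Agent.Lib.MP_5c1789_lcR

variable {δ : Ordinal.{0}} {g : Ordinal.{0} → Gd}

/-- the limit guide -/
theorem Gd.exists_lim (hCH : CHy) (hδ : Li δ) (hδ' : δ ≤ w1)
    (hg : ∀ i j, i < j → j < δ → (g j).Lt (g i)) : ∃ G : Gd, (∀ i < δ, G.Lt (g i)) ∧
      Sup δ (fun i => (g i).t.α) G.t.α ∧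
      (Cw G.t.α → ∀ X ∈ G.t.T G.t.α, G.s X < G.t.α → X ∈ G.t.A G.t.α) := by
  obtain ⟨β, hk, hβ⟩ := exists_sup (f := fun i => (g i).t.α)
    (fun i j hij hj => (hg i j hij hj).1) hδ hδ' (fun i _ => (g i).t.lt)
  obtain ⟨t, htα, hle, hA, -⟩ := exists_limT hCH hδ hδ' hg hk hβ
  obtain ⟨s, hs1, hs2⟩ := thread_const hg β
  subst htα
  have hlt : ∀ i < δ, (g i).t.α < t.α := hβ.1
  have hcof : ∀ x < t.α, ∃ i < δ, x < (g i).t.α := hβ.2
  have thr_lt : ∀ X ∈ Thr δ g t.α, s X < t.α := by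
    intro X hX
    obtain ⟨i, hi, h1, -⟩ := hs1 X hX
    exact lt_of_le_of_lt h1 (hlt i hi)
  have hEmono : ∀ i < δ, ∀ j < δ, ∀ y ∈ (g j).E, y ≤ (g i).t.α → y ∈ (g i).E := by
    intro i hi j hj y hy hyi
    rcases lt_trichotomy i j with h | h | h
    · rw [← (hg i j h hj).2.2.1]
      exact ⟨hy, hyi⟩
    · rw [h]
      exact hy
    · rw [← (hg j i h hi).2.2.1] at hy
      exact hy.1
  have hsec : ∀ i < δ, ∀ X ∈ (g i).t.T (g i).t.α, ∃ X' ∈ Thr δ g t.α,
      X' ∩ Iio (g i).t.α = X ∧ s X' = (g i).s X := by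
    intro i hi X hX
    obtain ⟨X', hX', h1, h2⟩ := exists_thread hg hβ hi hX
    obtain ⟨i', hi', -, h3⟩ := hs1 X' hX'
    refine ⟨X', hX', h1, ?_⟩
    have hj : max i i' < δ := max_lt hi hi'
    rw [← (h2 (max i i') (le_max_left _ _) hj).2, (h3 (max i i') (le_max_right _ _) hj).2]
  have hThrT : ∀ X ∈ Thr δ g t.α, X ∈ t.T t.α := by
    intro X hX
    rw [← hA] at hX
    exact t.alive _ hX
  refine ⟨⟨t, s, {y | (∃ i < δ, y ∈ (g i).E) ∨ y = t.α}, Or.inr rfl, ?_, ?_, ?_, ?_, ?_⟩,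
    fun i hi => ⟨hlt i hi, hle i hi, ?_, ?_⟩, hβ, ?_⟩
  · rintro y (⟨i, hi, hy⟩ | hy)
    · exact ((g i).Ele hy).trans (hlt i hi).le
    · exact le_of_eq hy
  · intro γ hγ hLP
    rcases hγ.eq_or_lt with h | h
    · exact Or.inr h
    · obtain ⟨i, hi, h1⟩ := hcof γ h
      refine Or.inl ⟨i, hi, (g i).clo γ h1.le ⟨hLP.1, fun x hx => ?_⟩⟩
      obtain ⟨y, hy, h2, h3⟩ := hLP.2 x hx
      rcases hy with ⟨j, hj, hy⟩ | hy
      · exact ⟨y, hEmono i hi j hj y hy (h3.le.trans h1.le), h2, h3⟩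
      · rw [hy] at h3
        exact absurd h3 (not_lt.2 h.le)
  · intro X _
    by_cases h : X ∈ Thr δ g t.α
    · exact (thr_lt X h).le
    · exact (hs2 X h).le
  · intro X hX Y hY ξ hX' hY' h
    rcases le_or_gt t.α ξ with h2 | h2
    · have h3 : X ∩ Iio ξ = X := inter_eq_left.2 ((t.sub _ X hX).trans (Iio_subset_Iio h2))
      have h4 : Y ∩ Iio ξ = Y := inter_eq_left.2 ((t.sub _ Y hY).trans (Iio_subset_Iio h2))
      rw [h3, h4] at h
      exact h
    · have hXt : X ∈ Thr δ g t.α := by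
        by_contra h3
        rw [hs2 X h3] at hX'
        exact absurd h2 (not_lt.2 hX')
      have hYt : Y ∈ Thr δ g t.α := by
        by_contra h3
        rw [hs2 Y h3] at hY'
        exact absurd h2 (not_lt.2 hY')
      obtain ⟨i, hi, -, h3⟩ := hs1 X hXt
      obtain ⟨i', hi', -, h4⟩ := hs1 Y hYt
      have h5 : ∀ j, i ≤ j → i' ≤ j → j < δ → X ∩ Iio (g j).t.α = Y ∩ Iio (g j).t.α := by
        intro j h5 h6 hj
        obtain ⟨a1, a2⟩ := h3 j h5 hj
        obtain ⟨b1, b2⟩ := h4 j h6 hj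
        refine (g j).inj _ a1 _ b1 ξ (by rw [a2]; exact hX') (by rw [b2]; exact hY') ?_
        rw [inter_right_comm, h, inter_right_comm]
      have h6 : ∀ x < t.α, ∃ j, i ≤ j ∧ i' ≤ j ∧ j < δ ∧ x < (g j).t.α := by
        intro x hx
        obtain ⟨j, hj, hxj⟩ := hcof x hx
        refine ⟨max j (max i i'), (le_max_left _ _).trans (le_max_right _ _),
          (le_max_right _ _).trans (le_max_right _ _), max_lt hj (max_lt hi hi'), ?_⟩
        rcases (le_max_left j (max i i')).eq_or_lt with h7 | h7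
        · rw [← h7]
          exact hxj
        · exact hxj.trans (hg _ _ h7 (max_lt hj (max_lt hi hi'))).1
      ext x
      constructor
      · intro hx
        obtain ⟨j, h7, h8, h9, h10⟩ := h6 x (t.sub _ X hX hx)
        have h11 : x ∈ X ∩ Iio (g j).t.α := ⟨hx, h10⟩
        rw [h5 j h7 h8 h9] at h11
        exact h11.1
      · intro hx
        obtain ⟨j, h7, h8, h9, h10⟩ := h6 x (t.sub _ Y hY hx)
        have h11 : x ∈ Y ∩ Iio (g j).t.α := ⟨hx, h10⟩
        rw [← h5 j h7 h8 h9] at h11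
        exact h11.1
  · intro γ hγ hc a ha
    rcases hγ with ⟨i, hi, hγ⟩ | hγ
    · have h2 : γ ≤ (g i).t.α := (g i).Ele hγ
      have h3 : a ∈ (g i).t.A γ := by
        rw [← ((hle i hi).2 γ h2).2]
        exact ha
      obtain ⟨X, hX, h4, h5⟩ := (g i).cov γ hγ hc a h3
      obtain ⟨X', hX', h6, h7⟩ := hsec i hi X hX
      refine ⟨X', hThrT X' hX', by rw [h7]; exact h4, ?_⟩
      rw [← h5, ← h6, inter_assoc, Iio_inter_Iio, inf_eq_right.2 h2]
    · have h3 : γ = t.α := hγ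
      subst h3
      rw [hA] at ha
      exact ⟨a, hThrT a ha, thr_lt a ha, inter_eq_left.2 ha.1⟩
  · ext y
    constructor
    · rintro ⟨⟨j, hj, hy⟩ | hy, h2⟩
      · exact hEmono i hi j hj y hy h2
      · have h3 : y = t.α := hy
        have h4 : y ≤ (g i).t.α := h2
        rw [h3] at h4
        exact absurd (hlt i hi) (not_lt.2 h4)
    · intro hy
      exact ⟨Or.inl ⟨i, hi, hy⟩, (g i).Ele hy⟩
  · intro X hX
    obtain ⟨X', hX', h1, h2⟩ := hsec i hi X hX
    exact ⟨X', hThrT X' hX', h1, h2⟩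
  · intro _ X _ hX
    have hX2 : s X < t.α := hX
    show X ∈ t.A t.α
    rw [hA]
    by_contra h
    rw [hs2 X h] at hX2
    exact lt_irrefl _ hX2

end Pool.Agent.Lib.MP_5c1789_lcR
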