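import Pool.Agent.Lib.MP_5c1789_lc.Cont
import Pool.Agent.Lib.MP_5c1789_lcR.Defs

/-!
# A criterion for continuous images, inside a model `(M, E)` of ZFC (definitions)

The elements of `k` code states; `R` is the set of the compatible pairs of codes and `N` is a set
of pairs (code, node).  A function `x` from `k` to `k` is read as a sequence of codes.
-/

set_option linter.unusedSimpArgs false

namespace Pool.Agent.Lib.MP_5c1789_lcR

open Pool.Agent.Lib.Forcing Pool.Agent.Lib.MP_40b13d_lc Pool.Agent.Lib.MP_5c1789_lc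

variable {M : Type*} {E : M → M → Prop}

/-- `x` is good at `i` -/
def OKat (E : M → M → Prop) (R N x i : M) : Prop :=
  (∀ j u u', (E j i ∨ j = i) → IsApp E x j u → IsApp E x i u' → IsApp E R u u') ∧
  ∀ u', IsApp E x i u' → ∃ z v, IsApp E N u' z ∧ IsApp E z i v

def fOKat (R N x i : ℕ) : Fml :=
  .fand (.fall (.fall (.fall (fimp (ffor (.fmem 2 (i + 3)) (.feq 2 (i + 3)))
      (fimp (dApp (x + 3) 2 1) (fimp (dApp (x + 3) (i + 3) 0) (dApp (R + 3) 1 0)))))))
    (.fall (fimp (dApp (x + 1) (i + 1) 0)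
      (fex (fex (.fand (dApp (N + 3) 2 1) (dApp 1 (i + 3) 0))))))

@[simp] theorem sat_fOKat {R N x i : ℕ} {v : ℕ → M} :
    Sat E (fOKat R N x i) v ↔ OKat E (v R) (v N) (v x) (v i) := by
  simp only [fOKat, OKat, sat_and, sat_all, sat_imp, sat_or, sat_mem, sat_eq, sat_ex, sat_dApp,
    cons_zero, cons_succ, cons_one, cons_two]

/-- the hypotheses of the criterion -/
structure GameHyp (E : M → M → Prop) (k T b R N : M) : Prop where
  ord : IsOrdinal E k
  lim : ∀ a, E a k → ∃ a', E a' k ∧ E a a'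
  br : IsBranchSet E k T b
  N_fun : ∀ u z, IsApp E N u z → ∃ a, E a k ∧ IsFun E z a k
  D : ∀ a s, E a k → IsFun E s a k → (∀ i, E i a → OKat E R N s i) →
    ∃ y, E y b ∧ ∀ i u z, E i a → IsApp E s i u → IsApp E N u z → IsSub E z y
  C : ∀ y, E y b → ∃ ρ, (∀ u, E u ρ → E u k) ∧ (∀ u u', E u ρ → E u' ρ → IsApp E R u u') ∧
    (∀ i, E i k → ∃ u z v, E u ρ ∧ IsApp E N u z ∧ IsApp E z i v) ∧
    ∀ u z, E u ρ → IsApp E N u z → IsSub E z y

end Pool.Agent.Lib.MP_5c1789_lcR
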