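import Pool.Agent.Lib.MP_5c1789_lcR.CC

/-!
# Guides (definitions)

A guide is a tree together with a witness `(s, E)` at the top level.  It determines sections: if
`g'` extends `g`, then every top node `X` of `g` has a unique extension `X'` in the top level of
`g'` with `s X' ≤ α`.  Conditions which follow the guide have limits.
-/

open Set Cardinal

namespace Pool.Agent.Lib.MP_5c1789_lcR

structure Gd where
  t : Tr
  s : Set Ordinal.{0} → Ordinal.{0}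
  E : Set Ordinal.{0}
  top : t.α ∈ E
  Ele : E ⊆ Iic t.α
  clo : ∀ γ ≤ t.α, LP E γ → γ ∈ E
  le : ∀ X ∈ t.T t.α, s X ≤ t.α
  inj : ∀ X ∈ t.T t.α, ∀ Y ∈ t.T t.α, ∀ ξ, s X ≤ ξ → s Y ≤ ξ → X ∩ Iio ξ = Y ∩ Iio ξ → X = Y
  cov : ∀ γ ∈ E, Cw γ → ∀ a ∈ t.A γ, ∃ X ∈ t.T t.α, s X < γ ∧ X ∩ Iio γ = a

/-- `g'` extends `g` -/
def Gd.Lt (g' g : Gd) : Prop := g.t.α < g'.t.α ∧ g'.t.Le g.t ∧ g'.E ∩ Iic g.t.α = g.E ∧
  ∀ X ∈ g.t.T g.t.α, ∃ X' ∈ g'.t.T g'.t.α, X' ∩ Iio g.t.α = X ∧ g'.s X' = g.s X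

/-- the threads of a sequence of guides with the heights tending to `β` -/
def Thr (δ : Ordinal.{0}) (g : Ordinal.{0} → Gd) (β : Ordinal.{0}) : Set (Set Ordinal.{0}) :=
  {X | X ⊆ Iio β ∧ ∃ i < δ, ∀ j, i ≤ j → j < δ → X ∩ Iio (g j).t.α ∈ (g j).t.T (g j).t.α ∧
    (g j).s (X ∩ Iio (g j).t.α) ≤ (g i).t.α}

/-- `q'` extends `q` and follows the guide -/
def Fol (g' g : Gd) (q' q : Cd) : Prop := q' ≤ q ∧ ∀ ζ ∈ q.D, g'.s (q'.b ζ) ≤ g.t.α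

end Pool.Agent.Lib.MP_5c1789_lcR
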