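import Pool.Agent.Lib.MP_5c1789_lcR.KDef

/-!
# JOB KA: the generic tree is a tree with small levels

Model: `restr_mem`, `tree_subtree`, `level_aux`, `tree_levels` in
`Pool/Agent/Lib/MP_5c1789_lc/Tree.lean`.
* `genN_subtree`: first part: an element of `genN` is locally `fN a (bt X)` with `X ∈ p.t.T a`, so
  `a ≤ p.t.α < kp`, a function from `chk a` to `chk kp` (`fN_isFun`; `bt X x ≤ 1 < kp`).  Second part: if
  `t = fN a (bt X)`, `X ∈ p.t.T a`, and `s ⊆ t` is a function from `chk a'` (`a' < kp`) to `chk kp`, then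
  `fN_restr`: `a' ≤ a`, `s = fN a' (bt X) = fN a' (bt (X ∩ Iio a'))` (`fN_congr`, `bt_congr`), and
  `X ∩ Iio a' ∈ p.t.T a'` by `down`; so `s ∈ genN` below `p`.
* `genN_levels`: for `a = chk a0`, `a0 < kp` (reduction by `mod_bounded_chS`, `los_imp` as in
  `tree_levels`), and a name `l` such that `q` forces that `l` is the level `a0` of `genN` and is nonempty; show
  that the formula `fSurj` (`HasSurj (chk w1) l`) is forced by `q`: by `Forces.dense` it is enough to
  find for every
  `r ≤ q` a condition `r' ≤ r` which forces it.  By `exists_height` take `r' ≤ r` with `a0 < r'.t.α`.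
  Let `e`
  enumerate `r'.t.T a0` (`Sm.enum`, `small`; nonempty: extend the root `∅` with `up`), and apply `hasSurj_relN` in every
  `V` with `V.Has r'`, with `ι = Iio w1`, `fun x => chk x.1`, `fun x => fN a0 (bt (e x.1))`:
  (h1) `fN a0 (bt (e x)) ∈ genN` (`genN_mono`) and it is a function on `chk a0`, so it is in the level `l`.
  (h4) if `ρ ∈ l` below `s ≤ r'` then `ρ ∈ genN`, so locally (below some `s' ≤ s`) `ρ = fN a (bt X)` with
  `X ∈ s'.t.T a`, and `ρ` is a function on `chk a0`, so `a = a0` (`isFun_dom`, `mod_chk_eq`), and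
  `s'.t.T a0 = r'.t.T a0`.
The `w1` here is `Pool.Agent.Lib.MP_5c1789_lcR.w1`.
-/

set_option linter.unusedSimpArgs false

open Set Cardinal

namespace Pool.Agent.Lib.MP_5c1789_lcR

open Pool.Agent.Lib.Forcing Pool.Agent.Lib.MP_40b13d_lc Pool.Agent.Lib.MP_5c1789_lc

theorem ka_bt_lt (X : Set Ordinal.{0}) (x : Ordinal.{0}) : bt X x < kp := by
  have h0 : (0 : Ordinal.{0}) < kp := pos_iff_ne_zero.2 kp_li.1
  have h1 : (1 : Ordinal.{0}) < kp := by
    have h := kp_li.2 0 h0
    rwa [Order.succ_eq_add_one, zero_add] at h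
  unfold bt
  by_cases h : x ∈ X
  · rw [if_pos h]
    exact h1
  · rw [if_neg h]
    exact h0

theorem ka_mem (V : GenUlt Cd) {p : Cd} (hp : V.Has p) {a : Ordinal.{0}} {X : Set Ordinal.{0}}
    (h : X ∈ p.t.T a) : ModE V (V.cl (fN a (bt X))) (V.cl genN) := by
  rw [modE_cl, genN, ev_memF_cn genN_mono]
  exact GenUlt.Ev.imp hp fun q hq => ⟨(a, X), genN_mono (a, X) p q h hq, EqF.refl _ _⟩

theorem ka_restr (V : GenUlt Cd) {p : Cd} (hp : V.Has p) {b : Ordinal.{0}} {X : Set Ordinal.{0}}
    (hX : X ∈ p.t.T b) :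
    ∀ a t, ModE V a (V.cl (chk kp)) → IsFun (ModE V) t a (V.cl (chk kp)) →
      IsSub (ModE V) t (V.cl (fN b (bt X))) → ModE V t (V.cl genN) := by
  intro a t ha
  rw [chk_chS] at ha
  have h := mod_bounded_chS V (Iio kp)
    (.fall (fimp (dFun 0 1 2) (fimp (dSub 0 3) (.fmem 0 4))))
    (cons (chk kp) (cons (fN b (bt X)) fun _ => genN)) hp
    (fun i _ r hr W hW => by
      simp only [sat_all, sat_imp, sat_dFun, sat_dSub, sat_mem, cons_zero, cons_one, cons_two,
        cons_three, cons_four]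
      intro t h1 h2
      obtain ⟨h3, h4⟩ := fN_restr W (fun x _ => ka_bt_lt X x) h1 h2
      have h5 : (fN i (bt X) : Name Cd) = fN i (bt (X ∩ Iio i)) :=
        fN_congr fun x hx => bt_congr ⟨fun h => ⟨h, hx⟩, fun h => h.1⟩
      rw [h4, h5]
      exact ka_mem W (hW.mono hr) (p.t.down b i X hX h3)) a ha
  simp only [sat_all, sat_imp, sat_dFun, sat_dSub, sat_mem, cons_zero, cons_one, cons_two,
        cons_three, cons_four] at h
  exact h t

theorem genN_subtree (U : GenUlt Cd) {q : Cd} (hq : U.Has q) :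
    IsSubtree (ModE U) (U.cl (chk kp)) (U.cl genN) := by
  constructor
  · intro t ht
    have h := mod_bounded U (fun u : Ordinal.{0} × Set Ordinal.{0} => fN u.1 (bt u.2))
      (A := fun u p => u.2 ∈ p.t.T u.1) genN_mono
      (fex (.fand (.fmem 0 2) (dFun 1 0 2))) (fun _ => chk kp) hq
      (fun i r _ hi V hV => by
        simp only [sat_ex, sat_and, sat_mem, sat_dFun, cons_zero, cons_one, cons_two]
        exact ⟨V.cl (chk i.1), (mod_chk_mem V).2 ((r.t.le _ _ hi).trans_lt r.t.lt),
          fN_isFun V fun x _ => ka_bt_lt _ _⟩) t ht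
    simpa only [sat_ex, sat_and, sat_mem, sat_dFun, cons_zero, cons_one, cons_two] using h
  · intro t ht
    have h := mod_bounded U (fun u : Ordinal.{0} × Set Ordinal.{0} => fN u.1 (bt u.2))
      (A := fun u p => u.2 ∈ p.t.T u.1) genN_mono
      (.fall (.fall (fimp (.fmem 1 3) (fimp (dFun 0 1 3) (fimp (dSub 0 2) (.fmem 0 4))))))
      (cons (chk kp) fun _ => genN) hq
      (fun i r _ hi V hV => by
        simp only [sat_all, sat_imp, sat_mem, sat_dFun, sat_dSub, cons_zero, cons_one, cons_two,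
          cons_three, cons_four]
        intro a s ha hs hs'
        exact ka_restr V hV hi a s ha hs hs') t ht
    simp only [sat_all, sat_imp, sat_mem, sat_dFun, sat_dSub, cons_zero, cons_one, cons_two,
          cons_three, cons_four] at h
    exact h

theorem ka_level (hCH : CHy) {a : Ordinal.{0}} (ha : a < kp) {l : Name Cd} {q : Cd}
    (hl : ∀ V : GenUlt Cd, V.Has q →
      IsLevel (ModE V) (V.cl (chk kp)) (V.cl genN) (V.cl (chk a)) (V.cl l))
    {V : GenUlt Cd} (hV : V.Has q) :
    HasSurj (ModE V) (V.cl (chk Pool.Agent.Lib.MP_5c1789_lcR.w1)) (V.cl l) := by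
  have hF : Forces (fSurj 0 1)
      (cons (chk Pool.Agent.Lib.MP_5c1789_lcR.w1) fun _ => l) q := by
    apply Forces.dense
    intro r hr
    obtain ⟨r', hr', hh⟩ := exists_height hCH ha r
    refine ⟨r', hr', forces_iff.2 fun V hV => ?_⟩
    simp only [sat_fSurj, cons_zero, cons_one]
    obtain ⟨Y, hY, _⟩ := r'.t.up 0 a ∅ r'.t.root zero_le hh.le
    obtain ⟨e, he1, he2⟩ := (r'.t.small a).enum ⟨Y, hY⟩
    refine hasSurj_relN V (ι := Iio Pool.Agent.Lib.MP_5c1789_lcR.w1) (fun x => chk x.1)
      (fun x => fN a (bt (e x.1))) (A := fun _ _ => True) (fun _ _ _ h _ => h) _ l hV ?_ ?_ ?_ ?_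
    · intro s hs i _
      constructor
      · rw [chk_chS Pool.Agent.Lib.MP_5c1789_lcR.w1]
        exact chk_mem_chS i.2 s
      · refine memF_iff_models.2 fun W hW => (hl W (hW.mono (hs.trans (hr'.trans hr))) _).2
          ⟨ka_mem W hW (genN_mono (a, e i.1) r' s (he1 i.1 i.2) hs), ?_⟩
        exact fN_isFun W fun x _ => ka_bt_lt _ _
    · intro ρ s hs h
      rw [chk_chS Pool.Agent.Lib.MP_5c1789_lcR.w1] at h
      obtain ⟨t, ht, x, hx, h1⟩ := memF_chS.1 h s le_rfl
      exact ⟨t, ht, ⟨x, hx⟩, trivial, h1⟩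
    · intro i i' s _ _ _ h
      have h1 : i = i' := Subtype.ext (chk_inj h)
      subst h1
      exact EqF.refl _ _
    · intro ρ s hs h
      have h1 : MemF ρ genN s := memF_iff_models.2 fun W hW =>
        ((hl W (hW.mono (hs.trans (hr'.trans hr))) _).1 (memF_iff_models.1 h W hW)).1
      rw [genN, memF_cn genN_mono] at h1
      obtain ⟨t, ht, ⟨o, X⟩, hX, h2⟩ := h1 s le_rfl
      obtain ⟨W, hW⟩ := exists_genUlt t
      have h3 := ((hl W (hW.mono (ht.trans (hs.trans (hr'.trans hr)))) _).1
        (memF_iff_models.1 h W (hW.mono ht))).2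
      rw [cl_congr hW h2] at h3
      have h4 := fN_isFun W (a := o) (k := kp) (s := bt X) fun x _ => ka_bt_lt X x
      have h5 : a = o := (mod_chk_eq W).1 (isFun_dom (mod_isZFC W) h3 h4)
      subst h5
      have h6 : t ≤ r' := ht.trans hs
      have h7 : X ∈ r'.t.T a := by
        rw [← (h6.1.2 a hh.le).1]
        exact hX
      obtain ⟨i, hi, hei⟩ := he2 X h7
      refine ⟨t, ht, ⟨i, hi⟩, trivial, ?_⟩
      change EqF ρ (fN a (bt (e i))) t
      rw [hei]
      exact h2
  have h := forces_iff.1 hF V hV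
  simpa only [sat_fSurj, cons_zero, cons_one] using h

theorem genN_levels (hCH : CHy) (U : GenUlt Cd) {q : Cd} (hq : U.Has q) (a l : Mod U)
    (ha : ModE U a (U.cl (chk kp))) (hl : IsLevel (ModE U) (U.cl (chk kp)) (U.cl genN) a l)
    (hne : ∃ t, ModE U t l) :
    HasSurj (ModE U) (U.cl (chk Pool.Agent.Lib.MP_5c1789_lcR.w1)) l := by
  rw [chk_chS] at ha
  have h := mod_bounded_chS U (Iio kp)
    (.fall (fimp (fLevel 2 3 1 0) (fSurj 4 0)))
    (cons (chk kp) (cons genN fun _ => chk Pool.Agent.Lib.MP_5c1789_lcR.w1)) hq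
    (fun i hi r _ V hV => by
      simp only [sat_all, sat_imp, sat_fLevel, sat_fSurj, cons_zero, cons_one, cons_two,
        cons_three, cons_four]
      intro l hl
      obtain ⟨l, rfl⟩ := exists_cl l
      have h1 := los_imp V (φ := fLevel 1 2 3 0) (ψ := fSurj 4 0)
        (v := cons l (cons (chk kp) (cons genN (cons (chk i)
          fun _ => chk Pool.Agent.Lib.MP_5c1789_lcR.w1)))) hV
        (fun p _ hp V hV => by
          simp only [sat_fSurj, cons_zero, cons_one, cons_two, cons_three, cons_four]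
          refine ka_level hCH (a := i) hi (q := p) (fun W hW => ?_) hV
          have := forces_iff.1 hp W hW
          simpa only [sat_fLevel, cons_zero, cons_one, cons_two, cons_three, cons_four] using this)
        (by simpa only [sat_fLevel, cons_zero, cons_one, cons_two, cons_three, cons_four] using hl)
      simpa only [sat_fSurj, cons_zero, cons_one, cons_two, cons_three, cons_four] using h1) a ha
  simp only [sat_all, sat_imp, sat_fLevel, sat_fSurj, cons_zero, cons_one, cons_two,
        cons_three, cons_four] at h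
  exact h l hl

end Pool.Agent.Lib.MP_5c1789_lcR
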