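import Pool.Agent.Lib.MP_5c1789_lcR.KDef

/-!
# JOB KB: the generic branches

`memF_iff_models`, `hβ`: it is enough to show, in every `V` with `V.Has q`, that `brN ζ` is a function from
`chk kp` to `chk kp` and that all its restrictions are in `genN`.
* function: `isFun_relN` (in `Core.lean`; monotone: `brN_mono`): (h1) `u.1 < r.t.α < kp`, `u.2 ≤ 1 < kp`.
  (h2) `ρ ∈ chk kp`: locally `ρ = chk x`, `x < kp`; extend the condition such that `ζ` is a label
  (`Cd.exists_label`) and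
  the height is larger than `x` (`exists_height`).  (h3) `chk_inj`, the value is determined by the first component.
* restrictions: `a ∈ chk kp`, reduce to `a = chk a0`, `a0 < kp` (`mod_bounded_chS`; formula
  `.fall (fimp (dFun 0 1 2) (fimp (dSub 0 3) (.fmem 0 4)))` as in `restr_mem` of
  `Pool/Agent/Lib/MP_5c1789_lc/Tree.lean`).  Let `s` be a name, and `p ≤ q` force that `s` is a function
  from `chk a0` to
  `chk kp` and `s ⊆ brN ζ`; show `MemF s genN p` by `MemF.dense`: extend any `r ≤ p` to `r'` with `ζ ∈ r'.D` and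
  `a0 < r'.t.α`.  For `x < a0`: `MemF (opN (chk x) (chk (bt (r'.b ζ) x))) (brN ζ) r'` (`memF_cn_of`); the
  value of `s` at `x` is a value of `brN ζ`, so
  `MemF (opN (chk x) (chk (bt (r'.b ζ) x))) s r'` (`memF_iff_models`); `eq_fN_of_values`:
  `EqF s (fN a0 (bt (r'.b ζ))) r'`, and `= fN a0 (bt (r'.b ζ ∩ Iio a0))` (`fN_congr`, `bt_congr`) with
  `r'.b ζ ∩ Iio a0 ∈ r'.t.T a0` by `down`, which is in `genN` below `r'`.
* `brN_app`: a value of `brN ζ` below a condition.
-/

set_option linter.unusedSimpArgs false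

open Set Cardinal

namespace Pool.Agent.Lib.MP_5c1789_lcR

open Pool.Agent.Lib.Forcing Pool.Agent.Lib.MP_40b13d_lc Pool.Agent.Lib.MP_5c1789_lc

theorem brN_isFun (hCH : CHy) (ζ : Ordinal.{0}) (V : GenUlt Cd) {q : Cd} (hV : V.Has q) :
    IsFun (ModE V) (V.cl (brN ζ)) (V.cl (chk kp)) (V.cl (chk kp)) := by
  have h01 : ∀ (H : Set Ordinal.{0}) (x : Ordinal.{0}), bt H x < kp := by
    intro H x
    have h0 : (0 : Ordinal.{0}) < kp := pos_iff_ne_zero.2 kp_li.1
    have h1 : (1 : Ordinal.{0}) < kp := by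
      have h2 := kp_li.2 0 h0
      rwa [← zero_add (1 : Ordinal.{0})]
    unfold bt
    split_ifs
    · exact h1
    · exact h0
  refine isFun_relN V (ι := Ordinal.{0} × Ordinal.{0}) (fun u => chk u.1) (fun u => chk u.2)
    (brN_mono ζ) (chk kp) (chk kp) hV ?_ ?_ ?_
  · rintro r - u ⟨_, h2, h3⟩
    refine ⟨chk_mem (h2.trans r.t.lt) r, chk_mem ?_ r⟩
    rw [h3]
    exact h01 _ _
  · intro ρ r _ h
    obtain ⟨s, hs, x, hx, h3⟩ := memF_chk.1 h r le_rfl
    obtain ⟨s1, hs1, h4⟩ := s.exists_label ζ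
    obtain ⟨s2, hs2, h5⟩ := exists_height hCH hx s1
    exact ⟨s2, (hs2.trans hs1).trans hs, (x, bt (s2.b ζ) x), ⟨hs2.2.1 h4, h5, rfl⟩,
      h3.mono (hs2.trans hs1)⟩
  · rintro u u' r - ⟨_, _, h3⟩ ⟨_, _, h3'⟩ h
    have e : u.1 = u'.1 := chk_inj h
    have e2 : u.2 = u'.2 := by rw [h3, h3', e]
    rw [e2]
    exact EqF.refl _ _

theorem brN_app {ζ x : Ordinal.{0}} {q : Cd} (hζ : ζ ∈ q.D) (hx : x < q.t.α) :
    MemF (opN (chk x) (chk (bt (q.b ζ) x))) (brN ζ) q := memF_cn_of (nm := fun u : Ordinal.{0} × Ordinal.{0} => opN (chk u.1) (chk u.2))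
    (A := fun (u : Ordinal.{0} × Ordinal.{0}) (p : Cd) =>
      ζ ∈ p.D ∧ u.1 < p.t.α ∧ u.2 = bt (p.b ζ) u.1)
    (x, bt (q.b ζ) x) ⟨hζ, hx, rfl⟩

/-- the generic branches are branches -/
theorem brN_branch (hCH : CHy) (ζ : Ordinal.{0}) {β : Name Cd} {q : Cd}
    (hβ : ∀ V : GenUlt Cd, V.Has q →
      IsBranchSet (ModE V) (V.cl (chk kp)) (V.cl genN) (V.cl β)) : MemF (brN ζ) β q := by
  have key : ∀ (a0 : Ordinal.{0}), a0 < kp → ∀ (τ : Name Cd) (p : Cd),
      (∀ W : GenUlt Cd, W.Has p →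
        IsFun (ModE W) (W.cl τ) (W.cl (chk a0)) (W.cl (chk kp)) ∧
          IsSub (ModE W) (W.cl τ) (W.cl (brN ζ))) → MemF τ genN p := by
    intro a0 ha0 τ p hF
    apply MemF.dense
    intro r hr
    obtain ⟨r1, hr1, h1⟩ := r.exists_label ζ
    obtain ⟨r2, hr2, h2⟩ := exists_height hCH ha0 r1
    have h3 : ζ ∈ r2.D := hr2.2.1 h1
    have hp : r2 ≤ p := (hr2.trans hr1).trans hr
    refine ⟨r2, hr2.trans hr1, ?_⟩
    have h4 : EqF τ (fN a0 (bt (r2.b ζ))) r2 := by
      refine eq_fN_of_values (k := kp) (fun W hW => (hF W (hW.mono hp)).1) fun x hx => ?_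
      rw [memF_iff_models]
      intro W hW
      obtain ⟨g1, g2⟩ := hF W (hW.mono hp)
      obtain ⟨y, ⟨_, z, hz, hz'⟩, _⟩ := g1.2 (W.cl (chk x)) ((mod_chk_mem W).2 hx)
      have g3 : IsApp (ModE W) (W.cl (brN ζ)) (W.cl (chk x)) y := ⟨z, g2 z hz, hz'⟩
      have g4 := app_of (brN_app h3 (hx.trans h2)) hW
      have g5 := isFun_unique (mod_isZFC W) (brN_isFun hCH ζ W hW) g3 g4
      rw [g5, isOPair_iff] at hz'
      rw [← hz']
      exact hz
    have h5 : (fN a0 (bt (r2.b ζ)) : Name Cd) = fN a0 (bt (r2.b ζ ∩ Iio a0)) :=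
      fN_congr fun x hx => bt_congr ⟨fun h => ⟨h, hx⟩, fun h => h.1⟩
    rw [h5] at h4
    refine MemF.congr_left h4.symm ?_
    exact memF_cn_of (nm := fun u : Ordinal.{0} × Set Ordinal.{0} => fN u.1 (bt u.2))
      (a0, r2.b ζ ∩ Iio a0) (r2.t.down r2.t.α a0 (r2.b ζ) (r2.node ζ h3) h2.le)
  rw [memF_iff_models]
  intro V hV
  refine (hβ V hV _).2 ⟨brN_isFun hCH ζ V hV, ?_⟩
  intro a s ha hs hsub
  have h := mod_bounded_chS V (Iio kp)
    (.fall (fimp (dFun 0 1 2) (fimp (dSub 0 3) (.fmem 0 4))))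
    (cons (chk kp) (cons (brN ζ) fun _ => genN)) hV
    (fun a0 ha0 r _ W hW => by
      simp only [sat_all, sat_imp, sat_dFun, sat_dSub, sat_mem, cons_zero, cons_one, cons_two,
        cons_three, cons_four]
      intro t h1 h2
      obtain ⟨τ, rfl⟩ := exists_cl t
      have h3 := los_imp W (φ := .fand (dFun 0 1 2) (dSub 0 3)) (ψ := .fmem 0 4)
        (v := cons τ (cons (chk a0) (cons (chk kp) (cons (brN ζ) fun _ => genN)))) hW
        (fun p _ hp W' hW' => by
          simp only [sat_mem, cons_zero, cons_one, cons_two, cons_three, cons_four]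
          refine memF_iff_models.1 (key a0 ha0 τ p fun W2 hW2 => ?_) W' hW'
          have := forces_iff.1 hp W2 hW2
          simpa only [sat_and, sat_dFun, sat_dSub, cons_zero, cons_one, cons_two, cons_three,
            cons_four] using this)
        (by
          simp only [sat_and, sat_dFun, sat_dSub, cons_zero, cons_one, cons_two, cons_three,
            cons_four]
          exact ⟨h1, h2⟩)
      simpa only [sat_mem, cons_zero, cons_one, cons_two, cons_three, cons_four] using h3) a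
    (by rw [← chk_chS]; exact ha)
  simp only [sat_all, sat_imp, sat_dFun, sat_dSub, sat_mem, cons_zero, cons_one, cons_two,
    cons_three, cons_four] at h
  exact h s hs hsub

end Pool.Agent.Lib.MP_5c1789_lcR
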