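import Pool.Agent.Lib.MP_5c1789_lcR.KA
import Pool.Agent.Lib.MP_5c1789_lcR.KB

/-!
# JOB KC: the branch set is not the image of `κ`; the Kurepa tree

* `genN_not_surj`: suppose `HasSurj` in `V`; let `γ` be a name of the surjection.  By `los` and `hV` there is
  `p ≤ q` which forces `IsFun γ (chk kp) β` and that every element of `β` is a value (`GenUlt.Ev.imp2`,
  `GenUlt.Ev.exists`).
  Determinacy: apply `exists_det` with the index type
  `ι = {u : Ordinal × Ordinal × Ordinal // u.1 < kp ∧ u.2.1 < kp ∧ u.2.2 < kp}` (small) and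
  `φ u r := Forces (fex (.fand (dApp 1 2 0) (dApp 0 3 4)))`
  `(cons γ (cons (chk u.1) (cons (chk u.2.1) fun _ => chk u.2.2))) r`,
  that is `∃ y, γ(u.1) = y ∧ y(u.2.1) = u.2.2` (de Bruijn: inside `fex` the assignment is
  `y, γ, chk u.1, chk u.2.1, chk u.2.2`); `Forces.mono`, `Forces.dense`; `B0 = ∅`.
  Let `ζ` be an ordinal with `ζ ∉ B` (`B` is small; `not_small_ordinal` or `Ordinal.bddAbove_of_small`).
  `brN ζ ∈ β` below `p` (`brN_branch`).  It is a value of `γ`: `decide_arg` (in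
  `Pool/Agent/Lib/MP_5c1789_lc/Ords.lean`, `s = Iio kp`, `chk_chS`, `isFun_mem`): `p1 ≤ p`, `i < kp`,
  `MemF (opN (chk i) (brN ζ)) γ p1`; and `ζ ∈ p1.D` by
  `Cd.exists_label`.
  Let `x = p1.t.α < kp`, `q0 = p1.ext hCH (fun _ => ∅)`, `q1 = p1.ext hCH (fun η => if η = ζ then {0} else ∅)`.
  By `Cd.ext_res_eq`, `q0.res B = q1.res B` (`ζ ∉ B`).  `bt (q0.b ζ) x = 0`, `bt (q1.b ζ) x = 1`
  (`x ∉ p1.b ζ ⊆ Iio x`; `x = p1.t.α + 0`).
  So `φ (i, x, 0) q0` and `φ (i, x, 1) q1` (witness `brN ζ`, `brN_app`).  By determinacy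
  `φ (i, x, 0) (q0.res B)` and `φ (i, x, 1) (q0.res B)`, and by `Forces.mono` (`q0 ≤ q0.res B`) both hold at
  `q0 ≤ p`, where `γ` is a function and its values are functions: in a `W` with `W.Has q0`: `y = y'`
  (`isFun_unique`), then
  `chk 0 = chk 1` (values of the function `y`, an element of `β`, by `hβ`), contradiction (`mod_chk_eq`).
* `exists_kurepa`: `T = genN`: `genN_subtree`, `genN_levels`, and for a branch set `b = U.cl β`: `los_imp`
  (in
  `Pool/Agent/Lib/MP_5c1789_lc/Tree.lean`) with `φ := fBranchSet ..`, `ψ := .fand (fex (.fmem 0 _)) (.fneg (fSurj ..))`: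
  nonempty by `brN_branch` with `ζ = 0`.
The `w1` here is `Pool.Agent.Lib.MP_5c1789_lcR.w1`.
-/

set_option linter.unusedSimpArgs false

open Set Cardinal

namespace Pool.Agent.Lib.MP_5c1789_lcR

open Pool.Agent.Lib.Forcing Pool.Agent.Lib.MP_40b13d_lc Pool.Agent.Lib.MP_5c1789_lc

/-- the branch set is not the image of `κ` -/
theorem genN_not_surj (hCH : CHy) {β : Name Cd} {q : Cd}
    (hβ : ∀ V : GenUlt Cd, V.Has q →
      IsBranchSet (ModE V) (V.cl (chk kp)) (V.cl genN) (V.cl β)) (V : GenUlt Cd) (hV : V.Has q) :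
    ¬ HasSurj (ModE V) (V.cl (chk kp)) (V.cl β) := by
  rintro ⟨g, hg1, hg2⟩
  obtain ⟨γ, rfl⟩ := exists_cl g
  have h1 : Sat (ModE V) (.fand (dFun 0 1 2) (fball 2 (fex (dApp 2 0 1))))
      (fun n => V.cl ((cons γ (cons (chk kp) fun _ => β) : ℕ → Name Cd) n)) := by
    simp only [sat_and, sat_dFun, sat_ball, sat_ex, sat_dApp, cons_zero, cons_one, cons_two]
    exact ⟨hg1, hg2⟩
  rw [los] at h1
  obtain ⟨p, hpq, hp⟩ := (GenUlt.Ev.and hV h1).exists
  have hF : ∀ W : GenUlt Cd, W.Has p →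
      IsFun (ModE W) (W.cl γ) (W.cl (chk kp)) (W.cl β) ∧
      ∀ y, ModE W y (W.cl β) → ∃ x, IsApp (ModE W) (W.cl γ) x y := by
    intro W hW
    have := forces_iff.1 hp W hW
    simpa only [sat_and, sat_dFun, sat_ball, sat_ex, sat_dApp, cons_zero, cons_one, cons_two]
      using this
  have hk0 : (0 : Ordinal.{0}) < kp := pos_iff_ne_zero.2 kp_li.1
  have hk1 : (1 : Ordinal.{0}) < kp := by
    have h := kp_li.2 0 hk0
    rwa [Order.succ_eq_add_one, zero_add] at h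
  -- determinacy
  have hsm : Small.{0} {u : Ordinal.{0} × Ordinal.{0} × Ordinal.{0} //
      u.1 < kp ∧ u.2.1 < kp ∧ u.2.2 < kp} := by
    refine small_of_injective (β := Iio kp × Iio kp × Iio kp)
      (f := fun u => (⟨u.1.1, u.2.1⟩, ⟨u.1.2.1, u.2.2.1⟩, ⟨u.1.2.2, u.2.2.2⟩)) ?_
    intro u u' h
    have h2 := congrArg Prod.fst h
    have h3 := congrArg (fun z => z.2.1) h
    have h4 := congrArg (fun z => z.2.2) h
    exact Subtype.ext (Prod.ext (congrArg Subtype.val h2)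
      (Prod.ext (congrArg Subtype.val h3) (congrArg Subtype.val h4)))
  obtain ⟨B, hB, -, hdet⟩ := exists_det hsm
    (fun u r => Forces (fex (.fand (dApp 1 2 0) (dApp 0 3 4)))
      (cons γ (cons (chk u.1.1) (cons (chk u.1.2.1) fun _ => chk u.1.2.2))) r)
    (fun u p q h hq => h.mono hq) (fun u p h => Forces.dense h) ∅ small_empty
  obtain ⟨ζ, hζB⟩ : ∃ ζ, ζ ∉ B := by
    by_contra h
    push Not at h
    have h2 : B = Set.univ := eq_univ_of_forall h
    rw [h2] at hB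
    exact not_small_ordinal.{0} ((small_univ_iff (α := Ordinal.{0})).1 hB)
  have hbr : MemF (brN ζ) β p := brN_branch hCH ζ fun W hW => hβ W (hW.mono hpq)
  obtain ⟨t, ht, i, hi, hmem⟩ := decide_arg (γ := γ) (ν := brN ζ) (s := Iio kp) (r := p)
    (fun W hW => by
      obtain ⟨h2, h3⟩ := hF W hW
      obtain ⟨x, hx⟩ := h3 _ (memF_iff_models.1 hbr W hW)
      have h4 := (isFun_mem (mod_isZFC W) h2 hx).1
      rw [chk_chS] at h4
      exact ⟨x, h4, hx⟩)
  obtain ⟨p1, hp1, hζ⟩ := t.exists_label ζ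
  obtain ⟨x, hx⟩ : ∃ x, x = p1.t.α := ⟨_, rfl⟩
  have hxk : x < kp := hx ▸ p1.t.lt
  have key : ∀ (r : Cd) (v : Ordinal.{0}), r ≤ p1 → ζ ∈ r.D → x < r.t.α → bt (r.b ζ) x = v →
      Forces (fex (.fand (dApp 1 2 0) (dApp 0 3 4)))
        (cons γ (cons (chk i) (cons (chk x) fun _ => chk v))) r := by
    intro r v hr hζr hxr hv
    rw [forces_iff]
    intro W hW
    simp only [sat_ex, sat_and, sat_dApp, cons_zero, cons_one, cons_two, cons_three, cons_four]
    refine ⟨W.cl (brN ζ), app_of (hmem.mono (hr.trans hp1)) hW, ?_⟩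
    have h2 := app_of (brN_app hζr hxr) hW
    rwa [hv] at h2
  obtain ⟨q0, hq0⟩ : ∃ q0, q0 = p1.ext hCH (fun _ => ∅) := ⟨_, rfl⟩
  obtain ⟨q1, hq1⟩ : ∃ q1, q1 = p1.ext hCH (fun η => {n | η = ζ ∧ n = 0}) := ⟨_, rfl⟩
  have hres : q0.res B = q1.res B := by
    rw [hq0, hq1]
    refine Cd.ext_res_eq hCH rfl ?_
    intro η hη
    have h2 : η ≠ ζ := fun h => hζB (h ▸ hη.2)
    ext n
    constructor
    · intro h
      exact absurd h (notMem_empty _)
    · intro h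
      exact absurd h.1 h2
  have hle0 : q0 ≤ p1 := hq0 ▸ Cd.ext_le hCH p1 _
  have hle1 : q1 ≤ p1 := hq1 ▸ Cd.ext_le hCH p1 _
  have hv0 : bt (q0.b ζ) x = 0 := by
    unfold bt
    rw [if_neg]
    rw [hq0, Cd.ext_b_zero hCH p1 hζ rfl]
    intro h
    have h2 := p1.t.sub _ _ (p1.node ζ hζ) h
    rw [hx] at h2
    exact lt_irrefl _ (mem_Iio.1 h2)
  have hv1 : bt (q1.b ζ) x = 1 := by
    unfold bt
    rw [if_pos]
    rw [hq1]
    refine ⟨hζ, Or.inr ⟨0, ⟨rfl, rfl⟩, ?_⟩⟩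
    rw [hx, Nat.cast_zero, add_zero]
  have hx0 : x < q0.t.α := by
    rw [hq0, hx]
    exact Tr.lt_ext hCH p1.t
  have hx1 : x < q1.t.α := by
    rw [hq1, hx]
    exact Tr.lt_ext hCH p1.t
  have hζ0 : ζ ∈ q0.D := hle0.2.1 hζ
  have hζ1 : ζ ∈ q1.D := hle1.2.1 hζ
  have f0 := hdet ⟨(i, x, 0), hi, hxk, hk0⟩ q0 (key q0 0 hle0 hζ0 hx0 hv0)
  have f1 := hdet ⟨(i, x, 1), hi, hxk, hk1⟩ q1 (key q1 1 hle1 hζ1 hx1 hv1)
  rw [← hres] at f1
  obtain ⟨W, hW⟩ := exists_genUlt q0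
  have hWr : W.Has (q0.res B) := hW.mono (Cd.le_res q0 B)
  have s0 := forces_iff.1 f0 W hWr
  have s1 := forces_iff.1 f1 W hWr
  simp only [sat_ex, sat_and, sat_dApp, cons_zero, cons_one, cons_two, cons_three,
    cons_four] at s0 s1
  obtain ⟨y, hy1, hy2⟩ := s0
  obtain ⟨y', hy1', hy2'⟩ := s1
  have hWp : W.Has p := hW.mono (hle0.trans (hp1.trans ht))
  have hfun := (hF W hWp).1
  have e : y = y' := isFun_unique (mod_isZFC W) hfun hy1 hy1'
  subst e
  have hyβ := (isFun_mem (mod_isZFC W) hfun hy1).2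
  have hyf := ((hβ W (hWp.mono hpq) y).1 hyβ).1
  have h2 := isFun_unique (mod_isZFC W) hyf hy2 hy2'
  exact zero_ne_one ((mod_chk_eq W).1 h2)

theorem exists_kurepa (hCH : CHy) (U : GenUlt Cd) {q : Cd} (hq : U.Has q) :
    ∃ T, IsKurepa (ModE U) (U.cl (chk Pool.Agent.Lib.MP_5c1789_lcR.w1)) (U.cl (chk kp)) T := by
  refine ⟨U.cl genN, genN_subtree U hq, fun a l ha hl hne => genN_levels hCH U hq a l ha hl hne,
    fun b hb => ?_⟩
  obtain ⟨β, rfl⟩ := exists_cl b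
  have h := los_imp U (φ := fBranchSet 1 2 0)
    (ψ := .fand (fex (.fmem 0 1)) (.fneg (fSurj 1 0)))
    (v := cons β (cons (chk kp) fun _ => genN)) hq
    (fun p _ hp V hV => by
      have hβ : ∀ W : GenUlt Cd, W.Has p →
          IsBranchSet (ModE W) (W.cl (chk kp)) (W.cl genN) (W.cl β) := by
        intro W hW
        have := forces_iff.1 hp W hW
        simpa only [sat_fBranchSet, cons_zero, cons_one, cons_two] using this
      simp only [sat_and, sat_ex, sat_neg, sat_mem, sat_fSurj, cons_zero, cons_one, cons_two]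
      exact ⟨⟨V.cl (brN 0), memF_iff_models.1 (brN_branch hCH 0 hβ) V hV⟩,
        genN_not_surj hCH hβ V hV⟩)
    (by simpa only [sat_fBranchSet, cons_zero, cons_one, cons_two] using hb)
  simpa only [sat_and, sat_ex, sat_neg, sat_mem, sat_fSurj, cons_zero, cons_one, cons_two] using h

end Pool.Agent.Lib.MP_5c1789_lcR
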