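import Pool.Agent.Lib.MP_5c1789_lcR.DC
import Pool.Agent.Lib.MP_5c1789_lcR.BDet

/-!
# The generic Kurepa tree (definitions)
-/

set_option linter.unusedSimpArgs false

open Set Cardinal

namespace Pool.Agent.Lib.MP_5c1789_lcR

open Pool.Agent.Lib.Forcing Pool.Agent.Lib.MP_40b13d_lc Pool.Agent.Lib.MP_5c1789_lc

/-- the name of the generic tree -/
noncomputable def genN : Name Cd :=
  cn (ι := Ordinal.{0} × Set Ordinal.{0}) (fun u => fN u.1 (bt u.2)) (fun u p => u.2 ∈ p.t.T u.1)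

theorem genN_mono (u : Ordinal.{0} × Set Ordinal.{0}) (p q : Cd) (h : u.2 ∈ p.t.T u.1)
    (hq : q ≤ p) : u.2 ∈ q.t.T u.1 := by
  rw [(hq.1.2 u.1 (p.t.le _ _ h)).1]
  exact h

/-- the name of the generic branch with the label `ζ` -/
noncomputable def brN (ζ : Ordinal.{0}) : Name Cd :=
  relN (ι := Ordinal.{0} × Ordinal.{0}) (fun u => chk u.1) (fun u => chk u.2)
    (fun u p => ζ ∈ p.D ∧ u.1 < p.t.α ∧ u.2 = bt (p.b ζ) u.1)

theorem brN_mono (ζ : Ordinal.{0}) (u : Ordinal.{0} × Ordinal.{0}) (p q : Cd)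
    (h : ζ ∈ p.D ∧ u.1 < p.t.α ∧ u.2 = bt (p.b ζ) u.1) (hq : q ≤ p) :
    ζ ∈ q.D ∧ u.1 < q.t.α ∧ u.2 = bt (q.b ζ) u.1 := by
  refine ⟨hq.2.1 h.1, h.2.1.trans_le hq.1.1, h.2.2.trans (bt_congr ?_)⟩
  rw [← (hq.2.2 ζ h.1).1]
  exact ⟨fun h' => h'.1, fun h' => ⟨h', h.2.1⟩⟩

end Pool.Agent.Lib.MP_5c1789_lcR
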