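import Pool.Agent.Lib.MP_5c1789_lcR.Game

/-!
# JOB MA: the axiom of choice for definable relations, in a model `(M, E)` of ZFC

For `s ∈ Z` let `P s` be the set of the pairs `(s, y)` with `y ∈ b` and `ψ(s, y)`: first separate
`b' = {y ∈ b | ψ(s, y)}` (`H.separation`), then apply `H.replacement` to `y ↦ (s, y)` (formula `dOPair`;
pairs exist and are unique: `exists_opair`, `IsOPair.unique`).  `P s` is characterised by
`∀ p, E p P ↔ ∃ y, E y b ∧ IsOPair E p s y ∧ Sat E ψ (cons s (cons y v))`; a formula for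
`(s, P)` is obtained with a renaming of the variables of `ψ` (see `renG`, `fG`, `exists_graph` in
`Pool/Agent/Lib/MP_5c1789_lc/Cont.lean`: `sat_ren`).  By `H.replacement` there is the set `x` of all `P s`,
`s ∈ Z`.  The
members of `x` are nonempty (`h`) and pairwise disjoint (a common element `p = (s, y) = (s', y')` gives
`s = s'`, `IsOPair.inj`,
so `P s = P s'` by extensionality).  `H.choice x` gives `c` with `∃! z, E z c ∧ E z (P s)` for `s ∈ Z`.
Now apply `exists_graph H Z b φ _` with `φ(s, y) := ψ(s, y) ∧ ∃ p, p ∈ c ∧ p = (s, y)`: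
the hypothesis `∃! y, E y b ∧ φ(s, y)` follows from `∃! z`.  (In `exists_graph` the assignment is
`cons x (cons y v)`; put `c` into the parameters: use `v' = cons c v` and rename the variables of `ψ` by
`0 ↦ 0, 1 ↦ 1, n + 2 ↦ n + 3`.)
-/

set_option linter.unusedSimpArgs false

namespace Pool.Agent.Lib.MP_5c1789_lcR

open Pool.Agent.Lib.Forcing Pool.Agent.Lib.MP_40b13d_lc Pool.Agent.Lib.MP_5c1789_lc

variable {M : Type*} {E : M → M → Prop}

/-- `P` is the set of the pairs `(s, y)` with `y ∈ b` and `ψ(s, y)` -/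
private def MaP (E : M → M → Prop) (b : M) (ψ : Fml) (v : ℕ → M) (s P : M) : Prop :=
  ∀ p, E p P ↔ ∃ y, E y b ∧ IsOPair E p s y ∧ Sat E ψ (cons s (cons y v))

private def maR1 : ℕ → ℕ
  | 0 => 1
  | 1 => 0
  | n + 2 => n + 2

private def maR2 : ℕ → ℕ
  | 0 => 2
  | 1 => 0
  | n + 2 => n + 5

private def maR3 : ℕ → ℕ
  | 0 => 0
  | 1 => 1
  | n + 2 => n + 3

private theorem ma_exP (H : IsZFC M E) (b : M) (ψ : Fml) (v : ℕ → M) (s : M) :
    ∃ P, MaP E b ψ v s P := by
  have e1 : ∀ y, (fun n => cons y (cons s v) (maR1 n)) = cons s (cons y v) := by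
    intro y
    funext n
    match n with
    | 0 => rfl
    | 1 => rfl
    | n + 2 => rfl
  obtain ⟨b', hb'⟩ := H.separation (ψ.ren maR1) (cons s v) b
  simp only [sat_ren, e1] at hb'
  obtain ⟨P, hP⟩ := H.replacement (dOPair 1 2 0) (cons s v) b' (fun y _ => by
    simp only [sat_dOPair, cons_zero, cons_one, cons_two]
    obtain ⟨z, hz⟩ := exists_opair H s y
    exact ⟨z, hz, fun z' hz' => hz'.unique H hz⟩)
  simp only [sat_dOPair, cons_zero, cons_one, cons_two] at hP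
  refine ⟨P, fun p => ?_⟩
  rw [hP]
  constructor
  · rintro ⟨y, hy, hp⟩
    obtain ⟨h1, h2⟩ := (hb' y).1 hy
    exact ⟨y, h1, hp, h2⟩
  · rintro ⟨y, h1, hp, h2⟩
    exact ⟨y, (hb' y).2 ⟨h1, h2⟩, hp⟩

private theorem MaP.unique (H : IsZFC M E) {b : M} {ψ : Fml} {v : ℕ → M} {s P P' : M}
    (h : MaP E b ψ v s P) (h' : MaP E b ψ v s P') : P = P' :=
  H.extensionality _ _ fun p => (h p).trans (h' p).symm

/-- the axiom of choice for definable relations -/
theorem exists_choice_fun (H : IsZFC M E) (Z b : M) (ψ : Fml) (v : ℕ → M)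
    (h : ∀ s, E s Z → ∃ y, E y b ∧ Sat E ψ (cons s (cons y v))) :
    ∃ g, IsFun E g Z b ∧ ∀ s y, IsApp E g s y → Sat E ψ (cons s (cons y v)) := by
  have e2 : ∀ s P p y, (fun n => cons y (cons p (cons s (cons P (cons b v)))) (maR2 n)) =
      cons s (cons y v) := by
    intro s P p y
    funext n
    match n with
    | 0 => rfl
    | 1 => rfl
    | n + 2 => rfl
  have k2 : ∀ s P, Sat E (.fall (fiff (.fmem 0 2) (fex (.fand (.fmem 0 4)
      (.fand (dOPair 1 2 0) (ψ.ren maR2)))))) (cons s (cons P (cons b v))) ↔ MaP E b ψ v s P := by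
    intro s P
    simp only [MaP, sat_all, sat_iff, sat_ex, sat_and, sat_mem, sat_dOPair, sat_ren, cons_zero,
      cons_one, cons_two, cons_three, cons_four, e2]
  obtain ⟨x, hx⟩ := H.replacement _ (cons b v) Z (fun s _ => by
    refine (existsUnique_congr fun P => k2 s P).2 ?_
    obtain ⟨P, hP⟩ := ma_exP H b ψ v s
    exact ⟨P, hP, fun P' hP' => hP'.unique H hP⟩)
  simp only [k2] at hx
  obtain ⟨c, hc⟩ := H.choice x (by
    intro P hP
    obtain ⟨s, hs, hPs⟩ := (hx P).1 hP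
    obtain ⟨y, hy, hψ⟩ := h s hs
    obtain ⟨p, hp⟩ := exists_opair H s y
    exact ⟨p, (hPs p).2 ⟨y, hy, hp, hψ⟩⟩) (by
    rintro P P' hP hP' hne p ⟨h1, h2⟩
    obtain ⟨s, hs, hPs⟩ := (hx P).1 hP
    obtain ⟨s', hs', hPs'⟩ := (hx P').1 hP'
    obtain ⟨y, _, hp, _⟩ := (hPs p).1 h1
    obtain ⟨y', _, hp', _⟩ := (hPs' p).1 h2
    obtain ⟨rfl, _⟩ := hp.inj H hp'
    exact hne (hPs.unique H hPs'))
  have e3 : ∀ s y, (fun n => cons s (cons y (cons c v)) (maR3 n)) = cons s (cons y v) := by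
    intro s y
    funext n
    match n with
    | 0 => rfl
    | 1 => rfl
    | n + 2 => rfl
  have k3 : ∀ s y, Sat E (.fand (ψ.ren maR3) (fex (.fand (.fmem 0 3) (dOPair 0 1 2))))
      (cons s (cons y (cons c v))) ↔
      Sat E ψ (cons s (cons y v)) ∧ ∃ p, E p c ∧ IsOPair E p s y := by
    intro s y
    simp only [sat_ex, sat_and, sat_mem, sat_dOPair, sat_ren, cons_zero,
      cons_one, cons_two, cons_three, e3]
  obtain ⟨g, hg, hga⟩ := exists_graph H Z b
    (.fand (ψ.ren maR3) (fex (.fand (.fmem 0 3) (dOPair 0 1 2)))) (cons c v) (by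
      intro s hs
      refine (existsUnique_congr fun y => and_congr_right fun _ => k3 s y).2 ?_
      obtain ⟨P, hP⟩ := ma_exP H b ψ v s
      obtain ⟨z, ⟨hzc, hzP⟩, hzu⟩ := hc P ((hx P).2 ⟨s, hs, hP⟩)
      obtain ⟨y, hy, hzy, hψ⟩ := (hP z).1 hzP
      refine ⟨y, ⟨hy, hψ, z, hzc, hzy⟩, ?_⟩
      rintro y' ⟨hy', hψ', p, hpc, hp⟩
      have h1 : p = z := hzu p ⟨hpc, (hP p).2 ⟨y', hy', hp, hψ'⟩⟩
      subst h1
      exact (hp.inj H hzy).2)
  refine ⟨g, hg, fun s y hsy => ?_⟩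
  exact ((k3 s y).1 ((hga s y).1 hsy).2.2).1

end Pool.Agent.Lib.MP_5c1789_lcR
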