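import Pool.Agent.Lib.MP_5c1789_lcR.Game

/-!
# JOB MB: restrictions, trichotomy, least elements, in a model `(M, E)` of ZFC

* `exists_restr`: `s = {z ∈ x | ∃ i ∈ a, ∃ u, z = (i, u)}` (`H.separation`, formula
  `fex (.fand (.fmem 0 _) (fex (dOPair _ _ _)))`).  `IsFun E s a k`: for `i ∈ a` we have `i ∈ k` (`hk`),
  the value of `x` at `i`.  (`isFun_mem`, `isFun_unique` in `Pool/Agent/Lib/MP_5c1789_lc/Core.lean`,
  `IsOPair.inj`.)
* `restr_unique`: `isFun_ext` (in `Core.lean`): if `IsApp E s i u` then `i ∈ a`, `IsApp E x i u`; the value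
  `u'` of `s'` at `i` is also a value of `x`, so `u = u'` (`isFun_unique`).
* `ord_tri`: classical proof with foundation.  Suppose some pair `i, j ∈ k` is not comparable.  The set
  of the `i ∈ k` such that some `j ∈ k` is not comparable with `i` is nonempty (`H.separation`);
  choose an `∈`-minimal element `i`
  (`H.foundation`), then an `∈`-minimal `j` in the set of the elements of `k` not comparable with `i`.
  Then `i = j`: if
  `x ∈ i` then `x ∈ k` (`k` is transitive), `x` is comparable with `j` by the minimality of `i`: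
  `x ∈ j`, or `x = j` (then
  `j ∈ i`), or `j ∈ x ∈ i` (then `j ∈ i`, `i` is transitive: `hk.2`), the last two contradict
  incomparability; so `x ∈ j`.
  If `x ∈ j` then by the minimality of `j`, `x` is comparable with `i`: `i ∈ x`, `i = x` give `i ∈ j`
  (`j` transitive), contradiction; so
  `x ∈ i`.  By extensionality `i = j`, contradiction.
* `exists_least`: `H.separation` on `k` and `H.foundation`.
-/

set_option linter.unusedSimpArgs false

namespace Pool.Agent.Lib.MP_5c1789_lcR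

open Pool.Agent.Lib.Forcing Pool.Agent.Lib.MP_40b13d_lc Pool.Agent.Lib.MP_5c1789_lc

variable {M : Type*} {E : M → M → Prop}

private theorem mb_agree (H : IsZFC M E) {x k a s : M} (hx : IsFun E x k k)
    (hs : IsFun E s a k) (hsx : IsSub E s x) {j u : M} (hj : E j a) :
    IsApp E s j u ↔ IsApp E x j u := by
  constructor
  · rintro ⟨z, hz, hp⟩
    exact ⟨z, hsx z hz, hp⟩
  · intro h
    obtain ⟨u', ⟨_, hu'⟩, _⟩ := hs.2 j hj
    obtain ⟨z, hz, hp⟩ := hu'
    have h2 : IsApp E x j u' := ⟨z, hsx z hz, hp⟩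
    have h3 := isFun_unique H hx h h2
    rw [h3]
    exact ⟨z, hz, hp⟩

/-- restriction of a function -/
theorem exists_restr (H : IsZFC M E) {x k a : M} (hk : IsTrans E k) (hx : IsFun E x k k)
    (ha : E a k) : ∃ s, IsFun E s a k ∧ IsSub E s x ∧
      ∀ i u, IsApp E s i u ↔ E i a ∧ IsApp E x i u := by
  obtain ⟨s, hs⟩ := H.separation (fex (.fand (.fmem 0 2) (fex (dOPair 2 1 0)))) (fun _ => a) x
  simp only [sat_ex, sat_and, sat_mem, sat_dOPair, cons_zero, cons_one, cons_two] at hs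
  have happ : ∀ i u, IsApp E s i u ↔ E i a ∧ IsApp E x i u := by
    intro i u
    constructor
    · rintro ⟨z, hz, hp⟩
      obtain ⟨hzx, i', hi', u', hp'⟩ := (hs z).1 hz
      obtain ⟨rfl, rfl⟩ := hp.inj H hp'
      exact ⟨hi', z, hzx, hp⟩
    · rintro ⟨hi, z, hz, hp⟩
      exact ⟨z, (hs z).2 ⟨hz, i, hi, u, hp⟩, hp⟩
  refine ⟨s, ⟨?_, ?_⟩, fun z hz => ((hs z).1 hz).1, happ⟩
  · intro z hz
    obtain ⟨hzx, i, hi, u, hp⟩ := (hs z).1 hz
    exact ⟨i, u, hi, (isFun_mem H hx ⟨z, hzx, hp⟩).2, hp⟩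
  · intro i hi
    obtain ⟨y, ⟨hy, hy'⟩, huniq⟩ := hx.2 i (hk a ha i hi)
    refine ⟨y, ⟨hy, (happ i y).2 ⟨hi, hy'⟩⟩, ?_⟩
    rintro y' ⟨h1, h2⟩
    exact huniq y' ⟨h1, ((happ i y').1 h2).2⟩

theorem restr_unique (H : IsZFC M E) {x k a s s' : M} (hx : IsFun E x k k)
    (hs : IsFun E s a k) (hsx : IsSub E s x) (hs' : IsFun E s' a k) (hsx' : IsSub E s' x) :
    s = s' := by
  refine isFun_ext H hs hs' fun i u => ?_
  constructor
  · intro h
    have hi := (isFun_mem H hs h).1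
    exact (mb_agree H hx hs' hsx' hi).2 ((mb_agree H hx hs hsx hi).1 h)
  · intro h
    have hi := (isFun_mem H hs' h).1
    exact (mb_agree H hx hs hsx hi).2 ((mb_agree H hx hs' hsx' hi).1 h)

/-- trichotomy for the elements of an ordinal -/
theorem ord_tri (H : IsZFC M E) {k : M} (hk : IsOrdinal E k) {i j : M} (hi : E i k) (hj : E j k) :
    E i j ∨ i = j ∨ E j i := by
  by_contra hcon
  -- the set of the bad elements
  obtain ⟨B, hB⟩ := H.separation (fex (.fand (.fmem 0 2) (.fneg (ffor (.fmem 1 0)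
    (ffor (.feq 1 0) (.fmem 0 1)))))) (fun _ => k) k
  simp only [sat_ex, sat_and, sat_neg, sat_or, sat_mem, sat_eq, cons_zero, cons_one, cons_two]
    at hB
  obtain ⟨i0, hi0, hmin⟩ := H.foundation B ⟨i, (hB i).2 ⟨hi, j, hj, hcon⟩⟩
  obtain ⟨hi0k, j1, hj1, hij1⟩ := (hB i0).1 hi0
  obtain ⟨D, hD⟩ := H.separation (.fneg (ffor (.fmem 1 0)
    (ffor (.feq 1 0) (.fmem 0 1)))) (fun _ => i0) k
  simp only [sat_neg, sat_or, sat_mem, sat_eq, cons_zero, cons_one] at hD
  obtain ⟨j0, hj0, hmin2⟩ := H.foundation D ⟨j1, (hD j1).2 ⟨hj1, hij1⟩⟩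
  obtain ⟨hj0k, hij⟩ := (hD j0).1 hj0
  apply hij
  refine Or.inr (Or.inl (H.extensionality _ _ fun x => ?_))
  constructor
  · intro hx
    have hxk : E x k := hk.1 i0 hi0k x hx
    by_contra hxj
    apply hmin x hx
    refine (hB x).2 ⟨hxk, j0, hj0k, ?_⟩
    rintro (h | h | h)
    · exact hxj h
    · exact hij (Or.inr (Or.inr (h ▸ hx)))
    · exact hij (Or.inr (Or.inr (hk.2 i0 hi0k x hx j0 h)))
  · intro hx
    have hxk : E x k := hk.1 j0 hj0k x hx
    by_contra hxi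
    apply hmin2 x hx
    refine (hD x).2 ⟨hxk, ?_⟩
    rintro (h | h | h)
    · exact hij (Or.inl (hk.2 j0 hj0k x hx i0 h))
    · exact hij (Or.inl (h ▸ hx))
    · exact hxi h

/-- least elements -/
theorem exists_least (H : IsZFC M E) {k : M} (φ : Fml) (v : ℕ → M)
    (h : ∃ i, E i k ∧ Sat E φ (cons i v)) :
    ∃ i, E i k ∧ Sat E φ (cons i v) ∧ ∀ j, E j i → E j k → ¬ Sat E φ (cons j v) := by
  obtain ⟨i, hi, hs⟩ := h
  obtain ⟨B, hB⟩ := H.separation φ v k
  obtain ⟨i0, hi0, hmin⟩ := H.foundation B ⟨i, (hB i).2 ⟨hi, hs⟩⟩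
  refine ⟨i0, ((hB i0).1 hi0).1, ((hB i0).1 hi0).2, fun j hj hjk hsj => ?_⟩
  exact hmin j hj ((hB j).2 ⟨hjk, hsj⟩)

/-- `x` is good below `a` if and only if its restriction to `a` is -/
theorem OKat_restr (H : IsZFC M E) {k R N x a s : M} (hk : IsOrdinal E k) (hx : IsFun E x k k)
    (ha : E a k) (hs : IsFun E s a k) (hsx : IsSub E s x) {i : M} (hi : E i a) :
    OKat E R N s i ↔ OKat E R N x i := by
  have hsub : ∀ j, E j i ∨ j = i → E j a := by
    rintro j (h | rfl)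
    · exact hk.2 a ha i hi j h
    · exact hi
  have hag : ∀ j u, E j i ∨ j = i → (IsApp E s j u ↔ IsApp E x j u) := fun j u h =>
    mb_agree H hx hs hsx (hsub j h)
  constructor
  · rintro ⟨h1, h2⟩
    refine ⟨fun j u u' hji hu hu' => ?_, fun u' hu' => ?_⟩
    · exact h1 j u u' hji ((hag j u hji).2 hu) ((hag i u' (Or.inr rfl)).2 hu')
    · exact h2 u' ((hag i u' (Or.inr rfl)).2 hu')
  · rintro ⟨h1, h2⟩
    refine ⟨fun j u u' hji hu hu' => ?_, fun u' hu' => ?_⟩
    · exact h1 j u u' hji ((hag j u hji).1 hu) ((hag i u' (Or.inr rfl)).1 hu')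
    · exact h2 u' ((hag i u' (Or.inr rfl)).1 hu')

end Pool.Agent.Lib.MP_5c1789_lcR
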