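import Pool.Agent.Lib.MP_5c1789_lcR.MB

/-!
# JOB MC: a play which is good everywhere defines a branch (in a model `(M, E)` of ZFC)

(1) For every `a ∈ k` there is `y' ∈ b` with: for all `i ∈ a`, `x(i) = u`, `(u, z) ∈ N`: `z ⊆ y'`.  (Take the
restriction `s` of `x` to `a` (`exists_restr`), it is good (`OKat_restr`), and `h.D`.)
(2) For every `i ∈ k` there are `u, z, v` with `x(i) = u`, `(u, z) ∈ N`, `z(i) = v`, `v ∈ k` (`OKat`, second
part; `z` is a function from an element of `k` to `k` by `h.N_fun`, `isFun_mem`).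
Define the function `y` by `exists_graph H k k φ` where `φ(w, v)` says
`∃ i ∈ k, ∃ u z, x(i) = u, (u, z) ∈ N, z(w) = v` (parameters `x, N, k`).  The hypothesis `∃! v`:
existence by (2) with `i = w`.
Uniqueness: `z(w) = v`, `z'(w) = v'` with `z, z'` from `i, i' ∈ k`; let `a ∈ k` with `i, i' ∈ a` (the larger
one of `i, i'` (`ord_tri`) and `h.lim`; `a` is transitive); with `y'` from (1), `z, z' ⊆ y'`, and `y'` is a
function (`h.br`), so `v = v'` (`isFun_unique`).
Then `IsApp E y w v ↔ E w k ∧ E v k ∧ φ(w, v)`.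
`z ⊆ y` for `i ∈ k`, `x(i) = u`, `(u, z) ∈ N`: an element `e` of `z` is a pair `(w, v)` (`h.N_fun`), `w ∈ k`
(transitivity), so `(w, v)` is in `y` (`IsOPair.unique`).
`y ∈ b` by `h.br`: let `a ∈ k`, `s` a function from `a` to `k`, `s ⊆ y`.  Let `z` be from (2) for `i = a`
(`z(a)` is defined), `a' ∈ k` with
`a ∈ a'`, and `y'` from (1) for `a'`: `z ⊆ y'`.  Then `s ⊆ y'`: if `(w, v) ∈ s` then `w ∈ a`; the domain of
`z` is an element `d` of `k`, with `a ∈ d`, so
`w ∈ d`, `z(w) = v''` for some `v''`; `z ⊆ y` gives `v'' = v` (`y` is a function); `z ⊆ y'`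
gives `(w, v) ∈ y'`.  So `s ∈ T` because `y' ∈ b` (`h.br`).
Uniqueness of `y`: if `y' ∈ b` contains all these `z` then for `w ∈ k` the `z` from (2) for `i = w` shows that
`y(w) = z(w) = y'(w)`; `isFun_ext`.
-/

set_option linter.unusedSimpArgs false

namespace Pool.Agent.Lib.MP_5c1789_lcR

open Pool.Agent.Lib.Forcing Pool.Agent.Lib.MP_40b13d_lc Pool.Agent.Lib.MP_5c1789_lc

variable {M : Type*} {E : M → M → Prop}

private theorem mc_app_sub {z y w v : M} (h : IsSub E z y) (hv : IsApp E z w v) :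
    IsApp E y w v := by
  obtain ⟨e, he, hp⟩ := hv
  exact ⟨e, h e he, hp⟩

private theorem mc_bound (H : IsZFC M E) {k T b R N x : M} (h : GameHyp E k T b R N)
    (hx : IsFun E x k k) (hg : ∀ i, E i k → OKat E R N x i) {a : M} (ha : E a k) :
    ∃ y', E y' b ∧ ∀ i u z, E i a → IsApp E x i u → IsApp E N u z → IsSub E z y' := by
  obtain ⟨s, hs, hsx, hsa⟩ := exists_restr H h.ord.1 hx ha
  obtain ⟨y', hy', hz⟩ := h.D a s ha hs
    (fun i hi => (OKat_restr H h.ord hx ha hs hsx hi).2 (hg i (h.ord.1 a ha i hi)))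
  exact ⟨y', hy', fun i u z hi hu hz' => hz i u z hi ((hsa i u).2 ⟨hi, hu⟩) hz'⟩

private theorem mc_val (H : IsZFC M E) {k T b R N x : M} (h : GameHyp E k T b R N)
    (hx : IsFun E x k k) (hg : ∀ i, E i k → OKat E R N x i) {i : M} (hi : E i k) :
    ∃ u z v, IsApp E x i u ∧ IsApp E N u z ∧ IsApp E z i v ∧ E v k := by
  obtain ⟨u, ⟨_, hu⟩, _⟩ := hx.2 i hi
  obtain ⟨z, v, hz, hv⟩ := (hg i hi).2 u hu
  obtain ⟨a, _, hza⟩ := h.N_fun u z hz
  exact ⟨u, z, v, hu, hz, hv, (isFun_mem H hza hv).2⟩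

private theorem mc_pair (H : IsZFC M E) {k T b R N : M} (h : GameHyp E k T b R N)
    {i i' : M} (hi : E i k) (hi' : E i' k) : ∃ a, E a k ∧ E i a ∧ E i' a := by
  rcases ord_tri H h.ord hi hi' with hii | rfl | hii
  · obtain ⟨a, ha, hia⟩ := h.lim i' hi'
    exact ⟨a, ha, h.ord.2 a ha i' hia i hii, hia⟩
  · obtain ⟨a, ha, hia⟩ := h.lim i hi
    exact ⟨a, ha, hia, hia⟩
  · obtain ⟨a, ha, hia⟩ := h.lim i hi
    exact ⟨a, ha, hia, h.ord.2 a ha i hia i' hii⟩

private theorem mc_uniq (H : IsZFC M E) {k T b R N x : M} (h : GameHyp E k T b R N)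
    (hx : IsFun E x k k) (hg : ∀ i, E i k → OKat E R N x i) {i i' u u' z z' w v v' : M}
    (hu : IsApp E x i u) (hz : IsApp E N u z) (hv : IsApp E z w v)
    (hu' : IsApp E x i' u') (hz' : IsApp E N u' z') (hv' : IsApp E z' w v') : v = v' := by
  obtain ⟨a, ha, hia, hia'⟩ := mc_pair H h (isFun_mem H hx hu).1 (isFun_mem H hx hu').1
  obtain ⟨y', hy', hy⟩ := mc_bound H h hx hg ha
  have hyf : IsFun E y' k k := ((h.br y').1 hy').1
  exact isFun_unique H hyf (mc_app_sub (hy i u z hia hu hz) hv)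
    (mc_app_sub (hy i' u' z' hia' hu' hz') hv')

/-- a play which is good everywhere defines a branch -/
theorem good_branch (H : IsZFC M E) {k T b R N x : M} (h : GameHyp E k T b R N)
    (hx : IsFun E x k k) (hg : ∀ i, E i k → OKat E R N x i) :
    ∃ y, E y b ∧ (∀ i u z, E i k → IsApp E x i u → IsApp E N u z → IsSub E z y) ∧
      ∀ y', E y' b → (∀ i u z, E i k → IsApp E x i u → IsApp E N u z → IsSub E z y') → y' = y := by
  obtain ⟨y, hyf, hya⟩ := exists_graph H k k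
    (fex (fex (fex (.fand (dApp 5 2 1) (.fand (dApp 6 1 0) (dApp 0 3 4))))))
    (cons x (fun _ => N)) (by
      intro w hw
      simp only [sat_ex, sat_and, sat_dApp, cons_zero, cons_one, cons_two, cons_three, cons_four,
        cons_five, cons_six]
      obtain ⟨u, z, v, hu, hz, hv, hvk⟩ := mc_val H h hx hg hw
      refine ⟨v, ⟨hvk, w, u, z, hu, hz, hv⟩, ?_⟩
      rintro v' ⟨_, i', u', z', hu', hz', hv'⟩
      exact mc_uniq H h hx hg hu' hz' hv' hu hz hv)
  simp only [sat_ex, sat_and, sat_dApp, cons_zero, cons_one, cons_two, cons_three, cons_four,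
    cons_five, cons_six] at hya
  have hsub : ∀ i u z, IsApp E x i u → IsApp E N u z → IsSub E z y := by
    intro i u z hu hz e he
    obtain ⟨a, ha, hza⟩ := h.N_fun u z hz
    obtain ⟨w, v, hw, hv, hp⟩ := hza.1 e he
    obtain ⟨e', he', hp'⟩ := (hya w v).2 ⟨h.ord.1 a ha w hw, hv, i, u, z, hu, hz, ⟨e, he, hp⟩⟩
    rwa [hp.unique H hp']
  refine ⟨y, ?_, fun i u z _ hu hz => hsub i u z hu hz, ?_⟩
  · refine (h.br y).2 ⟨hyf, fun a s ha hs hsy => ?_⟩
    obtain ⟨u, z, v, hu, hz, hv, _⟩ := mc_val H h hx hg ha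
    obtain ⟨a', ha', haa'⟩ := h.lim a ha
    obtain ⟨y', hy', hyb⟩ := mc_bound H h hx hg ha'
    have hzy' : IsSub E z y' := hyb a u z haa' hu hz
    obtain ⟨d, hd, hzd⟩ := h.N_fun u z hz
    have had : E a d := (isFun_mem H hzd hv).1
    refine ((h.br y').1 hy').2 a s ha hs fun e he => ?_
    obtain ⟨w, v1, hw, _, hp⟩ := hs.1 e he
    obtain ⟨v2, ⟨_, hv2⟩, _⟩ := hzd.2 w (h.ord.2 d hd a had w hw)
    have h1 : IsApp E y w v1 := mc_app_sub hsy ⟨e, he, hp⟩
    have h2 : IsApp E y w v2 := mc_app_sub (hsub a u z hu hz) hv2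
    have h3 : v1 = v2 := isFun_unique H hyf h1 h2
    subst h3
    obtain ⟨e', he', hp'⟩ := hv2
    apply hzy'
    rwa [hp.unique H hp']
  · intro y' hy' hz'
    have hyf' : IsFun E y' k k := ((h.br y').1 hy').1
    refine isFun_ext H hyf' hyf fun w v => ⟨fun hwv => ?_, fun hwv => ?_⟩
    · have hw : E w k := (isFun_mem H hyf' hwv).1
      obtain ⟨u, z, v0, hu, hz, hv0, _⟩ := mc_val H h hx hg hw
      rw [isFun_unique H hyf' hwv (mc_app_sub (hz' w u z hw hu hz) hv0)]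
      exact mc_app_sub (hsub w u z hu hz) hv0
    · have hw : E w k := (isFun_mem H hyf hwv).1
      obtain ⟨u, z, v0, hu, hz, hv0, _⟩ := mc_val H h hx hg hw
      rw [isFun_unique H hyf hwv (mc_app_sub (hsub w u z hu hz) hv0)]
      exact mc_app_sub (hz' w u z hw hu hz) hv0

end Pool.Agent.Lib.MP_5c1789_lcR
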