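import Pool.Agent.Lib.MP_5c1789_lcR.MA
import Pool.Agent.Lib.MP_5c1789_lcR.MB

/-!
# JOB MD: the captured branches

Let `ρ` be the set given by `h.C y hy`.  By `exists_choice_fun H k k ψ v` with
`ψ(i, u) := u ∈ ρ ∧ ∃ z v, (u, z) ∈ N ∧ z(i) = v` (parameters `ρ, N`) there is a function `x` from `k` to `k`
such that for all `i ∈ k`, `x(i) = u`: `u ∈ ρ` and `∃ z v, (u, z) ∈ N ∧ z(i) = v`.
`OKat`: the first part: `u, u' ∈ ρ`, so `(u, u') ∈ R`; the second part: the choice of `x`.  The last claim: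
the last part of `h.C`.
-/

set_option linter.unusedSimpArgs false

namespace Pool.Agent.Lib.MP_5c1789_lcR

open Pool.Agent.Lib.Forcing Pool.Agent.Lib.MP_40b13d_lc Pool.Agent.Lib.MP_5c1789_lc

variable {M : Type*} {E : M → M → Prop}

/-- the captured branches -/
theorem exists_play (H : IsZFC M E) {k T b R N y : M} (h : GameHyp E k T b R N) (hy : E y b) :
    ∃ x, IsFun E x k k ∧ (∀ i, E i k → OKat E R N x i) ∧
      ∀ i u z, E i k → IsApp E x i u → IsApp E N u z → IsSub E z y := by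
  obtain ⟨ρ, h1, h2, h3, h4⟩ := h.C y hy
  obtain ⟨x, hx, hsat⟩ := exists_choice_fun H k k
    (.fand (.fmem 1 2) (fex (fex (.fand (dApp 5 3 1) (dApp 1 2 0))))) (cons ρ fun _ => N) (by
      intro i hi
      obtain ⟨u, z, v, hu, hz, hv⟩ := h3 i hi
      refine ⟨u, h1 u hu, ?_⟩
      simp only [sat_and, sat_mem, sat_ex, sat_dApp, cons_zero, cons_one, cons_two, cons_three,
        cons_four, cons_five]
      exact ⟨hu, z, v, hz, hv⟩)
  simp only [sat_and, sat_mem, sat_ex, sat_dApp, cons_zero, cons_one, cons_two, cons_three,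
    cons_four, cons_five] at hsat
  exact ⟨x, hx, fun i _ => ⟨fun j u u' _ hu hu' => h2 u u' (hsat j u hu).1 (hsat i u' hu').1,
    fun u' hu' => (hsat i u' hu').2⟩, fun i u z _ hu hz => h4 u z (hsat i u hu).1 hz⟩

end Pool.Agent.Lib.MP_5c1789_lcR
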