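import Pool.Agent.Lib.MP_5c1789_lcR.MC
import Pool.Agent.Lib.MP_5c1789_lcR.MD

/-!
# JOB ME: the criterion

`g` := the function from `Z` to `b` given by `exists_choice_fun H Z b ψ v` with
`ψ(s, y) := (∀ i, OKat R N s i) → ∀ i u z, s(i) = u → (u, z) ∈ N → z ⊆ y` (parameters `R, N`; for
`s ∈ Z` with `∀ i, OKat s i` use
`h.D`, else any element of `b`, `hne`).
`f` := the function from `F` to `b` given by `exists_graph H F b φ v`, where `φ(x, y)` is the disjunction of
(A) `(∀ i ∈ k, OKat x i) ∧ ∀ i u z, i ∈ k → x(i) = u → (u, z) ∈ N → z ⊆ y`,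
(B) `∃ i ∈ k, ¬ OKat x i ∧ (∀ j ∈ i, OKat x j) ∧ ∃ s, IsFun s i k ∧ s ⊆ x ∧ g(s) = y`
(parameters `R, N, k, g`; as in `exists_cont` of `Pool/Agent/Lib/MP_5c1789_lc/Cont.lean`).
`∃! y`: let `x ∈ F`, i.e. `IsFun x k k`.  If `x` is good everywhere, (B) is impossible and (A) has a unique
solution `y ∈ b` (`good_branch`).  If not: `exists_least` gives `i ∈ k` with `¬ OKat x i` and `OKat x j` for
all `j ∈ i` (`j ∈ k` by transitivity); it is unique: for another such `i'`, `ord_tri` and both
minimalities.  The restriction `s` exists and is unique (`exists_restr`, `restr_unique`), `s ∈ Z`, so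
`y = g(s)` is unique (`isFun_unique`).
Surjectivity: `exists_play` gives `x` for `y`, and (A) holds.
Continuity at `x` (with `y = f(x)`), `a ∈ k`.
Case (A): let `c ∈ k` with `a ∈ c` (`h.lim`).  Let `x'` agree with `x` on `c`, `y' = f(x')`.  Let `u = x(a) = x'(a)`
and `z, v` with `(u, z) ∈ N`, `z(a) = v` (`OKat x a`).  `z ⊆ y` by (A).  For `i ∈ c`: `OKat x' i` (it depends only on the
values at `j ∈ i` and at `i`, all in `c`; `c` is transitive).  `z ⊆ y'`: if (A) holds for `x'`: clear.  If
(B) holds with `i0`, `s`: `i0 ∉ c`, so `c ∈ i0` or `c = i0` (`ord_tri`), so `a ∈ i0`; `s` is good everywhere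
(`OKat_restr` for `i ∈ i0`; for `i ∉ i0` `OKat s i` holds trivially since `s` has no value at `i`), so by the
choice of `g`, `z ⊆ g(s) = y'` (`s(a) = u`).
For `w ∈ a`: `w` is in the domain of `z` (the domain is some `d ∈ k`, `a ∈ d`, `d` transitive), so
`y(w) = z(w) = y'(w)`: `AgreeOn E a y y'` (both are functions from `k` to `k` by `h.br`).
Case (B) with `i0`, `s`: let `c ∈ k` with `i0 ∈ c`.  If `x'` agrees with `x` on `c`: `¬ OKat x' i0`,
`OKat x' j` for `j ∈ i0`, so
`f(x') = g(s')` where `s'` is the restriction of `x'` to `i0`; `s' = s` (`isFun_ext`), so `y' = y`.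
-/

set_option linter.unusedSimpArgs false

namespace Pool.Agent.Lib.MP_5c1789_lcR

open Pool.Agent.Lib.Forcing Pool.Agent.Lib.MP_40b13d_lc Pool.Agent.Lib.MP_5c1789_lc

variable {M : Type*} {E : M → M → Prop}

private theorem me_aux {R N x x' c i : M} (hc : IsTrans E c) (hi : E i c)
    (hag : AgreeOn E c x x') (h : OKat E R N x i) : OKat E R N x' i := by
  refine ⟨fun j u u' hj hu hu' => ?_, fun u' hu' => h.2 u' ((hag i hi u').2 hu')⟩
  have hjc : E j c := by
    rcases hj with hj | rfl
    · exact hc i hi j hj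
    · exact hi
  exact h.1 j u u' hj ((hag j hjc u).2 hu) ((hag i hi u').2 hu')

/-- `OKat` depends only on the values up to `i` -/
theorem OKat_congr {k R N x x' c i : M} (hc : IsTrans E c) (hi : E i c)
    (hag : AgreeOn E c x x') : OKat E R N x i ↔ OKat E R N x' i :=
  ⟨me_aux hc hi hag, me_aux hc hi fun u hu v => (hag u hu v).symm⟩

private theorem me_sub_app {s x i u : M} (h : IsSub E s x) (hs : IsApp E s i u) :
    IsApp E x i u := by
  obtain ⟨z, hz, hp⟩ := hs
  exact ⟨z, h z hz, hp⟩

private theorem me_uniq (H : IsZFC M E) {k R N x i i' : M} (hk : IsOrdinal E k) (hi : E i k)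
    (hi' : E i' k) (h1 : ¬ OKat E R N x i) (h2 : ∀ j, E j i → OKat E R N x j)
    (h3 : ¬ OKat E R N x i') (h4 : ∀ j, E j i' → OKat E R N x j) : i = i' := by
  rcases ord_tri H hk hi hi' with h | h | h
  · exact absurd (h4 i h) h1
  · exact h
  · exact absurd (h2 i' h) h3

/-- the criterion -/
theorem exists_contR (H : IsZFC M E) {k T b R N F Z : M} (h : GameHyp E k T b R N)
    (hF : IsFunSpace E k F) (hZ : IsSeqSpace E k Z) (hne : ∃ y, E y b) :
    ∃ f, IsContSurj E k F b f := by
  obtain ⟨y0, hy0⟩ := hne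
  have hkt : IsTrans E k := h.ord.1
  -- the function `g`
  obtain ⟨g, hg, hgs⟩ := exists_choice_fun H Z b
    (fimp (.fall (fOKat 3 4 1 0)) (.fall (.fall (.fall
      (fimp (dApp 3 2 1) (fimp (dApp 6 1 0) (dSub 0 4)))))))
    (cons R fun _ => N) (by
      intro s hs
      simp only [sat_imp, sat_all, sat_fOKat, sat_dApp, sat_dSub, cons_zero, cons_one, cons_two,
        cons_three, cons_four, cons_five, cons_six]
      obtain ⟨a, ha, hsf⟩ := (hZ s).1 hs
      by_cases hok : ∀ i, OKat E R N s i
      · obtain ⟨y, hy, hy'⟩ := h.D a s ha hsf (fun i _ => hok i)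
        exact ⟨y, hy, fun _ i u z hu hz => hy' i u z (isFun_mem H hsf hu).1 hu hz⟩
      · exact ⟨y0, hy0, fun h' => absurd h' hok⟩)
  simp only [sat_imp, sat_all, sat_fOKat, sat_dApp, sat_dSub, cons_zero, cons_one, cons_two,
    cons_three, cons_four, cons_five, cons_six] at hgs
  -- the function `f`
  obtain ⟨f, hf, hfa⟩ := exists_graph H F b
    (ffor (.fand (fball 4 (fOKat 3 4 1 0)) (.fall (.fall (.fall (fimp (.fmem 2 7)
        (fimp (dApp 3 2 1) (fimp (dApp 6 1 0) (dSub 0 4))))))))
      (fbex 4 (.fand (.fneg (fOKat 3 4 1 0)) (.fand (fball 0 (fOKat 4 5 2 0))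
        (fex (.fand (dFun 0 1 6) (.fand (dSub 0 2) (dApp 7 0 3))))))))
    (cons R (cons N (cons k fun _ => g))) (by
      intro x hxF
      simp only [sat_or, sat_and, sat_neg, sat_ball, sat_bex, sat_all, sat_ex, sat_imp, sat_mem,
        sat_fOKat, sat_dApp, sat_dFun, sat_dSub, cons_zero, cons_one, cons_two, cons_three,
        cons_four, cons_five, cons_six, cons_seven]
      have hx := (hF x).1 hxF
      by_cases hall : ∀ i, E i k → OKat E R N x i
      · obtain ⟨y, hy, hy1, hy2⟩ := good_branch H h hx hall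
        refine ⟨y, ⟨hy, Or.inl ⟨hall, hy1⟩⟩, ?_⟩
        rintro y' ⟨hy'b, ⟨_, hy'⟩ | ⟨i, hi, hbad, _⟩⟩
        · exact hy2 y' hy'b hy'
        · exact absurd (hall i hi) hbad
      · push Not at hall
        obtain ⟨i1, hi1, hbad1⟩ := hall
        obtain ⟨i0, hi0, hbad, hmin⟩ := exists_least H (k := k) (.fneg (fOKat 1 2 3 0))
          (cons R (cons N fun _ => x)) ⟨i1, hi1, by
            simp only [sat_neg, sat_fOKat, cons_zero, cons_one, cons_two, cons_three]
            exact hbad1⟩
        simp only [sat_neg, sat_fOKat, cons_zero, cons_one, cons_two, cons_three, not_not]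
          at hbad hmin
        have hgood : ∀ j, E j i0 → OKat E R N x j := fun j hj => hmin j hj (hkt i0 hi0 j hj)
        obtain ⟨s, hs, hsx, -⟩ := exists_restr H hkt hx hi0
        have hsZ : E s Z := (hZ s).2 ⟨i0, hi0, hs⟩
        obtain ⟨y, ⟨hyb, hy⟩, -⟩ := hg.2 s hsZ
        refine ⟨y, ⟨hyb, Or.inr ⟨i0, hi0, hbad, hgood, s, hs, hsx, hy⟩⟩, ?_⟩
        rintro y' ⟨hy'b, ⟨hall', _⟩ | ⟨i, hi, hbad', hgood', s', hs', hsx', hy'⟩⟩
        · exact absurd (hall' i0 hi0) hbad
        · have hii : i = i0 := me_uniq H h.ord hi hi0 hbad' hgood' hbad hgood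
          subst hii
          have hss : s' = s := restr_unique H hx hs' hsx' hs hsx
          subst hss
          exact isFun_unique H hg hy' hy)
  simp only [sat_or, sat_and, sat_neg, sat_ball, sat_bex, sat_all, sat_ex, sat_imp, sat_mem,
    sat_fOKat, sat_dApp, sat_dFun, sat_dSub, cons_zero, cons_one, cons_two, cons_three,
    cons_four, cons_five, cons_six, cons_seven] at hfa
  refine ⟨f, hf, ?_, ?_⟩
  · intro y hy
    obtain ⟨x, hx, hok, hsub⟩ := exists_play H h hy
    exact ⟨x, (hfa x y).2 ⟨(hF x).2 hx, hy, Or.inl ⟨hok, hsub⟩⟩⟩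
  · intro x y hxy a ha
    obtain ⟨hxF, hyb, hφ⟩ := (hfa x y).1 hxy
    have hx := (hF x).1 hxF
    rcases hφ with ⟨hok, hsub⟩ | ⟨i0, hi0, hbad, hgood, s, hs, hsx, hgs0⟩
    · obtain ⟨c, hc, hac⟩ := h.lim a ha
      refine ⟨c, hc, fun x' y' hxy' hag => ?_⟩
      obtain ⟨hxF', hyb', hφ'⟩ := (hfa x' y').1 hxy'
      have hx' := (hF x').1 hxF'
      have hct : IsTrans E c := h.ord.2 c hc
      obtain ⟨u, ⟨-, hu⟩, -⟩ := hx.2 a ha
      obtain ⟨z, v, hz, hv⟩ := (hok a ha).2 u hu
      have hu' : IsApp E x' a u := (hag a hac u).1 hu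
      have hzy : IsSub E z y := hsub a u z ha hu hz
      have hzy' : IsSub E z y' := by
        rcases hφ' with ⟨-, hsub'⟩ | ⟨i0, hi0, hbad, hgood, s, hs, hsx, hgs0⟩
        · exact hsub' a u z ha hu' hz
        · have hi0c : ¬ E i0 c := fun hh => hbad ((OKat_congr (k := k) hct hh hag).1 (hok i0 hi0))
          have hai0 : E a i0 := by
            rcases ord_tri H h.ord hi0 hc with h1 | h1 | h1
            · exact absurd h1 hi0c
            · rw [h1]
              exact hac
            · exact h.ord.2 i0 hi0 c h1 a hac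
          have hsok : ∀ i, OKat E R N s i := by
            intro i
            by_cases hi : E i i0
            · exact (OKat_restr H h.ord hx' hi0 hs hsx hi).2 (hgood i hi)
            · exact ⟨fun j u u' _ _ hu => absurd (isFun_mem H hs hu).1 hi,
                fun u' hu => absurd (isFun_mem H hs hu).1 hi⟩
          obtain ⟨u2, ⟨-, hu2⟩, -⟩ := hs.2 a hai0
          have hu2' : u2 = u := isFun_unique H hx' (me_sub_app hsx hu2) hu'
          subst hu2'
          exact hgs s y' hgs0 hsok a u2 z hu2 hz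
      obtain ⟨d, hd, hzf⟩ := h.N_fun u z hz
      have had : E a d := (isFun_mem H hzf hv).1
      have hyf : IsFun E y k k := ((h.br y).1 hyb).1
      have hyf' : IsFun E y' k k := ((h.br y').1 hyb').1
      intro w hw val
      have hwd : E w d := h.ord.2 d hd a had w hw
      obtain ⟨v0, ⟨-, hv0⟩, -⟩ := hzf.2 w hwd
      have e1 : IsApp E y w v0 := me_sub_app hzy hv0
      have e2 : IsApp E y' w v0 := me_sub_app hzy' hv0
      constructor
      · intro hval
        rw [isFun_unique H hyf hval e1]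
        exact e2
      · intro hval
        rw [isFun_unique H hyf' hval e2]
        exact e1
    · obtain ⟨c, hc, hic⟩ := h.lim i0 hi0
      refine ⟨c, hc, fun x' y' hxy' hag => ?_⟩
      obtain ⟨hxF', hyb', hφ'⟩ := (hfa x' y').1 hxy'
      have hct : IsTrans E c := h.ord.2 c hc
      have hbad' : ¬ OKat E R N x' i0 := fun hh => hbad ((OKat_congr (k := k) hct hic hag).2 hh)
      have hgood' : ∀ j, E j i0 → OKat E R N x' j := fun j hj =>
        (OKat_congr (k := k) hct (hct i0 hic j hj) hag).1 (hgood j hj)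
      have hyy : y' = y := by
        rcases hφ' with ⟨hok', -⟩ | ⟨i1, hi1, hbad1, hgood1, s', hs', hsx', hgs1⟩
        · exact absurd (hok' i0 hi0) hbad'
        · have hii : i1 = i0 := me_uniq H h.ord hi1 hi0 hbad1 hgood1 hbad' hgood'
          subst hii
          have hs'x : IsSub E s' x := by
            intro e he
            obtain ⟨w, val, hw, -, hp⟩ := hs'.1 e he
            have e1 : IsApp E x' w val := ⟨e, hsx' e he, hp⟩
            obtain ⟨e', he', hp'⟩ := (hag w (hct i1 hic w hw) val).2 e1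
            rw [hp.unique H hp']
            exact he'
          have hss : s' = s := restr_unique H hx hs' hs'x hs hsx
          subst hss
          exact isFun_unique H hg hgs1 hgs0
      subst hyy
      exact fun _ _ _ => Iff.rfl

end Pool.Agent.Lib.MP_5c1789_lcR
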