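import Pool.Agent.Lib.MP_5c1789_lcR.PA

/-!
# JOB PC: the segments decided by the play are below the branch

Let `z = V.cl υ`.  `app_NN`: `V.Ev (fun q => ∃ w, PN (ξ, w) q ∧ EqF υ (nz w) q)`.  Show `IsSub`: let
`e = V.cl ε` be an element of
`z`: `V.Ev (MemF ε υ)`.  Combine (`GenUlt.Ev.imp3` with `hV`): for `q ≤ r` with `PN (ξ, w) q`,
`EqF υ (nz w) q`, `MemF ε υ q`: `MemF ε (nz w) q`, and it remains to show `MemF ε (yN σ ζ) q`: by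
`memF_iff_models` and
`fN_sub_of_values` (`nz w = fN w.1.1 w.1.2`) it is enough that
`MemF (opN (chk x) (chk (w.1.2 x))) (yN σ ζ) q` for `x < w.1.1`: `memF_cn_of` (for `relN`, `cn`) with the index
`(x, w.1.2 x)`: from
`PN`: `(ξ, x') ∈ q.c l`, `a` with `q ≤ a`, `a.t.α = (st x').δ`, `(a, (st x').t, w) ∈ (st x').σ.Θ`; from
`hξ`: `(ξ, x'') ∈ r.c l ⊆ q.c l` (`Cd.c_mono`), so `x' = x''` (`cfun`), `(st x').σ = σ`, and for `η ∈ I`:
`q.b (ζ η) ∩ Iio a.t.α = r.b (ζ η) ∩ Iio (st x').δ = (st x').t η` (`Cd.b_inter`, `(st x').δ ≤ r.t.α`).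
-/

set_option linter.unusedSimpArgs false

open Set Cardinal

namespace Pool.Agent.Lib.MP_5c1789_lcR

open Pool.Agent.Lib.Forcing Pool.Agent.Lib.MP_40b13d_lc Pool.Agent.Lib.MP_5c1789_lc

variable {𝒯 : Name Cd} {B : Set Ordinal.{0}} {l : Ordinal.{0}} {st : Ordinal.{0} → Stt}

/-- the segments decided by the play are below the branch -/
theorem play_seg {σ : Code} {ζ : Ordinal.{0} → Ordinal.{0}} {r : Cd}
    (hT : Thru B σ ζ r) {ξ : Ordinal.{0}} (hξ : Cap l st σ ζ ξ r)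
    (V : GenUlt Cd) (hV : V.Has r) (z : Mod V)
    (hz : IsApp (ModE V) (V.cl (NN 𝒯 B l st)) (V.cl (chk ξ)) z) :
    IsSub (ModE V) z (V.cl (yN σ ζ)) := by
  obtain ⟨υ, rfl⟩ := exists_cl z
  intro e he
  obtain ⟨ε, rfl⟩ := exists_cl e
  refine GenUlt.Ev.imp3 ((app_NN V).1 hz) he hV ?_
  rintro q ⟨w, ⟨x', hx'c, -, a, hqa, haα, hΘ⟩, heq⟩ hmem hqr
  obtain ⟨x'', hx''c, hσ, hδ, hTE⟩ := hξ
  have hxx : x' = x'' := q.cfun l (Cd.mem_c hx'c) ξ x' x'' hx'c (Cd.c_mono hx''c hqr)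
  subst hxx
  rw [hσ] at hΘ
  have hm : MemF ε (fN w.1.1 w.1.2) q := MemF.congr_right heq hmem
  have hval : ∀ x < w.1.1, MemF (opN (chk x) (chk (w.1.2 x))) (yN σ ζ) q := by
    intro x hx
    refine memF_cn_of (nm := fun u : Ordinal.{0} × Ordinal.{0} => (opN (chk u.1) (chk u.2) : Name Cd))
      (A := fun u q => ∃ a t z, q ≤ a ∧ (a, t, z) ∈ σ.Θ ∧
        (∀ η ∈ σ.I, ζ η ∈ q.D ∧ q.b (ζ η) ∩ Iio a.t.α = t η) ∧ u.1 < z.1.1 ∧ u.2 = z.1.2 u.1)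
      (x, w.1.2 x) ⟨a, (st x').t, w, hqa, hΘ, ?_, hx, rfl⟩
    intro η hη
    refine ⟨hqr.2.1 (hT.mem η hη), ?_⟩
    rw [haα, Cd.b_inter hqr (hT.mem η hη) hδ]
    exact hTE η hη
  rw [memF_iff_models] at hm ⊢
  intro U hU
  exact fN_sub_of_values hval hU _ (hm U hU)

end Pool.Agent.Lib.MP_5c1789_lcR
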