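import Pool.Agent.Lib.MP_5c1789_lcR.PA

/-!
# JOB PD: a good play is decided

`dist` twice (or once with a disjunction), index sets `Iio α0 ×ˢ Iio α0` (`Sm.prod`, `sm_Iio hα`) and
`Iio α0`:
`D (i, j) q := PR (s i, s j) q ∨ ∀ r, r ≤ q → ¬ r ≤ p`, and `D' i q := (∃ z, PN (s i, z) q) ∨ ∀ r ≤ q, ¬ r ≤ p`
(`PR_mono`, `PN_mono`).  The result `q ≤ p` satisfies the first alternatives.
Density of `PR (s i, s j)` below `p`: let `r ≤ p`; by `PR_symm` we may assume `i ≤ j`.  Take `V` with `V.Has r`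
(`exists_genUlt`).  `h V _ (chk j)` (`mod_chk_mem`): `OKat` at `chk j`: first part with `chk i`
(`chk i ∈ chk j` or equal), values `chk (s i)`, `chk (s j)` (`app_fN`): `IsApp RN (chk (s i)) (chk (s j))`,
so `app_RN`: `V.Ev (PR (s i, s j))`; together with `hV` (`GenUlt.Ev.and`, `GenUlt.Ev.exists`) there is
`q' ≤ r` with `PR (s i, s j) q'`.
Density of `∃ z, PN (s i, z)`: the second part of `OKat` at `chk i` gives `z v` with `IsApp NN (chk (s i)) z`;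
`z = V.cl ζ` (`exists_cl`), `app_NN`, and again some `q' ≤ r` with `PN (s i, w) q'`.
-/

set_option linter.unusedSimpArgs false

open Set Cardinal

namespace Pool.Agent.Lib.MP_5c1789_lcR

open Pool.Agent.Lib.Forcing Pool.Agent.Lib.MP_40b13d_lc Pool.Agent.Lib.MP_5c1789_lc

variable {𝒯 : Name Cd} {B : Set Ordinal.{0}} {l : Ordinal.{0}} {st : Ordinal.{0} → Stt}

private theorem PD_PR {α0 : Ordinal.{0}} {s : Ordinal.{0} → Ordinal.{0}} {p : Cd}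
    (h : ∀ V : GenUlt Cd, V.Has p → ∀ i, ModE V i (V.cl (chk α0)) →
      OKat (ModE V) (V.cl (RN 𝒯 B l st)) (V.cl (NN 𝒯 B l st)) (V.cl (fN α0 s)) i)
    {i j : Ordinal.{0}} (hi : i < α0) (hj : j < α0) (hij : i ≤ j) (r : Cd) (hr : r ≤ p) :
    ∃ q, q ≤ r ∧ PR 𝒯 B l st (s i, s j) q := by
  obtain ⟨V, hV⟩ := exists_genUlt r
  have h1 := (h V (hV.mono hr) (V.cl (chk j)) ((mod_chk_mem V).2 hj)).1 (V.cl (chk i))
    (V.cl (chk (s i))) (V.cl (chk (s j)))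
    (by
      rcases hij.lt_or_eq with h' | h'
      · exact Or.inl ((mod_chk_mem V).2 h')
      · exact Or.inr (by rw [h']))
    ((app_fN V).2 ⟨hi, rfl⟩) ((app_fN V).2 ⟨hj, rfl⟩)
  obtain ⟨q, hq1, hq2⟩ := (GenUlt.Ev.and hV ((app_RN V).1 h1)).exists
  exact ⟨q, hq1, hq2⟩

private theorem PD_PR' {α0 : Ordinal.{0}} {s : Ordinal.{0} → Ordinal.{0}} {p : Cd}
    (h : ∀ V : GenUlt Cd, V.Has p → ∀ i, ModE V i (V.cl (chk α0)) →
      OKat (ModE V) (V.cl (RN 𝒯 B l st)) (V.cl (NN 𝒯 B l st)) (V.cl (fN α0 s)) i)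
    {i j : Ordinal.{0}} (hi : i < α0) (hj : j < α0) (r : Cd) (hr : r ≤ p) :
    ∃ q, q ≤ r ∧ PR 𝒯 B l st (s i, s j) q := by
  rcases le_total i j with hij | hij
  · exact PD_PR h hi hj hij r hr
  · obtain ⟨q, hq1, hq2⟩ := PD_PR h hj hi hij r hr
    exact ⟨q, hq1, PR_symm hq2⟩

private theorem PD_PN {α0 : Ordinal.{0}} {s : Ordinal.{0} → Ordinal.{0}} {p : Cd}
    (h : ∀ V : GenUlt Cd, V.Has p → ∀ i, ModE V i (V.cl (chk α0)) →
      OKat (ModE V) (V.cl (RN 𝒯 B l st)) (V.cl (NN 𝒯 B l st)) (V.cl (fN α0 s)) i)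
    {i : Ordinal.{0}} (hi : i < α0) (r : Cd) (hr : r ≤ p) :
    ∃ q, q ≤ r ∧ ∃ z : Zt, PN 𝒯 B l st (s i, z) q := by
  obtain ⟨V, hV⟩ := exists_genUlt r
  obtain ⟨z, v, h1, -⟩ := (h V (hV.mono hr) (V.cl (chk i)) ((mod_chk_mem V).2 hi)).2
    (V.cl (chk (s i))) ((app_fN V).2 ⟨hi, rfl⟩)
  obtain ⟨ζ, rfl⟩ := exists_cl z
  obtain ⟨q, hq1, w, hq2, -⟩ := (GenUlt.Ev.and hV ((app_NN V).1 h1)).exists
  exact ⟨q, hq1, w, hq2⟩

/-- a name of a good play is decided -/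
theorem decide_play (hCH : CHy) {α0 : Ordinal.{0}} (hα : α0 < kp)
    {s : Ordinal.{0} → Ordinal.{0}} {p : Cd}
    (h : ∀ V : GenUlt Cd, V.Has p → ∀ i, ModE V i (V.cl (chk α0)) →
      OKat (ModE V) (V.cl (RN 𝒯 B l st)) (V.cl (NN 𝒯 B l st)) (V.cl (fN α0 s)) i) :
    ∃ q, q ≤ p ∧ (∀ i < α0, ∀ j < α0, PR 𝒯 B l st (s i, s j) q) ∧
      ∀ i < α0, ∃ z : Zt, PN 𝒯 B l st (s i, z) q := by
  obtain ⟨q1, hq1, h1⟩ := dist hCH (Iio α0 ×ˢ Iio α0) ((sm_Iio hα).prod (sm_Iio hα))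
    (fun u q => PR 𝒯 B l st (s u.1, s u.2) q ∨ ∀ r, r ≤ q → ¬ r ≤ p)
    (by
      rintro u - q q' (hu | hu) hq
      · exact Or.inl (PR_mono _ _ _ hu hq)
      · exact Or.inr fun r hr => hu r (hr.trans hq))
    (by
      rintro u ⟨hu1, hu2⟩ q
      by_cases hc : ∃ r, r ≤ q ∧ r ≤ p
      · obtain ⟨r, hr1, hr2⟩ := hc
        obtain ⟨q', hq1, hq2⟩ := PD_PR' h hu1 hu2 r hr2
        exact ⟨q', hq1.trans hr1, Or.inl hq2⟩
      · push Not at hc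
        exact ⟨q, le_rfl, Or.inr hc⟩) p
  obtain ⟨q2, hq2, h2⟩ := dist hCH (Iio α0) (sm_Iio hα)
    (fun i q => (∃ z : Zt, PN 𝒯 B l st (s i, z) q) ∨ ∀ r, r ≤ q → ¬ r ≤ p)
    (by
      rintro i - q q' (hu | hu) hq
      · obtain ⟨z, hz⟩ := hu
        exact Or.inl ⟨z, PN_mono _ _ _ hz hq⟩
      · exact Or.inr fun r hr => hu r (hr.trans hq))
    (by
      intro i hi q
      by_cases hc : ∃ r, r ≤ q ∧ r ≤ p
      · obtain ⟨r, hr1, hr2⟩ := hc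
        obtain ⟨q', hq1, hq2⟩ := PD_PN h hi r hr2
        exact ⟨q', hq1.trans hr1, Or.inl hq2⟩
      · push Not at hc
        exact ⟨q, le_rfl, Or.inr hc⟩) q1
  have hq2p : q2 ≤ p := hq2.trans hq1
  refine ⟨q2, hq2p, fun i hi j hj => ?_, fun i hi => ?_⟩
  · rcases h1 (i, j) ⟨hi, hj⟩ with h3 | h3
    · exact PR_mono _ _ _ h3 hq2
    · exact absurd hq1 (h3 q1 le_rfl)
  · rcases h2 i hi with h3 | h3
    · exact h3
    · exact absurd hq2p (h3 q2 le_rfl)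

end Pool.Agent.Lib.MP_5c1789_lcR
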