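import Pool.Agent.Lib.MP_5c1789_lcR.PB
import Pool.Agent.Lib.MP_5c1789_lcR.PC
import Pool.Agent.Lib.MP_5c1789_lcR.PD

/-!
# JOB PE: every good play is below a branch

`a`, `s` are classes of names.  Use `los_imp` (in `Pool/Agent/Lib/MP_5c1789_lc/Tree.lean`) with `q = p0`,
`φ` := `a ∈ chk kp ∧ IsFun s a (chk kp) ∧ ∀ i, i ∈ a → OKat RN NN s i`
(`.fand (.fmem ..) (.fand (dFun ..) (.fall (fimp (.fmem ..) (fOKat ..))))`),
`ψ` := `∃ y, y ∈ β ∧ ∀ i u z, i ∈ a → IsApp s i u → IsApp NN u z → IsSub z y`.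
So let `p ≤ p0` with `Forces φ v p`, `V.Has p`, and show `Sat (ModE V) ψ`; it is enough to show
`Forces ψ v p` (`forces_iff`), and by `Forces.dense` it is enough to find for every `r ≤ p` some `r' ≤ r` with
`Forces ψ v r'`.
`decide_seq` for `s` gives `q ≤ r`, `α0 < kp`, `s0` with `EqF s (fN α0 s0) q`; in every `V` with `V.Has q`
also `a = chk α0` (`isFun_dom`, `cl_congr`).
If `α0 = 0`: below `q`, `a` is empty; take for `y` any branch: `h.kur` gives `∃ x, x ∈ β`, and the rest is
vacuous.
If `0 < α0`: `decide_play` (for `q`) and `play_core` give `q' ≤ q` and `r' ≤ q'`, `σ`, `ζ`.  In `V` with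
`V.Has r'` take `y = V.cl (yN σ ζ)`; it is in `β` by `yN_branch` (`r' ≤ p0`), `mem_of`.  For
`i ∈ chk α0`: reduce to `i = chk i0`, `i0 < α0`, by `mod_bounded_chS` (`chk_chS`) with the formula
`.fall (.fall (fimp (dApp ..) (fimp (dApp ..) (dSub ..))))` and parameters `fN α0 s0`, `NN`, `yN σ ζ`; then
`u = chk (s0 i0)` (`app_fN`) and `play_seg` (`Thru.mono`, `Cap` at a smaller condition: apply `play_seg` at
`r'` with `hV.mono`).
-/

set_option linter.unusedSimpArgs false

open Set Cardinal

namespace Pool.Agent.Lib.MP_5c1789_lcR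

open Pool.Agent.Lib.Forcing Pool.Agent.Lib.MP_40b13d_lc Pool.Agent.Lib.MP_5c1789_lc

variable {𝒯 β : Name Cd} {p0 : Cd} {B : Set Ordinal.{0}} {l : Ordinal.{0}}
  {st : Ordinal.{0} → Stt}

/-- the formula for the hypothesis -/
private def pe_phi : Fml :=
  .fand (.fmem 0 2) (.fand (dFun 1 0 2) (.fall (fimp (.fmem 0 1) (fOKat 4 5 2 0))))

/-- the formula for the conclusion -/
private def pe_psi : Fml :=
  fex (.fand (.fmem 0 6) (.fall (.fall (.fall (fimp (.fmem 2 4) (fimp (dApp 5 2 1)
    (fimp (dApp 8 1 0) (dSub 0 3))))))))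

private theorem pe_sat_phi {M : Type*} {E : M → M → Prop} {v : ℕ → M} :
    Sat E pe_phi v ↔ E (v 0) (v 2) ∧ IsFun E (v 1) (v 0) (v 2) ∧
      ∀ i, E i (v 0) → OKat E (v 3) (v 4) (v 1) i := by
  simp only [pe_phi, sat_and, sat_mem, sat_dFun, sat_all, sat_imp, sat_fOKat, cons_zero, cons_one,
    cons_two, cons_three, cons_four, cons_five]

private theorem pe_sat_psi {M : Type*} {E : M → M → Prop} {v : ℕ → M} :
    Sat E pe_psi v ↔ ∃ y, E y (v 5) ∧ ∀ i u z, E i (v 0) → IsApp E (v 1) i u →
      IsApp E (v 4) u z → IsSub E z y := by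
  simp only [pe_psi, sat_ex, sat_and, sat_mem, sat_all, sat_imp, sat_dApp, sat_dSub, cons_zero,
    cons_one, cons_two, cons_three, cons_four, cons_five, cons_six, cons_seven, cons_eight]

private theorem pe_empty (V : GenUlt Cd) (i : Mod V) (h : ModE V i (V.cl (chk 0))) : False := by
  obtain ⟨ρ, rfl⟩ := exists_cl i
  rw [modE_cl, ev_memF_chk] at h
  obtain ⟨_, x, hx, _⟩ := h.exists
  simp at hx

/-- reduction to old arguments -/
private theorem pe_old {V : GenUlt Cd} {r : Cd} (hV : V.Has r) {α0 : Ordinal.{0}}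
    {s : Ordinal.{0} → Ordinal.{0}} {N y : Name Cd}
    (h : ∀ i < α0, ∀ t, t ≤ r → ∀ W : GenUlt Cd, W.Has t → ∀ z,
      IsApp (ModE W) (W.cl N) (W.cl (chk (s i))) z → IsSub (ModE W) z (W.cl y)) :
    ∀ i u z, ModE V i (V.cl (chk α0)) → IsApp (ModE V) (V.cl (fN α0 s)) i u →
      IsApp (ModE V) (V.cl N) u z → IsSub (ModE V) z (V.cl y) := by
  intro i u z hi hu hz
  rw [chk_chS] at hi
  have h1 := mod_bounded_chS V (Iio α0)
    (.fall (.fall (fimp (dApp 3 2 1) (fimp (dApp 4 1 0) (dSub 0 5)))))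
    (cons (fN α0 s) (cons N fun _ => y)) hV
    (fun i hi t ht W hW => by
      simp only [sat_all, sat_imp, sat_dApp, sat_dSub, cons_zero, cons_one, cons_two, cons_three,
        cons_four, cons_five]
      intro u z hu hz
      obtain ⟨_, rfl⟩ := (app_fN W).1 hu
      exact h i hi t ht W hW z hz) i hi
  simp only [sat_all, sat_imp, sat_dApp, sat_dSub, cons_zero, cons_one, cons_two, cons_three,
    cons_four, cons_five] at h1
  exact h1 u z hu hz

/-- the property `D` of the criterion -/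
theorem play_D (hCH : CHy) (h : Ctx 𝒯 β p0 B) (U : GenUlt Cd) (hU : U.Has p0) (a s : Mod U)
    (ha : ModE U a (U.cl (chk kp))) (hs : IsFun (ModE U) s a (U.cl (chk kp)))
    (hok : ∀ i, ModE U i a →
      OKat (ModE U) (U.cl (RN 𝒯 B l st)) (U.cl (NN 𝒯 B l st)) s i) :
    ∃ y, ModE U y (U.cl β) ∧ ∀ i u z, ModE U i a → IsApp (ModE U) s i u →
      IsApp (ModE U) (U.cl (NN 𝒯 B l st)) u z → IsSub (ModE U) z y := by
  obtain ⟨α, rfl⟩ := exists_cl a
  obtain ⟨τ, rfl⟩ := exists_cl s
  have main := los_imp U (φ := pe_phi) (ψ := pe_psi)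
    (v := cons α (cons τ (cons (chk kp) (cons (RN 𝒯 B l st) (cons (NN 𝒯 B l st) fun _ => β))))) hU
    (fun p hp hφ => by
      have hφV : ∀ V : GenUlt Cd, V.Has p → ModE V (V.cl α) (V.cl (chk kp)) ∧
          IsFun (ModE V) (V.cl τ) (V.cl α) (V.cl (chk kp)) ∧
          ∀ i, ModE V i (V.cl α) →
            OKat (ModE V) (V.cl (RN 𝒯 B l st)) (V.cl (NN 𝒯 B l st)) (V.cl τ) i := by
        intro V hV
        have h1 := forces_iff.1 hφ V hV
        rw [pe_sat_phi] at h1
        exact h1
      have hψ : Forces pe_psi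
          (cons α (cons τ (cons (chk kp) (cons (RN 𝒯 B l st) (cons (NN 𝒯 B l st) fun _ => β))))) p := by
        refine Forces.dense fun r hr => ?_
        obtain ⟨q, hq, α0, hα0, s0, hs0, -, hEq⟩ := decide_seq hCH (τ := τ) (p := r)
          (fun V hV => ⟨V.cl α, (hφV V (hV.mono hr)).1, (hφV V (hV.mono hr)).2.1⟩)
        have hqp : q ≤ p := hq.trans hr
        have hdom : ∀ V : GenUlt Cd, V.Has q → V.cl α = V.cl (chk α0) := by
          intro V hV
          have h1 := (hφV V (hV.mono hqp)).2.1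
          rw [cl_congr hV hEq] at h1
          exact isFun_dom (mod_isZFC V) h1 (fN_isFun V hs0)
        rcases eq_or_ne α0 0 with h0 | h0
        · refine ⟨q, hq, forces_iff.2 fun V hV => ?_⟩
          rw [pe_sat_psi]
          have hV0 : V.Has p0 := hV.mono (hqp.trans hp)
          obtain ⟨⟨y, hy⟩, -⟩ := (h.kur V hV0).2.2 _ (h.br V hV0)
          refine ⟨y, hy, fun i u z hi => ?_⟩
          have hi' : ModE V i (V.cl (chk 0)) := by
            have h2 : ModE V i (V.cl α) := hi
            rw [hdom V hV, h0] at h2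
            exact h2
          exact (pe_empty V i hi').elim
        · have h0' : 0 < α0 := pos_iff_ne_zero.2 h0
          obtain ⟨q', hq', hR, hN⟩ := decide_play (𝒯 := 𝒯) (B := B) (l := l) (st := st) hCH hα0
            (s := s0) (p := q) (fun V hV i hi => by
              rw [← hdom V hV] at hi
              have h1 := (hφV V (hV.mono hqp)).2.2 i hi
              rw [cl_congr hV hEq] at h1
              exact h1)
          obtain ⟨r', hr', σ, ζ, hσ, hT, hC⟩ := play_core h h0' hR hN
          refine ⟨r', hr'.trans (hq'.trans hq), forces_iff.2 fun V hV => ?_⟩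
          rw [pe_sat_psi]
          have hrq : r' ≤ q := hr'.trans hq'
          refine ⟨V.cl (yN σ ζ), mem_of hV (yN_branch h hσ (hrq.trans (hqp.trans hp)) hT), ?_⟩
          intro i u z hi hu hz
          have hi' : ModE V i (V.cl (chk α0)) := by
            have h2 : ModE V i (V.cl α) := hi
            rw [hdom V (hV.mono hrq)] at h2
            exact h2
          have hu' : IsApp (ModE V) (V.cl (fN α0 s0)) i u := by
            have h2 : IsApp (ModE V) (V.cl τ) i u := hu
            rw [cl_congr (hV.mono hrq) hEq] at h2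
            exact h2
          exact pe_old hV (fun j hj t ht W hW z hz => play_seg hT (hC j hj) W (hW.mono ht) z hz)
            i u z hi' hu' hz
      intro V hV
      exact forces_iff.1 hψ V hV)
    (by
      rw [pe_sat_phi]
      exact ⟨ha, hs, hok⟩)
  rw [pe_sat_psi] at main
  exact main

end Pool.Agent.Lib.MP_5c1789_lcR
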