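import Pool.Agent.Lib.MP_5c1789_lcR.QB

/-!
# JOB QC: the system of a determined branch is good

`aB`: `(r.res B).D = r.D ∩ B`.  `Iw`: `hI.sub`.  `s0`: `tup_isTup` for `q = r`.
For `(a, t, z) ∈ Θ` let `q` be from `exists_am_tup` for `r`, `a`, `t` (with `tup_eq` for `r`): `q ≤ r`, `q ≤ a`,
`q.res B = a`,
`q.b (jn η) = t η`, so `q.b (jn η) ∩ Iio a.t.α = t η` (`ht.1`, `Tr.sub`), hence by the definition of `Θ`:
`MemF (opN (chk i) (chk (z.1.2 i))) y q` for all `i < z.1.1`.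
* `mem`: `MemF (nz z) 𝒯 q` by `h.seg` (`q ≤ p0`, `MemF.mono`), so `MemF (nz z) 𝒯 (q.res B)` by `h.det`, and
  `q.res B = a`.
* `mono`: if `q ≤ r`, `q ≤ a'` and `q.b (jn η) ∩ Iio a'.t.α = t' η`, then `q ≤ a` and
  `q.b (jn η) ∩ Iio a.t.α = t' η ∩ Iio a.t.α = t η` (`a.t.α ≤ a'.t.α`).  `TExt I r.t.α t' s`:
  `t' η ∩ Iio r.t.α = (t' η ∩ Iio a.t.α) ∩ Iio r.t.α = t η ∩ Iio r.t.α`.  `a' ≤ a ≤ r.res B`.
* `compat`: the condition `q` above forces both values: `value_unique` with `h.isFun`.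
* `prog`: `codeOf_prog`.
-/

set_option linter.unusedSimpArgs false

open Set Cardinal

namespace Pool.Agent.Lib.MP_5c1789_lcR

open Pool.Agent.Lib.Forcing Pool.Agent.Lib.MP_40b13d_lc Pool.Agent.Lib.MP_5c1789_lc

variable {𝒯 β : Name Cd} {p0 : Cd} {B : Set Ordinal.{0}}

private theorem qc_am {r a : Cd} {I : Set Ordinal.{0}} {jn : Ordinal.{0} → Ordinal.{0}}
    (hI : Idx B r I jn) {t : Tup} (h1 : a.D ⊆ B) (h2 : a ≤ r.res B) (h3 : IsTup I t a)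
    (h4 : TExt I r.t.α t (tup I jn r r.t.α)) :
    ∃ q, q ≤ r ∧ q ≤ a ∧ q.res B = a ∧ ∀ η ∈ I, q.b (jn η) ∩ Iio a.t.α = t η := by
  obtain ⟨q, hq1, hq2, hq3, _, hq4⟩ := exists_am_tup (fun η hη => ⟨hI.mem η hη, hI.new η hη⟩)
    hI.inj h1 h2 h3 (fun η hη => (h4 η hη).trans (tup_eq hI le_rfl hη))
  refine ⟨q, hq1, hq2, hq3, fun η hη => ?_⟩
  rw [hq4 η hη]
  exact inter_eq_left.2 (a.t.sub _ _ (h3.1 η hη))

theorem codeOf_good (hCH : CHy) (h : Ctx 𝒯 β p0 B) {y : Name Cd} {r : Cd} (hr : r ≤ p0)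
    (hy : MemF y β r) (hD : Det B y r) {I : Set Ordinal.{0}} {jn : Ordinal.{0} → Ordinal.{0}}
    (hI : Idx B r I jn) : Good 𝒯 B (codeOf B y r I jn) where
  aB := by
    show (r.res B).D ⊆ B
    rw [Cd.res_D]
    exact inter_subset_right
  Iw := hI.sub
  s0 := tup_isTup hI le_rfl
  mem := by
    rintro a t z ⟨h1, h2, h3, h4, h5⟩
    refine ⟨h1, h2, h3, h4, ?_⟩
    obtain ⟨q, hq1, hq2, hq3, hq4⟩ := qc_am hI h1 h2 h3 h4
    have h6 := h.seg (hq1.trans hr) (hy.mono hq1) z (fun x hx => h5 q hq1 hq2 hq4 x hx)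
    have h7 := h.det z q h6
    rw [hq3] at h7
    exact h7
  mono := by
    rintro a t z a' t' ⟨_, h2, _, h4, h5⟩ h1' h2' h3' h4'
    have h6 : r.t.α ≤ a.t.α := h2.1.1
    have h7 : a.t.α ≤ a'.t.α := h2'.1.1
    refine ⟨h1', h2'.trans h2, h3', ?_, ?_⟩
    · intro η hη
      have e1 : t' η ∩ Iio a.t.α = t η := h4' η hη
      have e2 : t η ∩ Iio r.t.α = tup I jn r r.t.α η := h4 η hη
      show t' η ∩ Iio r.t.α = tup I jn r r.t.α η
      rw [← e2, ← e1, inter_assoc, Iio_inter_Iio, inf_eq_right.2 h6]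
    · intro q hq hqa' hqt i hi
      refine h5 q hq (hqa'.trans h2') (fun η hη => ?_) i hi
      have e1 : t' η ∩ Iio a.t.α = t η := h4' η hη
      have e2 : q.b (jn η) ∩ Iio a'.t.α = t' η := hqt η hη
      show q.b (jn η) ∩ Iio a.t.α = t η
      rw [← e1, ← e2, inter_assoc, Iio_inter_Iio, inf_eq_right.2 h7]
  compat := by
    rintro a t z z' ⟨h1, h2, h3, h4, h5⟩ ⟨_, _, _, _, h5'⟩ x hx hx'
    obtain ⟨q, hq1, hq2, hq3, hq4⟩ := qc_am hI h1 h2 h3 h4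
    exact value_unique (fun V hV => h.isFun (hq1.trans hr) (hy.mono hq1) V hV)
      (h5 q hq1 hq2 hq4 x hx) (h5' q hq1 hq2 hq4 x hx')
  prog := by
    intro a t haB ha ht hts γ hγ
    exact codeOf_prog hCH h hr hy hD hI a t haB ha ht hts hγ

end Pool.Agent.Lib.MP_5c1789_lcR
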