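import Pool.Agent.Lib.MP_5c1789_lcR.QD

/-!
# JOB QE: progress of the captured play

Let `σ = codeOf B y r I jn`.  `a1 = q.res B`, `t1 = tup I jn q q.t.α`: `a1.D ⊆ B`,
`a1 ≤ σ.a0 = r.res B` (`Cd.res_mono`),
`IsTup` (`tup_isTup`), `TExt I r.t.α t1 σ.s` (`tup_eq`, `Cd.b_inter`).  `hg.prog` with `γ = i`: `a' ≤ a1`, `t'`,
`z`, `(a', t', z) ∈ Θ`, `TExt I q.t.α t' t1`, `i < z.1.1`; by `hg.mem`: `a'.D ⊆ B`, `IsTup I t' a'`.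
`exists_am_tup` for `q`, `a'`, `t'` (`t' η ∩ Iio q.t.α = t1 η = q.b (jn η)`): `q1 ≤ q` with
`q1.res B = a'`, `q1.t = a'.t`, `q1.b (jn η) = t' η`.
`q2 = q1.ext hCH (fun _ => ∅)`, `δ = q2.t.α`; `δ ∈ q2.C (jn η)` (`top_mem_ext`); `q2.b (jn η) = t' η`
(`ext_b_zero`).
`a2 = q2.res B ≤ a'` (`Cd.res_mono`), `t2 = tup I jn q2 δ` (`= t'` on `I`): `(a2, t2, z) ∈ Θ` by `hg.mono`
(`TExt I a'.t.α t2 t'`: `t' η ⊆ Iio a'.t.α`).
The state `u = cst σ jn q2 δ` is valid at `q2` (`cst_valid`), so `u ∈ Sst B` (`Valid.mem_Sst`), `st x = u` for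
some `x < l` (`hst`).
`q3 ≤ q2` with `l ∈ q3.D` (`Cd.exists_label`), `ξ < kp` free (`Cd.exists_free`), `q4 ≤ q3` with
`(ξ, x) ∈ q4.c l` (`Cd.exists_val`).
`Cr .. ξ q4`: `δ ≤ q4.t.α`, `δ ∈ q4.C (jn η)` (`q4.C ζ ∩ Iic δ = q2.C ζ`), `st x = cst σ jn q2 δ = cst σ jn q4 δ`
(`cst_mono`).
`PN (ξ, z) q4`: `Valid.mono`, `a = a2`: `q4 ≤ q2 ≤ a2` (`Cd.le_res`), `a2.t.α = δ = (st x).δ`,
`(a2, (st x).t, z) = (a2, t2, z) ∈ Θ`.
-/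

set_option linter.unusedSimpArgs false

open Set Cardinal

namespace Pool.Agent.Lib.MP_5c1789_lcR

open Pool.Agent.Lib.Forcing Pool.Agent.Lib.MP_40b13d_lc Pool.Agent.Lib.MP_5c1789_lc

variable {𝒯 : Name Cd} {B : Set Ordinal.{0}} {l : Ordinal.{0}} {st : Ordinal.{0} → Stt}
  {y : Name Cd} {r : Cd} {I : Set Ordinal.{0}} {jn : Ordinal.{0} → Ordinal.{0}}

private theorem qe_tup {q : Cd} {δ η : Ordinal.{0}} (hη : η ∈ I) :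
    tup I jn q δ η = q.b (jn η) ∩ Iio δ := if_pos hη

theorem Cr_prog (hCH : CHy) (hst : ∀ u ∈ Sst B, ∃ i < l, st i = u) (hI : Idx B r I jn)
    (hg : Good 𝒯 B (codeOf B y r I jn)) {q : Cd} (hq : q ≤ r) {i : Ordinal.{0}} (hi : i < kp) :
    ∃ q', q' ≤ q ∧ ∃ ξ, ∃ z : Zt, Cr l st (codeOf B y r I jn) jn r ξ q' ∧ PN 𝒯 B l st (ξ, z) q' ∧
      i < z.1.1 := by
  have hqD : ∀ η ∈ I, jn η ∈ q.D := fun η hη => hq.2.1 (hI.mem η hη)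
  obtain ⟨a', t', z, ha', hΘ, hext, hiz⟩ := hg.prog (q.res B) (tup I jn q q.t.α)
    inter_subset_right (Cd.res_mono hq B) (tup_isTup hI hq)
    (fun η hη => by
      have hη' : η ∈ I := hη
      change tup I jn q q.t.α η ∩ Iio r.t.α = tup I jn r r.t.α η
      rw [tup_eq hI hq hη', qe_tup hη']
      exact Cd.b_inter hq (hI.mem η hη') le_rfl) i hi
  obtain ⟨haB, -, ht', -, -⟩ := hg.mem a' t' z hΘ
  obtain ⟨q1, hq1, hq1a, hres, hq1t, hq1b⟩ := exists_am_tup (r := q) (I := I) (jn := jn)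
    (fun η hη => ⟨hqD η hη, hI.new η hη⟩) hI.inj haB ha' ht'
    (fun η hη => by
      have h1 := hext η hη
      rw [tup_eq hI hq hη] at h1
      exact h1)
  have hq1D : ∀ η ∈ I, jn η ∈ q1.D := fun η hη => hq1.2.1 (hqD η hη)
  have hq2 : q1.ext hCH (fun _ => ∅) ≤ q1 := Cd.ext_le hCH q1 _
  have hb2 : ∀ η ∈ I, (q1.ext hCH (fun _ => ∅)).b (jn η) = t' η := fun η hη =>
    (Cd.ext_b_zero hCH q1 (hq1D η hη) rfl).trans (hq1b η hη)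
  have hC2 : ∀ η ∈ I, (q1.ext hCH (fun _ => ∅)).t.α ∈ (q1.ext hCH (fun _ => ∅)).C (jn η) :=
    fun η hη => Cd.top_mem_ext hCH q1 _ (hq1D η hη)
  obtain ⟨q2, hq2e⟩ : ∃ q2, q2 = q1.ext hCH (fun _ => ∅) := ⟨_, rfl⟩
  rw [← hq2e] at hq2 hb2 hC2
  have hq2q : q2 ≤ q := le_trans hq2 hq1
  have hq2r : q2 ≤ r := le_trans hq2q hq
  have hq2D : ∀ η ∈ I, jn η ∈ q2.D := fun η hη => hq2q.2.1 (hqD η hη)
  have ha2 : q2.res B ≤ a' := by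
    rw [← hres]
    exact Cd.res_mono hq2 B
  have ht2 : IsTup I (tup I jn q2 q2.t.α) (q2.res B) := tup_isTup hI hq2r
  have hΘ2 : (q2.res B, tup I jn q2 q2.t.α, z) ∈ (codeOf B y r I jn).Θ :=
    hg.mono a' t' z (q2.res B) (tup I jn q2 q2.t.α) hΘ inter_subset_right ha2 ht2
      (fun η hη => by
        have hη' : η ∈ I := hη
        rw [tup_eq hI hq2r hη', hb2 η hη']
        exact inter_eq_left.2 (a'.t.sub _ _ (ht'.1 η hη)))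
  have hval : Valid 𝒯 B (cst (codeOf B y r I jn) jn q2 q2.t.α) q2 :=
    cst_valid hI hg hq2r le_rfl hC2
  obtain ⟨x, hxl, hx⟩ := hst _ hval.mem_Sst
  obtain ⟨q3, hq3, hl3⟩ := Cd.exists_label q2 l
  obtain ⟨ξ, hξ, hfree⟩ := Cd.exists_free q3 hl3
  obtain ⟨q4, hq4, -, -, hmem, -, -⟩ := Cd.exists_val q3 hl3 hxl hξ hfree
  have hq42 : q4 ≤ q2 := le_trans hq4 hq3
  have hq4r : q4 ≤ r := le_trans hq42 hq2r
  refine ⟨q4, le_trans hq42 hq2q, ξ, z, ⟨hq4r, x, hmem, q2.t.α, hq42.1.1, ?_, ?_⟩,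
    ⟨x, hmem, ?_, q2.res B, ?_, ?_, ?_⟩, hiz⟩
  · intro η hη
    have h1 := (hq42.2.2 (jn η) (hq2D η hη)).2.1
    have h2 := hC2 η hη
    rw [← h1] at h2
    exact h2.1
  · rw [hx]
    exact (cst_mono (σ := codeOf B y r I jn) (fun η hη => hq2D η hη) hq42 le_rfl).symm
  · rw [hx]
    exact hval.mono hq42
  · exact le_trans hq42 (Cd.le_res q2 B)
  · rw [hx]
    rfl
  · rw [hx]
    exact hΘ2

end Pool.Agent.Lib.MP_5c1789_lcR
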