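import Pool.Agent.Lib.MP_5c1789_lcR.SA

/-!
# JOB SD: splitting at one node

Case 0: `(l, X) ∈ S.N`.  Apply `Fam.exists_step` with `Q1 = S.x.Q` (trivial hypotheses), and keep `N`:
`cls`: if `y.Q f ≠ y.Q f'` then `S.x.Q f ≠ S.x.Q f'`; `spl`: `MemF.mono`.

Case 1: `(l, X) ∉ S.N`.  Let `f0 = X` (a subset of `Iio l ⊆ Iio w1`), `q = S.x.Q f0 ≤ p1`.
(a) If `f ∩ Iio l = X` then `S.x.Q f = q`.  Otherwise `S.cls f f0` gives `l'` with `f ∩ Iio l' = f0 ∩ Iio l'`,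
`¬ (l' ∈ f ↔ l' ∈ f0)`, `(l', f0 ∩ Iio l') ∈ S.N` (the two intersections are equal).  `l' < l` is impossible
(`l' ∈ f ↔ l' ∈ f0`, since `f ∩ Iio l = f0 ∩ Iio l`).  `l' = l`: `f0 ∩ Iio l = X`, contradiction.  `l < l'`: by
`S.dn`,
`(l, (f0 ∩ Iio l') ∩ Iio l) = (l, X) ∈ S.N`, contradiction.
(b) `hD q`: there are `q1, q1' ≤ q` with `q1.res B = q1'.res B`, `q1.b ζ = q1'.b ζ` for `ζ ∈ q.D`, `ζ ∉ B`, and
`i, v, v'` with
`MemF (opN (chk i) (chk v)) y q1`, `MemF (opN (chk i) (chk v')) y q1'`, `v ≠ v'`.  `i < kp` by `value_lt` with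
`h.isFun`
(`q1 ≤ p1 ≤ p0`).  Also `q1.b ζ = q1'.b ζ` for `ζ ∈ q.D ∩ B` (`Cd.res_eq_res`, `q.D ⊆ q1.D`).
(c) Let `α = q.t.α` (all members of the family have the tree `S.x.g.t`), `t1 = q1.t = q1'.t`,
`a1 = q1.res B`.  Section: for `Y` in the level `α` of the tree let `e Y = q1.b ζ` if `Y = q.b ζ`,
`ζ ∈ q.D` (unique `ζ`, by `S.x.inj f0`), and otherwise an extension of `Y` in the level `t1.α` (`t1.up`).  In
both cases `e Y ∈ t1.T t1.α`, `e Y ∩ Iio α = Y`.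
(d) For every condition `p` with `p.t = q.t` and `p.res B = q.res B` choose (`Cd.exists_am p a1 B v`,
`v ζ = e (p.b ζ)`; `a1 ≤ p.res B = q.res B` by `Cd.res_mono`) a condition `am p` (a function of `p`) with
`am p ≤ p`, `(am p).res B = a1`, `(am p).b ζ = a1.b ζ` for `ζ ∈ B`, `(am p).b ζ = e (p.b ζ)` for
`ζ ∈ p.D`, `ζ ∉ B`.
(e) `Q1 f = q1` if `f ∩ Iio l = X` and `l ∈ f`; `= q1'` if `f ∩ Iio l = X`, `l ∉ f`; `= am (S.x.Q f)`
otherwise.  `Q1 f ≤ S.x.Q f` (by (a) in the first two cases); `(Q1 f).res B = a1` always.  For `ζ ∈ (S.x.Q f).D`: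
`(Q1 f).b ζ = e ((S.x.Q f).b ζ)`: in the first two cases `S.x.Q f = q`, (b); in the third case for `ζ ∉ B` by
(d), for `ζ ∈ B`: `ζ ∈ q.D`, `(S.x.Q f).b ζ = q.b ζ` (`S.x.com`, `res_eq_res`), `(Q1 f).b ζ = a1.b ζ = q1.b ζ = e (q.b ζ)`.
So `Fam.exists_step` applies (`hs`) and gives `y'` with `y'.Lt S.x`, `y'.Q f ≤ Q1 f`.
(f) The new state: `y'`, `N' = insert (l, X) S.N`.  `nd`, `dn` (by `hN`): clear.  `le`: clear.
`spl`: old nodes by `MemF.mono`; for `(l, X)`: `i, v, v'` and (e), `MemF.mono`.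
`cls`: let `y'.Q f ≠ y'.Q f'`.  If `S.x.Q f ≠ S.x.Q f'`: `S.cls`.  Otherwise `Q1 f ≠ Q1 f'` (last part of
`Fam.exists_step`).  Let `f`, `f'` both satisfy `f ∩ Iio l = X`: then `Q1 f ≠ Q1 f'` implies
`¬ (l ∈ f ↔ l ∈ f')`; take `l`.
If none does: `Q1 f = am (S.x.Q f) = am (S.x.Q f') = Q1 f'`, contradiction.  If exactly one does, say `f`: let
`l'` be the
least element of `Iio l` in which `f'` and `X` differ (`l' < l`, `f' ∩ Iio l' = X ∩ Iio l' = f ∩ Iio l'`,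
`¬ (l' ∈ f ↔ l' ∈ f')`); `(l', X ∩ Iio l') ∈ S.N` by `hN`; so take `l'` (`N'` contains it).
-/

set_option linter.unusedSimpArgs false

open Set Cardinal

namespace Pool.Agent.Lib.MP_5c1789_lcR

open Pool.Agent.Lib.Forcing Pool.Agent.Lib.MP_40b13d_lc Pool.Agent.Lib.MP_5c1789_lc

variable {𝒯 β : Name Cd} {p0 : Cd} {B : Set Ordinal.{0}} {y : Name Cd} {p1 : Cd}

private theorem SD_diff {f f' : Set Ordinal.{0}} {l : Ordinal.{0}}
    (h : f ∩ Iio l ≠ f' ∩ Iio l) :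
    ∃ l' < l, f ∩ Iio l' = f' ∩ Iio l' ∧ ¬ (l' ∈ f ↔ l' ∈ f') := by
  by_contra hc
  have key : ∀ x, x < l → (x ∈ f ↔ x ∈ f') := by
    intro x
    refine WellFoundedLT.induction (motive := fun x => x < l → (x ∈ f ↔ x ∈ f')) x ?_
    intro x ih hx
    by_contra hn
    refine hc ⟨x, hx, ?_, hn⟩
    ext z
    constructor
    · rintro ⟨h1, h2⟩
      exact ⟨(ih z h2 ((mem_Iio.1 h2).trans hx)).1 h1, h2⟩
    · rintro ⟨h1, h2⟩
      exact ⟨(ih z h2 ((mem_Iio.1 h2).trans hx)).2 h1, h2⟩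
  apply h
  ext z
  constructor
  · rintro ⟨h1, h2⟩
    exact ⟨(key z h2).1 h1, h2⟩
  · rintro ⟨h1, h2⟩
    exact ⟨(key z h2).2 h1, h2⟩

private theorem SD_section {q q1 : Cd} (h : q1 ≤ q) (hi : InjOn q.b q.D) :
    ∃ e : Set Ordinal.{0} → Set Ordinal.{0},
      (∀ Y ∈ q.t.T q.t.α, e Y ∈ q1.t.T q1.t.α ∧ e Y ∩ Iio q.t.α = Y) ∧
      ∀ ζ ∈ q.D, e (q.b ζ) = q1.b ζ := by
  have key : ∀ Y : Set Ordinal.{0}, ∃ Z : Set Ordinal.{0},
      (Y ∈ q.t.T q.t.α → Z ∈ q1.t.T q1.t.α ∧ Z ∩ Iio q.t.α = Y) ∧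
      ∀ ζ ∈ q.D, q.b ζ = Y → Z = q1.b ζ := by
    intro Y
    by_cases hY : ∃ ζ ∈ q.D, q.b ζ = Y
    · obtain ⟨ζ, hζ, rfl⟩ := hY
      refine ⟨q1.b ζ, fun _ => ⟨q1.node ζ (h.2.1 hζ), (h.2.2 ζ hζ).1⟩, fun ζ' hζ' he => ?_⟩
      rw [hi hζ' hζ he]
    · by_cases hT : Y ∈ q.t.T q.t.α
      · have h1 : Y ∈ q1.t.T q.t.α := by
          rw [(h.1.2 _ le_rfl).1]
          exact hT
        obtain ⟨Z, hZ, hZ'⟩ := q1.t.up _ _ Y h1 h.1.1 le_rfl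
        exact ⟨Z, fun _ => ⟨hZ, hZ'⟩, fun ζ hζ he => absurd ⟨ζ, hζ, he⟩ hY⟩
      · exact ⟨∅, fun h' => absurd h' hT, fun ζ hζ he => absurd ⟨ζ, hζ, he⟩ hY⟩
  choose e he using key
  exact ⟨e, fun Y hY => (he Y).1 hY, fun ζ hζ => (he _).2 ζ hζ rfl⟩

private theorem SD_am {q q1 : Cd} {B : Set Ordinal.{0}} (h : q1 ≤ q)
    {e : Set Ordinal.{0} → Set Ordinal.{0}}
    (he : ∀ Y ∈ q.t.T q.t.α, e Y ∈ q1.t.T q1.t.α ∧ e Y ∩ Iio q.t.α = Y)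
    (he' : ∀ ζ ∈ q.D, e (q.b ζ) = q1.b ζ) :
    ∃ am : Cd → Cd, ∀ p, p.res B = q.res B → am p ≤ p ∧ (am p).res B = q1.res B ∧
      ∀ ζ ∈ p.D, (am p).b ζ = e (p.b ζ) := by
  have key : ∀ p : Cd, ∃ r : Cd, p.res B = q.res B → r ≤ p ∧ r.res B = q1.res B ∧
      ∀ ζ ∈ p.D, r.b ζ = e (p.b ζ) := by
    intro p
    by_cases hp : p.res B = q.res B
    · obtain ⟨ht, hD, hb⟩ := Cd.res_eq_res.1 hp
      have h1 : q1.res B ≤ p.res B := by
        rw [hp]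
        exact Cd.res_mono h B
      have hv : ∀ ζ ∈ p.D, ζ ∉ B → e (p.b ζ) ∈ (q1.res B).t.T (q1.res B).t.α ∧
          e (p.b ζ) ∩ Iio p.t.α = p.b ζ := by
        intro ζ hζ _
        have h2 : p.b ζ ∈ q.t.T q.t.α := by
          rw [← ht]
          exact p.node ζ hζ
        have h3 := he (p.b ζ) h2
        refine ⟨h3.1, ?_⟩
        rw [ht]
        exact h3.2
      obtain ⟨r, hr1, hr2, hr3, hr4, hr5, hr6, hr7⟩ :=
        Cd.exists_am p (q1.res B) B (fun ζ => e (p.b ζ)) h1 inter_subset_right hv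
      refine ⟨r, fun _ => ⟨hr1, hr3, fun ζ hζ => ?_⟩⟩
      by_cases hζB : ζ ∈ B
      · have h2 : ζ ∈ q.D ∩ B := by
          rw [← hD]
          exact ⟨hζ, hζB⟩
        rw [(hr6 ζ hζB).1, Cd.res_b hζB, (hb ζ ⟨hζ, hζB⟩).1, he' ζ h2.1]
      · exact (hr7 ζ hζ hζB).1
    · exact ⟨p, fun h' => absurd h' hp⟩
  choose am ham using key
  exact ⟨am, ham⟩

/-- case 0: the node is in the set already -/
private theorem SD_step (hCH : CHy) (S : Sch B y p1) :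
    ∃ S' : Sch B y p1, S'.Lt S ∧ S'.N = S.N := by
  have : Nonempty Fx := ⟨⟨∅, empty_subset _⟩⟩
  obtain ⟨x', h1, h2, h3⟩ := Fam.exists_step hCH S.x S.x.Q (fun f => le_rfl) S.x.com
    (fun _ _ _ _ _ _ h => h)
  refine ⟨⟨x', S.N, fun f => (h2 f).trans (S.le f), S.nd, S.dn, fun f f' hne => ?_,
    fun u hu => ?_⟩, ⟨h1, Subset.rfl⟩, rfl⟩
  · exact S.cls f f' fun he => hne (h3 f f' he he)
  · obtain ⟨i, hi, v, v', hvv, hf⟩ := S.spl u hu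
    exact ⟨i, hi, v, v', hvv, fun f hfu =>
      ⟨fun hm => ((hf f hfu).1 hm).mono (h2 f), fun hm => ((hf f hfu).2 hm).mono (h2 f)⟩⟩

/-- all indices through the node have the same condition -/
private theorem SD_same (S : Sch B y p1) {l : Ordinal.{0}} {X : Set Ordinal.{0}}
    (hlX : (l, X) ∉ S.N) (f f0 : Fx) (hf : f.1 ∩ Iio l = X) (hf0 : f0.1 ∩ Iio l = X) :
    S.x.Q f = S.x.Q f0 := by
  by_contra hne
  obtain ⟨l', -, h1, h2, h3⟩ := S.cls f f0 hne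
  rcases lt_trichotomy l' l with hlt | heq | hgt
  · apply h2
    have e1 : l' ∈ f.1 ↔ l' ∈ X := by
      rw [← hf]
      exact ⟨fun h => ⟨h, hlt⟩, fun h => h.1⟩
    have e2 : l' ∈ f0.1 ↔ l' ∈ X := by
      rw [← hf0]
      exact ⟨fun h => ⟨h, hlt⟩, fun h => h.1⟩
    rw [e1, e2]
  · rw [heq, hf] at h3
    exact hlX h3
  · have h4 := S.dn _ h3 l hgt
    apply hlX
    have e1 : f.1 ∩ Iio l' ∩ Iio l = X := by
      rw [inter_assoc, Iio_inter_Iio, inf_eq_right.2 hgt.le, hf]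
    rwa [e1] at h4

/-- splitting at one node -/
theorem Sch.exists_split (hCH : CHy) (h : Ctx 𝒯 β p0 B) (hp1 : p1 ≤ p0) (hy : MemF y β p1)
    (hD : ∀ r, r ≤ p1 → ¬ Det B y r) (S : Sch B y p1) {l : Ordinal.{0}}
    (hl : l < Pool.Agent.Lib.MP_5c1789_lcR.w1)
    {X : Set Ordinal.{0}} (hX : X ⊆ Iio l) (hN : ∀ l' < l, (l', X ∩ Iio l') ∈ S.N) :
    ∃ S' : Sch B y p1, S'.Lt S ∧ (l, X) ∈ S'.N := by
  classical
  by_cases hlX : (l, X) ∈ S.N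
  · obtain ⟨S', h1, h2⟩ := SD_step hCH S
    exact ⟨S', h1, h2 ▸ hlX⟩
  have : Nonempty Fx := ⟨⟨∅, empty_subset _⟩⟩
  have hXw : X ⊆ Iio Pool.Agent.Lib.MP_5c1789_lcR.w1 := fun z hz => (hX hz).trans hl
  obtain ⟨f0, hf0⟩ : ∃ f0 : Fx, f0.1 = X := ⟨⟨X, hXw⟩, rfl⟩
  have hf0X : f0.1 ∩ Iio l = X := by
    rw [hf0]
    exact inter_eq_left.2 hX
  have hsame : ∀ f : Fx, f.1 ∩ Iio l = X → S.x.Q f = S.x.Q f0 :=
    fun f hf => SD_same S hlX f f0 hf hf0X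
  have hqp : S.x.Q f0 ≤ p1 := S.le f0
  have hnd := hD (S.x.Q f0) hqp
  unfold Det at hnd
  push Not at hnd
  obtain ⟨q1, q1', hq1, hq1', hres, hb, i, v, v', hv, hv', hvv⟩ := hnd
  have hikp : i < kp := (value_lt (h.isFun ((hq1.trans hqp).trans hp1)
    (hy.mono (hq1.trans hqp))) hv).1
  obtain ⟨ht, hDD, hbb⟩ := Cd.res_eq_res.1 hres
  have hbq : ∀ ζ ∈ (S.x.Q f0).D, q1.b ζ = q1'.b ζ := by
    intro ζ hζ
    by_cases hζB : ζ ∈ B
    · exact (hbb ζ ⟨hq1.2.1 hζ, hζB⟩).1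
    · exact hb ζ hζ hζB
  obtain ⟨e, he, he'⟩ := SD_section hq1 (S.x.inj f0)
  obtain ⟨am, ham⟩ := SD_am (B := B) hq1 he he'
  obtain ⟨Q1, hQ1⟩ : ∃ Q1 : Fx → Cd, Q1 = fun f =>
      if f.1 ∩ Iio l = X then (if l ∈ f.1 then q1 else q1') else am (S.x.Q f) := ⟨_, rfl⟩
  have hQa : ∀ f : Fx, f.1 ∩ Iio l = X → l ∈ f.1 → Q1 f = q1 := by
    intro f h1 h2
    rw [hQ1]
    simp only [if_pos h1, if_pos h2]
  have hQb : ∀ f : Fx, f.1 ∩ Iio l = X → l ∉ f.1 → Q1 f = q1' := by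
    intro f h1 h2
    rw [hQ1]
    simp only [if_pos h1, if_neg h2]
  have hQc : ∀ f : Fx, ¬ f.1 ∩ Iio l = X → Q1 f = am (S.x.Q f) := by
    intro f h1
    rw [hQ1]
    simp only [if_neg h1]
  have hle : ∀ f, Q1 f ≤ S.x.Q f := by
    intro f
    by_cases h1 : f.1 ∩ Iio l = X
    · rw [hsame f h1]
      by_cases h2 : l ∈ f.1
      · rw [hQa f h1 h2]
        exact hq1
      · rw [hQb f h1 h2]
        exact hq1'
    · rw [hQc f h1]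
      exact (ham _ (S.x.com f f0)).1
  have hrB : ∀ f, (Q1 f).res B = q1.res B := by
    intro f
    by_cases h1 : f.1 ∩ Iio l = X
    · by_cases h2 : l ∈ f.1
      · rw [hQa f h1 h2]
      · rw [hQb f h1 h2, hres]
    · rw [hQc f h1]
      exact (ham _ (S.x.com f f0)).2.1
  have hbe : ∀ f, ∀ ζ ∈ (S.x.Q f).D, (Q1 f).b ζ = e ((S.x.Q f).b ζ) := by
    intro f ζ hζ
    by_cases h1 : f.1 ∩ Iio l = X
    · rw [hsame f h1] at hζ ⊢
      rw [he' ζ hζ]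
      by_cases h2 : l ∈ f.1
      · rw [hQa f h1 h2]
      · rw [hQb f h1 h2]
        exact (hbq ζ hζ).symm
    · rw [hQc f h1]
      exact (ham _ (S.x.com f f0)).2.2 ζ hζ
  obtain ⟨x', hx1, hx2, hx3⟩ := Fam.exists_step hCH S.x Q1 hle
    (fun f f' => (hrB f).trans (hrB f').symm)
    (fun f f' ζ ζ' hζ hζ' hbζ => by rw [hbe f ζ hζ, hbe f' ζ' hζ', hbζ])
  have hcls : ∀ f f' : Fx, x'.Q f ≠ x'.Q f' → ∃ l' < Pool.Agent.Lib.MP_5c1789_lcR.w1,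
      f.1 ∩ Iio l' = f'.1 ∩ Iio l' ∧ ¬ (l' ∈ f.1 ↔ l' ∈ f'.1) ∧
        (l', f.1 ∩ Iio l') ∈ insert (l, X) S.N := by
    intro f f' hne
    by_cases hS : S.x.Q f = S.x.Q f'
    · have hQne : Q1 f ≠ Q1 f' := fun hQ => hne (hx3 f f' hS hQ)
      have hdiff : f.1 ∩ Iio l ≠ f'.1 ∩ Iio l → (f.1 ∩ Iio l = X ∨ f'.1 ∩ Iio l = X) →
          ∃ l' < Pool.Agent.Lib.MP_5c1789_lcR.w1,
            f.1 ∩ Iio l' = f'.1 ∩ Iio l' ∧ ¬ (l' ∈ f.1 ↔ l' ∈ f'.1) ∧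
              (l', f.1 ∩ Iio l') ∈ insert (l, X) S.N := by
        intro hd hor
        obtain ⟨l', hl', h1, h2⟩ := SD_diff hd
        refine ⟨l', hl'.trans hl, h1, h2, mem_insert_of_mem _ ?_⟩
        have h3 := hN l' hl'
        have h4 : X ∩ Iio l' = f.1 ∩ Iio l' := by
          rcases hor with ho | ho
          · rw [← ho, inter_assoc, Iio_inter_Iio, inf_eq_right.2 hl'.le]
          · rw [h1, ← ho, inter_assoc, Iio_inter_Iio, inf_eq_right.2 hl'.le]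
        rwa [h4] at h3
      by_cases h1 : f.1 ∩ Iio l = X
      · by_cases h2 : f'.1 ∩ Iio l = X
        · refine ⟨l, hl, h1.trans h2.symm, fun hiff => hQne ?_, ?_⟩
          · by_cases h3 : l ∈ f.1
            · rw [hQa f h1 h3, hQa f' h2 (hiff.1 h3)]
            · rw [hQb f h1 h3, hQb f' h2 fun h4 => h3 (hiff.2 h4)]
          · rw [h1]
            exact mem_insert _ _
        · exact hdiff (fun hh => h2 (hh ▸ h1)) (Or.inl h1)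
      · by_cases h2 : f'.1 ∩ Iio l = X
        · exact hdiff (fun hh => h1 (hh.trans h2)) (Or.inr h2)
        · exact absurd (by rw [hQc f h1, hQc f' h2, hS]) hQne
    · obtain ⟨l', hl', h1, h2, h3⟩ := S.cls f f' hS
      exact ⟨l', hl', h1, h2, mem_insert_of_mem _ h3⟩
  have hspl : ∀ u ∈ insert (l, X) S.N, ∃ i < kp, ∃ v v' : Ordinal.{0}, v ≠ v' ∧
      ∀ f : Fx, f.1 ∩ Iio u.1 = u.2 →
        (u.1 ∈ f.1 → MemF (opN (chk i) (chk v)) y (x'.Q f)) ∧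
        (u.1 ∉ f.1 → MemF (opN (chk i) (chk v')) y (x'.Q f)) := by
    intro u hu
    rcases mem_insert_iff.1 hu with rfl | hu
    · refine ⟨i, hikp, v, v', hvv, fun f hf => ⟨fun hm => ?_, fun hm => ?_⟩⟩
      · have h1 := hx2 f
        rw [hQa f hf hm] at h1
        exact hv.mono h1
      · have h1 := hx2 f
        rw [hQb f hf hm] at h1
        exact hv'.mono h1
    · obtain ⟨i, hi, v, v', hvv, hf⟩ := S.spl u hu
      exact ⟨i, hi, v, v', hvv, fun f hfu =>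
        ⟨fun hm => ((hf f hfu).1 hm).mono ((hx2 f).trans (hle f)),
          fun hm => ((hf f hfu).2 hm).mono ((hx2 f).trans (hle f))⟩⟩
  refine ⟨⟨x', insert (l, X) S.N, fun f => ((hx2 f).trans (hle f)).trans (S.le f), ?_, ?_,
    hcls, hspl⟩, ⟨hx1, subset_insert _ _⟩, mem_insert _ _⟩
  · intro u hu
    rcases mem_insert_iff.1 hu with rfl | hu
    · exact ⟨hl, hX⟩
    · exact S.nd u hu
  · intro u hu l' hl'
    rcases mem_insert_iff.1 hu with rfl | hu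
    · exact mem_insert_of_mem _ (hN l' hl')
    · exact mem_insert_of_mem _ (S.dn u hu l' hl')


end Pool.Agent.Lib.MP_5c1789_lcR
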