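import Pool.Agent.Lib.MP_5c1789_lcR.SC
import Pool.Agent.Lib.MP_5c1789_lcR.SD

/-!
# JOB SE: splitting at all the nodes

* `exists_one`: by strong induction on `l < w1`, for all `X ⊆ Iio l` and all `S` there is `S'` with `S'.Lt S` and
  `(l, X) ∈ S'.N`.  Apply `tdc` with `R = Sch.Lt`, `D i S := i < l → (i, X ∩ Iio i) ∈ S.N` (monotone), the
  step by
  the induction hypothesis for `(i, X ∩ Iio i)`, `i < l` (and for `l ≤ i`: some `S'` with `S'.Lt S`: the
  induction hypothesis is not available, but `Fam.exists_step` with `Q1 = S.x.Q` gives a trivial step; it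
  is stated as `exists_triv`: prove it first: as case 0 in `SD.lean`), limits by `Sch.exists_lim`.
  The result `S1` satisfies `(i, X ∩ Iio i) ∈ S1.N` for all `i < l` (`l < w1`), and
  `Sch.exists_split` applies.
* `exists_all`: if the set of the nodes `{u | u.1 < w1 ∧ u.2 ⊆ Iio u.1}` is enumerated by `e`
  (`sm_nodes hCH`, `Sm.enum`; nonempty: `(0, ∅)`), apply `tdc` with `D i S := e i ∈ S.N` for `i < w1`, the step by
  `exists_one`,
  starting with `Sch.exists_init`.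
-/

set_option linter.unusedSimpArgs false

open Set Cardinal

namespace Pool.Agent.Lib.MP_5c1789_lcR

open Pool.Agent.Lib.Forcing Pool.Agent.Lib.MP_40b13d_lc Pool.Agent.Lib.MP_5c1789_lc

namespace Sch

variable {𝒯 β : Name Cd} {p0 : Cd} {B : Set Ordinal.{0}} {y : Name Cd} {p1 : Cd}

theorem exists_triv (hCH : CHy) (S : Sch B y p1) : ∃ S' : Sch B y p1, S'.Lt S := by
  have : Nonempty Fx := ⟨⟨∅, empty_subset _⟩⟩
  obtain ⟨y', h1, h2, h3⟩ := Fam.exists_step hCH S.x S.x.Q (fun f => Cd.le_rfl' _) S.x.com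
    (fun f f' ζ ζ' _ _ h => h)
  refine ⟨⟨y', S.N, fun f => (h2 f).trans (S.le f), S.nd, S.dn, fun f f' hne => ?_,
    fun u hu => ?_⟩, h1, Subset.rfl⟩
  · exact S.cls f f' (fun he => hne (h3 f f' he he))
  · obtain ⟨i, hi, v, v', hv, hf⟩ := S.spl u hu
    exact ⟨i, hi, v, v', hv, fun f hfu =>
      ⟨fun hm => MemF.mono ((hf f hfu).1 hm) (h2 f), fun hm => MemF.mono ((hf f hfu).2 hm) (h2 f)⟩⟩

theorem exists_one (hCH : CHy) (h : Ctx 𝒯 β p0 B) (hp1 : p1 ≤ p0) (hy : MemF y β p1)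
    (hD : ∀ r, r ≤ p1 → ¬ Det B y r) (l : Ordinal.{0}) :
    l < Pool.Agent.Lib.MP_5c1789_lcR.w1 → ∀ X ⊆ Iio l, ∀ S : Sch B y p1,
      ∃ S' : Sch B y p1, S'.Lt S ∧ (l, X) ∈ S'.N := by
  induction l using WellFoundedLT.induction with
  | ind l ih =>
    intro hl X hX S
    obtain ⟨S1, h1, h2⟩ := tdc (fun S' S : Sch B y p1 => S'.Lt S)
      (fun S0 S1 S2 a b => Sch.Lt.trans a b)
      (fun i S => i < l → (i, X ∩ Iio i) ∈ S.N)
      (fun i S0 S1 hS0 hR hi => hR.2 (hS0 hi))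
      (fun i hi S0 => by
        by_cases hil : i < l
        · obtain ⟨S', hS', hm⟩ := ih i hil hi (X ∩ Iio i) inter_subset_right S0
          exact ⟨S', hS', fun _ => hm⟩
        · obtain ⟨S', hS'⟩ := exists_triv hCH S0
          exact ⟨S', hS', fun h' => absurd h' hil⟩)
      (fun δ hδ hδ' S hS => exists_lim hCH hδ hδ' S hS) S
    obtain ⟨S2, h3, h4⟩ := exists_split hCH h hp1 hy hD S1 hl hX
      (fun l' hl' => h2 l' (hl'.trans hl) hl')
    exact ⟨S2, h3.trans h1, h4⟩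

/-- splitting at all the nodes -/
theorem exists_all (hCH : CHy) (h : Ctx 𝒯 β p0 B) (hp1 : p1 ≤ p0) (hy : MemF y β p1)
    (hD : ∀ r, r ≤ p1 → ¬ Det B y r) :
    ∃ S : Sch B y p1, ∀ l < Pool.Agent.Lib.MP_5c1789_lcR.w1, ∀ X ⊆ Iio l, (l, X) ∈ S.N := by
  obtain ⟨e, he, he'⟩ := (sm_nodes hCH).enum
    ⟨((0 : Ordinal.{0}), (∅ : Set Ordinal.{0})), bot_lt_iff_ne_bot.2 w1_li.1, empty_subset _⟩
  obtain ⟨S0, _⟩ := exists_init (B := B) (y := y) (p1 := p1) hCH
  obtain ⟨S1, h1, h2⟩ := tdc (fun S' S : Sch B y p1 => S'.Lt S)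
      (fun S0 S1 S2 a b => Sch.Lt.trans a b)
      (fun i S => e i ∈ S.N)
      (fun i S0 S1 hS0 hR => hR.2 hS0)
      (fun i hi S0 => by
        obtain ⟨S', hS', hm⟩ := exists_one hCH h hp1 hy hD (e i).1 (he i hi).1 (e i).2 (he i hi).2 S0
        exact ⟨S', hS', hm⟩)
      (fun δ hδ hδ' S hS => exists_lim hCH hδ hδ' S hS) S0
  refine ⟨S1, fun l hl X hX => ?_⟩
  obtain ⟨i, hi, hei⟩ := he' (l, X) ⟨hl, hX⟩
  exact hei ▸ h2 i hi

end Sch

end Pool.Agent.Lib.MP_5c1789_lcR
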