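import Pool.Agent.Lib.MP_5c1789_lcR.SB
import Pool.Agent.Lib.MP_5c1789_lcR.SE

/-!
# JOB SF: every branch is determined by few labels

Suppose not: `hD : ∀ r ≤ p1, ¬ Det B y r`.  Let `S` be from `Sch.exists_all`.
For every node `u` (`u.1 < w1`, `u.2 ⊆ Iio u.1`) choose `i u < kp`, `v u ≠ v' u` from `S.spl`.  The set of
all the `i u` is
`Sm` (`sm_nodes hCH`, `Sm.image`), so it is bounded: there is `γ < kp` with `i u < γ` for all nodes (`Sm.bdd`).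
Let `a = (S.x.Q f0).res B` (`f0 = ∅`), the same for all `f` (`S.x.com`); `a ≤ p0` (`Cd.res_le`, `h.dom`),
`a.D ⊆ B`.
`h.exists_list` gives `a' ≤ a`, `a'.D ⊆ B`, `e`.
For every `f : Fx`: `Cd.exists_values (S.x.Q f) a' B`, `Cd.exists_am` give `q ≤ S.x.Q f`, `q ≤ a'`;
`decide_below` (with `h.isFun`; `q ≤ p1 ≤ p0`, `MemF.mono`) gives `q' ≤ q` and `s` with the values of `y`
below
`γ`; let `z f : Zt` be `(γ, s)`.  By `h.seg`, `MemF (nz (z f)) 𝒯 q'`, so `e (j f) = z f` for some `j f < w1`.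
`cantor_w1` (with `j` extended to all sets of ordinals, e.g. by `0` for sets which are not contained in `Iio w1`;
`0 < w1`) gives `f ≠ f'` in `Fx` with `j f = j f'`, so `z f = z f'`.
Let `l` be the least ordinal in which `f` and `f'` differ; `l < w1`, `f ∩ Iio l = f' ∩ Iio l =: X`.  For the node
`u = (l, X)` (in `S.N`), say `l ∈ f`, `l ∉ f'` (the other case is symmetric): `S.Q f` forces `y(i u) = v u`, so
its extension `q'` for `f` forces it and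
also `y(i u) = s (i u)` (`i u < γ`), so `v u = (z f).2 (i u)` (`value_unique`); in the same way
`v' u = (z f').2 (i u)`; so `v u = v' u`, contradiction.
-/

set_option linter.unusedSimpArgs false

open Set Cardinal

namespace Pool.Agent.Lib.MP_5c1789_lcR

open Pool.Agent.Lib.Forcing Pool.Agent.Lib.MP_40b13d_lc Pool.Agent.Lib.MP_5c1789_lc

variable {𝒯 β : Name Cd} {p0 : Cd} {B : Set Ordinal.{0}}

/-- every branch of `𝒯` is determined by few labels -/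
theorem exists_Det (hCH : CHy) (h : Ctx 𝒯 β p0 B) {y : Name Cd} {p1 : Cd} (hp1 : p1 ≤ p0)
    (hy : MemF y β p1) : ∃ r, r ≤ p1 ∧ Det B y r := by
  by_contra hcon
  have hD : ∀ r, r ≤ p1 → ¬ Det B y r := fun r hr hd => hcon ⟨r, hr, hd⟩
  obtain ⟨S, hS⟩ := Sch.exists_all hCH h hp1 hy hD
  have hspl : ∀ u : Ordinal.{0} × Set Ordinal.{0}, ∃ i v v' : Ordinal.{0},
      u.1 < Pool.Agent.Lib.MP_5c1789_lcR.w1 → u.2 ⊆ Iio u.1 →
      i < kp ∧ v ≠ v' ∧ ∀ f : Fx, f.1 ∩ Iio u.1 = u.2 →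
        (u.1 ∈ f.1 → MemF (opN (chk i) (chk v)) y (S.x.Q f)) ∧
        (u.1 ∉ f.1 → MemF (opN (chk i) (chk v')) y (S.x.Q f)) := by
    intro u
    by_cases hu : u.1 < Pool.Agent.Lib.MP_5c1789_lcR.w1 ∧ u.2 ⊆ Iio u.1
    · obtain ⟨i, hi, v, v', hv, hf⟩ := S.spl (u.1, u.2) (hS u.1 hu.1 u.2 hu.2)
      exact ⟨i, v, v', fun _ _ => ⟨hi, hv, hf⟩⟩
    · exact ⟨0, 0, 0, fun h1 h2 => absurd ⟨h1, h2⟩ hu⟩
  choose i v v' hiv using hspl
  obtain ⟨γ, hγ, hγi⟩ := Sm.bdd ((sm_nodes hCH).image i) (by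
    rintro _ ⟨u, hu, rfl⟩
    exact (hiv u hu.1 hu.2).1)
  have hiγ : ∀ u : Ordinal.{0} × Set Ordinal.{0}, u.1 < Pool.Agent.Lib.MP_5c1789_lcR.w1 →
      u.2 ⊆ Iio u.1 → i u < γ := fun u h1 h2 => hγi _ ⟨u, ⟨h1, h2⟩, rfl⟩
  let f0 : Fx := ⟨∅, empty_subset _⟩
  have haB : ((S.x.Q f0).res B).D ⊆ B := inter_subset_right
  have ha : (S.x.Q f0).res B ≤ p0 := Cd.res_le ((S.le f0).trans hp1) h.dom
  obtain ⟨a', ha', haB', e, he⟩ := h.exists_list hCH ha haB hγ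
  have hz : ∀ f : Fx, ∃ q', q' ≤ S.x.Q f ∧ ∃ z : Zt,
      (∀ x < γ, MemF (opN (chk x) (chk (z.1.2 x))) y q') ∧
      ∃ j < Pool.Agent.Lib.MP_5c1789_lcR.w1, e j = z := by
    intro f
    have h1 : a' ≤ (S.x.Q f).res B := by
      rw [S.x.com f f0]
      exact ha'
    obtain ⟨w, hw⟩ := Cd.exists_values (S.x.Q f) a' B h1
    obtain ⟨q, hq1, hq2, -⟩ := Cd.exists_am (S.x.Q f) a' B w h1 haB' (fun ζ hζ _ => hw ζ hζ)
    have hqp1 : q ≤ p1 := hq1.trans (S.le f)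
    obtain ⟨q', hq', s, hs1, hs2, hs3⟩ := decide_below hCH hγ (τ := y) (p := q)
      (fun V hV => h.isFun (hqp1.trans hp1) (MemF.mono hy hqp1) V hV)
    refine ⟨q', hq'.trans hq1, ⟨(γ, s), hγ, hs1, hs2⟩, hs3, ?_⟩
    exact he _ rfl q' (hq'.trans hq2) (h.seg ((hq'.trans hqp1).trans hp1)
      (MemF.mono hy (hq'.trans hqp1)) ⟨(γ, s), hγ, hs1, hs2⟩ hs3)
  choose q' hq' z hzv j hj hej using hz
  classical
  obtain ⟨f, f', hf, hf', hne, hjj⟩ := cantor_w1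
    (fun f => if hf : f ⊆ Iio Pool.Agent.Lib.MP_5c1789_lcR.w1 then j ⟨f, hf⟩ else 0)
    (by
      intro f hf
      simp only [dif_pos hf]
      exact hj _)
  simp only [dif_pos hf, dif_pos hf'] at hjj
  have hzz : z ⟨f, hf⟩ = z ⟨f', hf'⟩ := by
    rw [← hej, ← hej, hjj]
  -- the least difference
  have hex : ∃ l, ¬ (l ∈ f ↔ l ∈ f') := by
    by_contra hc
    exact hne (Set.ext fun x => by
      by_contra hx
      exact hc ⟨x, hx⟩)
  have hwf : WellFounded ((· < ·) : Ordinal.{0} → Ordinal.{0} → Prop) := Ordinal.lt_wf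
  obtain ⟨l, hl, hlmin⟩ : ∃ l, ¬ (l ∈ f ↔ l ∈ f') ∧ ∀ l' < l, (l' ∈ f ↔ l' ∈ f') := by
    refine ⟨hwf.min {l | ¬ (l ∈ f ↔ l ∈ f')} hex, hwf.min_mem {l | ¬ (l ∈ f ↔ l ∈ f')} hex, ?_⟩
    intro l' hl'
    by_contra hc
    exact hwf.not_lt_min {l | ¬ (l ∈ f ↔ l ∈ f')} (x := l') hc hl'
  have hlw : l < Pool.Agent.Lib.MP_5c1789_lcR.w1 := by
    by_contra hc
    exact hl ⟨fun h1 => absurd (hf h1) hc, fun h1 => absurd (hf' h1) hc⟩
  have hXX : f ∩ Iio l = f' ∩ Iio l := by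
    ext x
    constructor
    · rintro ⟨h1, h2⟩
      exact ⟨(hlmin x h2).1 h1, h2⟩
    · rintro ⟨h1, h2⟩
      exact ⟨(hlmin x h2).2 h1, h2⟩
  have hnode := hiv (l, f ∩ Iio l) hlw inter_subset_right
  have hiu := hiγ (l, f ∩ Iio l) hlw inter_subset_right
  obtain ⟨-, hvne, hspl⟩ := hnode
  have hfun : ∀ g : Fx, ∀ V : GenUlt Cd, V.Has (q' g) →
      IsFun (ModE V) (V.cl y) (V.cl (chk kp)) (V.cl (chk kp)) := fun g V hV =>
    h.isFun (((hq' g).trans (S.le g)).trans hp1) (MemF.mono hy ((hq' g).trans (S.le g))) V hV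
  have hA := hspl ⟨f, hf⟩ rfl
  have hA' := hspl ⟨f', hf'⟩ hXX.symm
  have hval : ∀ g : Fx, ∀ w, MemF (opN (chk (i (l, f ∩ Iio l))) (chk w)) y (S.x.Q g) →
      w = (z g).1.2 (i (l, f ∩ Iio l)) := fun g w hw =>
    value_unique (hfun g) (MemF.mono hw (hq' g)) (hzv g _ hiu)
  rcases Classical.em (l ∈ f) with hlf | hlf
  · have hlf' : l ∉ f' := fun h1 => hl ⟨fun _ => h1, fun _ => hlf⟩
    have e1 := hval _ _ (hA.1 hlf)
    have e2 := hval _ _ (hA'.2 hlf')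
    rw [hzz] at e1
    exact hvne (e1.trans e2.symm)
  · have hlf' : l ∈ f' := by
      by_contra h1
      exact hl ⟨fun h2 => absurd h2 hlf, fun h2 => absurd h2 h1⟩
    have e1 := hval _ _ (hA.2 hlf)
    have e2 := hval _ _ (hA'.1 hlf')
    rw [hzz] at e1
    exact hvne (e2.trans e1.symm)

end Pool.Agent.Lib.MP_5c1789_lcR
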