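import Pool.Agent.Lib.MP_5c1789_lcR.PA
import Pool.Agent.Lib.MP_5c1789_lcR.QC
import Pool.Agent.Lib.MP_5c1789_lcR.QE
import Pool.Agent.Lib.MP_5c1789_lcR.SF

/-!
# JOB QF: every branch is captured

`y = U.cl υ`.  `los_imp` (in `Pool/Agent/Lib/MP_5c1789_lc/Tree.lean`) with `q = p0`, `φ` := `υ ∈ β`, `ψ` := the
conclusion, as a formula (`fex (.fand .. )` with the parameters `υ`, `RN`, `NN`, `chk kp`).  So let `p ≤ p0`
with
`MemF υ β p` (`forces_mem`), `V.Has p`; show `Forces ψ v p` (`forces_iff`); by `Forces.dense` for every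
`p1 ≤ p` it is
enough to find `r ≤ p1` with `Forces ψ v r`.  `exists_Det` gives `r ≤ p1` with `Det B υ r`; `exists_idx` gives
`I`, `jn`; `hg` from `codeOf_good`.  Let `σ = codeOf B υ r I jn` and
`ρ := cn (ι := Ordinal) (fun ξ => chk ξ) (fun ξ q => Cr l st σ jn r ξ q)` (monotone: `Cr_mono`).  In `V` with
`V.Has r`
the class of `ρ` has the four properties:
(1) an element of `ρ` is locally `chk ξ` with `Cr ξ q`, so `ξ < kp` (`cmem`, `Cd.mem_c`).
(2) elements `u, u'` of `ρ`: locally `chk ξ`, `chk ξ'` with `Cr ξ q`, `Cr ξ' q`, so `PR (ξ, ξ') q` (`Cr_PR`);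
`IsApp RN` by `isApp_relN` (in `Pool/Agent/Lib/Forcing/OrdNames.lean`).
(3) for `i ∈ chk kp`: reduce to `i = chk i0`, `i0 < kp` (`mod_bounded_chS`, `chk_chS`); the statement
`∃ u z v, ..` is forced by `r'` for a dense set of `r' ≤ r` (`Forces.dense`): `Cr_prog` gives `q' ≤ r'`, `ξ`, `z`
with `Cr ξ q'`, `PN (ξ, z) q'`, `i0 < z.1.1`; take `u = chk ξ`, `z = nz z`, `v = chk (z.1.2 i0)` (`app_fN`; `app_NN`
or `isApp_relN`).
(4) for `u ∈ ρ` and `(u, z) ∈ NN`: locally `u = chk ξ`, `Cr ξ q` and `u = chk ξ'`, `PN (ξ', w) q`, `z = nz w`; so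
`ξ = ξ'` (`chk_inj`), and by `Cr_seg`, `fN_sub_of_values`: `nz w ⊆ υ` (every element of `z` is locally an element of
`nz w`, hence of `υ`; as in `PC.lean`).
-/

set_option linter.unusedSimpArgs false

open Set Cardinal

namespace Pool.Agent.Lib.MP_5c1789_lcR

open Pool.Agent.Lib.Forcing Pool.Agent.Lib.MP_40b13d_lc Pool.Agent.Lib.MP_5c1789_lc

variable {𝒯 β : Name Cd} {p0 : Cd} {B : Set Ordinal.{0}}

/-- the four properties of the captured play -/
private theorem qf_main (hCH : CHy) {l : Ordinal.{0}} {st : Ordinal.{0} → Stt}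
    (hst : ∀ u ∈ Sst B, ∃ i < l, st i = u) {υ : Name Cd} {r : Cd} {I : Set Ordinal.{0}}
    {jn : Ordinal.{0} → Ordinal.{0}} (hI : Idx B r I jn) (hg : Good 𝒯 B (codeOf B υ r I jn))
    (V : GenUlt Cd) (hV : V.Has r) :
    ∃ ρ, (∀ u, ModE V u ρ → ModE V u (V.cl (chk kp))) ∧
      (∀ u u', ModE V u ρ → ModE V u' ρ → IsApp (ModE V) (V.cl (RN 𝒯 B l st)) u u') ∧
      (∀ i, ModE V i (V.cl (chk kp)) → ∃ u z v, ModE V u ρ ∧
        IsApp (ModE V) (V.cl (NN 𝒯 B l st)) u z ∧ IsApp (ModE V) z i v) ∧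
      ∀ u z, ModE V u ρ → IsApp (ModE V) (V.cl (NN 𝒯 B l st)) u z →
        IsSub (ModE V) z (V.cl υ) := by
  have hA : ∀ (ξ : Ordinal.{0}) (p q : Cd), Cr l st (codeOf B υ r I jn) jn r ξ p → q ≤ p →
      Cr l st (codeOf B υ r I jn) jn r ξ q := fun ξ p q hp hq => Cr_mono hI ξ p q hp hq
  refine ⟨V.cl (cn (ι := Ordinal.{0}) (fun ξ => chk ξ)
    (fun ξ q => Cr l st (codeOf B υ r I jn) jn r ξ q)), ?_, ?_, ?_, ?_⟩
  · intro u hu
    obtain ⟨σ, rfl⟩ := exists_cl u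
    rw [modE_cl, ev_memF_cn hA] at hu
    rw [modE_cl]
    refine hu.imp ?_
    rintro q ⟨ξ, ⟨_, x, hx, _⟩, h2⟩
    exact (chk_mem (q.cmem l (Cd.mem_c hx) _ hx).1 q).congr_left h2.symm
  · intro u u' hu hu'
    obtain ⟨σ, rfl⟩ := exists_cl u
    obtain ⟨σ', rfl⟩ := exists_cl u'
    rw [modE_cl, ev_memF_cn hA] at hu hu'
    rw [RN, isApp_relN V _ _ PR_mono]
    refine hu.imp2 hu' ?_
    rintro q ⟨ξ, h1, h2⟩ ⟨ξ', h3, h4⟩
    exact ⟨(ξ, ξ'), Cr_PR hI hg h1 h3, h2, h4⟩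
  · intro i hi
    rw [chk_chS] at hi
    have h1 := mod_bounded_chS V (Iio kp)
      (fex (fex (fex (.fand (.fmem 2 4) (.fand (dApp 5 2 1) (dApp 1 3 0))))))
      (cons (cn (ι := Ordinal.{0}) (fun ξ => chk ξ)
        (fun ξ q => Cr l st (codeOf B υ r I jn) jn r ξ q)) fun _ => NN 𝒯 B l st) hV
      (fun i0 hi0 r' hr' W hW => by
        refine forces_iff.1 (Forces.dense fun q hq => ?_) W hW
        obtain ⟨q', hq', ξ, z, h2, h3, h4⟩ := Cr_prog hCH hst hI hg (hq.trans hr') hi0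
        refine ⟨q', hq', forces_iff.2 fun W' hW' => ?_⟩
        simp only [sat_ex, sat_and, sat_mem, sat_dApp, cons_zero, cons_one, cons_two, cons_three,
          cons_four, cons_five]
        refine ⟨W'.cl (chk ξ), W'.cl (nz z), W'.cl (chk (z.1.2 i0)),
          mem_of hW' (memF_cn_of (nm := fun ξ => chk ξ) ξ h2), ?_, (app_fN W').2 ⟨h4, rfl⟩⟩
        exact (app_NN W').2 (GenUlt.Ev.imp hW' fun p hp =>
          ⟨z, PN_mono _ _ _ h3 hp, EqF.refl _ _⟩)) i hi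
    simpa only [sat_ex, sat_and, sat_mem, sat_dApp, cons_zero, cons_one, cons_two, cons_three,
      cons_four, cons_five] using h1
  · intro u z hu hz w hw
    obtain ⟨σ, rfl⟩ := exists_cl u
    obtain ⟨ζ, rfl⟩ := exists_cl z
    obtain ⟨ω, rfl⟩ := exists_cl w
    rw [modE_cl, ev_memF_cn hA] at hu
    rw [NN, isApp_relN V _ _ PN_mono] at hz
    rw [modE_cl] at hw ⊢
    refine hu.imp3 hz hw ?_
    rintro q ⟨ξ, h1, h2⟩ ⟨⟨ξ', w⟩, h3, h4, h5⟩ h6
    have h7 : ξ = ξ' := chk_inj (h2.symm.trans h4)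
    subst h7
    refine memF_iff_models.2 fun W hW => ?_
    exact fN_sub_of_values (fun x hx => Cr_seg h1 h3 hx) hW _
      (mem_of hW (MemF.congr_right h5 h6))

/-- the property `C` of the criterion -/
theorem capt_C (hCH : CHy) (h : Ctx 𝒯 β p0 B) {l : Ordinal.{0}} {st : Ordinal.{0} → Stt}
    (hst : ∀ u ∈ Sst B, ∃ i < l, st i = u) (U : GenUlt Cd) (hU : U.Has p0) (y : Mod U)
    (hy : ModE U y (U.cl β)) :
    ∃ ρ, (∀ u, ModE U u ρ → ModE U u (U.cl (chk kp))) ∧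
      (∀ u u', ModE U u ρ → ModE U u' ρ → IsApp (ModE U) (U.cl (RN 𝒯 B l st)) u u') ∧
      (∀ i, ModE U i (U.cl (chk kp)) → ∃ u z v, ModE U u ρ ∧
        IsApp (ModE U) (U.cl (NN 𝒯 B l st)) u z ∧ IsApp (ModE U) z i v) ∧
      ∀ u z, ModE U u ρ → IsApp (ModE U) (U.cl (NN 𝒯 B l st)) u z → IsSub (ModE U) z y := by
  obtain ⟨υ, rfl⟩ := exists_cl y
  have h1 := los_imp U (φ := .fmem 0 4)
    (ψ := fex (.fand (.fall (fimp (.fmem 0 1) (.fmem 0 5)))
      (.fand (.fall (.fall (fimp (.fmem 1 2) (fimp (.fmem 0 2) (dApp 4 1 0)))))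
      (.fand (.fall (fimp (.fmem 0 5) (fex (fex (fex
        (.fand (.fmem 2 4) (.fand (dApp 7 2 1) (dApp 1 3 0))))))))
      (.fall (.fall (fimp (.fmem 1 2) (fimp (dApp 5 1 0) (dSub 0 3)))))))))
    (v := cons υ (cons (RN 𝒯 B l st) (cons (NN 𝒯 B l st) (cons (chk kp) fun _ => β)))) hU
    (fun p hp hφ => by
      have hφ' : MemF υ β p := hφ
      refine forces_iff.1 (Forces.dense fun p1 hp1 => ?_)
      obtain ⟨r, hr, hD⟩ := exists_Det hCH h (hp1.trans hp) (hφ'.mono hp1)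
      obtain ⟨I, jn, hI⟩ := exists_idx B r
      have hg := codeOf_good hCH h ((hr.trans hp1).trans hp) (hφ'.mono (hr.trans hp1)) hD hI
      refine ⟨r, hr, forces_iff.2 fun V hV => ?_⟩
      have h2 := qf_main hCH hst hI hg V hV
      simpa only [sat_ex, sat_and, sat_all, sat_imp, sat_mem, sat_dApp, sat_dSub, cons_zero,
        cons_one, cons_two, cons_three, cons_four, cons_five, cons_six, cons_seven] using h2)
    (by simpa only [sat_mem, cons_zero, cons_four, cons_three, cons_two, cons_one] using hy)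
  simpa only [sat_ex, sat_and, sat_all, sat_imp, sat_mem, sat_dApp, sat_dSub, cons_zero,
    cons_one, cons_two, cons_three, cons_four, cons_five, cons_six, cons_seven] using h1

end Pool.Agent.Lib.MP_5c1789_lcR
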