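import Pool.Agent.Lib.MP_5c1789_lcR.Sys

/-!
# JOB YS: the set of states is small

`Sst B` injects into the product of the small sets
`{a : Cd | a.D ⊆ B}` (`Cd.small_sub`), subsets of `Iio w1`, normal tuples
`TS := {t : Tup | (∀ η, η ∉ Iio w1 → t η = ∅) ∧ ∀ η, t η ⊆ Iio kp}`, subsets of
`{x : Cd × Tup × Zt | x.1.D ⊆ B ∧ x.2.1 ∈ TS}`, `Iio kp`, `TS`, subsets of `Iio kp`.
`TS` is small by `small_fun` (`S = Iio w1`, `T = {X | X ⊆ Iio kp}` (`small_powerset`), `b = ∅`; `small_subset`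
or
`small_of_injective`); the third by `small_powerset` and `small_prod'` (`BE.lean`; `Zt` is small: `small_Zt`).
For the injection: `u ↦ (u.σ.a0, u.σ.I, u.σ.s, u.σ.Θ, u.δ, u.t, u.c)`, two structures with equal fields are
equal.
`exists_numbering`: `exists_number` (`BE.lean`) if `Sst B` is nonempty; otherwise `l = 0` and any `st` (`Stt` is
nonempty: `⟨⟨Cd.triv, ∅, fun _ => ∅, ∅⟩, 0, fun _ => ∅, ∅⟩`).
-/

set_option linter.unusedSimpArgs false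

open Set Cardinal

namespace Pool.Agent.Lib.MP_5c1789_lcR

open Pool.Agent.Lib.Forcing Pool.Agent.Lib.MP_40b13d_lc Pool.Agent.Lib.MP_5c1789_lc

/-- normal tuples -/
private def ysTS : Set Tup :=
  {t | (∀ η, η ∉ Iio Pool.Agent.Lib.MP_5c1789_lcR.w1 → t η = ∅) ∧ ∀ η, t η ⊆ Iio kp}

private theorem ys_small_TS : Small.{0} ysTS := by
  have h1 : Small.{0} (Iio Pool.Agent.Lib.MP_5c1789_lcR.w1 : Set Ordinal.{0}) := inferInstance
  have h0 : Small.{0} (Iio kp : Set Ordinal.{0}) := inferInstance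
  have h2 := small_powerset (Iio kp) h0
  have h3 := small_fun (Iio Pool.Agent.Lib.MP_5c1789_lcR.w1) {X | X ⊆ Iio kp}
    (∅ : Set Ordinal.{0}) h1 h2
  have h4 : ysTS ⊆ {f : Ordinal.{0} → Set Ordinal.{0} |
      (∀ x ∈ Iio Pool.Agent.Lib.MP_5c1789_lcR.w1, f x ∈ {X : Set Ordinal.{0} | X ⊆ Iio kp}) ∧
        ∀ x ∉ Iio Pool.Agent.Lib.MP_5c1789_lcR.w1, f x = (∅ : Set Ordinal.{0})} :=
    fun t ht => ⟨fun x _ => ht.2 x, fun x hx => ht.1 x hx⟩
  exact @small_subset _ _ _ h4 h3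

private theorem ys_small_three (B : Set Ordinal.{0}) (hB : Small.{0} B) :
    Small.{0} {x : Cd × Tup × Zt | x.1 ∈ {a : Cd | a.D ⊆ B} ∧
      x.2 ∈ {y : Tup × Zt | y.1 ∈ ysTS ∧ y.2 ∈ (univ : Set Zt)}} := by
  have hz : Small.{0} (univ : Set Zt) := by
    have := small_Zt
    infer_instance
  exact small_prod' _ _ (Cd.small_sub B hB) (small_prod' _ _ ys_small_TS hz)

theorem small_Sst (B : Set Ordinal.{0}) (hB : Small.{0} B) : Small.{0} (Sst B) := by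
  have hw : Small.{0} (Iio Pool.Agent.Lib.MP_5c1789_lcR.w1 : Set Ordinal.{0}) := inferInstance
  have hk : Small.{0} (Iio kp : Set Ordinal.{0}) := inferInstance
  have h6 := small_prod' ysTS {X | X ⊆ Iio kp} ys_small_TS (small_powerset (Iio kp) hk)
  have h5 := small_prod' (Iio kp) _ hk h6
  have h4 := small_prod' _ _ (small_powerset _ (ys_small_three B hB)) h5
  have h3 := small_prod' ysTS _ ys_small_TS h4
  have h2 := small_prod' {X | X ⊆ Iio Pool.Agent.Lib.MP_5c1789_lcR.w1} _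
    (small_powerset (Iio Pool.Agent.Lib.MP_5c1789_lcR.w1) hw) h3
  have h1 := small_prod' {a : Cd | a.D ⊆ B} _ (Cd.small_sub B hB) h2
  refine @small_of_injective _ _ h1 (fun u : Sst B =>
    ⟨(u.1.σ.a0, u.1.σ.I, u.1.σ.s, u.1.σ.Θ, u.1.δ, u.1.t, u.1.c), ?_⟩) ?_
  · obtain ⟨u, g1, g2, g3, g4, g5, g6, g7⟩ := u
    exact ⟨g1, g2, g3, fun x hx => ⟨(g4 x hx).1, ⟨(g4 x hx).2.1, (g4 x hx).2.2⟩, mem_univ _⟩,
      g5, g6, g7⟩
  · rintro ⟨⟨⟨a, I, s, Θ⟩, δ, t, c⟩, hu⟩ ⟨⟨⟨a', I', s', Θ'⟩, δ', t', c'⟩, hu'⟩ h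
    simp only [Subtype.mk.injEq, Prod.mk.injEq] at h
    obtain ⟨rfl, rfl, rfl, rfl, rfl, rfl, rfl⟩ := h
    rfl

/-- there is a numbering of the states -/
theorem exists_numbering (B : Set Ordinal.{0}) (hB : Small.{0} B) :
    ∃ (l : Ordinal.{0}) (st : Ordinal.{0} → Stt), ∀ u ∈ Sst B, ∃ i < l, st i = u := by
  rcases (Sst B).eq_empty_or_nonempty with h | h
  · refine ⟨0, fun _ => ⟨⟨Cd.triv, ∅, fun _ => ∅, ∅⟩, 0, fun _ => ∅, ∅⟩, fun u hu => ?_⟩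
    rw [h] at hu
    exact absurd hu (notMem_empty u)
  · obtain ⟨l, st, -, h2⟩ := exists_number (Sst B) (small_Sst B hB) h
    exact ⟨l, st, h2⟩

end Pool.Agent.Lib.MP_5c1789_lcR
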