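import Pool.Agent.Lib.MP_5c1789_lcR.DB
import Pool.Agent.Lib.MP_5c1789_lcR.KC
import Pool.Agent.Lib.MP_5c1789_lcR.ME
import Pool.Agent.Lib.MP_5c1789_lcR.PE
import Pool.Agent.Lib.MP_5c1789_lcR.QF
import Pool.Agent.Lib.MP_5c1789_lcR.YS

/-!
# The model
-/

set_option linter.unusedSimpArgs false

open Set Cardinal

namespace Pool.Agent.Lib.MP_5c1789_lcR

open Pool.Agent.Lib.Forcing Pool.Agent.Lib.MP_40b13d_lc Pool.Agent.Lib.MP_5c1789_lc

/-- the branch sets are continuous images, below a condition which forces that `𝒯` is a Kurepa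
tree -/
theorem cont_of_forced (hCH : CHy) {𝒯 β φ : Name Cd} {p0 : Cd}
    (hk : ∀ V : GenUlt Cd, V.Has p0 →
      IsKurepa (ModE V) (V.cl (chk Pool.Agent.Lib.MP_5c1789_lcR.w1)) (V.cl (chk kp)) (V.cl 𝒯))
    (hb : ∀ V : GenUlt Cd, V.Has p0 →
      IsBranchSet (ModE V) (V.cl (chk kp)) (V.cl 𝒯) (V.cl β))
    (hF : ∀ V : GenUlt Cd, V.Has p0 → IsFunSpace (ModE V) (V.cl (chk kp)) (V.cl φ))
    (V : GenUlt Cd) (hV : V.Has p0) :
    ∃ f, IsContSurj (ModE V) (V.cl (chk kp)) (V.cl φ) (V.cl β) f := by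
  obtain ⟨B, h⟩ := exists_ctx hk hb
  obtain ⟨l, st, hst⟩ := exists_numbering B h.small
  refine exists_contR (mod_isZFC V) (Z := V.cl seqN) (R := V.cl (RN 𝒯 B l st))
    (N := V.cl (NN 𝒯 B l st)) (T := V.cl 𝒯) ⟨mod_ordinal_chk V kp, ?_, hb V hV, ?_, ?_, ?_⟩
    (hF V hV) (isSeqSpace_seqN hCH V hV) ((hk V hV).2.2 _ (hb V hV)).1
  · intro a ha
    rw [chk_chS] at ha
    have h1 := mod_bounded_chS V (Iio kp) (fex (.fand (.fmem 0 2) (.fmem 1 0))) (fun _ => chk kp)
      hV (fun i hi r _ W _ => by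
        simp only [sat_ex, sat_and, sat_mem, cons_zero, cons_one, cons_two]
        exact ⟨W.cl (chk (Order.succ i)), (mod_chk_mem W).2 (kp_li.2 i hi),
          (mod_chk_mem W).2 (Order.lt_succ i)⟩) a ha
    simpa only [sat_ex, sat_and, sat_mem, cons_zero, cons_one, cons_two] using h1
  · exact fun u z hz => NN_fun V u z hz
  · exact fun a s ha hs hok => play_D hCH h V hV a s ha hs hok
  · exact fun y hy => capt_C hCH h hst V hV y hy

theorem kurepaImages (hCH : CHy) (U : GenUlt Cd) {q : Cd} (hq : U.Has q) :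
    KurepaImagesReg (ModE U) := by
  refine ⟨U.cl omegaN, U.cl (chk Pool.Agent.Lib.MP_5c1789_lcR.w1), U.cl (chk kp), mod_omega U, next_w1 hCH U hq,
    next_kp hCH U hq, ⟨U.cl seqN, isSeqSpace_seqN hCH U hq, surj_seqN U hq⟩,
    exists_kurepa hCH U hq, ?_⟩
  intro T hT F b hF hb
  obtain ⟨𝒯, rfl⟩ := exists_cl T
  obtain ⟨φ, rfl⟩ := exists_cl F
  obtain ⟨β, rfl⟩ := exists_cl b
  have h := los_imp U (φ := .fand (fKurepa 0 1 2) (.fand (fFunSpace 1 3) (fBranchSet 1 2 4)))
    (ψ := fex (fContSurj 2 4 5 0))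
    (v := cons (chk Pool.Agent.Lib.MP_5c1789_lcR.w1) (cons (chk kp) (cons 𝒯 (cons φ fun _ => β)))) hq
    (fun p _ hp V hV => by
      have h1 : ∀ W : GenUlt Cd, W.Has p →
          IsKurepa (ModE W) (W.cl (chk Pool.Agent.Lib.MP_5c1789_lcR.w1)) (W.cl (chk kp)) (W.cl 𝒯) ∧
          IsFunSpace (ModE W) (W.cl (chk kp)) (W.cl φ) ∧
          IsBranchSet (ModE W) (W.cl (chk kp)) (W.cl 𝒯) (W.cl β) := by
        intro W hW
        have := forces_iff.1 hp W hW
        simpa only [sat_and, sat_fKurepa, sat_fFunSpace, sat_fBranchSet, cons_zero, cons_one,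
          cons_two, cons_three, cons_four] using this
      simp only [sat_ex, sat_fContSurj, cons_zero, cons_one, cons_two, cons_three, cons_four,
        cons_five]
      exact cont_of_forced hCH (fun W hW => (h1 W hW).1) (fun W hW => (h1 W hW).2.2)
        (fun W hW => (h1 W hW).2.1) V hV)
    (by simpa only [sat_and, sat_fKurepa, sat_fFunSpace, sat_fBranchSet, cons_zero, cons_one,
          cons_two, cons_three, cons_four] using ⟨hT, hF, hb⟩)
  simpa only [sat_ex, sat_fContSurj, cons_zero, cons_one, cons_two, cons_three, cons_four,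
        cons_five] using h

/-- if CH holds, there is a countable model -/
theorem exists_model (hCH : CHy) : ∃ (M : Type) (E : M → M → Prop), Countable M ∧ IsZFC M E ∧
    KurepaImagesReg E := by
  obtain ⟨q⟩ : Nonempty Cd := inferInstance
  obtain ⟨U, hU⟩ := exists_genUlt q
  exact exists_countable (U.cl omegaN) (mod_isZFC U) (kurepaImages hCH U hU)

end Pool.Agent.Lib.MP_5c1789_lcR
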