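import Pool.Agent.Lib.MP_5c1789_lcR.Names

/-!
# JOB NA: names of old functions

Read the section `General` of `Pool/Agent/Lib/MP_5c1789_lc/Tree.lean` first (`fnN`, `fnN_isFun`,
`app_fnN`, `fnN_sub`, `restr`, `fnN_inj`): the theorems here are the same with values `s x` instead of
`bt H x` and the codomain `chk k` instead of `w2N`.
* `memF_fN`: `MemF (opN (chk x) (chk y)) (relN ..) p`: unfold `fN`, `relN`, `memF_cn`, `eqF_opN`,
  `chk_inj`.
* `fN_sub`: as `fnN_sub`, with `hs`.  `fN_sub_iff`: `→`: for `x < a` the pair `(x, s x)` is in `fN a s`,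
  so in `fN a' s'`: `app_fN` and `mod_chk_eq` (`IsApp` of the sub; for `a ≤ a'`: if `a' < a` take
  `x = a'`).
* `eq_fN_of_values`: in every `V` with `V.Has q` (`eqF_iff_models`): both are functions from `chk a`
  (`fN_isFun` with some codomain: note that `s x < k` follows from `h`, `hs`, or compare directly) and
  `fN a s ⊆ τ` by `fN_sub_of_values`; a function which contains a function with the same domain is equal
  to it (`isFun_eq_of_sub` in `Pool/Agent/Lib/MP_5c1789_lc/Nice.lean`: copy its proof if you need it, it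
  is not imported; or `isFun_ext`).
* `fN_sub_of_values`: an element of `fN a s` is locally `opN (chk x) (chk (s x))` for some `x < a`
  (`ev_memF_cn`), which is in `τ` below `q` (`MemF.congr_left`, `MemF.mono`, `GenUlt.Ev.imp2` with `hV`).
* `values_of_fN_sub`: `memF_iff_models`: the pair is in `fN a s` (`memF_fN`), so in `τ`.
* `value_unique`: take `V` with `V.Has q` (`exists_genUlt`), `app_of`, `isFun_unique`, `mod_chk_eq`.
-/

set_option linter.unusedSimpArgs false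

open Set Cardinal

namespace Pool.Agent.Lib.MP_5c1789_lcR

open Pool.Agent.Lib.Forcing Pool.Agent.Lib.MP_40b13d_lc Pool.Agent.Lib.MP_5c1789_lc

variable {P : Type 1} [Preorder P]

theorem fN_isFun (U : GenUlt P) {a k : Ordinal.{0}} {s : Ordinal.{0} → Ordinal.{0}}
    (h : ∀ x < a, s x < k) :
    IsFun (ModE U) (U.cl (fN a s)) (U.cl (chk a)) (U.cl (chk k)) := by
  have key : ∀ V : GenUlt P, ∀ q, V.Has q →
      IsFun (ModE V) (V.cl (fN a s)) (V.cl (chk a)) (V.cl (chk k)) := by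
    intro V q hq
    refine isFun_relN V (ι := Iio a) _ _ (fun _ _ _ h _ => h) (chk a) (chk k) hq ?_ ?_ ?_
    · intro r _ x _
      exact ⟨chk_mem x.2 r, chk_mem (h x.1 x.2) r⟩
    · intro ρ r _ h
      obtain ⟨t, ht, x, hx, h1⟩ := memF_chk.1 h r le_rfl
      exact ⟨t, ht, ⟨x, hx⟩, trivial, h1⟩
    · intro x x' r _ _ _ h
      have h1 : x = x' := Subtype.ext (chk_inj h)
      subst h1
      exact EqF.refl _ _
  have h := (los U (dFun 0 1 2) (cons (fN a s) (cons (chk a) fun _ => chk k))).2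
    (GenUlt.ev_true fun p => forces_iff.2 fun V hV => by
      simp only [sat_dFun, cons_zero, cons_one, cons_two]
      exact key V p hV)
  simpa only [sat_dFun, cons_zero, cons_one, cons_two] using h

theorem app_fN (V : GenUlt P) {a : Ordinal.{0}} {s : Ordinal.{0} → Ordinal.{0}} {x : Ordinal.{0}}
    {y : Mod V} : IsApp (ModE V) (V.cl (fN a s)) (V.cl (chk x)) y ↔
      x < a ∧ y = V.cl (chk (s x)) := by
  obtain ⟨υ, rfl⟩ := exists_cl y
  rw [fN, isApp_relN V _ _ (fun _ _ _ h _ => h)]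
  constructor
  · intro h
    obtain ⟨p, i, _, h1, _⟩ := h.exists
    have h2 : x = i.1 := chk_inj h1
    refine ⟨h2 ▸ i.2, ?_⟩
    rw [cl_eq]
    refine GenUlt.Ev.imp h ?_
    rintro q ⟨j, _, h3, h4⟩
    rw [chk_inj h3]
    exact h4
  · rintro ⟨hx, h⟩
    rw [cl_eq] at h
    exact GenUlt.Ev.imp h fun q hq => ⟨⟨x, hx⟩, trivial, EqF.refl _ _, hq⟩

/-- values of names of functions -/
theorem memF_fN {a x y : Ordinal.{0}} {s : Ordinal.{0} → Ordinal.{0}} {p : P} :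
    MemF (opN (chk x) (chk y)) (fN a s) p ↔ x < a ∧ y = s x := by
  rw [fN, relN, memF_cn (fun _ _ _ h _ => h)]
  constructor
  · intro h
    obtain ⟨q, _, i, _, h1⟩ := h p le_rfl
    obtain ⟨h2, h3⟩ := eqF_opN.1 h1
    have h4 : x = i.1 := chk_inj h2
    have h5 : y = s i.1 := chk_inj h3
    exact ⟨h4 ▸ i.2, h4 ▸ h5⟩
  · rintro ⟨hx, rfl⟩ r _
    exact ⟨r, le_rfl, ⟨x, hx⟩, trivial, EqF.refl _ _⟩

theorem fN_sub (V : GenUlt P) {a a' : Ordinal.{0}} (h : a ≤ a')
    {s s' : Ordinal.{0} → Ordinal.{0}} (hs : ∀ x < a, s x = s' x) :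
    IsSub (ModE V) (V.cl (fN a s)) (V.cl (fN a' s')) := by
  intro z hz
  obtain ⟨ζ, rfl⟩ := exists_cl z
  rw [modE_cl, fN, relN, ev_memF_cn (fun _ _ _ h _ => h)] at hz ⊢
  refine GenUlt.Ev.imp hz ?_
  rintro p ⟨i, _, hi⟩
  refine ⟨⟨i.1, lt_of_lt_of_le i.2 h⟩, trivial, ?_⟩
  rw [hs i.1 i.2] at hi
  exact hi

theorem fN_sub_iff {a a' : Ordinal.{0}} {s s' : Ordinal.{0} → Ordinal.{0}} (V : GenUlt P) :
    IsSub (ModE V) (V.cl (fN a s)) (V.cl (fN a' s')) ↔ a ≤ a' ∧ ∀ x < a, s x = s' x := by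
  constructor
  · intro h
    have key : ∀ x < a, x < a' ∧ s x = s' x := by
      intro x hx
      obtain ⟨z, hz, hz'⟩ : IsApp (ModE V) (V.cl (fN a s)) (V.cl (chk x)) (V.cl (chk (s x))) :=
        (app_fN V).2 ⟨hx, rfl⟩
      obtain ⟨h1, h2⟩ := (app_fN V).1 ⟨z, h z hz, hz'⟩
      exact ⟨h1, (mod_chk_eq V).1 h2⟩
    refine ⟨?_, fun x hx => (key x hx).2⟩
    by_contra hc
    exact lt_irrefl _ (key a' (not_le.1 hc)).1
  · rintro ⟨h1, h2⟩
    exact fN_sub V h1 h2

theorem fN_inj {a a' : Ordinal.{0}} {s s' : Ordinal.{0} → Ordinal.{0}} {r : P}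
    (h : EqF (fN a s) (fN a' s') r) : a = a' ∧ ∀ x < a, s x = s' x := by
  obtain ⟨V, hV⟩ := exists_genUlt r
  have h1 := cl_congr hV h
  have h2 : IsSub (ModE V) (V.cl (fN a s)) (V.cl (fN a' s')) := by
    rw [h1]
    exact fun z hz => hz
  have h3 : IsSub (ModE V) (V.cl (fN a' s')) (V.cl (fN a s)) := by
    rw [h1]
    exact fun z hz => hz
  rw [fN_sub_iff] at h2 h3
  exact ⟨le_antisymm h2.1 h3.1, h2.2⟩

/-- a function which contains a function with the same domain is equal to it -/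
private theorem na_eq_of_sub (V : GenUlt P) {a b b' f g : Mod V}
    (h1 : IsFun (ModE V) f a b) (h2 : IsFun (ModE V) g a b') (h3 : IsSub (ModE V) g f) :
    f = g := by
  have hZ := mod_isZFC V
  refine isFun_ext hZ h1 h2 fun x y => ?_
  constructor
  · intro hxy
    obtain ⟨y', ⟨_, w, hw, hw'⟩, _⟩ := h2.2 x (isFun_mem hZ h1 hxy).1
    rw [isFun_unique hZ h1 hxy ⟨w, h3 w hw, hw'⟩]
    exact ⟨w, hw, hw'⟩
  · rintro ⟨w, hw, hw'⟩
    exact ⟨w, h3 w hw, hw'⟩

/-- a function below an old function -/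
theorem fN_restr (V : GenUlt P) {a a' k : Ordinal.{0}} {s : Ordinal.{0} → Ordinal.{0}}
    (hs : ∀ x < a', s x < k) {t : Mod V}
    (h1 : IsFun (ModE V) t (V.cl (chk a)) (V.cl (chk k)))
    (h2 : IsSub (ModE V) t (V.cl (fN a' s))) : a ≤ a' ∧ t = V.cl (fN a s) := by
  have hZ := mod_isZFC V
  have h3 : a ≤ a' := by
    by_contra hc
    obtain ⟨y, ⟨_, z, hz, hz'⟩, _⟩ := h1.2 (V.cl (chk a')) ((mod_chk_mem V).2 (not_le.1 hc))
    exact lt_irrefl _ ((app_fN V).1 ⟨z, h2 z hz, hz'⟩).1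
  refine ⟨h3, ?_⟩
  have h4 : IsFun (ModE V) (V.cl (fN a s)) (V.cl (chk a)) (V.cl (chk k)) :=
    fN_isFun V fun x hx => hs x (lt_of_lt_of_le hx h3)
  have h5 : IsFun (ModE V) (V.cl (fN a' s)) (V.cl (chk a')) (V.cl (chk k)) := fN_isFun V hs
  refine isFun_ext hZ h1 h4 fun x y => ?_
  constructor
  · intro hxy
    obtain ⟨z, hz, hz'⟩ := hxy
    have h6 : IsApp (ModE V) (V.cl (fN a' s)) x y := ⟨z, h2 z hz, hz'⟩
    obtain ⟨y', ⟨_, h7⟩, _⟩ := h4.2 x (isFun_mem hZ h1 ⟨z, hz, hz'⟩).1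
    obtain ⟨w, hw, hw'⟩ := h7
    rw [isFun_unique hZ h5 h6 ⟨w, fN_sub V h3 (fun _ _ => rfl) w hw, hw'⟩]
    exact ⟨w, hw, hw'⟩
  · intro hxy
    obtain ⟨w, hw, hw'⟩ := hxy
    have h6 : IsApp (ModE V) (V.cl (fN a' s)) x y :=
      ⟨w, fN_sub V h3 (fun _ _ => rfl) w hw, hw'⟩
    obtain ⟨y', ⟨_, z, hz, hz'⟩, _⟩ := h1.2 x (isFun_mem hZ h4 ⟨w, hw, hw'⟩).1
    rw [isFun_unique hZ h5 h6 ⟨z, h2 z hz, hz'⟩]
    exact ⟨z, hz, hz'⟩

/-- a function, decided below `a`, contains the old function with these values -/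
theorem fN_sub_of_values {a : Ordinal.{0}} {s : Ordinal.{0} → Ordinal.{0}} {τ : Name P} {q : P}
    (hs : ∀ x < a, MemF (opN (chk x) (chk (s x))) τ q) {V : GenUlt P} (hV : V.Has q) :
    IsSub (ModE V) (V.cl (fN a s)) (V.cl τ) := by
  intro z hz
  obtain ⟨ζ, rfl⟩ := exists_cl z
  rw [modE_cl, fN, relN, ev_memF_cn (fun _ _ _ h _ => h)] at hz
  rw [modE_cl]
  refine GenUlt.Ev.imp2 hV hz ?_
  rintro p hp ⟨i, _, hi⟩
  exact MemF.congr_left hi.symm ((hs i.1 i.2).mono hp)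

/-- a function all of whose values are decided -/
theorem eq_fN_of_values {a k : Ordinal.{0}} {s : Ordinal.{0} → Ordinal.{0}} {τ : Name P} {q : P}
    (h : ∀ V : GenUlt P, V.Has q → IsFun (ModE V) (V.cl τ) (V.cl (chk a)) (V.cl (chk k)))
    (hs : ∀ x < a, MemF (opN (chk x) (chk (s x))) τ q) : EqF τ (fN a s) q := by
  rw [eqF_iff_models]
  intro V hV
  have h1 := h V hV
  have h2 : ∀ x < a, s x < k := by
    intro x hx
    exact (mod_chk_mem V).1 (isFun_mem (mod_isZFC V) h1 (app_of (hs x hx) hV)).2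
  exact na_eq_of_sub V h1 (fN_isFun V h2) (fN_sub_of_values hs hV)

/-- the values of a function above an old function -/
theorem values_of_fN_sub {a : Ordinal.{0}} {s : Ordinal.{0} → Ordinal.{0}} {τ : Name P} {q : P}
    (h : ∀ V : GenUlt P, V.Has q → IsSub (ModE V) (V.cl (fN a s)) (V.cl τ)) {x : Ordinal.{0}}
    (hx : x < a) : MemF (opN (chk x) (chk (s x))) τ q := by
  rw [memF_iff_models]
  intro V hV
  have h1 : MemF (opN (chk x) (chk (s x))) (fN a s) q := memF_fN.2 ⟨hx, rfl⟩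
  exact h V hV _ (memF_iff_models.1 h1 V hV)

/-- two values of a function -/
theorem value_unique {x v v' : Ordinal.{0}} {τ : Name P} {a b : Name P} {q : P}
    (h : ∀ V : GenUlt P, V.Has q → IsFun (ModE V) (V.cl τ) (V.cl a) (V.cl b))
    (h1 : MemF (opN (chk x) (chk v)) τ q) (h2 : MemF (opN (chk x) (chk v')) τ q) : v = v' := by
  obtain ⟨V, hV⟩ := exists_genUlt q
  exact (mod_chk_eq V).1 (isFun_unique (mod_isZFC V) (h V hV) (app_of h1 hV) (app_of h2 hV))

/-- arguments and values of a function between ordinals -/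
theorem value_lt {a b x v : Ordinal.{0}} {τ : Name P} {q : P}
    (h : ∀ V : GenUlt P, V.Has q → IsFun (ModE V) (V.cl τ) (V.cl (chk a)) (V.cl (chk b)))
    (h1 : MemF (opN (chk x) (chk v)) τ q) : x < a ∧ v < b := by
  obtain ⟨V, hV⟩ := exists_genUlt q
  obtain ⟨h2, h3⟩ := isFun_mem (mod_isZFC V) (h V hV) (app_of h1 hV)
  exact ⟨(mod_chk_mem V).1 h2, (mod_chk_mem V).1 h3⟩

end Pool.Agent.Lib.MP_5c1789_lcR
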