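import Pool.Agent.Lib.MP_5c1789_lc.Tree
import Pool.Agent.Lib.MP_5c1789_lcR.Defs

/-!
# Names of old functions between ordinals (definitions)
-/

set_option linter.unusedSimpArgs false

open Set Cardinal

namespace Pool.Agent.Lib.MP_5c1789_lcR

open Pool.Agent.Lib.Forcing Pool.Agent.Lib.MP_40b13d_lc Pool.Agent.Lib.MP_5c1789_lc

variable {P : Type 1} [Preorder P]

/-- the name of the restriction of `s` to `a` -/
noncomputable def fN (a : Ordinal.{0}) (s : Ordinal.{0} → Ordinal.{0}) : Name P :=
  relN (ι := Iio a) (fun x => chk x.1) (fun x => chk (s x.1)) (fun _ _ => True)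

omit [Preorder P] in
theorem fN_congr {a : Ordinal.{0}} {s s' : Ordinal.{0} → Ordinal.{0}} (h : ∀ x < a, s x = s' x) :
    (fN a s : Name P) = fN a s' := by
  unfold fN
  congr 1
  funext x
  rw [h x.1 x.2]

end Pool.Agent.Lib.MP_5c1789_lcR
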