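import Pool.Agent.Lib.MP_5c1789_lcR.Play

/-!
# JOB PA: the elements of the relation `N`

* `app_NN`: `z = V.cl ζ`; `isApp_relN` (in `Pool/Agent/Lib/Forcing/OrdNames.lean`, used in `app_fnN` of
  `Pool/Agent/Lib/MP_5c1789_lc/Tree.lean`) with `PN_mono`: `IsApp .. ↔ V.Ev (fun q => ∃ i, PN i q ∧ EqF (chk ξ)
  (chk i.1) q ∧ EqF ζ (nz i.2) q)`; `chk_inj`.
* `NN_fun`: `u`, `z` names; from `IsApp` (`isApp_relN` in `U`) locally `z = nz w`, which is a function from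
  `chk w.1.1`, `w.1.1 < kp`, to `chk kp` (`fN_isFun`); as a statement in `U`: use `los` for the formula
  `fex (.fand (.fmem 0 2) (dFun 1 0 2))` with `cons z (fun _ => chk kp)`, `GenUlt.Ev.imp`, `forces_iff`
  (in every `V` with `V.Has q` the class of `z` is the class of `nz w`: `cl_congr`).
-/

set_option linter.unusedSimpArgs false

open Set Cardinal

namespace Pool.Agent.Lib.MP_5c1789_lcR

open Pool.Agent.Lib.Forcing Pool.Agent.Lib.MP_40b13d_lc Pool.Agent.Lib.MP_5c1789_lc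

variable {𝒯 : Name Cd} {B : Set Ordinal.{0}} {l : Ordinal.{0}} {st : Ordinal.{0} → Stt}

/-- elements of `N` -/
theorem app_NN (V : GenUlt Cd) {ξ : Ordinal.{0}} {ζ : Name Cd} :
    IsApp (ModE V) (V.cl (NN 𝒯 B l st)) (V.cl (chk ξ)) (V.cl ζ) ↔
      V.Ev (fun q => ∃ w : Zt, PN 𝒯 B l st (ξ, w) q ∧ EqF ζ (nz w) q) := by
  rw [NN, isApp_relN V _ _ (fun i p q h hq => PN_mono i p q h hq)]
  constructor
  · intro h
    refine GenUlt.Ev.imp h ?_
    rintro q ⟨⟨x, w⟩, h1, h2, h3⟩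
    have h4 : ξ = x := chk_inj h2
    subst h4
    exact ⟨w, h1, h3⟩
  · intro h
    refine GenUlt.Ev.imp h ?_
    rintro q ⟨w, h1, h2⟩
    exact ⟨(ξ, w), h1, EqF.refl _ _, h2⟩

/-- elements of `R` -/
theorem app_RN (V : GenUlt Cd) {ξ ξ' : Ordinal.{0}} :
    IsApp (ModE V) (V.cl (RN 𝒯 B l st)) (V.cl (chk ξ)) (V.cl (chk ξ')) ↔
      V.Ev (fun q => PR 𝒯 B l st (ξ, ξ') q) := by
  rw [RN, isApp_relN V _ _ (fun i p q h hq => PR_mono i p q h hq)]
  constructor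
  · intro h
    refine GenUlt.Ev.imp h ?_
    rintro q ⟨⟨x, x'⟩, h1, h2, h3⟩
    have h4 : ξ = x := chk_inj h2
    have h5 : ξ' = x' := chk_inj h3
    subst h4 h5
    exact h1
  · intro h
    exact GenUlt.Ev.imp h fun q hq => ⟨(ξ, ξ'), hq, EqF.refl _ _, EqF.refl _ _⟩

/-- the values of `N` are functions -/
theorem NN_fun (U : GenUlt Cd) (u z : Mod U)
    (hz : IsApp (ModE U) (U.cl (NN 𝒯 B l st)) u z) :
    ∃ a, ModE U a (U.cl (chk kp)) ∧ IsFun (ModE U) z a (U.cl (chk kp)) := by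
  obtain ⟨υ, rfl⟩ := exists_cl u
  obtain ⟨ζ, rfl⟩ := exists_cl z
  rw [NN, isApp_relN U _ _ (fun i p q h hq => PN_mono i p q h hq)] at hz
  have h : Sat (ModE U) (fex (.fand (.fmem 0 2) (dFun 1 0 2)))
      (fun i => U.cl (cons ζ (fun _ => chk kp) i)) := by
    rw [los]
    refine GenUlt.Ev.imp hz ?_
    rintro q ⟨i, -, -, h3⟩
    rw [forces_iff]
    intro V hV
    simp only [sat_ex, sat_and, sat_mem, sat_dFun, cons_zero, cons_one, cons_two]
    refine ⟨V.cl (chk i.2.1.1), (mod_chk_mem V).2 i.2.2.1, ?_⟩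
    rw [cl_congr hV h3]
    exact fN_isFun V i.2.2.2.1
  simpa only [sat_ex, sat_and, sat_mem, sat_dFun, cons_zero, cons_one, cons_two] using h

end Pool.Agent.Lib.MP_5c1789_lcR
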