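import Pool.Agent.Lib.MP_5c1789_lcR.Tree

/-!
# JOB TC: the path lemma

Let `(s, E)` be the witness for the level `β` (`t.lim`).  Let `G` be the set of the `γ < β` with
`γ ∈ c`, `γ ∈ E` and `Cw γ`.  For `γ ∈ G` there is `Y γ ∈ t.T β` with `s (Y γ) < γ` and
`Y γ ∩ Iio γ = X ∩ Iio γ` (`al` and `cov`).

(1) There is `ξ < β` such that for every `x < β` there is `γ ∈ G` with `x < γ` and `s (Y γ) ≤ ξ`.
Otherwise choose for every `ξ < β` a bound `h ξ < β` such that `ξ < s (Y γ)` for all `γ ∈ G` with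
`h ξ < γ`.  Define `g : ℕ → Iio β` by recursion: `g (n + 1) < β` is larger than `g n` and `h (g n)` and
such that
there are an element of `c` and an element of `E` in the open interval `(g n, g (n + 1))` (both are
unbounded in the limit `β`, `unb`).  The supremum `γ` of the `g n` is `< β` because `¬ Cw β` (if
`γ = β` then `g` would witness `Cw β`; formally: since `¬ Cw β`, there is `x < β` with
`g n ≤ x` for all `n`; let `γ` be the least ordinal `x` with `∀ n, g n < x`, it is `≤ x + 1 < β`).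
Then `Cw γ` (by `g`), `γ` is a limit point of `c` and of `E`, so `γ ∈ c`, `γ ∈ E`, `γ ∈ G`.  Now
`s (Y γ) < γ`, so `s (Y γ) < g n` for some `n`; but `h (g n) < g (n + 1) < γ` gives
`g n < s (Y γ)`, contradiction.

(2) Let `ξ` be as in (1), `γ₀ ∈ G` with `ξ < γ₀`, `s (Y γ₀) ≤ ξ`.  For every `γ ∈ G` with
`ξ < γ` and `s (Y γ) ≤ ξ` we have `Y γ ∩ Iio ξ = X ∩ Iio ξ = Y γ₀ ∩ Iio ξ`, so `Y γ = Y γ₀` by
`inj`.  Since
such `γ` are unbounded, `X ∩ Iio γ = Y γ₀ ∩ Iio γ` for unboundedly many `γ < β`, so `X = Y γ₀`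
(both are subsets of `Iio β`), which is in `t.T β`.
-/

open Set Cardinal

namespace Pool.Agent.Lib.MP_5c1789_lcR

namespace Tr

/-- the path lemma: a path which is alive at a club of levels is a node -/
theorem path (t : Tr) {β : Ordinal.{0}} (hβ : β ≤ t.α) (hl : Li β) (hc : ¬ Cw β)
    {X : Set Ordinal.{0}} (hX : X ⊆ Iio β)
    {c : Set Ordinal.{0}} (unb : ∀ x < β, ∃ y ∈ c, x < y ∧ y < β)
    (clo : ∀ γ < β, LP c γ → γ ∈ c) (al : ∀ γ ∈ c, γ < β → Cw γ → X ∩ Iio γ ∈ t.A γ) :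
    X ∈ t.T β := by
  obtain ⟨s, E, w⟩ := t.lim β hβ hl hc
  have hY : ∀ γ, (γ < β ∧ γ ∈ c ∧ γ ∈ E ∧ Cw γ) →
      ∃ Y ∈ t.T β, s Y < γ ∧ Y ∩ Iio γ = X ∩ Iio γ := by
    rintro γ ⟨h1, h2, h3, h4⟩
    exact w.cov γ h3 h4 (X ∩ Iio γ) (al γ h2 h1 h4)
  choose! Y hYT hYs hYX using hY
  have key : ∃ ξ < β, ∀ x < β, ∃ γ, (γ < β ∧ γ ∈ c ∧ γ ∈ E ∧ Cw γ) ∧ x < γ ∧ s (Y γ) ≤ ξ := by
    by_contra hcon
    push Not at hcon
    choose! h hhβ hh using hcon
    have step : ∀ x < β, ∃ y < β, x < y ∧ h x < y ∧ (∃ u ∈ c, x < u ∧ u < y) ∧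
        (∃ u ∈ E, x < u ∧ u < y) := by
      intro x hx
      obtain ⟨u, huc, hxu, huβ⟩ := unb x hx
      obtain ⟨v, hvE, hxv⟩ := w.unb x hx
      have hvβ : v < β := w.sub hvE
      refine ⟨Order.succ (max (h x) (max u v)), hl.2 _ (max_lt (hhβ x hx) (max_lt huβ hvβ)),
        ?_, ?_, ⟨u, huc, hxu, ?_⟩, ⟨v, hvE, hxv, ?_⟩⟩
      · exact Order.lt_succ_of_le (hxu.le.trans ((le_max_left _ _).trans (le_max_right _ _)))
      · exact Order.lt_succ_of_le (le_max_left _ _)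
      · exact Order.lt_succ_of_le ((le_max_left _ _).trans (le_max_right _ _))
      · exact Order.lt_succ_of_le ((le_max_right _ _).trans (le_max_right _ _))
    choose! nx hnβ hnx hnh hnc hnE using step
    have h0 : (0 : Ordinal.{0}) < β := pos_iff_ne_zero.2 hl.1
    obtain ⟨g, hg0, hg⟩ : ∃ g : ℕ → Ordinal.{0}, g 0 = 0 ∧ ∀ n, g (n + 1) = nx (g n) :=
      ⟨fun n => Nat.rec 0 (fun _ x => nx x) n, rfl, fun _ => rfl⟩
    have hgβ : ∀ n, g n < β := by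
      intro n
      induction n with
      | zero => rw [hg0]; exact h0
      | succ n ih => rw [hg]; exact hnβ _ ih
    have hgs : ∀ n, g n < g (n + 1) := fun n => by rw [hg]; exact hnx _ (hgβ n)
    obtain ⟨x, hx, hxg⟩ : ∃ x < β, ∀ n, g n ≤ x := by
      by_contra hcon
      push Not at hcon
      exact hc ⟨g, hgβ, hcon⟩
    have hne : ({y | ∀ n, g n < y} : Set Ordinal.{0}).Nonempty :=
      ⟨Order.succ x, fun n => Order.lt_succ_of_le (hxg n)⟩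
    obtain ⟨γ, hγ⟩ : ∃ γ, γ = sInf {y | ∀ n, g n < y} := ⟨_, rfl⟩
    have hγg : ∀ n, g n < γ := by rw [hγ]; exact csInf_mem hne
    have hγβ : γ < β := by
      refine lt_of_le_of_lt ?_ (hl.2 x hx)
      rw [hγ]
      exact csInf_le' (fun n => Order.lt_succ_of_le (hxg n))
    have hγl : ∀ y < γ, ∃ n, y < g n := by
      intro y hy
      by_contra hcon
      push Not at hcon
      have : γ ≤ y := by
        rw [hγ]
        exact csInf_le' (fun n => (hgs n).trans_le (hcon (n + 1)))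
      exact absurd hy this.not_gt
    have hγw : Cw γ := ⟨g, hγg, hγl⟩
    have hγ0 : γ ≠ 0 := fun h => not_lt_bot ((hγg 0).trans_le h.le)
    have hγc : γ ∈ c := by
      refine clo γ hγβ ⟨hγ0, fun y hy => ?_⟩
      obtain ⟨n, hn⟩ := hγl y hy
      obtain ⟨u, huc, h1, h2⟩ := hnc (g n) (hgβ n)
      rw [← hg] at h2
      exact ⟨u, huc, hn.trans h1, h2.trans (hγg _)⟩
    have hγE : γ ∈ E := by
      refine w.clo γ hγβ ⟨hγ0, fun y hy => ?_⟩
      obtain ⟨n, hn⟩ := hγl y hy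
      obtain ⟨u, huc, h1, h2⟩ := hnE (g n) (hgβ n)
      rw [← hg] at h2
      exact ⟨u, huc, hn.trans h1, h2.trans (hγg _)⟩
    have hG : γ < β ∧ γ ∈ c ∧ γ ∈ E ∧ Cw γ := ⟨hγβ, hγc, hγE, hγw⟩
    obtain ⟨n, hn⟩ := hγl _ (hYs γ hG)
    have h1 : h (g n) < γ := by
      have := hnh (g n) (hgβ n)
      rw [← hg] at this
      exact this.trans (hγg _)
    exact absurd hn (hh (g n) (hgβ n) γ hG h1).not_gt
  obtain ⟨ξ, hξ, h1⟩ := key
  obtain ⟨γ₀, hG0, hξ0, hs0⟩ := h1 ξ hξ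
  have hres : ∀ γ, (γ < β ∧ γ ∈ c ∧ γ ∈ E ∧ Cw γ) → ∀ z < γ, (z ∈ Y γ ↔ z ∈ X) := by
    intro γ hG z hz
    have := Set.ext_iff.1 (hYX γ hG) z
    constructor
    · intro h
      exact (this.1 ⟨h, hz⟩).1
    · intro h
      exact (this.2 ⟨h, hz⟩).1
  have heq : ∀ γ, (γ < β ∧ γ ∈ c ∧ γ ∈ E ∧ Cw γ) → ξ < γ → s (Y γ) ≤ ξ → Y γ = Y γ₀ := by
    intro γ hG hξγ hs
    refine w.inj _ (hYT γ hG) _ (hYT γ₀ hG0) ξ hs hs0 ?_
    ext z
    constructor
    · rintro ⟨h, hz⟩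
      exact ⟨(hres γ₀ hG0 z (lt_trans hz hξ0)).2 ((hres γ hG z (lt_trans hz hξγ)).1 h), hz⟩
    · rintro ⟨h, hz⟩
      exact ⟨(hres γ hG z (lt_trans hz hξγ)).2 ((hres γ₀ hG0 z (lt_trans hz hξ0)).1 h), hz⟩
  have hall : ∀ z < β, (z ∈ Y γ₀ ↔ z ∈ X) := by
    intro z hz
    obtain ⟨γ, hG, hxγ, hs⟩ := h1 (max z ξ) (max_lt hz hξ)
    rw [← heq γ hG ((le_max_right _ _).trans_lt hxγ) hs]
    exact hres γ hG z ((le_max_left _ _).trans_lt hxγ)
  have hfin : X = Y γ₀ := by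
    ext z
    constructor
    · intro h
      exact (hall z (hX h)).2 h
    · intro h
      exact (hall z (t.sub _ _ (hYT γ₀ hG0) h)).1 h
  rw [hfin]
  exact hYT γ₀ hG0

end Tr

end Pool.Agent.Lib.MP_5c1789_lcR
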