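import Pool.Agent.Lib.MP_5c1789_lcR.YA
import Pool.Agent.Lib.MP_5c1789_lcR.TC

/-!
# JOB YB: the union of a family of compatible states is in the tree

Let `t η = ⋃ i < α0, (u i).t η` and let `b` be the least ordinal with `(u i).δ ≤ b` for all `i < α0`; `b ≤ q.t.α`
(`Valid.δle`).
For `i, j < α0` with `(u i).δ ≤ (u j).δ`: `(u j).t η ∩ Iio (u i).δ = (u i).t η` (`Compat`: if `u j` extends
`u i` this is `TExt`; if `u i` extends `u j` then `(u i).δ = (u j).δ` and `(u i).t η ∩ Iio (u j).δ = (u j).t η`;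
nodes of the level `δ` are subsets of `Iio δ` (`Tr.sub`, `Valid.node`), so `(u i).t η = (u j).t η`), and the same
for
`(u j).c ∩ Iic (u i).δ = (u i).c`.
So `t η ∩ Iio (u i).δ = (u i).t η` for `η ∈ I`, `i < α0` (the last claim): for `j` with `(u j).δ ≤ (u i).δ`,
`(u j).t η ⊆ (u i).t η`.
`t η ∈ q.t.T b`: if `b = (u i).δ` for some `i < α0`, then `t η = t η ∩ Iio b = (u i).t η`, a node of the level `b`.
Otherwise `(u i).δ < b` for all `i < α0` and `b` is a limit (`Li b`): `b ≠ 0` as `0 < α0`; for `x < b` there is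
`i` with `x < (u i).δ < b`, so `succ x < b`.  `t η ⊆ Iio b`.  For `γ < b` there is `i` with
`γ < (u i).δ`, so
`t η ∩ Iio γ = (u i).t η ∩ Iio γ ∈ q.t.T γ` (`Tr.down`).  If `Cw b`: `q.t.full`.  If `¬ Cw b`: the path
lemma `Tr.path` (`TC.lean`) with `c = ⋃ i < α0, (u i).c`: unbounded because `(u i).δ ∈ (u i).c` (`top`); closed:
let
`γ < b` be a limit point of `c`, `γ < (u i).δ`; the elements of `c` below `γ` are in `(u i).c`
(if `y ∈ (u j).c`, `y < γ`: if `(u j).δ ≤ (u i).δ` then `(u j).c ⊆ (u i).c`; otherwise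
`y ∈ (u j).c ∩ Iic (u i).δ = (u i).c`), so `γ ∈ (u i).c` (`clo`); alive: for `γ ∈ (u i).c`, `Cw γ`:
`t η ∩ Iio γ = (u i).t η ∩ Iio γ` (`γ ≤ (u i).δ`) `∈ q.t.A γ`.
-/

set_option linter.unusedSimpArgs false

open Set Cardinal

namespace Pool.Agent.Lib.MP_5c1789_lcR

open Pool.Agent.Lib.Forcing Pool.Agent.Lib.MP_40b13d_lc Pool.Agent.Lib.MP_5c1789_lc

/-- the union of a family of compatible states is in the tree -/
theorem exists_union {𝒯 : Name Cd} {B : Set Ordinal.{0}} {q : Cd} {α0 : Ordinal.{0}}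
    (h0 : 0 < α0) (σ : Code) (u : Ordinal.{0} → Stt) (hσ : ∀ i < α0, (u i).σ = σ)
    (hV : ∀ i < α0, Valid 𝒯 B (u i) q) (hC : ∀ i < α0, ∀ j < α0, Compat (u i) (u j)) :
    ∃ b ≤ q.t.α, ∃ t : Tup, (∀ i < α0, (u i).δ ≤ b) ∧ (∀ η ∈ σ.I, t η ∈ q.t.T b) ∧
      ∀ i < α0, TExt σ.I (u i).δ t (u i).t := by
  have hu : ∀ i < α0, ∀ η ∈ σ.I, (u i).t η ∈ q.t.T (u i).δ := fun i hi η hη =>
    (hV i hi).node η (by rw [hσ i hi]; exact hη)
  have hs : ∀ i < α0, ∀ η ∈ σ.I, (u i).t η ⊆ Iio (u i).δ := fun i hi η hη =>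
    q.t.sub _ _ (hu i hi η hη)
  have K1 : ∀ i < α0, ∀ j < α0, (u i).δ ≤ (u j).δ → ∀ η ∈ σ.I,
      (u j).t η ∩ Iio (u i).δ = (u i).t η := by
    intro i hi j hj hij η hη
    rcases (hC i hi j hj).2 with h | h
    · have e : (u i).δ = (u j).δ := le_antisymm hij h.1
      have h1 := h.2.1 η (by rw [hσ j hj]; exact hη)
      rw [← e, inter_eq_left.2 (hs i hi η hη)] at h1
      rw [← h1, inter_eq_left.2 (hs i hi η hη)]
    · exact h.2.1 η (by rw [hσ i hi]; exact hη)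
  have K2 : ∀ i < α0, ∀ j < α0, (u i).δ ≤ (u j).δ → (u j).c ∩ Iic (u i).δ = (u i).c := by
    intro i hi j hj hij
    rcases (hC i hi j hj).2 with h | h
    · have e : (u i).δ = (u j).δ := le_antisymm hij h.1
      have h1 := h.2.2
      rw [← e, inter_eq_left.2 (hV i hi).cle] at h1
      rw [← h1, inter_eq_left.2 (hV i hi).cle]
    · exact h.2.2
  obtain ⟨t, ht⟩ : ∃ t : Tup, ∀ η x, x ∈ t η ↔ ∃ i < α0, x ∈ (u i).t η :=
    ⟨fun η => {x | ∃ i < α0, x ∈ (u i).t η}, fun _ _ => Iff.rfl⟩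
  have K3 : ∀ i < α0, ∀ η ∈ σ.I, t η ∩ Iio (u i).δ = (u i).t η := by
    intro i hi η hη
    ext x
    constructor
    · rintro ⟨hx, hx'⟩
      obtain ⟨j, hj, hxj⟩ := (ht η x).1 hx
      rcases le_total (u i).δ (u j).δ with h | h
      · rw [← K1 i hi j hj h η hη]
        exact ⟨hxj, hx'⟩
      · rw [← K1 j hj i hi h η hη] at hxj
        exact hxj.1
    · exact fun hx => ⟨(ht η x).2 ⟨i, hi, hx⟩, hs i hi η hη hx⟩
  obtain ⟨b, hb1, hb2⟩ : ∃ b, (∀ i < α0, (u i).δ ≤ b) ∧ ∀ b', (∀ i < α0, (u i).δ ≤ b') → b ≤ b' :=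
    ⟨sInf {b | ∀ i < α0, (u i).δ ≤ b},
      csInf_mem (s := {b | ∀ i < α0, (u i).δ ≤ b}) ⟨q.t.α, fun i hi => (hV i hi).δle⟩,
      fun b' hb' => csInf_le' hb'⟩
  have hbq : b ≤ q.t.α := hb2 _ fun i hi => (hV i hi).δle
  have hb3 : ∀ x < b, ∃ i < α0, x < (u i).δ := by
    intro x hx
    by_contra hcon
    push Not at hcon
    exact absurd (hb2 x hcon) (not_le.2 hx)
  refine ⟨b, hbq, t, hb1, fun η hη => ?_, fun i hi η hη => K3 i hi η hη⟩
  have hsub : t η ⊆ Iio b := by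
    intro x hx
    obtain ⟨i, hi, hxi⟩ := (ht η x).1 hx
    exact lt_of_lt_of_le (hs i hi η hη hxi) (hb1 i hi)
  by_cases hex : ∃ i < α0, (u i).δ = b
  · obtain ⟨i, hi, hib⟩ := hex
    have h1 := K3 i hi η hη
    rw [hib, inter_eq_left.2 hsub] at h1
    rw [h1, ← hib]
    exact hu i hi η hη
  · have hlt : ∀ i < α0, (u i).δ < b := fun i hi =>
      lt_of_le_of_ne (hb1 i hi) fun h => hex ⟨i, hi, h⟩
    have hli : Li b := by
      refine ⟨fun h => ?_, fun x hx => ?_⟩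
      · have := hlt 0 h0
        rw [h] at this
        exact not_lt_zero this
      · obtain ⟨i, hi, hxi⟩ := hb3 x hx
        exact lt_of_le_of_lt (Order.succ_le_of_lt hxi) (hlt i hi)
    have hcut : ∀ i < α0, ∀ γ ≤ (u i).δ, t η ∩ Iio γ = (u i).t η ∩ Iio γ := by
      intro i hi γ hγ
      rw [← K3 i hi η hη, inter_assoc, Iio_inter_Iio, inf_eq_right.2 hγ]
    have hdown : ∀ γ < b, t η ∩ Iio γ ∈ q.t.T γ := by
      intro γ hγ
      obtain ⟨i, hi, hγi⟩ := hb3 γ hγ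
      rw [hcut i hi γ hγi.le]
      exact q.t.down _ _ _ (hu i hi η hη) hγi.le
    by_cases hcw : Cw b
    · exact q.t.full b hbq hcw _ hsub hdown
    · refine q.t.path hbq hli hcw hsub (c := {x | ∃ i < α0, x ∈ (u i).c}) ?_ ?_ ?_
      · intro x hx
        obtain ⟨i, hi, hxi⟩ := hb3 x hx
        exact ⟨(u i).δ, ⟨i, hi, (hV i hi).top⟩, hxi, hlt i hi⟩
      · intro γ hγ hLP
        obtain ⟨i, hi, hγi⟩ := hb3 γ hγ
        refine ⟨i, hi, (hV i hi).clo γ hγi.le ⟨hLP.1, fun x hx => ?_⟩⟩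
        obtain ⟨y, ⟨j, hj, hyj⟩, hxy, hyγ⟩ := hLP.2 x hx
        refine ⟨y, ?_, hxy, hyγ⟩
        rcases le_total (u j).δ (u i).δ with h | h
        · rw [← K2 j hj i hi h] at hyj
          exact hyj.1
        · rw [← K2 i hi j hj h]
          exact ⟨hyj, (hyγ.trans hγi).le⟩
      · rintro γ ⟨i, hi, hγc⟩ hγb hγw
        have hγδ : γ ≤ (u i).δ := (hV i hi).cle hγc
        rw [hcut i hi γ hγδ]
        exact (hV i hi).al γ hγc hγw η (by rw [hσ i hi]; exact hη)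

end Pool.Agent.Lib.MP_5c1789_lcR
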