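import Pool.Agent.Lib.MP_5c1789_lcR.Play
import Pool.Agent.Lib.MP_5c1789_lcR.YB

/-!
# JOB PB: an old good play is below a branch

For `i < α0` let `x i` be the value `(s i, x i) ∈ q.c l` (from `hR i i`; unique by `cfun`, `Cd.mem_c`) and
`u i = st (x i)`; by `hR`: `Valid 𝒯 B (u i) q`, `Compat (u i) (u j)` (the values in `PR` are the `x i`, by
`cfun`).  `σ = (u 0).σ` (`0 < α0`); all `(u i).σ = σ` (`Compat`).  `Good 𝒯 B σ` by `Valid.good`.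
`exists_union` gives `b ≤ q.t.α` and `t`.  For `η ∈ I` choose `Y η` in the level `q.t.α` with
`Y η ∩ Iio b = t η` (`q.t.up`).
New labels: `B ∪ q.D ∪ {l}` is small (`h.small`, `Sm.small`), so it is bounded (`Ordinal.bddAbove_of_small` or
similar) by some
`L`; `ζ η = L + 1 + η`, injective.  The set `J = ζ '' I` is `Sm` (`I ⊆ Iio w1`, `sm_Iio w1_lt_kp`,
`Sm.image`); `Cd.exists_add q J` with the nodes `Y` (as a function of the label: choose `η` with `ζ η = ξ`) gives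
`r ≤ q` with
`r.t = q.t`, `r.b (ζ η) = Y η`.
`Thru`: `le`: `r ≤ q ≤ σ.a0` (`Valid.le`).  `ini`: by `hN 0` there are `z`, `a` with `q ≤ a`,
`a.t.α = (u 0).δ`, `(a, (u 0).t, z) ∈ Θ`, so by `Good.mem`: `a ≤ σ.a0` (so `σ.a0.t.α ≤ a.t.α = (u 0).δ ≤ b`),
`(u 0).t η ∩ Iio σ.a0.t.α = σ.s η`.  So
`Y η ∩ Iio σ.a0.t.α = t η ∩ Iio σ.a0.t.α = (u 0).t η ∩ Iio σ.a0.t.α = σ.s η`
(`TExt σ.I (u 0).δ t (u 0).t`).
`Cap .. (s i) r`: `(s i, x i) ∈ r.c l` (`Cd.c_mono`), `(u i).δ ≤ q.t.α`, and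
`Y η ∩ Iio (u i).δ = t η ∩ Iio (u i).δ = (u i).t η` (`(u i).δ ≤ b`).
-/

set_option linter.unusedSimpArgs false

open Set Cardinal

namespace Pool.Agent.Lib.MP_5c1789_lcR

open Pool.Agent.Lib.Forcing Pool.Agent.Lib.MP_40b13d_lc Pool.Agent.Lib.MP_5c1789_lc

variable {𝒯 β : Name Cd} {p0 : Cd} {B : Set Ordinal.{0}} {l : Ordinal.{0}}
  {st : Ordinal.{0} → Stt}

/-- the combinatorial core: an old good play is below a branch -/
theorem play_core (h : Ctx 𝒯 β p0 B) {α0 : Ordinal.{0}} (h0 : 0 < α0)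
    {s : Ordinal.{0} → Ordinal.{0}} {q : Cd}
    (hR : ∀ i < α0, ∀ j < α0, PR 𝒯 B l st (s i, s j) q)
    (hN : ∀ i < α0, ∃ z : Zt, PN 𝒯 B l st (s i, z) q) :
    ∃ r, r ≤ q ∧ ∃ σ ζ, Good 𝒯 B σ ∧ Thru B σ ζ r ∧ ∀ i < α0, Cap l st σ ζ (s i) r := by
  have hx0 : ∀ i, i < α0 → ∃ x, (s i, x) ∈ q.c l := by
    intro i hi
    obtain ⟨x, _, hx, _⟩ := hR i hi i hi
    exact ⟨x, hx⟩
  choose! x hx using hx0
  have hl : l ∈ q.D := Cd.mem_c (hx 0 h0)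
  have hV : ∀ i < α0, Valid 𝒯 B (st (x i)) q := by
    intro i hi
    obtain ⟨y, _, h1, _, h2, _⟩ := hR i hi i hi
    rwa [q.cfun l hl _ _ _ h1 (hx i hi)] at h2
  have hC : ∀ i < α0, ∀ j < α0, Compat (st (x i)) (st (x j)) := by
    intro i hi j hj
    obtain ⟨y, y', h1, h1', _, _, h2⟩ := hR i hi j hj
    rwa [q.cfun l hl _ _ _ h1 (hx i hi), q.cfun l hl _ _ _ h1' (hx j hj)] at h2
  obtain ⟨σ, hσ0⟩ : ∃ σ : Code, σ = (st (x 0)).σ := ⟨_, rfl⟩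
  have hσ : ∀ i < α0, (st (x i)).σ = σ := by
    intro i hi
    rw [hσ0]
    exact (hC i hi 0 h0).1
  have hG : Good 𝒯 B σ := by
    rw [hσ0]
    exact (hV 0 h0).good
  obtain ⟨b, hb, t, hδb, ht, hte⟩ := exists_union h0 σ (fun i => st (x i)) hσ hV hC
  have hY0 : ∀ η, η ∈ σ.I → ∃ Y, Y ∈ q.t.T q.t.α ∧ Y ∩ Iio b = t η := fun η hη =>
    q.t.up b q.t.α (t η) (ht η hη) hb le_rfl
  choose! Y hYT hYb using hY0
  -- restrictions of the nodes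
  have hYδ : ∀ i < α0, ∀ η ∈ σ.I, Y η ∩ Iio (st (x i)).δ = (st (x i)).t η := by
    intro i hi η hη
    rw [← hte i hi η hη, ← hYb η hη, inter_assoc, Iio_inter_Iio, inf_eq_right.2 (hδb i hi)]
  -- new labels
  obtain ⟨L1, hL1⟩ := Ordinal.bddAbove_iff_small.2 h.small
  obtain ⟨L2, hL2⟩ := Ordinal.bddAbove_iff_small.2 (Sm.small q.sm)
  obtain ⟨L, hL⟩ : ∃ L : Ordinal.{0}, L = max L1 L2 + 1 := ⟨_, rfl⟩
  have hnB : ∀ η, L + η ∉ B := by
    intro η hη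
    have h1 : L + η ≤ L1 := hL1 hη
    have h2 : L1 < L := by
      rw [hL]
      exact lt_of_le_of_lt (le_max_left _ _) (Order.lt_add_one_iff.2 le_rfl)
    exact absurd (le_self_add.trans h1) (not_le.2 h2)
  have hnD : ∀ η, L + η ∉ q.D := by
    intro η hη
    have h1 : L + η ≤ L2 := hL2 hη
    have h2 : L2 < L := by
      rw [hL]
      exact lt_of_le_of_lt (le_max_right _ _) (Order.lt_add_one_iff.2 le_rfl)
    exact absurd (le_self_add.trans h1) (not_le.2 h2)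
  have hIs : Sm σ.I := (sm_Iio w1_lt_kp).mono hG.Iw
  obtain ⟨r, hrq, hrt, hrD, hrb, -⟩ := Cd.exists_add q ((fun η => L + η) '' σ.I) (hIs.image _)
    (by
      rintro ζ ⟨η, _, rfl⟩
      exact hnD η) (fun ξ => Y (ξ - L)) (by
      rintro ζ ⟨η, hη, rfl⟩
      show Y (L + η - L) ∈ _
      rw [Ordinal.add_sub_cancel]
      exact hYT η hη)
  have hrY : ∀ η ∈ σ.I, r.b (L + η) = Y η := by
    intro η hη
    rw [hrb (L + η) ⟨η, hη, rfl⟩, Ordinal.add_sub_cancel]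
  refine ⟨r, hrq, σ, fun η => L + η, hG, ⟨?_, ?_, ?_, ?_, ?_⟩, ?_⟩
  · have h1 := (hV 0 h0).le
    rw [← hσ0] at h1
    exact hrq.trans h1
  · intro η hη
    rw [hrD]
    exact Or.inr ⟨η, hη, rfl⟩
  · intro η _
    exact hnB η
  · intro η _ η' _ he
    exact add_left_cancel he
  · intro η hη
    obtain ⟨z, y, h1, _, a, _, ha, haΘ⟩ := hN 0 h0
    rw [q.cfun l hl _ _ _ h1 (hx 0 h0)] at ha haΘ
    rw [← hσ0] at haΘ
    obtain ⟨_, hale, _, hext, _⟩ := hG.mem _ _ _ haΘ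
    have h2 : σ.a0.t.α ≤ (st (x 0)).δ := by
      rw [← ha]
      exact hale.1.1
    show r.b (L + η) ∩ Iio σ.a0.t.α = σ.s η
    rw [hrY η hη, ← hext η hη, ← hYδ 0 h0 η hη, inter_assoc, Iio_inter_Iio, inf_eq_right.2 h2]
  · intro i hi
    refine ⟨x i, Cd.c_mono (hx i hi) hrq, hσ i hi, ?_, ?_⟩
    · rw [hrt]
      exact (hV i hi).δle
    · intro η hη
      show r.b (L + η) ∩ Iio (st (x i)).δ = (st (x i)).t η
      rw [hrY η hη]
      exact hYδ i hi η hη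

end Pool.Agent.Lib.MP_5c1789_lcR
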