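import Pool.Agent.Lib.MP_5c1789_lcR.YC
import Pool.Agent.Lib.MP_5c1789_lcR.Game

/-!
# Plays (definitions)
-/

set_option linter.unusedSimpArgs false

open Set Cardinal

namespace Pool.Agent.Lib.MP_5c1789_lcR

open Pool.Agent.Lib.Forcing Pool.Agent.Lib.MP_40b13d_lc Pool.Agent.Lib.MP_5c1789_lc

/-- the code `ξ` has at `r` a state which is below the tuple of the nodes with the labels `ζ` -/
def Cap (l : Ordinal.{0}) (st : Ordinal.{0} → Stt) (σ : Code) (ζ : Ordinal.{0} → Ordinal.{0})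
    (ξ : Ordinal.{0}) (r : Cd) : Prop :=
  ∃ x, (ξ, x) ∈ r.c l ∧ (st x).σ = σ ∧ (st x).δ ≤ r.t.α ∧
    TExt σ.I (st x).δ (fun η => r.b (ζ η)) (st x).t

end Pool.Agent.Lib.MP_5c1789_lcR
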