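import Pool.Agent.Lib.MP_5c1789_lcR.Capt

/-!
# JOB QA: indexing, amalgamation with a prescribed tuple

* `exists_idx`: `S = {ζ ∈ r.D | ζ ∉ B}` is `Sm`.  If it is empty, `I = ∅`.  Otherwise `Sm.enum` gives `e` with
  `e i ∈ S` for `i < w1`, onto `S`; `I = {η | η < w1 ∧ ∀ η' < η, e η' ≠ e η}` (the least indices), `jn = e`.
  (`sur`: the least `η` with `e η = ζ`, `η < w1`.)
* `exists_am_tup`: `v0` from `Cd.exists_values r a B`; `v ξ = t η` if `ξ = jn η` for some (unique, `hinj`)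
  `η ∈ I`, `v ξ = v0 ξ` otherwise; `Cd.exists_am r a B v`; `jn η ∉ B`.
* `tup_isTup`: `q.b (jn η) ∩ Iio q.t.α = q.b (jn η)` is a node of the top level (`Cd.node`, `Tr.sub`); the
  tree of `q.res B` is the tree of `q`.
-/

set_option linter.unusedSimpArgs false

open Set Cardinal

namespace Pool.Agent.Lib.MP_5c1789_lcR

open Pool.Agent.Lib.Forcing Pool.Agent.Lib.MP_40b13d_lc Pool.Agent.Lib.MP_5c1789_lc

variable {B : Set Ordinal.{0}}

theorem exists_idx (B : Set Ordinal.{0}) (r : Cd) : ∃ I jn, Idx B r I jn := by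
  by_cases hne : (r.D \ B).Nonempty
  · have hS : Sm (r.D \ B) := r.sm.mono Set.sdiff_subset
    obtain ⟨e, he1, he2⟩ := hS.enum hne
    refine ⟨{η | η < Pool.Agent.Lib.MP_5c1789_lcR.w1 ∧ ∀ η' < η, e η' ≠ e η}, e,
      ⟨fun η hη => hη.1, fun η hη => (he1 η hη.1).1, fun η hη => (he1 η hη.1).2, ?_, ?_⟩⟩
    · intro η hη η' hη' heq
      rcases lt_trichotomy η η' with hlt | rfl | hlt
      · exact absurd heq (hη'.2 η hlt)
      · rfl
      · exact absurd heq.symm (hη.2 η' hlt)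
    · intro ζ hζ hζB
      obtain ⟨i, hi, hiζ⟩ := he2 ζ ⟨hζ, hζB⟩
      have hmem : e (sInf {x | e x = ζ}) = ζ := csInf_mem (s := {x | e x = ζ}) ⟨i, hiζ⟩
      have hle : sInf {x | e x = ζ} ≤ i := csInf_le' hiζ
      refine ⟨sInf {x | e x = ζ}, ⟨hle.trans_lt hi, fun η' hη' h => ?_⟩, hmem⟩
      exact notMem_of_lt_csInf' hη' (h.trans hmem)
  · refine ⟨∅, fun _ => 0, ⟨empty_subset _, fun η hη => absurd hη (notMem_empty η),
      fun η hη => absurd hη (notMem_empty η), injOn_empty _, ?_⟩⟩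
    intro ζ hζ hζB
    exact absurd ⟨ζ, hζ, hζB⟩ hne

private theorem qa_tup_eq {q r : Cd} {I : Set Ordinal.{0}} {jn : Ordinal.{0} → Ordinal.{0}}
    (hI : Idx B r I jn) (hq : q ≤ r) {η : Ordinal.{0}} (hη : η ∈ I) :
    tup I jn q q.t.α η = q.b (jn η) := by
  unfold tup
  rw [if_pos hη]
  exact inter_eq_left.2 (q.t.sub _ _ (q.node (jn η) (hq.2.1 (hI.mem η hη))))

theorem tup_isTup {q r : Cd} {I : Set Ordinal.{0}} {jn : Ordinal.{0} → Ordinal.{0}}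
    (hI : Idx B r I jn) (hq : q ≤ r) : IsTup I (tup I jn q q.t.α) (q.res B) := by
  refine ⟨fun η hη => ?_, fun η hη => ?_⟩
  · rw [qa_tup_eq hI hq hη]
    exact q.node (jn η) (hq.2.1 (hI.mem η hη))
  · unfold tup
    rw [if_neg hη]

theorem tup_eq {q r : Cd} {I : Set Ordinal.{0}} {jn : Ordinal.{0} → Ordinal.{0}}
    (hI : Idx B r I jn) (hq : q ≤ r) {η : Ordinal.{0}} (hη : η ∈ I) :
    tup I jn q q.t.α η = q.b (jn η) := qa_tup_eq hI hq hη

/-- amalgamation with a prescribed tuple -/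
theorem exists_am_tup {r : Cd} {I : Set Ordinal.{0}} {jn : Ordinal.{0} → Ordinal.{0}}
    (hI : ∀ η ∈ I, jn η ∈ r.D ∧ jn η ∉ B) (hinj : InjOn jn I) {a : Cd} (haB : a.D ⊆ B)
    (ha : a ≤ r.res B) {t : Tup} (ht : IsTup I t a)
    (hts : ∀ η ∈ I, t η ∩ Iio r.t.α = r.b (jn η)) :
    ∃ q, q ≤ r ∧ q ≤ a ∧ q.res B = a ∧ q.t = a.t ∧ ∀ η ∈ I, q.b (jn η) = t η := by
  classical
  obtain ⟨v0, hv0⟩ := Cd.exists_values r a B ha
  obtain ⟨v, hv1, hv2⟩ : ∃ v : Ordinal.{0} → Set Ordinal.{0}, (∀ η ∈ I, v (jn η) = t η) ∧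
      ∀ ζ, (¬ ∃ η ∈ I, jn η = ζ) → v ζ = v0 ζ := by
    refine ⟨fun ζ => if h : ∃ η ∈ I, jn η = ζ then t h.choose else v0 ζ, fun η hη => ?_,
      fun ζ hζ => dif_neg hζ⟩
    have hex : ∃ η' ∈ I, jn η' = jn η := ⟨η, hη, rfl⟩
    have e1 : (if h : ∃ η' ∈ I, jn η' = jn η then t h.choose else v0 (jn η)) = t hex.choose :=
      dif_pos hex
    have e2 : hex.choose = η := hinj hex.choose_spec.1 hη hex.choose_spec.2
    exact e1.trans (congrArg t e2)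
  obtain ⟨q, h1, h2, h3, h4, -, -, h5⟩ := Cd.exists_am r a B v ha haB (fun ζ hζ hζB => by
    by_cases hex : ∃ η ∈ I, jn η = ζ
    · obtain ⟨η, hη, rfl⟩ := hex
      rw [hv1 η hη]
      exact ⟨ht.1 η hη, hts η hη⟩
    · rw [hv2 ζ hex]
      exact hv0 ζ hζ)
  refine ⟨q, h1, h2, h3, h4, fun η hη => ?_⟩
  rw [(h5 (jn η) (hI η hη).1 (hI η hη).2).1]
  exact hv1 η hη

end Pool.Agent.Lib.MP_5c1789_lcR
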