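import Pool.Agent.Lib.MP_5c1789_lcR.QA

/-!
# JOB QB: progress for the system of a determined branch

`q0` from `exists_am_tup` for `r`, `a`, `t` (`hts` and `tup_eq` for `r`): `q0 ≤ r`, `q0 ≤ a`,
`q0.b (jn η) = t η`.  `decide_below` (`DA.lean`) with `γ + 1 < kp` (`kp_li`) and `h.isFun`: `q1 ≤ q0`, `s` with
`MemF (opN (chk x) (chk (s x))) y q1` for `x < γ + 1`.  Let `z = (γ + 1, s) : Zt`, `a' = q1.res B`,
`t' = tup I jn q1 q1.t.α`.
* `a' ≤ a` (`Cd.res_le`), `TExt I a.t.α t' t` (`tup_eq`, `Cd.b_inter`: `q1.b (jn η) ∩ Iio a.t.α = q0.b (jn η)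
  ∩ Iio a.t.α = t η`; `q0.t = a.t`).
* `(a', t', z) ∈ Θ`: `a'.D ⊆ B`, `a' ≤ r.res B` (`Cd.res_mono`), `IsTup` (`tup_isTup`), `TExt I r.t.α t' s`
  (`tup_eq`,
  `Cd.b_inter`).  Let `q ≤ r`, `q ≤ a'`, `q.b (jn η) ∩ Iio a'.t.α = t' η` for `η ∈ I`, and `i < γ + 1`.  Show
  `MemF (opN (chk i) (chk (s i))) y q` by `MemF.dense`: for `q' ≤ q` there is `q'' ≤ q'` and `v` with
  `MemF (opN (chk i) (chk v)) y q''` (`decide_below` again, for `γ + 1`).  Claim `v = s i` (then `q''` works).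
  `exists_am_tup` for `q1` and `q''.res B` and the tuple `tup I jn q'' q''.t.α` (hypotheses: `jn η ∈ q1.D`,
  `(q''.res B).D ⊆ B`, `q''.res B ≤ q1.res B = a'` (`Cd.res_le`, `q'' ≤ a'`), `tup_isTup`, and
  `q''.b (jn η) ∩ Iio q1.t.α = q.b (jn η) ∩ Iio a'.t.α = t' η = q1.b (jn η)`) gives `q3 ≤ q1` with
  `q3.res B = q''.res B`, `q3.b (jn η) = q''.b (jn η)`.  By `hD q3 q''` (`hI.sur`: every `ζ ∈ r.D`, `ζ ∉ B` is
  some `jn η`) with
  `MemF (opN (chk i) (chk (s i))) y q3` (`q3 ≤ q1`): `s i = v`.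
-/

set_option linter.unusedSimpArgs false

open Set Cardinal

namespace Pool.Agent.Lib.MP_5c1789_lcR

open Pool.Agent.Lib.Forcing Pool.Agent.Lib.MP_40b13d_lc Pool.Agent.Lib.MP_5c1789_lc

variable {𝒯 β : Name Cd} {p0 : Cd} {B : Set Ordinal.{0}}

theorem codeOf_prog (hCH : CHy) (h : Ctx 𝒯 β p0 B) {y : Name Cd} {r : Cd} (hr : r ≤ p0)
    (hy : MemF y β r) (hD : Det B y r) {I : Set Ordinal.{0}} {jn : Ordinal.{0} → Ordinal.{0}}
    (hI : Idx B r I jn) (a : Cd) (t : Tup) (haB : a.D ⊆ B) (ha : a ≤ r.res B) (ht : IsTup I t a)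
    (hts : TExt I r.t.α t (tup I jn r r.t.α)) {γ : Ordinal.{0}} (hγ : γ < kp) :
    ∃ a' t' z, a' ≤ a ∧ (a', t', z) ∈ (codeOf B y r I jn).Θ ∧ TExt I a.t.α t' t ∧
      γ < z.1.1 := by
  have hk : Order.succ γ < kp := kp_li.2 γ hγ
  obtain ⟨q0, h0r, h0a, -, h0t, h0b⟩ := exists_am_tup (B := B) (r := r) (I := I) (jn := jn)
    (fun η hη => ⟨hI.mem η hη, hI.new η hη⟩) hI.inj haB ha ht
    (fun η hη => (hts η hη).trans (tup_eq hI le_rfl hη))
  obtain ⟨q1, h10, s, hs1, hs2, hs3⟩ := decide_below hCH hk (τ := y) (p := q0)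
    (fun V hV => h.isFun (h0r.trans hr) (hy.mono h0r) V hV)
  have h1r : q1 ≤ r := h10.trans h0r
  have h1a : q1 ≤ a := h10.trans h0a
  have hresD : ∀ q : Cd, (q.res B).D ⊆ B := fun q => by
    rw [Cd.res_D]
    exact inter_subset_right
  have e1 : ∀ η ∈ I, tup I jn q1 q1.t.α η = q1.b (jn η) := fun η hη => tup_eq hI h1r hη
  refine ⟨q1.res B, tup I jn q1 q1.t.α, ⟨(Order.succ γ, s), hk, hs1, hs2⟩, Cd.res_le h1a haB,
    ?_, ?_, Order.lt_succ γ⟩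
  · change (q1.res B).D ⊆ B ∧ q1.res B ≤ r.res B ∧ IsTup I (tup I jn q1 q1.t.α) (q1.res B) ∧
      TExt I r.t.α (tup I jn q1 q1.t.α) (tup I jn r r.t.α) ∧
      ∀ q, q ≤ r → q ≤ q1.res B →
        (∀ η ∈ I, q.b (jn η) ∩ Iio (q1.res B).t.α = tup I jn q1 q1.t.α η) →
        ∀ i < Order.succ γ, MemF (opN (chk i) (chk (s i))) y q
    refine ⟨hresD q1, Cd.res_mono h1r B, tup_isTup hI h1r, ?_, ?_⟩
    · intro η hη
      rw [e1 η hη, tup_eq hI le_rfl hη]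
      exact (h1r.2.2 (jn η) (hI.mem η hη)).1
    · intro q hqr hqa hqb i hi
      refine MemF.dense fun q' hq' => ?_
      obtain ⟨q2, h2', s', -, -, hs'⟩ := decide_below hCH hk (τ := y) (p := q')
        (fun V hV => h.isFun ((hq'.trans hqr).trans hr) (hy.mono (hq'.trans hqr)) V hV)
      have h2q : q2 ≤ q := h2'.trans hq'
      have h2r : q2 ≤ r := h2q.trans hqr
      have hα : q1.t.α ≤ q.t.α := hqa.1.1
      obtain ⟨q3, h31, -, h3res, -, h3b⟩ := exists_am_tup (B := B) (r := q1) (I := I) (jn := jn)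
        (a := q2.res B) (t := tup I jn q2 q2.t.α)
        (fun η hη => ⟨h1r.2.1 (hI.mem η hη), hI.new η hη⟩) hI.inj (hresD q2)
        (Cd.res_le (h2q.trans hqa) (hresD q1)) (tup_isTup hI h2r)
        (fun η hη => by
          rw [tup_eq hI h2r hη, Cd.b_inter h2q (hqr.2.1 (hI.mem η hη)) hα]
          exact (hqb η hη).trans (e1 η hη))
      have e2 : s i = s' i := hD q3 q2 (h31.trans h1r) h2r h3res
        (fun ζ hζ hζB => by
          obtain ⟨η, hη, rfl⟩ := hI.sur ζ hζ hζB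
          rw [h3b η hη, tup_eq hI h2r hη])
        i (s i) (s' i) ((hs3 i hi).mono h31) (hs' i hi)
      refine ⟨q2, h2', ?_⟩
      rw [e2]
      exact hs' i hi
  · intro η hη
    rw [e1 η hη, ← h0b η hη, ← h0t]
    exact (h10.2.2 (jn η) (h0r.2.1 (hI.mem η hη))).1

end Pool.Agent.Lib.MP_5c1789_lcR
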