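import Pool.Agent.Lib.MP_5c1789_lcR.QA

/-!
# JOB QD: the states given by a condition

Note `(codeOf B y r I jn).I = I`, `.a0 = r.res B` (by `rfl`).
* `cst_mono`: for `η ∈ I`: `q'.b (jn η) ∩ Iio δ = q.b (jn η) ∩ Iio δ` (`Cd.b_inter`), and for `γ ≤ δ ≤ q.t.α`:
  `γ ∈ q'.C (jn η) ↔ γ ∈ q.C (jn η)` (`q'.C ζ ∩ Iic q.t.α = q.C ζ`).
* `Cr_mono`: `Cd.c_mono`, `cst_mono`, `jn η ∈ r.D ⊆ p.D`.
* `cst_valid`: `le`: `q ≤ r ≤ r.res B`.  `node`: `Cd.node`, `Tr.down` (`δ ≤ q.t.α`).  `clo`: a limit point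
  `γ ≤ δ` of `c` is a limit point of every `q.C (jn η)`, `Cd.clo`.  `al`: `γ ∈ c`, so
  `(q.b (jn η) ∩ Iio δ) ∩ Iio γ = q.b (jn η) ∩ Iio γ ∈ q.t.A γ` (`Cd.al`).
* `Cr_PR`: the two states are `cst σ jn q δ`, `cst σ jn q δ'`; valid by `cst_valid`; compatible: say `δ ≤ δ'`:
  `(q.b (jn η) ∩ Iio δ') ∩ Iio δ = q.b (jn η) ∩ Iio δ`, `c' ∩ Iic δ = c`.
* `Cr_seg`: from `h`: `(ξ, x) ∈ q.c l`, `st x = cst σ jn q δ`; from `h'`: `(ξ, x') ∈ q.c l`, so `x' = x` (`cfun`,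
  `Cd.mem_c`); `a` with `q ≤ a`, `a.t.α = (st x).δ = δ`, `(a, (st x).t, z) ∈ (st x).σ.Θ`, i.e. in the `Θ` of
  `codeOf`.
  Apply its last property to `q` (`q ≤ r`): `q.b (jn η) ∩ Iio a.t.α = (st x).t η = q.b (jn η) ∩ Iio δ`.
-/

set_option linter.unusedSimpArgs false

open Set Cardinal

namespace Pool.Agent.Lib.MP_5c1789_lcR

open Pool.Agent.Lib.Forcing Pool.Agent.Lib.MP_40b13d_lc Pool.Agent.Lib.MP_5c1789_lc

variable {𝒯 : Name Cd} {B : Set Ordinal.{0}} {l : Ordinal.{0}} {st : Ordinal.{0} → Stt}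
  {y : Name Cd} {r : Cd} {I : Set Ordinal.{0}} {jn : Ordinal.{0} → Ordinal.{0}}

private theorem qd_tup {I : Set Ordinal.{0}} {q : Cd} {δ η : Ordinal.{0}} (hη : η ∈ I) :
    tup I jn q δ η = q.b (jn η) ∩ Iio δ := if_pos hη

private theorem qd_tup_not {I : Set Ordinal.{0}} {q : Cd} {δ η : Ordinal.{0}} (hη : η ∉ I) :
    tup I jn q δ η = ∅ := if_neg hη

private theorem qd_C {q q' : Cd} (hq : q' ≤ q) {ζ γ : Ordinal.{0}} (hζ : ζ ∈ q.D)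
    (hγ : γ ≤ q.t.α) : γ ∈ q'.C ζ ↔ γ ∈ q.C ζ := by
  have h1 : q'.C ζ ∩ Iic q.t.α = q.C ζ := (hq.2.2 ζ hζ).2.1
  rw [← h1]
  exact ⟨fun h => ⟨h, hγ⟩, fun h => h.1⟩

private theorem qd_ext (σ : Code) (q : Cd) {δ δ' : Ordinal.{0}} (h : δ ≤ δ') :
    (cst σ jn q δ').Ext (cst σ jn q δ) := by
  refine ⟨h, ?_, ?_⟩
  · intro η hη
    change tup σ.I jn q δ' η ∩ Iio δ = tup σ.I jn q δ η
    have hη' : η ∈ σ.I := hη
    rw [qd_tup hη', qd_tup hη', inter_assoc, Iio_inter_Iio, inf_eq_right.2 h]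
  · change {γ | γ ≤ δ' ∧ ∀ η ∈ σ.I, γ ∈ q.C (jn η)} ∩ Iic δ = {γ | γ ≤ δ ∧ ∀ η ∈ σ.I, γ ∈ q.C (jn η)}
    ext γ
    constructor
    · rintro ⟨⟨_, h2⟩, h3⟩
      exact ⟨h3, h2⟩
    · rintro ⟨h1, h2⟩
      exact ⟨⟨h1.trans h, h2⟩, h1⟩

theorem cst_mono {σ : Code} {q q' : Cd} (hI : ∀ η ∈ σ.I, jn η ∈ q.D) (hq : q' ≤ q)
    {δ : Ordinal.{0}} (hδ : δ ≤ q.t.α) : cst σ jn q' δ = cst σ jn q δ := by
  have h1 : tup σ.I jn q' δ = tup σ.I jn q δ := by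
    funext η
    by_cases hη : η ∈ σ.I
    · rw [qd_tup hη, qd_tup hη, Cd.b_inter hq (hI η hη) hδ]
    · rw [qd_tup_not hη, qd_tup_not hη]
  have h2 : {γ | γ ≤ δ ∧ ∀ η ∈ σ.I, γ ∈ q'.C (jn η)} = {γ | γ ≤ δ ∧ ∀ η ∈ σ.I, γ ∈ q.C (jn η)} := by
    ext γ
    constructor
    · rintro ⟨h3, h4⟩
      exact ⟨h3, fun η hη => (qd_C hq (hI η hη) (h3.trans hδ)).1 (h4 η hη)⟩
    · rintro ⟨h3, h4⟩
      exact ⟨h3, fun η hη => (qd_C hq (hI η hη) (h3.trans hδ)).2 (h4 η hη)⟩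
  unfold cst
  rw [h1, h2]

theorem Cr_mono (hI : Idx B r I jn) (ξ : Ordinal.{0}) (p q : Cd)
    (h : Cr l st (codeOf B y r I jn) jn r ξ p) (hq : q ≤ p) :
    Cr l st (codeOf B y r I jn) jn r ξ q := by
  obtain ⟨hp, x, hx, δ, hδ, hC, hst⟩ := h
  have hI' : ∀ η ∈ (codeOf B y r I jn).I, jn η ∈ p.D := fun η hη => hp.2.1 (hI.mem η hη)
  refine ⟨hq.trans hp, x, Cd.c_mono hx hq, δ, hδ.trans hq.1.1, ?_, ?_⟩
  · intro η hη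
    exact (qd_C hq (hI' η hη) hδ).2 (hC η hη)
  · rw [hst, cst_mono hI' hq hδ]

theorem cst_valid (hI : Idx B r I jn) (hg : Good 𝒯 B (codeOf B y r I jn)) {q : Cd} (hq : q ≤ r)
    {δ : Ordinal.{0}} (hδ : δ ≤ q.t.α) (hC : ∀ η ∈ I, δ ∈ q.C (jn η)) :
    Valid 𝒯 B (cst (codeOf B y r I jn) jn q δ) q := by
  have hD : ∀ η ∈ I, jn η ∈ q.D := fun η hη => hq.2.1 (hI.mem η hη)
  refine { good := hg, le := hq.trans (Cd.le_res r B), δle := hδ, node := ?_, junk := ?_,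
           cle := ?_, clo := ?_, top := ?_, al := ?_ }
  · intro η hη
    have hη' : η ∈ I := hη
    change tup I jn q δ η ∈ q.t.T δ
    rw [qd_tup hη']
    exact q.t.down _ δ _ (q.node _ (hD η hη')) hδ
  · intro η hη
    have hη' : η ∉ I := hη
    change tup I jn q δ η = ∅
    exact qd_tup_not hη'
  · intro γ hγ
    exact hγ.1
  · intro γ hγ hL
    have hγ' : γ ≤ δ := hγ
    refine ⟨hγ', fun η hη => ?_⟩
    refine q.clo _ (hD η hη) γ (hγ'.trans hδ) ⟨hL.1, fun x hx => ?_⟩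
    obtain ⟨y', hy', h1, h2⟩ := hL.2 x hx
    exact ⟨y', hy'.2 η hη, h1, h2⟩
  · exact ⟨le_rfl, hC⟩
  · intro γ hγ hw η hη
    have hη' : η ∈ I := hη
    have hγ' : γ ≤ δ := hγ.1
    change tup I jn q δ η ∩ Iio γ ∈ q.t.A γ
    rw [qd_tup hη', inter_assoc, Iio_inter_Iio, inf_eq_right.2 hγ']
    exact q.al _ (hD η hη') γ (hγ.2 η hη') hw

theorem Cr_PR (hI : Idx B r I jn) (hg : Good 𝒯 B (codeOf B y r I jn)) {ξ ξ' : Ordinal.{0}} {q : Cd}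
    (h : Cr l st (codeOf B y r I jn) jn r ξ q) (h' : Cr l st (codeOf B y r I jn) jn r ξ' q) :
    PR 𝒯 B l st (ξ, ξ') q := by
  obtain ⟨hr, x, hx, δ, hδ, hC, hst⟩ := h
  obtain ⟨_, x', hx', δ', hδ', hC', hst'⟩ := h'
  refine ⟨x, x', hx, hx', ?_, ?_, ?_⟩
  · rw [hst]
    exact cst_valid hI hg hr hδ hC
  · rw [hst']
    exact cst_valid hI hg hr hδ' hC'
  · rw [hst, hst']
    refine ⟨rfl, ?_⟩
    rcases le_total δ δ' with h1 | h1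
    · exact Or.inr (qd_ext _ q h1)
    · exact Or.inl (qd_ext _ q h1)

theorem Cr_seg {ξ : Ordinal.{0}} {z : Zt} {q : Cd}
    (h : Cr l st (codeOf B y r I jn) jn r ξ q) (h' : PN 𝒯 B l st (ξ, z) q) {x : Ordinal.{0}}
    (hx : x < z.1.1) : MemF (opN (chk x) (chk (z.1.2 x))) y q := by
  obtain ⟨hr, x0, hx0, δ, hδ, hC, hst⟩ := h
  obtain ⟨x1, hx1, hv, a, hqa, haα, haΘ⟩ := h'
  have hx1' : (ξ, x1) ∈ q.c l := hx1
  have h1 : x1 = x0 := q.cfun l (Cd.mem_c hx0) ξ x1 x0 hx1' hx0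
  subst h1
  rw [hst] at haα haΘ
  have haα' : a.t.α = δ := haα
  obtain ⟨_, _, _, _, h2⟩ := haΘ
  refine h2 q hr hqa ?_ x hx
  intro η hη
  change q.b (jn η) ∩ Iio a.t.α = tup I jn q δ η
  rw [qd_tup hη, haα']

end Pool.Agent.Lib.MP_5c1789_lcR
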