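import Pool.Agent.Lib.MP_5c1789_lcR.Scheme

/-!
# JOB SA: the context

* `Sm.small`: `#S ≤ ℵ₁` in `Cardinal.{1}`; `ℵ₁ = lift.{1} ℵ₁`, so `S` is small (for instance
  `Cardinal.small_iff_lift_mk_lt_univ`, or an injection of `S` into `Iio w1`, as in `Sm.enum`:
  `S` is the image of the small set `Iio w1` under `e`, or empty).
* `exists_ctx`: `exists_det small_Zt (φ := fun z q => MemF (nz z) 𝒯 q)` with `MemF.mono`, `MemF.dense`,
  `B0 = p0.D` (small by `Sm.small p0.sm`).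
* `Ctx.isFun`: in `V`: `V.cl y` is in `V.cl β` (`mem_of`), and `h.br V (hV.mono hq)`.
* `Ctx.seg`: `memF_iff_models`: in `V` with `V.Has q`: `V.cl (nz z)` is a function from `chk z.1.1`
  (an element of `chk kp`) to `chk kp` (`fN_isFun`, `z.2`), a subset of `V.cl y` (`fN_sub_of_values`), so it
  is in
  `𝒯` by `h.br` (`V.cl y ∈ V.cl β`).
* `Ctx.sub`: if `z.1.1 ≤ z'.1.1`, `z.1.2 = z'.1.2` below `z.1.1` and `z' ∈ 𝒯` then `z ∈ 𝒯`: `h.kur` (the tree is a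
  subtree: second part of `IsSubtree`), `fN_sub`, `fN_isFun`.
-/

set_option linter.unusedSimpArgs false

open Set Cardinal

namespace Pool.Agent.Lib.MP_5c1789_lcR

open Pool.Agent.Lib.Forcing Pool.Agent.Lib.MP_40b13d_lc Pool.Agent.Lib.MP_5c1789_lc

theorem Sm.small {α : Type 1} {S : Set α} (h : Sm S) : Small.{0} S := by
  have h1 : Cardinal.lift.{0, 1} #S ≤ Cardinal.lift.{1, 0} #((aleph 1 : Cardinal.{0}).out) := by
    rw [Cardinal.mk_out, Cardinal.lift_aleph, Ordinal.lift_one, Cardinal.lift_id'.{0, 1}]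
    exact h
  obtain ⟨f⟩ := Cardinal.lift_mk_le'.1 h1
  exact small_of_injective f.injective

variable {𝒯 β : Name Cd} {p0 : Cd} {B : Set Ordinal.{0}}

/-- the context exists -/
theorem exists_ctx
    (hk : ∀ V : GenUlt Cd, V.Has p0 →
      IsKurepa (ModE V) (V.cl (chk Pool.Agent.Lib.MP_5c1789_lcR.w1)) (V.cl (chk kp)) (V.cl 𝒯))
    (hb : ∀ V : GenUlt Cd, V.Has p0 →
      IsBranchSet (ModE V) (V.cl (chk kp)) (V.cl 𝒯) (V.cl β)) :
    ∃ B, Ctx 𝒯 β p0 B := by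
  obtain ⟨B, h1, h2, h3⟩ := exists_det small_Zt (fun z q => MemF (nz z) 𝒯 q)
    (fun _ _ _ h h' => h.mono h') (fun _ _ h => MemF.dense h) p0.D (Sm.small p0.sm)
  exact ⟨B, h1, h2, hk, hb, h3⟩

/-- a branch is a function -/
theorem Ctx.isFun (h : Ctx 𝒯 β p0 B) {y : Name Cd} {q : Cd} (hq : q ≤ p0) (hy : MemF y β q)
    (V : GenUlt Cd) (hV : V.Has q) :
    IsFun (ModE V) (V.cl y) (V.cl (chk kp)) (V.cl (chk kp)) :=
  ((h.br V (hV.mono hq) (V.cl y)).1 (mem_of hV hy)).1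

/-- the decided initial segments of a branch are in the tree -/
theorem Ctx.seg (h : Ctx 𝒯 β p0 B) {y : Name Cd} {q : Cd} (hq : q ≤ p0) (hy : MemF y β q)
    (z : Zt) (hz : ∀ x < z.1.1, MemF (opN (chk x) (chk (z.1.2 x))) y q) : MemF (nz z) 𝒯 q := by
  rw [memF_iff_models]
  intro V hV
  exact ((h.br V (hV.mono hq) (V.cl y)).1 (mem_of hV hy)).2 (V.cl (chk z.1.1)) (V.cl (nz z))
    ((mod_chk_mem V).2 z.2.1) (fN_isFun V z.2.2.1) (fN_sub_of_values hz hV)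

theorem Ctx.sub (h : Ctx 𝒯 β p0 B) {q : Cd} (hq : q ≤ p0) {z z' : Zt} (h1 : z.1.1 ≤ z'.1.1)
    (h2 : ∀ x < z.1.1, z.1.2 x = z'.1.2 x) (hz : MemF (nz z') 𝒯 q) : MemF (nz z) 𝒯 q := by
  rw [memF_iff_models]
  intro V hV
  exact (h.kur V (hV.mono hq)).1.2 (V.cl (nz z')) (mem_of hV hz) (V.cl (chk z.1.1)) (V.cl (nz z))
    ((mod_chk_mem V).2 z.2.1) (fN_isFun V z.2.2.1) (fN_sub V h1 h2)

end Pool.Agent.Lib.MP_5c1789_lcR
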