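import Pool.Agent.Lib.MP_5c1789_lcR.SA

/-!
# JOB SB: a list of the nodes of a level

(1) If there is no `q ≤ a` and `z` with `z.1.1 = γ`, `MemF (nz z) 𝒯 q`: take `a' = a`, any `e`.
(2) Otherwise fix such `q0 ≤ a`, `z0`.  Let `lN := cn (ι := {z : Zt // z.1.1 = γ}) (fun z => nz z.1)`
`(fun z q => MemF (nz z.1) 𝒯 q)` (monotone).  In every `V` with `V.Has q0`, `V.cl lN` is the level
`chk γ` of `𝒯` (`IsLevel`): if `t ∈ lN` then locally `t = nz z`, in `𝒯`, a function from `chk γ` to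
`chk kp` (`fN_isFun`).
Conversely let `t` be a name and `p ≤ q0` force `t ∈ 𝒯` and `IsFun t (chk γ) (chk kp)`; by `decide_fun`
(density,
`MemF.dense`) locally `t = nz z` with `z.1.1 = γ`, and `MemF (nz z) 𝒯` (`MemF.congr_left`), so `t ∈ lN`.
It is nonempty (`z0`), so `h.kur` gives `HasSurj (chk w1) lN`, in every `V` with `V.Has q0`; by `forces_iff`,
`forces_ex` there
are `q1 ≤ q0` and a name `γ'` of a surjection from `chk w1` onto `lN`, forced by `q1`.
(3) By `dist` (index set `Iio w1`), as in `decide_seg`: `q2 ≤ q1` such that for every `i < w1` there is `z`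
with `z.1.1 = γ` and
`MemF (opN (chk i) (nz z)) γ' q2` (density: the value of `γ'` at `chk i` is in `lN`: `forces_ex` with
`Forces (fex (.fand (.fmem 0 1) (dApp 2 3 0))) (cons lN (cons γ' fun _ => chk i))`, then `memF_cn`).  Choose `e i`.
(4) Claim: if `q ≤ q2` and `MemF (nz z) 𝒯 q`, `z.1.1 = γ`, then `e i = z` for some `i < w1`: `nz z ∈ lN`
below `q`, so
it is a value of `γ'`; `decide_arg` (`s = Iio w1`, in `Pool/Agent/Lib/MP_5c1789_lc/Ords.lean`): `t ≤ q`,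
`i < w1`, `MemF (opN (chk i) (nz z)) γ' t`.  In `V` with `V.Has t` the function `γ'` has the values `nz z` and
`nz (e i)` at `chk i`, so they are equal (`isFun_unique`, `cl_eq`, `GenUlt.Ev.exists`), `nz_inj`: `z = e i`.
(5) `a' = q2.res B ≤ a` (`Cd.res_le`, `haB`).  Let `q ≤ a'`, `MemF (nz z) 𝒯 q`.  By `h.det`,
`MemF (nz z) 𝒯 (q.res B)`, and
`q.res B ≤ q2.res B` (`Cd.res_le`).  By `Cd.exists_values`, `Cd.exists_am` (for `q2` and `q.res B`) there is
`r ≤ q2`, `r ≤ q.res B`.  Then `MemF (nz z) 𝒯 r`, and (4).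
-/

set_option linter.unusedSimpArgs false

open Set Cardinal

namespace Pool.Agent.Lib.MP_5c1789_lcR

open Pool.Agent.Lib.Forcing Pool.Agent.Lib.MP_40b13d_lc Pool.Agent.Lib.MP_5c1789_lc

variable {𝒯 β : Name Cd} {p0 : Cd} {B : Set Ordinal.{0}}

/-- the name of the level -/
noncomputable def lN (𝒯 : Name Cd) (γ : Ordinal.{0}) : Name Cd :=
  cn (ι := {z : Zt // z.1.1 = γ}) (fun z => nz z.1) (fun z q => MemF (nz z.1) 𝒯 q)

theorem lN_mono (𝒯 : Name Cd) (γ : Ordinal.{0}) (z : {z : Zt // z.1.1 = γ}) (p q : Cd)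
    (h : MemF (nz z.1) 𝒯 p) (hq : q ≤ p) : MemF (nz z.1) 𝒯 q := h.mono hq

theorem mem_lN {𝒯 : Name Cd} {γ : Ordinal.{0}} {z : Zt} (hz : z.1.1 = γ) {q : Cd}
    (h : MemF (nz z) 𝒯 q) : MemF (nz z) (lN 𝒯 γ) q :=
  memF_cn_of (nm := fun z : {z : Zt // z.1.1 = γ} => nz z.1)
    (A := fun z q => MemF (nz z.1) 𝒯 q) ⟨z, hz⟩ h

theorem isLevel_lN (hCH : CHy) {𝒯 : Name Cd} {γ : Ordinal.{0}} (hγ : γ < kp) {q : Cd}
    {U : GenUlt Cd} (hU : U.Has q) :
    IsLevel (ModE U) (U.cl (chk kp)) (U.cl 𝒯) (U.cl (chk γ)) (U.cl (lN 𝒯 γ)) := by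
  intro t
  constructor
  · intro ht
    have h := mod_bounded U (fun z : {z : Zt // z.1.1 = γ} => nz z.1)
      (A := fun z q => MemF (nz z.1) 𝒯 q) (lN_mono 𝒯 γ)
      (.fand (.fmem 0 1) (dFun 0 2 3)) (cons 𝒯 (cons (chk γ) fun _ => chk kp)) hU
      (fun i r _ hr V hV => by
        simp only [sat_and, sat_mem, sat_dFun, cons_zero, cons_one, cons_two, cons_three]
        refine ⟨mem_of hV hr, ?_⟩
        have h2 := fN_isFun V (a := i.1.1.1) (k := kp) (s := i.1.1.2) i.1.2.2.1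
        rw [i.2] at h2
        show IsFun (ModE V) (V.cl (fN i.1.1.1 i.1.1.2)) _ _
        rw [i.2]
        exact h2) t ht
    simpa only [sat_and, sat_mem, sat_dFun, cons_zero, cons_one, cons_two, cons_three] using h
  · intro ht
    obtain ⟨t, rfl⟩ := exists_cl t
    have h1 := los_imp U (φ := .fand (.fmem 0 1) (dFun 0 2 3)) (ψ := .fmem 0 4)
      (v := cons t (cons 𝒯 (cons (chk γ) (cons (chk kp) fun _ => lN 𝒯 γ)))) hU
      (fun p _ hp V hV => by
        simp only [sat_mem, cons_zero, cons_one, cons_two, cons_three, cons_four]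
        refine mem_of hV ?_
        rw [forces_and, forces_mem] at hp
        simp only [cons_zero, cons_one] at hp
        obtain ⟨hp1, hp2⟩ := hp
        rw [lN, memF_cn (lN_mono 𝒯 γ)]
        intro r hr
        obtain ⟨q', hq', s, hs1, hs2, heq⟩ := decide_fun hCH hγ (k := kp) (τ := t) (p := r)
          (fun W hW => by
            have h3 := forces_iff.1 hp2 W (hW.mono hr)
            simpa only [sat_dFun, cons_zero, cons_one, cons_two, cons_three] using h3)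
        refine ⟨q', hq', ⟨⟨(γ, s), hγ, hs1, hs2⟩, rfl⟩, ?_, heq⟩
        exact MemF.congr_left heq (hp1.mono (hq'.trans hr)))
      (by simpa only [sat_and, sat_mem, sat_dFun, cons_zero, cons_one, cons_two, cons_three]
            using ht)
    simpa only [sat_mem, cons_zero, cons_one, cons_two, cons_three, cons_four] using h1

/-- a list of the nodes of a level -/
theorem Ctx.exists_list (hCH : CHy) (h : Ctx 𝒯 β p0 B) {a : Cd} (ha : a ≤ p0) (haB : a.D ⊆ B)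
    {γ : Ordinal.{0}} (hγ : γ < kp) :
    ∃ a', a' ≤ a ∧ a'.D ⊆ B ∧ ∃ e : Ordinal.{0} → Zt, ∀ z : Zt, z.1.1 = γ → ∀ q, q ≤ a' →
      MemF (nz z) 𝒯 q → ∃ i < Pool.Agent.Lib.MP_5c1789_lcR.w1, e i = z := by
  classical
  by_cases hex : ∃ q, q ≤ a ∧ ∃ z : Zt, z.1.1 = γ ∧ MemF (nz z) 𝒯 q
  swap
  · refine ⟨a, le_rfl, haB, fun _ => ⟨(0, fun _ => 0), ?_, ?_, fun _ _ => rfl⟩, ?_⟩
    · exact lt_of_le_of_lt zero_le hγ
    · intro x hx
      exact absurd hx (not_lt.2 zero_le)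
    · intro z hz q hq hm
      exact absurd ⟨q, hq, z, hz, hm⟩ hex
  obtain ⟨q0, hq0, z0, hz0, hm0⟩ := hex
  have hsurj : ∀ V : GenUlt Cd, V.Has q0 →
      HasSurj (ModE V) (V.cl (chk Pool.Agent.Lib.MP_5c1789_lcR.w1)) (V.cl (lN 𝒯 γ)) :=
    fun V hV => (h.kur V (hV.mono (hq0.trans ha))).2.1 (V.cl (chk γ)) (V.cl (lN 𝒯 γ))
      ((mod_chk_mem V).2 hγ) (isLevel_lN hCH hγ hV) ⟨V.cl (nz z0), mem_of hV (mem_lN hz0 hm0)⟩
  have hfo : Forces (fex (.fand (dFun 0 1 2) (fball 2 (fex (dApp 2 0 1)))))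
      (cons (chk Pool.Agent.Lib.MP_5c1789_lcR.w1) fun _ => lN 𝒯 γ) q0 := by
    rw [forces_iff]
    intro V hV
    simp only [sat_and, sat_dFun, sat_ball, sat_ex, sat_dApp, cons_zero, cons_one, cons_two]
    exact hsurj V hV
  rw [forces_ex] at hfo
  obtain ⟨q1, hq1, g, hg⟩ := hfo q0 le_rfl
  have hF : ∀ V : GenUlt Cd, V.Has q1 →
      IsFun (ModE V) (V.cl g) (V.cl (chk Pool.Agent.Lib.MP_5c1789_lcR.w1)) (V.cl (lN 𝒯 γ)) ∧
      ∀ y, ModE V y (V.cl (lN 𝒯 γ)) → ∃ x, IsApp (ModE V) (V.cl g) x y := by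
    intro V hV
    have := forces_iff.1 hg V hV
    simpa only [sat_and, sat_dFun, sat_ball, sat_ex, sat_dApp, cons_zero, cons_one, cons_two]
      using this
  obtain ⟨q2, hq2, hD⟩ := dist hCH (Iio Pool.Agent.Lib.MP_5c1789_lcR.w1) (sm_Iio w1_lt_kp)
    (fun i p => (∃ z : Zt, z.1.1 = γ ∧ MemF (opN (chk i) (nz z)) g p) ∨
      ∀ r, r ≤ p → ¬ r ≤ q1)
    (by
      rintro i _ p q (⟨z, hz, h⟩ | h) hq
      · exact Or.inl ⟨z, hz, h.mono hq⟩
      · exact Or.inr fun r hr => h r (hr.trans hq))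
    (by
      intro i hi p
      by_cases h : ∃ r, r ≤ p ∧ r ≤ q1
      · obtain ⟨r, hr, hr1⟩ := h
        have h1 : Forces (fex (.fand (.fmem 0 1) (dApp 2 3 0)))
            (cons (lN 𝒯 γ) (cons g fun _ => chk i)) r := by
          rw [forces_iff]
          intro V hV
          simp only [sat_ex, sat_and, sat_mem, sat_dApp, cons_zero, cons_one, cons_two,
            cons_three]
          obtain ⟨h2, _⟩ := hF V (hV.mono hr1)
          obtain ⟨y, hy, _⟩ := h2.2 (V.cl (chk i)) ((mod_chk_mem V).2 hi)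
          exact ⟨y, hy⟩
        rw [forces_ex] at h1
        obtain ⟨r1, hr1', σ, h2⟩ := h1 r le_rfl
        rw [forces_and, forces_mem, forces_dApp] at h2
        have h3 : MemF σ (lN 𝒯 γ) r1 := h2.1
        rw [lN, memF_cn (lN_mono 𝒯 γ)] at h3
        obtain ⟨t, ht, ⟨z, hz⟩, _, h4⟩ := h3 r1 le_rfl
        exact ⟨t, ht.trans (hr1'.trans hr), Or.inl ⟨z, hz,
          MemF.congr_left (eqF_opN.2 ⟨EqF.refl _ _, h4⟩) (h2.2.mono ht)⟩⟩
      · push Not at h
        exact ⟨p, le_rfl, Or.inr h⟩) q1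
  have hD' : ∀ i, i < Pool.Agent.Lib.MP_5c1789_lcR.w1 →
      ∃ z : Zt, z.1.1 = γ ∧ MemF (opN (chk i) (nz z)) g q2 := by
    intro i hi
    rcases hD i hi with h | h
    · exact h
    · exact absurd hq2 (h q2 le_rfl)
  have : Nonempty Zt := ⟨z0⟩
  choose! e he1 he2 using hD'
  have hclaim : ∀ z : Zt, z.1.1 = γ → ∀ q, q ≤ q2 → MemF (nz z) 𝒯 q →
      ∃ i < Pool.Agent.Lib.MP_5c1789_lcR.w1, e i = z := by
    intro z hz q hq hm
    obtain ⟨t, ht, i, hi, h1⟩ := decide_arg (γ := g) (ν := nz z)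
      (s := Iio Pool.Agent.Lib.MP_5c1789_lcR.w1) (r := q) (fun V hV => by
        obtain ⟨h2, h3⟩ := hF V (hV.mono (hq.trans hq2))
        obtain ⟨x, hx⟩ := h3 _ (mem_of hV (mem_lN hz hm))
        refine ⟨x, ?_, hx⟩
        rw [← chk_chS]
        exact (isFun_mem (mod_isZFC V) h2 hx).1)
    refine ⟨i, hi, ?_⟩
    obtain ⟨V, hV⟩ := exists_genUlt t
    have h2 := isFun_unique (mod_isZFC V) (hF V (((hV.mono ht).mono hq).mono hq2)).1
      (app_of (he2 i hi) ((hV.mono ht).mono hq)) (app_of h1 hV)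
    obtain ⟨r, hr⟩ := (cl_eq.1 h2).exists
    exact nz_inj hr
  have hD2 : (q2.res B).D ⊆ B := by
    rw [Cd.res_D]
    exact inter_subset_right
  refine ⟨q2.res B, Cd.res_le (hq2.trans (hq1.trans hq0)) haB, hD2, e, ?_⟩
  intro z hz q hq hm
  have h1 := h.det z q hm
  have h2 : q.res B ≤ q2.res B := Cd.res_le hq hD2
  obtain ⟨v, hv⟩ := Cd.exists_values q2 (q.res B) B h2
  obtain ⟨r, hr1, hr2, _⟩ := Cd.exists_am q2 (q.res B) B v h2 (by
    rw [Cd.res_D]
    exact inter_subset_right) (fun ζ hζ _ => hv ζ hζ)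
  exact hclaim z hz r hr1 (h1.mono hr2)

end Pool.Agent.Lib.MP_5c1789_lcR
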