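import Pool.Agent.Lib.MP_5c1789_lcR.Scheme

/-!
# JOB SC: the initial state, limits of states

* `exists_init`: `Fam.exists_init hCH p1` gives `x` with `x.Q f = q' ≤ p1` for all `f`; `N = ∅`.
* `exists_lim`: the family from `Fam.exists_lim` (for `x i = (S i).x`), `N = {u | ∃ i < δ, u ∈ (S i).N}`.
  `le`: `0 < δ` (`hδ`), `Fam.Lt.le`.  `nd`, `dn`: clear.  `cls`: if `Q f ≠ Q f'` then
  `(S i).x.Q f ≠ (S i).x.Q f'` for some `i < δ` (last part of `Fam.exists_lim`), `(S i).cls`.  `spl`: `(S i).spl`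
  and `MemF.mono`.
-/

set_option linter.unusedSimpArgs false

open Set Cardinal

namespace Pool.Agent.Lib.MP_5c1789_lcR

open Pool.Agent.Lib.Forcing Pool.Agent.Lib.MP_40b13d_lc Pool.Agent.Lib.MP_5c1789_lc

namespace Sch

variable {B : Set Ordinal.{0}} {y : Name Cd} {p1 : Cd}

theorem exists_init (hCH : CHy) : ∃ S : Sch B y p1, S.N = ∅ := by
  obtain ⟨x, q', hq', hx⟩ := Fam.exists_init hCH (ι := Fx) (B := B) p1
  refine ⟨⟨x, ∅, fun f => ?_, fun u hu => hu.elim, fun u hu => hu.elim, fun f f' h => ?_,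
    fun u hu => hu.elim⟩, rfl⟩
  · rw [hx]
    exact hq'
  · exact absurd ((hx f).trans (hx f').symm) h

theorem exists_lim (hCH : CHy) {δ : Ordinal.{0}} (hδ : Li δ)
    (hδ' : δ ≤ Pool.Agent.Lib.MP_5c1789_lcR.w1)
    (S : Ordinal.{0} → Sch B y p1) (hS : ∀ i j, i < j → j < δ → (S j).Lt (S i)) :
    ∃ R : Sch B y p1, ∀ i < δ, R.Lt (S i) := by
  obtain ⟨z, hz, hzq⟩ := Fam.exists_lim hCH hδ hδ' (fun i => (S i).x)
    (fun i j hij hj => (hS i j hij hj).1)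
  have h0 : (0 : Ordinal.{0}) < δ := pos_iff_ne_zero.2 hδ.1
  refine ⟨⟨z, {u | ∃ i < δ, u ∈ (S i).N}, fun f => ?_, ?_, ?_, ?_, ?_⟩,
    fun i hi => ⟨hz i hi, fun u hu => ⟨i, hi, hu⟩⟩⟩
  · exact ((hz 0 h0).le f).trans ((S 0).le f)
  · rintro u ⟨i, hi, hu⟩
    exact (S i).nd u hu
  · rintro u ⟨i, hi, hu⟩ l hl
    exact ⟨i, hi, (S i).dn u hu l hl⟩
  · intro f f' hne
    have h1 : ¬ ∀ i < δ, (S i).x.Q f = (S i).x.Q f' := fun h => hne (hzq f f' h)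
    push Not at h1
    obtain ⟨i, hi, hne'⟩ := h1
    obtain ⟨l, hl, h2, h3, h4⟩ := (S i).cls f f' hne'
    exact ⟨l, hl, h2, h3, i, hi, h4⟩
  · rintro u ⟨i, hi, hu⟩
    obtain ⟨k, hk, v, v', hv, h2⟩ := (S i).spl u hu
    refine ⟨k, hk, v, v', hv, fun f hf => ⟨fun h => ?_, fun h => ?_⟩⟩
    · exact ((h2 f hf).1 h).mono ((hz i hi).le f)
    · exact ((h2 f hf).2 h).mono ((hz i hi).le f)

end Sch

end Pool.Agent.Lib.MP_5c1789_lcR
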