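import Pool.Agent.Lib.MP_5c1789_lcR.DC
import Pool.Agent.Lib.MP_5c1789_lcR.BDet

/-!
# Branches of thin trees are determined by few labels (definitions)
-/

set_option linter.unusedSimpArgs false

open Set Cardinal

namespace Pool.Agent.Lib.MP_5c1789_lcR

open Pool.Agent.Lib.Forcing Pool.Agent.Lib.MP_40b13d_lc Pool.Agent.Lib.MP_5c1789_lc

/-- `p0` forces that `𝒯` is an `ℵ₂`-Kurepa tree with the branch set `β`; the labels in `B`
determine which old functions are in `𝒯` -/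
structure Ctx (𝒯 β : Name Cd) (p0 : Cd) (B : Set Ordinal.{0}) : Prop where
  small : Small.{0} B
  dom : p0.D ⊆ B
  kur : ∀ V : GenUlt Cd, V.Has p0 →
    IsKurepa (ModE V) (V.cl (chk Pool.Agent.Lib.MP_5c1789_lcR.w1)) (V.cl (chk kp)) (V.cl 𝒯)
  br : ∀ V : GenUlt Cd, V.Has p0 → IsBranchSet (ModE V) (V.cl (chk kp)) (V.cl 𝒯) (V.cl β)
  det : ∀ (z : Zt) (q : Cd), MemF (nz z) 𝒯 q → MemF (nz z) 𝒯 (q.res B)

/-- below `r`, the values of `y` depend only on the labels in `B` and the nodes of the labels of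
`r` -/
def Det (B : Set Ordinal.{0}) (y : Name Cd) (r : Cd) : Prop :=
  ∀ q q', q ≤ r → q' ≤ r → q.res B = q'.res B → (∀ ζ ∈ r.D, ζ ∉ B → q.b ζ = q'.b ζ) →
    ∀ x v v', MemF (opN (chk x) (chk v)) y q → MemF (opN (chk x) (chk v')) y q' → v = v'

/-- the index set: subsets of `ω₁` -/
abbrev Fx : Type 1 := {f : Set Ordinal.{0} // f ⊆ Iio Pool.Agent.Lib.MP_5c1789_lcR.w1}

/-- the states of the construction: `N` is the set of the nodes of the full binary tree of height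
`ω₁` at which the family has been split -/
structure Sch (B : Set Ordinal.{0}) (y : Name Cd) (p1 : Cd) where
  x : Fam Fx B
  N : Set (Ordinal.{0} × Set Ordinal.{0})
  le : ∀ f, x.Q f ≤ p1
  nd : ∀ u ∈ N, u.1 < Pool.Agent.Lib.MP_5c1789_lcR.w1 ∧ u.2 ⊆ Iio u.1
  dn : ∀ u ∈ N, ∀ l < u.1, (l, u.2 ∩ Iio l) ∈ N
  cls : ∀ f f', x.Q f ≠ x.Q f' → ∃ l < Pool.Agent.Lib.MP_5c1789_lcR.w1,
    f.1 ∩ Iio l = f'.1 ∩ Iio l ∧ ¬ (l ∈ f.1 ↔ l ∈ f'.1) ∧ (l, f.1 ∩ Iio l) ∈ N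
  spl : ∀ u ∈ N, ∃ i < kp, ∃ v v' : Ordinal.{0}, v ≠ v' ∧ ∀ f : Fx, f.1 ∩ Iio u.1 = u.2 →
    (u.1 ∈ f.1 → MemF (opN (chk i) (chk v)) y (x.Q f)) ∧
    (u.1 ∉ f.1 → MemF (opN (chk i) (chk v')) y (x.Q f))

namespace Sch

variable {B : Set Ordinal.{0}} {y : Name Cd} {p1 : Cd}

def Lt (S' S : Sch B y p1) : Prop := S'.x.Lt S.x ∧ S.N ⊆ S'.N

theorem Lt.trans {S S' S'' : Sch B y p1} (h : S''.Lt S') (h' : S'.Lt S) : S''.Lt S :=
  ⟨h.1.trans h'.1, h'.2.trans h.2⟩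

end Sch

end Pool.Agent.Lib.MP_5c1789_lcR
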