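import Pool.Agent.Lib.MP_5c1789_lcR.SA

/-!
# Codes of systems and states (definitions)
-/

set_option linter.unusedSimpArgs false

open Set Cardinal

namespace Pool.Agent.Lib.MP_5c1789_lcR

open Pool.Agent.Lib.Forcing Pool.Agent.Lib.MP_40b13d_lc Pool.Agent.Lib.MP_5c1789_lc

/-- tuples of nodes -/
abbrev Tup : Type 1 := Ordinal.{0} → Set Ordinal.{0}

/-- `t` is an `I`-tuple of top nodes of `a` -/
def IsTup (I : Set Ordinal.{0}) (t : Tup) (a : Cd) : Prop :=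
  (∀ η ∈ I, t η ∈ a.t.T a.t.α) ∧ ∀ η, η ∉ I → t η = ∅

/-- `t'` extends the tuple `t` of the level `δ` -/
def TExt (I : Set Ordinal.{0}) (δ : Ordinal.{0}) (t' t : Tup) : Prop :=
  ∀ η ∈ I, t' η ∩ Iio δ = t η

/-- `Θ` consists of triples (condition, tuple, decided initial segment) -/
structure Code where
  a0 : Cd
  I : Set Ordinal.{0}
  s : Tup
  Θ : Set (Cd × Tup × Zt)

/-- the axioms of a system -/
structure Good (𝒯 : Name Cd) (B : Set Ordinal.{0}) (σ : Code) : Prop where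
  aB : σ.a0.D ⊆ B
  Iw : σ.I ⊆ Iio Pool.Agent.Lib.MP_5c1789_lcR.w1
  s0 : IsTup σ.I σ.s σ.a0
  mem : ∀ a t z, (a, t, z) ∈ σ.Θ → a.D ⊆ B ∧ a ≤ σ.a0 ∧ IsTup σ.I t a ∧
    TExt σ.I σ.a0.t.α t σ.s ∧ MemF (nz z) 𝒯 a
  mono : ∀ a t z a' t', (a, t, z) ∈ σ.Θ → a'.D ⊆ B → a' ≤ a → IsTup σ.I t' a' →
    TExt σ.I a.t.α t' t → (a', t', z) ∈ σ.Θ
  compat : ∀ a t z z', (a, t, z) ∈ σ.Θ → (a, t, z') ∈ σ.Θ → ∀ x, x < z.1.1 → x < z'.1.1 →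
    z.1.2 x = z'.1.2 x
  prog : ∀ a t, a.D ⊆ B → a ≤ σ.a0 → IsTup σ.I t a → TExt σ.I σ.a0.t.α t σ.s →
    ∀ γ < kp, ∃ a' t' z, a' ≤ a ∧ (a', t', z) ∈ σ.Θ ∧ TExt σ.I a.t.α t' t ∧ γ < z.1.1

/-- a state: a tuple `t` of nodes of the level `δ` and a closed set `c` with the largest element
`δ` -/
structure Stt where
  σ : Code
  δ : Ordinal.{0}
  t : Tup
  c : Set Ordinal.{0}

/-- the state `u` is legal at the condition `q` -/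
structure Valid (𝒯 : Name Cd) (B : Set Ordinal.{0}) (u : Stt) (q : Cd) : Prop where
  good : Good 𝒯 B u.σ
  le : q ≤ u.σ.a0
  δle : u.δ ≤ q.t.α
  node : ∀ η ∈ u.σ.I, u.t η ∈ q.t.T u.δ
  junk : ∀ η, η ∉ u.σ.I → u.t η = ∅
  cle : u.c ⊆ Iic u.δ
  clo : ∀ γ ≤ u.δ, LP u.c γ → γ ∈ u.c
  top : u.δ ∈ u.c
  al : ∀ γ ∈ u.c, Cw γ → ∀ η ∈ u.σ.I, u.t η ∩ Iio γ ∈ q.t.A γ

/-- the state `u'` extends `u` -/
def Stt.Ext (u' u : Stt) : Prop :=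
  u.δ ≤ u'.δ ∧ TExt u.σ.I u.δ u'.t u.t ∧ u'.c ∩ Iic u.δ = u.c

def Compat (u u' : Stt) : Prop := u.σ = u'.σ ∧ (u.Ext u' ∨ u'.Ext u)

/-- the small set of states -/
def Sst (B : Set Ordinal.{0}) : Set Stt :=
  {u | u.σ.a0.D ⊆ B ∧ u.σ.I ⊆ Iio Pool.Agent.Lib.MP_5c1789_lcR.w1 ∧
    ((∀ η, η ∉ Iio Pool.Agent.Lib.MP_5c1789_lcR.w1 → u.σ.s η = ∅) ∧ ∀ η, u.σ.s η ⊆ Iio kp) ∧
    (∀ x ∈ u.σ.Θ, x.1.D ⊆ B ∧ (∀ η, η ∉ Iio Pool.Agent.Lib.MP_5c1789_lcR.w1 → x.2.1 η = ∅) ∧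
      ∀ η, x.2.1 η ⊆ Iio kp) ∧
    u.δ < kp ∧ ((∀ η, η ∉ Iio Pool.Agent.Lib.MP_5c1789_lcR.w1 → u.t η = ∅) ∧
      ∀ η, u.t η ⊆ Iio kp) ∧ u.c ⊆ Iio kp}

/-- the name of the branch defined by the system `σ` along the labels `ζ η`, `η ∈ I` -/
noncomputable def yN (σ : Code) (ζ : Ordinal.{0} → Ordinal.{0}) : Name Cd :=
  relN (ι := Ordinal.{0} × Ordinal.{0}) (fun u => chk u.1) (fun u => chk u.2)
    (fun u q => ∃ a t z, q ≤ a ∧ (a, t, z) ∈ σ.Θ ∧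
      (∀ η ∈ σ.I, ζ η ∈ q.D ∧ q.b (ζ η) ∩ Iio a.t.α = t η) ∧ u.1 < z.1.1 ∧ u.2 = z.1.2 u.1)

/-- the labels `ζ` are new and go through the initial tuple of `σ` -/
structure Thru (B : Set Ordinal.{0}) (σ : Code) (ζ : Ordinal.{0} → Ordinal.{0}) (r : Cd) :
    Prop where
  le : r ≤ σ.a0
  mem : ∀ η ∈ σ.I, ζ η ∈ r.D
  new : ∀ η ∈ σ.I, ζ η ∉ B
  inj : InjOn ζ σ.I
  ini : ∀ η ∈ σ.I, r.b (ζ η) ∩ Iio σ.a0.t.α = σ.s η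

/-! ### the names of the compatibility relation and of the set of the decided segments -/

section Num

variable (𝒯 : Name Cd) (B : Set Ordinal.{0}) (l : Ordinal.{0}) (st : Ordinal.{0} → Stt)

def PR (u : Ordinal.{0} × Ordinal.{0}) (q : Cd) : Prop :=
  ∃ x x', (u.1, x) ∈ q.c l ∧ (u.2, x') ∈ q.c l ∧ Valid 𝒯 B (st x) q ∧ Valid 𝒯 B (st x') q ∧
    Compat (st x) (st x')

def PN (u : Ordinal.{0} × Zt) (q : Cd) : Prop :=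
  ∃ x, (u.1, x) ∈ q.c l ∧ Valid 𝒯 B (st x) q ∧
    ∃ a, q ≤ a ∧ a.t.α = (st x).δ ∧ (a, (st x).t, u.2) ∈ (st x).σ.Θ

noncomputable def RN : Name Cd := relN (fun u => chk u.1) (fun u => chk u.2) (PR 𝒯 B l st)

noncomputable def NN : Name Cd := relN (fun u => chk u.1) (fun u => nz u.2) (PN 𝒯 B l st)

end Num

end Pool.Agent.Lib.MP_5c1789_lcR
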