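import Pool.Agent.Lib.MP_5c1789_lcR.BC
import Pool.Agent.Lib.MP_5c1789_lcR.BD
import Pool.Agent.Lib.MP_5c1789_lcR.BE

/-!
# Tree conditions (definitions)

Nodes at level `β` are subsets of `β`.  `A β ⊆ T β` are the alive nodes (only the levels of
cofinality `ω` matter).  At levels of cofinality `ω` all branches are in the tree; at limit levels
of uncountable cofinality there is a witness `(s, E)`.
-/

open Set Cardinal

namespace Pool.Agent.Lib.MP_5c1789_lcR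

/-- `s` and the club `E ⊆ β` witness that the level `β` is regular -/
structure Wit (T A : Ordinal.{0} → Set (Set Ordinal.{0})) (β : Ordinal.{0})
    (s : Set Ordinal.{0} → Ordinal.{0}) (E : Set Ordinal.{0}) : Prop where
  lt : ∀ X ∈ T β, s X < β
  sub : E ⊆ Iio β
  unb : ∀ x < β, ∃ y ∈ E, x < y
  clo : ∀ γ < β, LP E γ → γ ∈ E
  inj : ∀ X ∈ T β, ∀ Y ∈ T β, ∀ ξ, s X ≤ ξ → s Y ≤ ξ → X ∩ Iio ξ = Y ∩ Iio ξ → X = Y
  cov : ∀ γ ∈ E, Cw γ → ∀ a ∈ A γ, ∃ X ∈ T β, s X < γ ∧ X ∩ Iio γ = a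

/-- tree conditions -/
structure Tr where
  α : Ordinal.{0}
  T : Ordinal.{0} → Set (Set Ordinal.{0})
  A : Ordinal.{0} → Set (Set Ordinal.{0})
  lt : α < kp
  le : ∀ β, ∀ X ∈ T β, β ≤ α
  sub : ∀ β, ∀ X ∈ T β, X ⊆ Iio β
  alive : ∀ β, A β ⊆ T β
  root : ∅ ∈ T 0
  down : ∀ β γ, ∀ X ∈ T β, γ ≤ β → X ∩ Iio γ ∈ T γ
  up : ∀ β γ, ∀ X ∈ T β, β ≤ γ → γ ≤ α → ∃ Y ∈ T γ, Y ∩ Iio β = X
  small : ∀ β, Sm (T β)
  full : ∀ β ≤ α, Cw β → ∀ X ⊆ Iio β, (∀ γ < β, X ∩ Iio γ ∈ T γ) → X ∈ T β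
  lim : ∀ β ≤ α, Li β → ¬ Cw β → ∃ s E, Wit T A β s E

/-- the witness property depends only on the level `β` and on the alive nodes below -/
theorem Wit.congr {T A T' A' : Ordinal.{0} → Set (Set Ordinal.{0})} {β : Ordinal.{0}}
    {s : Set Ordinal.{0} → Ordinal.{0}} {E : Set Ordinal.{0}} (h : Wit T A β s E)
    (hT : T' β = T β) (hA : ∀ γ < β, A' γ = A γ) : Wit T' A' β s E where
  lt := by rw [hT]; exact h.lt
  sub := h.sub
  unb := h.unb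
  clo := h.clo
  inj := by rw [hT]; exact h.inj
  cov γ hγ hc a ha := by
    rw [hA γ (h.sub hγ)] at ha
    rw [hT]
    exact h.cov γ hγ hc a ha

namespace Tr

/-- `t'` is an end extension of `t` -/
def Le (t' t : Tr) : Prop := t.α ≤ t'.α ∧ ∀ β ≤ t.α, t'.T β = t.T β ∧ t'.A β = t.A β

theorem Le.refl (t : Tr) : t.Le t := ⟨le_rfl, fun _ _ => ⟨rfl, rfl⟩⟩

theorem Le.trans {t t' t'' : Tr} (h : t''.Le t') (h' : t'.Le t) : t''.Le t :=
  ⟨h'.1.trans h.1, fun β hβ =>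
    ⟨(h.2 β (hβ.trans h'.1)).1.trans (h'.2 β hβ).1, (h.2 β (hβ.trans h'.1)).2.trans (h'.2 β hβ).2⟩⟩

end Tr

end Pool.Agent.Lib.MP_5c1789_lcR
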