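import Pool.Agent.Lib.MP_5c1789_lcR.Sys

/-!
# JOB YA: simple properties

* `mem_c`: if `x ∈ q.c l` then `l ∈ q.D` (`junk`).  `c_mono`: if `x ∈ p.c l`, `q ≤ p` then `x ∈ q.c l`.
* `Valid.mono`: `q.t.Le p.t`: the levels `≤ p.t.α` and the alive nodes are the same (for `γ ∈ u.c`:
  `γ ≤ u.δ ≤ p.t.α`).
* `Valid.mem_Sst`: `u.δ ≤ q.t.α < kp`; nodes are subsets of `Iio kp` (`Tr.sub`, `Tr.lt`, `Tr.le`);
  `u.σ.s`, and the tuples in `Θ`, by `Good.s0`, `Good.mem`, `IsTup` (for `η ∉ Iio w1`: `η ∉ I`, by `Good.Iw`; for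
  `η ∉ I` the set is empty).
* `yN_mono`: for `η ∈ I`: `ζ η ∈ q.D` and `q.b (ζ η) ∩ Iio a.t.α = p.b (ζ η) ∩ Iio a.t.α` because
  `a.t.α ≤ p.t.α` (`p ≤ a`) and `q.b (ζ η) ∩ Iio p.t.α = p.b (ζ η)`.
-/

set_option linter.unusedSimpArgs false

open Set Cardinal

namespace Pool.Agent.Lib.MP_5c1789_lcR

open Pool.Agent.Lib.Forcing Pool.Agent.Lib.MP_40b13d_lc Pool.Agent.Lib.MP_5c1789_lc

variable {𝒯 : Name Cd} {B : Set Ordinal.{0}} {l : Ordinal.{0}} {st : Ordinal.{0} → Stt}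

theorem Cd.mem_c {q : Cd} {l : Ordinal.{0}} {x : Ordinal.{0} × Ordinal.{0}} (h : x ∈ q.c l) :
    l ∈ q.D := by
  by_contra h'
  rw [(q.junk l h').2.2] at h
  exact h

theorem Cd.c_mono {p q : Cd} {l : Ordinal.{0}} {x : Ordinal.{0} × Ordinal.{0}} (h : x ∈ p.c l)
    (hq : q ≤ p) : x ∈ q.c l :=
  (hq.2.2 l (Cd.mem_c h)).2.2 h

/-- the part below an old level does not change -/
theorem Cd.b_inter {p q : Cd} (hq : q ≤ p) {ζ : Ordinal.{0}} (hζ : ζ ∈ p.D) {δ : Ordinal.{0}}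
    (hδ : δ ≤ p.t.α) : q.b ζ ∩ Iio δ = p.b ζ ∩ Iio δ := by
  rw [← (hq.2.2 ζ hζ).1, inter_assoc, Iio_inter_Iio, inf_eq_right.2 hδ]

theorem Valid.mono {u : Stt} {p q : Cd} (h : Valid 𝒯 B u p) (hq : q ≤ p) : Valid 𝒯 B u q where
  good := h.good
  le := le_trans hq h.le
  δle := h.δle.trans hq.1.1
  node η hη := by
    rw [(hq.1.2 u.δ h.δle).1]
    exact h.node η hη
  junk := h.junk
  cle := h.cle
  clo := h.clo
  top := h.top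
  al γ hγ hc η hη := by
    rw [(hq.1.2 γ ((h.cle hγ).trans h.δle)).2]
    exact h.al γ hγ hc η hη

theorem Compat.symm {u u' : Stt} (h : Compat u u') : Compat u' u := ⟨h.1.symm, h.2.symm⟩

private theorem ya_tup {I : Set Ordinal.{0}} {t : Tup} {a : Cd}
    (hI : I ⊆ Iio Pool.Agent.Lib.MP_5c1789_lcR.w1) (h : IsTup I t a) :
    (∀ η, η ∉ Iio Pool.Agent.Lib.MP_5c1789_lcR.w1 → t η = ∅) ∧ ∀ η, t η ⊆ Iio kp := by
  refine ⟨fun η hη => h.2 η fun h' => hη (hI h'), fun η => ?_⟩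
  by_cases hη : η ∈ I
  · exact (a.t.sub _ _ (h.1 η hη)).trans (Iio_subset_Iio a.t.lt.le)
  · rw [h.2 η hη]
    exact empty_subset _

theorem Valid.mem_Sst {u : Stt} {q : Cd} (h : Valid 𝒯 B u q) : u ∈ Sst B := by
  refine ⟨h.good.aB, h.good.Iw, ya_tup h.good.Iw h.good.s0, ?_, h.δle.trans_lt q.t.lt, ⟨?_, ?_⟩,
    ?_⟩
  · rintro ⟨a, t, z⟩ hx
    have h1 := h.good.mem a t z hx
    exact ⟨h1.1, ya_tup h.good.Iw h1.2.2.1⟩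
  · exact fun η hη => h.junk η fun h' => hη (h.good.Iw h')
  · intro η
    by_cases hη : η ∈ u.σ.I
    · exact (q.t.sub _ _ (h.node η hη)).trans (Iio_subset_Iio (h.δle.trans q.t.lt.le))
    · rw [h.junk η hη]
      exact empty_subset _
  · intro x hx
    exact (h.cle hx).trans_lt (h.δle.trans_lt q.t.lt)

theorem yN_mono (σ : Code) (ζ : Ordinal.{0} → Ordinal.{0}) (u : Ordinal.{0} × Ordinal.{0})
    (p q : Cd) (h : ∃ a t z, p ≤ a ∧ (a, t, z) ∈ σ.Θ ∧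
      (∀ η ∈ σ.I, ζ η ∈ p.D ∧ p.b (ζ η) ∩ Iio a.t.α = t η) ∧ u.1 < z.1.1 ∧ u.2 = z.1.2 u.1)
    (hq : q ≤ p) : ∃ a t z, q ≤ a ∧ (a, t, z) ∈ σ.Θ ∧
      (∀ η ∈ σ.I, ζ η ∈ q.D ∧ q.b (ζ η) ∩ Iio a.t.α = t η) ∧ u.1 < z.1.1 ∧ u.2 = z.1.2 u.1 := by
  obtain ⟨a, t, z, h1, h2, h3, h4, h5⟩ := h
  refine ⟨a, t, z, le_trans hq h1, h2, fun η hη => ⟨hq.2.1 (h3 η hη).1, ?_⟩, h4, h5⟩
  rw [Cd.b_inter hq (h3 η hη).1 h1.1.1]
  exact (h3 η hη).2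

theorem Thru.mono {σ : Code} {ζ : Ordinal.{0} → Ordinal.{0}} {p q : Cd} (h : Thru B σ ζ p)
    (hq : q ≤ p) : Thru B σ ζ q where
  le := le_trans hq h.le
  mem η hη := hq.2.1 (h.mem η hη)
  new := h.new
  inj := h.inj
  ini η hη := by
    rw [Cd.b_inter hq (h.mem η hη) h.le.1.1]
    exact h.ini η hη

theorem PR_mono (u : Ordinal.{0} × Ordinal.{0}) (p q : Cd) (h : PR 𝒯 B l st u p) (hq : q ≤ p) :
    PR 𝒯 B l st u q := by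
  obtain ⟨x, x', h1, h2, h3, h4, h5⟩ := h
  exact ⟨x, x', Cd.c_mono h1 hq, Cd.c_mono h2 hq, h3.mono hq, h4.mono hq, h5⟩

theorem PN_mono (u : Ordinal.{0} × Zt) (p q : Cd) (h : PN 𝒯 B l st u p) (hq : q ≤ p) :
    PN 𝒯 B l st u q := by
  obtain ⟨x, h1, h2, a, h3, h4, h5⟩ := h
  exact ⟨x, Cd.c_mono h1 hq, h2.mono hq, a, le_trans hq h3, h4, h5⟩

theorem PR_symm {u u' : Ordinal.{0}} {q : Cd} (h : PR 𝒯 B l st (u, u') q) :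
    PR 𝒯 B l st (u', u) q := by
  obtain ⟨x, x', h1, h2, h3, h4, h5⟩ := h
  exact ⟨x', x, h2, h1, h4, h3, h5.symm⟩

end Pool.Agent.Lib.MP_5c1789_lcR
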