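import Pool.Agent.Lib.MP_5c1789_lcR.YA

/-!
# JOB YC: progress along the labels, the branch

* `exists_prog`: let `a = q.res B`, `t0 η = q.b (ζ η)` for `η ∈ I`, `∅` otherwise (classical `if`).
  `a.D ⊆ B`; `a ≤ σ.a0` (`Cd.res_le`, `q ≤ r ≤ σ.a0`, `hσ.aB`); `IsTup I t0 a` (`Cd.node`, `hr.mem`, `q.D ⊇ r.D`, the
  tree of `q.res B` is the tree of `q`); `TExt I σ.a0.t.α t0 σ.s`: `Cd.b_inter` (`q ≤ r`) and `hr.ini`.
  `hσ.prog` gives `a' ≤ a`, `t'`, `z` with `(a', t', z) ∈ Θ`, `TExt I a.t.α t' t0`, `γ < z.1.1`; `hσ.mem`: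
  `a'.D ⊆ B`,
  `IsTup I t' a'`.  Let `v0` be from `Cd.exists_values q a' B`, and `v ξ = t' η` if `ξ = ζ η` for some (unique,
  `hr.inj`) `η ∈ I`, `v ξ = v0 ξ` otherwise.  `Cd.exists_am q a' B v` gives `q'` with `q' ≤ q`, `q'.res B = a'`,
  `q'.b (ζ η) = v (ζ η) = t' η` (`ζ η ∉ B` by `hr.new`).
* `yN_unique`: let `a'' = q.res B`, `t'' η = q.b (ζ η)` for `η ∈ I`, `∅` otherwise.  `a'' ≤ a`, `a'' ≤ a'`
  (`Cd.res_le`, `hσ.mem`),
  `IsTup I t'' a''`, `TExt I a.t.α t'' t` by `ht`, so `hσ.mono` gives `(a'', t'', z) ∈ Θ` and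
  `(a'', t'', z') ∈ Θ`; `hσ.compat`.
* `yN_branch`: `memF_iff_models`: in `V` with `V.Has r` use `h.br`: it is enough that `yN σ ζ` is a function from
  `chk kp` to `chk kp` and that its restrictions are in `𝒯`.
  Function: `isFun_relN` (`Pool/Agent/Lib/MP_5c1789_lc/Core.lean`; monotone: `yN_mono`): (h1) `u.1 < z.1.1 < kp`,
  `u.2 = z.1.2 u.1 < kp` (`z.2`).  (h2) `ρ ∈ chk kp`: locally `ρ = chk x`, `x < kp`, below `s ≤ r`;
  `exists_prog` with `γ = x`.  (h3) `chk_inj`, `yN_unique`.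
  Restrictions: reduce to `a = chk a0`, `a0 < kp` (`mod_bounded_chS`, as in `restr_mem` of
  `Pool/Agent/Lib/MP_5c1789_lc/Tree.lean`; `chk_chS`): let `s` be a name and `p ≤ r` force that `s` is a function
  from `chk a0` to `chk kp` and `s ⊆ yN σ ζ`; show
  `MemF s 𝒯 p` by `MemF.dense`: for `r' ≤ p` take `q' ≤ r'` from `exists_prog` with `γ = a0`:
  `(q'.res B, t, z) ∈ Θ`, `a0 < z.1.1`.  For `x < z.1.1`: `MemF (opN (chk x) (chk (z.1.2 x))) (yN σ ζ) q'`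
  (`memF_cn_of`, with `a = q'.res B`, `q' ≤ a`; `q'.b (ζ η) ∩ Iio a.t.α = q'.b (ζ η) = t η`).  So the values of `s`
  at `x < a0` are `z.1.2 x` (`s ⊆ yN`, both functions: `memF_iff_models`, `isFun_unique`), and
  `eq_fN_of_values`: `EqF s (nz z') q'` where `z' = (a0, z.1.2 cut at a0)` (`fN_congr`); `MemF (nz z) 𝒯 (q'.res B)`
  by
  `hσ.mem`, so `MemF (nz z) 𝒯 q'` and `MemF (nz z') 𝒯 q'` by `h.sub` (`q' ≤ p0`).
-/

set_option linter.unusedSimpArgs false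

open Set Cardinal

namespace Pool.Agent.Lib.MP_5c1789_lcR

open Pool.Agent.Lib.Forcing Pool.Agent.Lib.MP_40b13d_lc Pool.Agent.Lib.MP_5c1789_lc

variable {𝒯 : Name Cd} {B : Set Ordinal.{0}} {σ : Code} {ζ : Ordinal.{0} → Ordinal.{0}}

/-- progress along the labels -/
theorem exists_prog (hσ : Good 𝒯 B σ) {r : Cd} (hr : Thru B σ ζ r) {q : Cd} (hq : q ≤ r)
    {γ : Ordinal.{0}} (hγ : γ < kp) :
    ∃ q', q' ≤ q ∧ ∃ t z, (q'.res B, t, z) ∈ σ.Θ ∧ (∀ η ∈ σ.I, q'.b (ζ η) = t η) ∧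
      γ < z.1.1 := by
  classical
  have hD : ∀ η ∈ σ.I, ζ η ∈ q.D := fun η hη => hq.2.1 (hr.mem η hη)
  obtain ⟨a', t', z, h1, h2, h3, h4⟩ := hσ.prog (q.res B)
    (fun η => if η ∈ σ.I then q.b (ζ η) else ∅) inter_subset_right
    (Cd.res_le (hq.trans hr.le) hσ.aB)
    ⟨fun η hη => by
      show (if η ∈ σ.I then q.b (ζ η) else ∅) ∈ q.t.T q.t.α
      rw [if_pos hη]
      exact q.node _ (hD η hη), fun η hη => if_neg hη⟩
    (fun η hη => by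
      show (if η ∈ σ.I then q.b (ζ η) else ∅) ∩ Iio σ.a0.t.α = σ.s η
      rw [if_pos hη, Cd.b_inter hq (hr.mem η hη) hr.le.1.1]
      exact hr.ini η hη) γ hγ
  obtain ⟨hB, ha0, htup, hext, hmem⟩ := hσ.mem a' t' z h2
  obtain ⟨v0, hv0⟩ := Cd.exists_values q a' B h1
  have hv : ∃ v : Ordinal.{0} → Set Ordinal.{0}, (∀ η ∈ σ.I, v (ζ η) = t' η) ∧
      ∀ ξ, (¬ ∃ η ∈ σ.I, ζ η = ξ) → v ξ = v0 ξ := by
    refine ⟨fun ξ => if h : ∃ η ∈ σ.I, ζ η = ξ then t' h.choose else v0 ξ, ?_, ?_⟩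
    · intro η hη
      have hex : ∃ η' ∈ σ.I, ζ η' = ζ η := ⟨η, hη, rfl⟩
      show (if h : ∃ η' ∈ σ.I, ζ η' = ζ η then t' h.choose else v0 (ζ η)) = t' η
      rw [dif_pos hex]
      exact congrArg t' (hr.inj hex.choose_spec.1 hη hex.choose_spec.2)
    · intro ξ hξ
      exact dif_neg hξ
  obtain ⟨v, hv1, hv2⟩ := hv
  obtain ⟨q', hq1, -, hq3, -, -, -, hq7⟩ := Cd.exists_am q a' B v h1 hB (by
    intro ξ hξ hξB
    by_cases hex : ∃ η ∈ σ.I, ζ η = ξ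
    · obtain ⟨η, hη, rfl⟩ := hex
      rw [hv1 η hη]
      refine ⟨htup.1 η hη, ?_⟩
      have h5 : t' η ∩ Iio q.t.α = if η ∈ σ.I then q.b (ζ η) else ∅ := h3 η hη
      rwa [if_pos hη] at h5
    · rw [hv2 ξ hex]
      exact hv0 ξ hξ)
  refine ⟨q', hq1, t', z, ?_, ?_, h4⟩
  · rw [hq3]
    exact h2
  · intro η hη
    rw [(hq7 _ (hD η hη) (hr.new η hη)).1]
    exact hv1 η hη

/-- the values along the labels are unique -/
theorem yN_unique (hσ : Good 𝒯 B σ) {q : Cd}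
    {a a' : Cd} {t t' : Tup} {z z' : Zt} (ha : q ≤ a) (ha' : q ≤ a') (h : (a, t, z) ∈ σ.Θ)
    (h' : (a', t', z') ∈ σ.Θ) (ht : ∀ η ∈ σ.I, ζ η ∈ q.D ∧ q.b (ζ η) ∩ Iio a.t.α = t η)
    (ht' : ∀ η ∈ σ.I, ζ η ∈ q.D ∧ q.b (ζ η) ∩ Iio a'.t.α = t' η) {x : Ordinal.{0}}
    (hx : x < z.1.1) (hx' : x < z'.1.1) : z.1.2 x = z'.1.2 x := by
  classical
  have htup : IsTup σ.I (fun η => if η ∈ σ.I then q.b (ζ η) else ∅) (q.res B) :=
    ⟨fun η hη => by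
      show (if η ∈ σ.I then q.b (ζ η) else ∅) ∈ q.t.T q.t.α
      rw [if_pos hη]
      exact q.node _ (ht η hη).1, fun η hη => if_neg hη⟩
  have h1 := hσ.mono a t z (q.res B) (fun η => if η ∈ σ.I then q.b (ζ η) else ∅) h
    inter_subset_right (Cd.res_le ha (hσ.mem a t z h).1) htup (fun η hη => by
      show (if η ∈ σ.I then q.b (ζ η) else ∅) ∩ Iio a.t.α = t η
      rw [if_pos hη]
      exact (ht η hη).2)
  have h2 := hσ.mono a' t' z' (q.res B) (fun η => if η ∈ σ.I then q.b (ζ η) else ∅) h'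
    inter_subset_right (Cd.res_le ha' (hσ.mem a' t' z' h').1) htup (fun η hη => by
      show (if η ∈ σ.I then q.b (ζ η) else ∅) ∩ Iio a'.t.α = t' η
      rw [if_pos hη]
      exact (ht' η hη).2)
  exact hσ.compat _ _ _ _ h1 h2 x hx hx'

/-- progress along the labels, in terms of the name of the branch -/
private theorem prog_mem (hσ : Good 𝒯 B σ) {r : Cd} (hr : Thru B σ ζ r) {q : Cd} (hq : q ≤ r)
    {γ : Ordinal.{0}} (hγ : γ < kp) :
    ∃ q', q' ≤ q ∧ ∃ z : Zt, MemF (nz z) 𝒯 q' ∧ γ < z.1.1 ∧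
      ∀ x < z.1.1, ∃ a t z', q' ≤ a ∧ (a, t, z') ∈ σ.Θ ∧
        (∀ η ∈ σ.I, ζ η ∈ q'.D ∧ q'.b (ζ η) ∩ Iio a.t.α = t η) ∧ x < z'.1.1 ∧
          z.1.2 x = z'.1.2 x := by
  obtain ⟨q', hq', t, z, h1, h2, h3⟩ := exists_prog hσ hr hq hγ
  refine ⟨q', hq', z, ((hσ.mem _ _ _ h1).2.2.2.2).mono (Cd.le_res q' B), h3, fun x hx =>
    ⟨q'.res B, t, z, Cd.le_res q' B, h1, fun η hη => ?_, hx, rfl⟩⟩
  have h4 : ζ η ∈ q'.D := hq'.2.1 (hq.2.1 (hr.mem η hη))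
  refine ⟨h4, ?_⟩
  have h5 : q'.b (ζ η) ∩ Iio q'.t.α = q'.b (ζ η) :=
    inter_eq_left.2 (q'.t.sub _ _ (q'.node _ h4))
  rw [Cd.res_t, h5]
  exact h2 η hη

private theorem yN_isFun (hσ : Good 𝒯 B σ) {r : Cd} (hr : Thru B σ ζ r) (V : GenUlt Cd)
    (hV : V.Has r) : IsFun (ModE V) (V.cl (yN σ ζ)) (V.cl (chk kp)) (V.cl (chk kp)) := by
  refine isFun_relN V (ι := Ordinal.{0} × Ordinal.{0}) (fun u => chk u.1) (fun u => chk u.2)
    (yN_mono σ ζ) (chk kp) (chk kp) hV ?_ ?_ ?_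
  · rintro s hs u ⟨a, t, z, h1, h2, h3, h4, h5⟩
    refine ⟨chk_mem (h4.trans z.2.1) s, chk_mem ?_ s⟩
    rw [h5]
    exact z.2.2.1 _ h4
  · intro ρ s hs h
    obtain ⟨t, ht, x, hx, h1⟩ := memF_chk.1 h s le_rfl
    obtain ⟨q', hq', z, h2, h3, h4⟩ := prog_mem hσ hr (ht.trans hs) hx
    obtain ⟨a, t', z', h5, h6, h7, h8, h9⟩ := h4 x h3
    exact ⟨q', hq'.trans ht, (x, z.1.2 x), ⟨a, t', z', h5, h6, h7, h8, h9⟩, h1.mono hq'⟩
  · rintro ⟨x, y⟩ ⟨x', y'⟩ s hs ⟨a, t, z, h1, h2, h3, h4, h5⟩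
      ⟨a', t', z', h1', h2', h3', h4', h5'⟩ h
    have e : x = x' := chk_inj h
    subst e
    have e2 : y = y' := by
      have e3 : y = z.1.2 x := h5
      have e4 : y' = z'.1.2 x := h5'
      rw [e3, e4]
      exact yN_unique hσ h1 h1' h2 h2' h3 h3' h4 h4'
    subst e2
    exact EqF.refl _ _

private theorem restr_aux {β : Name Cd} {p0 : Cd} (h : Ctx 𝒯 β p0 B)
    (hσ : Good 𝒯 B σ) {r : Cd} (hr0 : r ≤ p0) (hr : Thru B σ ζ r) {a0 : Ordinal.{0}}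
    (ha0 : a0 < kp) {s : Name Cd} {p : Cd} (hp : p ≤ r)
    (hs : ∀ V : GenUlt Cd, V.Has p →
      IsFun (ModE V) (V.cl s) (V.cl (chk a0)) (V.cl (chk kp)) ∧
        IsSub (ModE V) (V.cl s) (V.cl (yN σ ζ))) : MemF s 𝒯 p := by
  classical
  refine MemF.dense fun r' hr' => ?_
  obtain ⟨q', hq', z, h2, h3, h4⟩ := prog_mem hσ hr (hr'.trans hp) ha0
  have hle : q' ≤ p := hq'.trans hr'
  refine ⟨q', hq', ?_⟩
  have h5 : ∀ x < a0, MemF (opN (chk x) (chk (z.1.2 x))) s q' := by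
    intro x hx
    rw [memF_iff_models]
    intro W hW
    obtain ⟨h6, h7⟩ := hs W (hW.mono hle)
    obtain ⟨y, ⟨-, w, hw, hw'⟩, -⟩ := h6.2 (W.cl (chk x)) ((mod_chk_mem W).2 hx)
    have h8 : IsApp (ModE W) (W.cl (yN σ ζ)) (W.cl (chk x)) y := ⟨w, h7 w hw, hw'⟩
    have h9 : MemF (opN (chk x) (chk (z.1.2 x))) (yN σ ζ) q' :=
      memF_cn_of (ι := Ordinal.{0} × Ordinal.{0}) (nm := fun u => opN (chk u.1) (chk u.2))
        (A := fun u q => ∃ a t z, q ≤ a ∧ (a, t, z) ∈ σ.Θ ∧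
          (∀ η ∈ σ.I, ζ η ∈ q.D ∧ q.b (ζ η) ∩ Iio a.t.α = t η) ∧ u.1 < z.1.1 ∧
            u.2 = z.1.2 u.1) (x, z.1.2 x) (h4 x (hx.trans h3))
    have h10 : y = W.cl (chk (z.1.2 x)) :=
      isFun_unique (mod_isZFC W) (yN_isFun hσ hr W (hW.mono (hle.trans hp))) h8 (app_of h9 hW)
    rw [h10] at hw'
    exact modE_cl.2 ((isApp_iff W _ _ _).1 ⟨w, hw, hw'⟩)
  have h6 : EqF s (fN a0 z.1.2) q' :=
    eq_fN_of_values (fun V hV => (hs V (hV.mono hle)).1) h5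
  obtain ⟨z', hz1, hz2⟩ : ∃ z' : Zt, z'.1.1 = a0 ∧ ∀ x < a0, z'.1.2 x = z.1.2 x := by
    refine ⟨⟨(a0, fun x => if x < a0 then z.1.2 x else 0), ha0, ?_, ?_⟩, rfl, ?_⟩
    · intro x hx
      show (if x < a0 then z.1.2 x else 0) < kp
      have hx' : x < a0 := hx
      rw [if_pos hx']
      exact z.2.2.1 x (hx'.trans h3)
    · intro x hx
      exact if_neg (not_lt.2 hx)
    · intro x hx
      exact if_pos hx
  have h7 : MemF (nz z') 𝒯 q' :=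
    h.sub (hle.trans (hp.trans hr0)) (z := z') (z' := z) (hz1.le.trans h3.le)
      (fun x hx => hz2 x (hz1 ▸ hx)) h2
  have h8 : (nz z' : Name Cd) = fN a0 z.1.2 := by
    unfold nz
    rw [hz1]
    exact fN_congr hz2
  rw [h8] at h7
  exact MemF.congr_left h6.symm h7

/-- the branch -/
theorem yN_branch {β : Name Cd} {p0 : Cd} (h : Ctx 𝒯 β p0 B)
    (hσ : Good 𝒯 B σ) {r : Cd} (hr0 : r ≤ p0)
    (hr : Thru B σ ζ r) : MemF (yN σ ζ) β r := by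
  rw [memF_iff_models]
  intro V hV
  refine (h.br V (hV.mono hr0) _).2 ⟨yN_isFun hσ hr V hV, fun a s ha => ?_⟩
  have h1 := fun a ha => mod_bounded_chS V (Iio kp)
    (.fall (fimp (dFun 0 1 2) (fimp (dSub 0 3) (.fmem 0 4))))
    (cons (chk kp) (cons (yN σ ζ) fun _ => 𝒯)) hV
    (fun i hi r' hr' W hW => by
      simp only [sat_all, sat_imp, sat_dFun, sat_dSub, sat_mem, cons_zero, cons_one, cons_two,
        cons_three, cons_four]
      intro s h1 h2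
      obtain ⟨s, rfl⟩ := exists_cl s
      have h3 := los_imp W (φ := .fand (dFun 0 1 2) (dSub 0 3)) (ψ := .fmem 0 4)
        (v := cons s (cons (chk i) (cons (chk kp) (cons (yN σ ζ) fun _ => 𝒯)))) hW
        (fun p hp hf V' hV' => by
          simp only [sat_mem, cons_zero, cons_one, cons_two, cons_three, cons_four]
          refine memF_iff_models.1 (restr_aux h hσ hr0 hr (a0 := i) hi (hp.trans hr')
            fun W' hW' => ?_) V' hV'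
          have h4 := forces_iff.1 hf W' hW'
          simpa only [sat_and, sat_dFun, sat_dSub, cons_zero, cons_one, cons_two,
            cons_three] using h4)
        (by
          simp only [sat_and, sat_dFun, sat_dSub, cons_zero, cons_one, cons_two, cons_three]
          exact ⟨h1, h2⟩)
      simpa only [sat_mem, cons_zero, cons_one, cons_two, cons_three, cons_four] using h3) a ha
  rw [chk_chS] at ha
  have h2 := h1 a ha
  simp only [sat_all, sat_imp, sat_dFun, sat_dSub, sat_mem, cons_zero, cons_one, cons_two,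
    cons_three, cons_four] at h2
  exact h2 s

end Pool.Agent.Lib.MP_5c1789_lcR
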